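import Pool.Agent.Q197.PS.Rep

/-!
# Integer polynomials, and the laws for all of them
-/

set_option autoImplicit false

namespace Pool.Agent.Q197.PS

open Finset Filter MeasureTheory Pool.Agent.Q120.ET Pool.Agent.Q120.MF Pool.Agent.Q197.CI
open scoped Topology Polynomial

theorem poly_strict {Q : ℝ[X]} (h : 0 < Q.leadingCoeff) (hd : 1 ≤ Q.natDegree) :
    ∃ x0 : ℝ, ∀ x y : ℝ, x0 ≤ x → x < y → Q.eval x < Q.eval y := by
  have h2 : 0 < (Polynomial.derivative Q).leadingCoeff := by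
    rw [Polynomial.leadingCoeff_derivative]
    exact mul_pos h (by exact_mod_cast hd)
  obtain ⟨x0, hx0⟩ := eventually_atTop.1 (poly_pos h2)
  refine ⟨x0, fun x y hx hxy => ?_⟩
  have h3 : StrictMonoOn (fun x => Q.eval x) (Set.Ici x0) := by
    refine strictMonoOn_of_deriv_pos (convex_Ici x0) Q.continuous.continuousOn ?_
    intro z hz
    rw [interior_Ici] at hz
    rw [Polynomial.deriv]
    exact hx0 z (le_of_lt hz)
  exact h3 hx (hx.trans hxy.le) hxy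

theorem eval_real (f : ℤ[X]) (j : ℕ) : (f.map (Int.castRingHom ℝ)).eval (j : ℝ) = ((f.eval (j : ℤ) : ℤ) : ℝ) := by
  rw [show (j : ℝ) = Int.castRingHom ℝ (j : ℤ) by simp, Polynomial.eval_map, Polynomial.eval₂_hom]
  simp

theorem abs_eval_le (f : ℤ[X]) : ∃ B : ℕ, ∀ j : ℕ, |f.eval (j : ℤ)| ≤ B * ((j : ℤ) + 2) ^ f.natDegree := by
  refine ⟨∑ i ∈ range (f.natDegree + 1), (f.coeff i).natAbs, fun j => ?_⟩
  rw [Polynomial.eval_eq_sum_range]
  refine (abs_sum_le_sum_abs _ _).trans ?_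
  push_cast
  rw [sum_mul]
  refine sum_le_sum (fun i hi => ?_)
  rw [mem_range] at hi
  rw [abs_mul, abs_pow]
  refine mul_le_mul_of_nonneg_left ?_ (abs_nonneg _)
  have h1 : |(j : ℤ)| ≤ (j : ℤ) + 2 := by
    rw [abs_of_nonneg (by positivity)]
    omega
  calc |(j : ℤ)| ^ i ≤ ((j : ℤ) + 2) ^ i := pow_le_pow_left₀ (abs_nonneg _) h1 i
    _ ≤ ((j : ℤ) + 2) ^ f.natDegree := pow_le_pow_right₀ (by omega) (by omega)

theorem gr_poly {f : ℤ[X]} (hd : 1 ≤ f.natDegree) (hl : 0 < f.leadingCoeff) : ∃ (g : ℕ → ℕ) (j0 D s B : ℕ), Gr g j0 D ∧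
    (∀ j : ℕ, (g j : ℤ) = f.eval (j : ℤ) + s) ∧ ∀ j : ℕ, g j ≤ B * (j + 2) ^ f.natDegree := by
  obtain ⟨Q, hQ⟩ : ∃ Q : ℝ[X], Q = f.map (Int.castRingHom ℝ) := ⟨_, rfl⟩
  have hinj : Function.Injective (Int.castRingHom ℝ) := Int.cast_injective
  have hQd : Q.natDegree = f.natDegree := by rw [hQ, Polynomial.natDegree_map_eq_of_injective hinj]
  have hQl : 0 < Q.leadingCoeff := by
    rw [hQ, Polynomial.leadingCoeff_map_of_injective hinj]
    simpa using hl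
  obtain ⟨x0, hx0⟩ := poly_strict hQl (by omega)
  obtain ⟨F, hF⟩ : ∃ F : ℕ → ℤ, F = fun j : ℕ => f.eval (j : ℤ) := ⟨_, rfl⟩
  have hFQ : ∀ j : ℕ, Q.eval (j : ℝ) = (F j : ℝ) := fun j => by rw [hQ, eval_real, hF]
  obtain ⟨j1, hj1⟩ : ∃ j1 : ℕ, j1 = ⌈x0⌉₊ := ⟨_, rfl⟩
  have hj1x : x0 ≤ j1 := by rw [hj1]; exact Nat.le_ceil x0
  have hmono : ∀ j j', j1 ≤ j → j < j' → F j < F j' := by
    intro j j' h1 h2
    have h3 := hx0 j j' (hj1x.trans (by exact_mod_cast h1)) (by exact_mod_cast h2)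
    rw [hFQ, hFQ] at h3
    exact_mod_cast h3
  have hgrow : ∀ k : ℕ, F j1 + k ≤ F (j1 + k) := by
    intro k
    induction k with
    | zero => simp
    | succ k ih =>
      have := hmono (j1 + k) (j1 + (k + 1)) (by omega) (by omega)
      push_cast
      omega
  obtain ⟨M, hM⟩ : ∃ M : ℕ, M = ∑ j ∈ range (j1 + 1), (F j).natAbs := ⟨_, rfl⟩
  have hMle : ∀ j, j ≤ j1 → |F j| ≤ M := by
    intro j hj
    have h1 : (F j).natAbs ≤ M := by
      rw [hM]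
      exact single_le_sum (f := fun j => (F j).natAbs) (fun _ _ => Nat.zero_le _) (mem_range.2 (by omega))
    have h2 : |F j| = ((F j).natAbs : ℤ) := Int.abs_eq_natAbs _
    rw [h2]
    exact_mod_cast h1
  have hlow : ∀ j, -(M : ℤ) ≤ F j := by
    intro j
    rcases Nat.lt_or_ge j j1 with h1 | h1
    · have := hMle j h1.le
      have := neg_abs_le (F j)
      linarith
    · have h2 := hMle j1 le_rfl
      have h3 := neg_abs_le (F j1)
      have h4 := hgrow (j - j1)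
      rw [show j1 + (j - j1) = j by omega] at h4
      have h5 : (0 : ℤ) ≤ ((j - j1 : ℕ) : ℤ) := by positivity
      linarith
  obtain ⟨B, hB⟩ := abs_eval_le f
  obtain ⟨g, hg⟩ : ∃ g : ℕ → ℕ, g = fun j => (F j + (M + 1)).toNat := ⟨_, rfl⟩
  have hgF : ∀ j, (g j : ℤ) = F j + (M + 1) := by
    intro j
    rw [hg]
    simp only
    rw [Int.toNat_of_nonneg]
    have := hlow j
    omega
  have hgB : ∀ j, g j ≤ (B + M + 1) * (j + 2) ^ f.natDegree := by
    intro j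
    have h1 := hB j
    have h2 := le_abs_self (f.eval (j : ℤ))
    have h3 : F j = f.eval (j : ℤ) := by rw [hF]
    have h4 := hgF j
    have h5 : (1 : ℤ) ≤ ((j : ℤ) + 2) ^ f.natDegree := one_le_pow₀ (by omega)
    have h6 : (g j : ℤ) ≤ (B + M + 1) * ((j : ℤ) + 2) ^ f.natDegree := by
      rw [h4, h3]
      have h7 : ((M : ℤ) + 1) * 1 ≤ (M + 1) * ((j : ℤ) + 2) ^ f.natDegree := mul_le_mul_of_nonneg_left h5 (by positivity)
      linarith
    exact_mod_cast h6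
  refine ⟨g, j1 + 2 * M + 1, B + M + 1 + f.natDegree, M + 1, B + M + 1, ⟨?_, ?_, ?_, ?_⟩, ?_, hgB⟩
  · intro j
    have h1 := hgF j
    have h2 := hlow j
    omega
  · intro j j' h1 h2
    have h3 := hmono j j' (by omega) h2
    have h4 := hgF j
    have h5 := hgF j'
    omega
  · intro j hj j' hj'
    have h4 := hgF j
    have h5 := hgF j'
    have h6 : F (j1 + 2 * M + 1) ≤ F j' := by
      rcases Nat.lt_or_ge (j1 + 2 * M + 1) j' with h | h
      · exact (hmono _ _ (by omega) h).le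
      · rw [show j' = j1 + 2 * M + 1 by omega]
    rcases Nat.lt_or_ge j j1 with h | h
    · have h7 := hMle j h.le
      have h8 := le_abs_self (F j)
      have h9 := hgrow (2 * M + 1)
      rw [show j1 + (2 * M + 1) = j1 + 2 * M + 1 by ring] at h9
      have h10 := hlow j1
      push_cast at h9
      omega
    · have h7 := hmono j (j1 + 2 * M + 1) h hj
      omega
  · intro j
    have h1 : (g j : ℝ) ≤ ((B + M + 1 : ℕ) : ℝ) * ((j : ℝ) + 2) ^ f.natDegree := by exact_mod_cast hgB j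
    refine h1.trans ?_
    rw [pow_add]
    refine mul_le_mul_of_nonneg_right ?_ (by positivity)
    have h2 : ((B + M + 1 : ℕ) : ℝ) ≤ 2 ^ (B + M + 1) := by exact_mod_cast (Nat.lt_two_pow_self (n := B + M + 1)).le
    refine h2.trans (pow_le_pow_left₀ (by norm_num) ?_ _)
    have : (0 : ℝ) ≤ j := Nat.cast_nonneg _
    linarith
  · intro j
    rw [hgF, hF]
    push_cast
    ring

theorem countable_int_poly : Countable ℤ[X] := by
  have := countable_poly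
  exact (Polynomial.map_injective (Int.castRingHom ℚ) Int.cast_injective).countable

variable {Ω : Type*} [MeasurableSpace Ω] {μ : Measure Ω} [IsProbabilityMeasure μ] {A : Ω → Set ℕ}

/-- The values of the polynomial. -/
def pv (f : ℤ[X]) (j : ℕ) : ℤ := f.eval (j : ℤ)

theorem main_all (hA : IsCramer μ A) : ∀ᵐ ω ∂μ, ∀ f : ℤ[X], 1 ≤ f.natDegree → 0 < f.leadingCoeff →
    (∀ c : ℝ, 2 < c → ∀ᶠ n : ℕ in atTop, ¬ NoRep (pv f) (A ω) n (us c 2 1 n)) ∧
    (∀ c : ℝ, 0 < c → c < 2 → Tendsto (fun N : ℕ =>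
      Real.log (cntP (fun n => NoRep (pv f) (A ω) n (us c 2 1 n)) N) / Real.log N) atTop (𝓝 (1 - c / 2))) ∧
    (∀ t : ℝ, 0 < t → Tendsto (fun N : ℕ =>
      cntP (fun n => NoRep (pv f) (A ω) n (us t 1 1 n)) N / N) atTop (𝓝 (Real.exp (-t)))) := by
  have := countable_int_poly
  rw [ae_all_iff]
  intro f
  by_cases hf : 1 ≤ f.natDegree ∧ 0 < f.leadingCoeff
  swap
  · exact ae_of_all _ (fun ω h1 h2 => absurd ⟨h1, h2⟩ hf)
  obtain ⟨g, j0, D, s, B, hg, hgf, _⟩ := gr_poly hf.1 hf.2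
  have hgf' : ∀ j, (g j : ℤ) = pv f j + s := hgf
  obtain ⟨l1, l2, l3⟩ := laws hg hA
  have m1 : ∀ᵐ ω ∂μ, ∀ q : ℚ, (2 : ℝ) < q → ∀ᶠ n in atTop, ¬ En (Wg g) (FlF P0) (hg' g q 2 1) n (A ω) := by
    rw [ae_all_iff]
    intro q
    by_cases hq : (2 : ℝ) < q
    · filter_upwards [l1 q hq] with ω h _
      exact h
    · exact ae_of_all _ (fun ω h => absurd h hq)
  have m2 : ∀ᵐ ω ∂μ, ∀ q : ℚ, ∀ k : ℕ, (0 : ℝ) < q → (q : ℝ) < 2 → ∀ᶠ N : ℕ in atTop,
      (N : ℝ) ^ (1 - q / 2 - 1 / ((k : ℝ) + 1) : ℝ) ≤ Zc (range N) (En (Wg g) (FlF P0) (hg' g q 2 1)) (A ω) ∧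
      Zc (range N) (En (Wg g) (FlF P0) (hg' g q 2 1)) (A ω) ≤ (N : ℝ) ^ (1 - q / 2 + 1 / ((k : ℝ) + 1) : ℝ) := by
    rw [ae_all_iff]
    intro q
    rw [ae_all_iff]
    intro k
    by_cases hq : (0 : ℝ) < q ∧ (q : ℝ) < 2
    · filter_upwards [l2 q hq.1 hq.2 (1 / ((k : ℝ) + 1)) (by positivity)] with ω h _ _
      exact h
    · exact ae_of_all _ (fun ω h1 h2 => absurd ⟨h1, h2⟩ hq)
  have m3 : ∀ᵐ ω ∂μ, ∀ q : ℚ, (0 : ℝ) < q →
      Tendsto (fun N : ℕ => Zc (range N) (En (Wg g) (FlF P0) (hg' g q 1 1)) (A ω) / N) atTop (𝓝 (Real.exp (-q))) := by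
    rw [ae_all_iff]
    intro q
    by_cases hq : (0 : ℝ) < q
    · filter_upwards [l3 q hq] with ω h _
      exact h
    · exact ae_of_all _ (fun ω h => absurd h hq)
  have hup : ∀ (S : Set ℕ) (γ : ℕ), 1 ≤ γ → ∀ (c : ℝ) (q : ℚ), (0 : ℝ) < q → (q : ℝ) < c →
      ∃ K : ℝ, ∀ N : ℕ, cntP (fun n => NoRep (pv f) S n (us c γ 1 n)) N ≤
        Zc (range (N + s + 1)) (En (Wg g) (FlF P0) (hg' g q γ 1)) S + K := by
    intro S γ hγ c q hq1 hq2
    obtain ⟨n0, hn0⟩ := eventually_atTop.1 (en_of_noRep hg hgf' hq1 hq2 hγ)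
    exact ⟨n0, fun N => cnt_upper (fun n hn hP => hn0 n hn S hP) N⟩
  have hlo : ∀ (S : Set ℕ) (γ : ℕ), 1 ≤ γ → ∀ (c : ℝ) (q : ℚ), 0 < c → c < (q : ℝ) →
      ∃ K : ℝ, ∀ N : ℕ, Zc (range (N + s + 1)) (En (Wg g) (FlF P0) (hg' g q γ 1)) S ≤
        cntP (fun n => NoRep (pv f) S n (us c γ 1 n)) N + K := by
    intro S γ hγ c q hq1 hq2
    obtain ⟨n0, hn0⟩ := eventually_atTop.1 (noRep_of_en hg hgf' hq1 hq2 hγ)
    exact ⟨n0 + s + 1, fun N => cnt_lower (fun n hn hP => hn0 n hn S hP) N⟩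
  filter_upwards [m1, m2, m3] with ω h1 h2 h3 _ _
  refine ⟨fun c hc => ?_, fun c hc0 hc2 => ?_, fun t ht => ?_⟩
  · obtain ⟨q, hq1, hq2⟩ := exists_rat_btwn hc
    have hsh : Tendsto (fun n : ℕ => n + s) atTop atTop := tendsto_add_atTop_nat s
    filter_upwards [hsh.eventually (h1 q hq1), en_of_noRep hg hgf' (show (0 : ℝ) < q by linarith) hq2 (show 1 ≤ 2 by norm_num)]
      with n h4 h5 h6
    exact h4 (h5 _ h6)
  · exact expo_sq hc0 hc2 (fun q N => Zc (range N) (En (Wg g) (FlF P0) (hg' g q 2 1)) (A ω))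
      (fun q hq1 hq2 k => h2 q k hq1 hq2) s (fun q hq1 hq2 => hup (A ω) 2 (by norm_num) c q hq1 hq2)
      (fun q hq => hlo (A ω) 2 (by norm_num) c q hc0 hq)
  · exact ratio_sq (Φ := fun x => Real.exp (-x)) ht (by fun_prop)
      (fun q N => Zc (range N) (En (Wg g) (FlF P0) (hg' g q 1 1)) (A ω))
      (fun q hq => h3 q hq) s (fun q hq1 hq2 => hup (A ω) 1 le_rfl t q hq1 hq2)
      (fun q hq => hlo (A ω) 1 le_rfl t q ht hq)

end Pool.Agent.Q197.PS
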