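import Pool.Agent.Q197.PS.Y

/-! # Complex means along random unions of residue classes -/

set_option autoImplicit false
set_option linter.unusedSectionVars false
set_option linter.unusedVariables false

open Finset Filter Topology

namespace Q197.PS

/-- the sum of the `u n` over the `n ≤ N` with `n mod P ∈ A`, divided by `N` -/
noncomputable def avC (u : ℕ → ℂ) (P : ℕ) (A : Finset ℕ) (N : ℕ) : ℂ :=
  (∑ n ∈ (Icc 1 N).filter (fun n => n % P ∈ A), u n) / N

lemma avC_re (u : ℕ → ℂ) (P : ℕ) (A : Finset ℕ) (N : ℕ) : (avC u P A N).re = av (fun n => (u n).re) P A N := by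
  unfold avC av
  rw [Complex.div_natCast_re, Complex.re_sum]

lemma avC_im (u : ℕ → ℂ) (P : ℕ) (A : Finset ℕ) (N : ℕ) : (avC u P A N).im = av (fun n => (u n).im) P A N := by
  unfold avC av
  rw [Complex.div_natCast_im, Complex.im_sum]

open Classical in
/-- the number of the unions of classes with mean tending to zero -/
noncomputable def nZ (u : ℕ → ℂ) (P : ℕ) : ℕ :=
  ((range P).powerset.filter (fun A => Tendsto (avC u P A) atTop (𝓝 0))).card

open Classical in
/-- real case -/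
lemma few_real {u : ℕ → ℝ} (hu : ∀ n, 1 ≤ n → |u n| ≤ 1) {c : ℝ} (hc : 0 < c) (q : ℕ) (B : Finset ℕ)
    (hfr : ∃ᶠ N : ℕ in atTop, c ≤ |av u q B N|) {P : ℕ} (hP : 0 < P) (hd : q ∣ P)
    (p : Finset ℕ → Prop) (hp : ∀ A, p A → Tendsto (av u P A) atTop (𝓝 0)) :
    (((range P).powerset.filter (fun A => p A)).card : ℝ) ≤ 54 * (1 + 1 / c) * 2 ^ P / √P := by
  have hPr : (0 : ℝ) < P := by exact_mod_cast hP
  have h1 := few_col (l := (atTop : Filter ℕ)) (range P) (nonempty_range_iff.2 hP.ne')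
    (fun N j => cav u P N j) (c0 := c) (B := 2) hc (by norm_num) ?_ ?_ (fun _ => 0)
  · rw [card_range] at h1
    have h2 : (((range P).powerset.filter (fun A => p A)).card : ℝ) ≤ (((range P).powerset.filter (fun A =>
        Tendsto (fun i : ℕ => ∑ j ∈ A, cav u P i j - 0) atTop (𝓝 0))).card : ℝ) := by
      have h3 : (range P).powerset.filter (fun A => p A) ⊆ (range P).powerset.filter (fun A =>
          Tendsto (fun i : ℕ => ∑ j ∈ A, cav u P i j - 0) atTop (𝓝 0)) := by
        intro A hA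
        rw [mem_filter] at hA ⊢
        refine ⟨hA.1, ?_⟩
        refine (hp A hA.2).congr fun N => ?_
        rw [av_eq, sub_zero]
      exact_mod_cast card_le_card h3
    refine h2.trans (h1.trans ?_)
    have h3 : (5 + 27 / c) * 2 ≤ 54 * (1 + 1 / c) := by
      have : 27 / c = 27 * (1 / c) := by ring
      rw [this]
      linarith
    calc (5 + 27 / c) * (2 / √(P : ℝ)) * 2 ^ P = (5 + 27 / c) * 2 * 2 ^ P / √P := by ring
      _ ≤ 54 * (1 + 1 / c) * 2 ^ P / √P := by gcongr
  · filter_upwards [eventually_ge_atTop P] with N hN j _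
    rw [card_range]
    exact cav_le hu hP hN j
  · refine hfr.mono fun N hN => hN.trans ?_
    rw [av_coarse u hP hd]
    refine (abs_sum_le_sum_abs _ _).trans ?_
    exact sum_le_sum_of_subset_of_nonneg (filter_subset _ _) fun j _ _ => abs_nonneg _

/-- **Few unions with means tending to zero** -/
theorem few_C {u : ℕ → ℂ} (hu : ∀ n, 1 ≤ n → ‖u n‖ ≤ 1) {c : ℝ} (hc : 0 < c) (q : ℕ) (B : Finset ℕ)
    (hfr : ∃ᶠ N : ℕ in atTop, c ≤ ‖avC u q B N‖) {P : ℕ} (hP : 0 < P) (hd : q ∣ P) :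
    (nZ u P : ℝ) ≤ 108 * (1 + 1 / c) * 2 ^ P / √P := by
  classical
  have h0 : (∃ᶠ N : ℕ in atTop, c / 2 ≤ |av (fun n => (u n).re) q B N|) ∨
      (∃ᶠ N : ℕ in atTop, c / 2 ≤ |av (fun n => (u n).im) q B N|) := by
    rw [← frequently_or_distrib]
    refine hfr.mono fun N hN => ?_
    have h1 := Complex.norm_le_abs_re_add_abs_im (avC u q B N)
    rw [avC_re, avC_im] at h1
    by_contra hcon
    push Not at hcon
    linarith [hcon.1, hcon.2]
  have hfin : 54 * (1 + 1 / (c / 2)) ≤ 108 * (1 + 1 / c) := by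
    have : 1 / (c / 2) = 2 * (1 / c) := by field_simp
    rw [this]
    linarith
  have hre : ∀ n, 1 ≤ n → |(fun n => (u n).re) n| ≤ 1 := fun n hn =>
    (Complex.abs_re_le_norm _).trans (hu n hn)
  have him : ∀ n, 1 ≤ n → |(fun n => (u n).im) n| ≤ 1 := fun n hn =>
    (Complex.abs_im_le_norm _).trans (hu n hn)
  have hPr : (0 : ℝ) < P := by exact_mod_cast hP
  rcases h0 with h0 | h0
  · have h1 := few_real hre (by positivity : 0 < c / 2) q B h0 hP hd
      (fun A => Tendsto (avC u P A) atTop (𝓝 0)) (fun A hA => by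
        have h2 := (Complex.continuous_re.tendsto 0).comp hA
        rw [Complex.zero_re] at h2
        refine h2.congr fun N => ?_
        exact avC_re u P A N)
    unfold nZ
    refine h1.trans ?_
    gcongr
  · have h1 := few_real him (by positivity : 0 < c / 2) q B h0 hP hd
      (fun A => Tendsto (avC u P A) atTop (𝓝 0)) (fun A hA => by
        have h2 := (Complex.continuous_im.tendsto 0).comp hA
        rw [Complex.zero_im] at h2
        refine h2.congr fun N => ?_
        exact avC_im u P A N)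
    unfold nZ
    refine h1.trans ?_
    gcongr

lemma not_tendstoC {a : ℕ → ℂ} (h : ¬ Tendsto a atTop (𝓝 0)) : ∃ c : ℝ, 0 < c ∧ ∃ᶠ N in atTop, c ≤ ‖a N‖ := by
  by_contra hcon
  push Not at hcon
  apply h
  rw [tendsto_zero_iff_norm_tendsto_zero]
  rw [Metric.tendsto_atTop]
  intro ε hε
  obtain ⟨N0, hN0⟩ := eventually_atTop.1 (hcon ε hε)
  refine ⟨N0, fun N hN => ?_⟩
  rw [Real.dist_eq, sub_zero, abs_norm]
  exact hN0 N hN

lemma avC_smul (u : ℕ → ℂ) (s : ℂ) (P : ℕ) (A : Finset ℕ) (N : ℕ) :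
    avC (fun n => s * u n) P A N = s * avC u P A N := by
  unfold avC
  rw [← mul_sum, mul_div_assoc]

lemma zero_smul' {u : ℕ → ℂ} {s : ℂ} (hs : s ≠ 0) (P : ℕ) (A : Finset ℕ) :
    Tendsto (avC (fun n => s * u n) P A) atTop (𝓝 0) ↔ Tendsto (avC u P A) atTop (𝓝 0) := by
  have h : avC (fun n => s * u n) P A = fun N => s * avC u P A N := funext fun N => avC_smul u s P A N
  rw [h]
  constructor
  · intro hL
    have h1 := hL.const_mul s⁻¹
    rw [mul_zero] at h1
    refine h1.congr fun N => ?_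
    rw [← mul_assoc, inv_mul_cancel₀ hs, one_mul]
  · intro hL
    have h1 := hL.const_mul s
    rwa [mul_zero] at h1

/-- **Means tend to zero if they do for a small share of the unions** -/
theorem zero_of_many {u : ℕ → ℂ} {M : ℝ} (hu : ∀ n, 1 ≤ n → ‖u n‖ ≤ M) {q : ℕ} (B : Finset ℕ)
    (h : ∀ K : ℝ, ∃ P : ℕ, 0 < P ∧ q ∣ P ∧ K * 2 ^ P / √P ≤ nZ u P) : Tendsto (avC u q B) atTop (𝓝 0) := by
  classical
  obtain ⟨M', hM', hM'0⟩ : ∃ M' : ℝ, (∀ n, 1 ≤ n → ‖u n‖ ≤ M') ∧ 0 < M' :=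
    ⟨max M 1, fun n hn => (hu n hn).trans (le_max_left _ _), lt_of_lt_of_le one_pos (le_max_right _ _)⟩
  have hs : ((M' : ℂ))⁻¹ ≠ 0 := inv_ne_zero (by exact_mod_cast hM'0.ne')
  have hv : ∀ n, 1 ≤ n → ‖(fun n => (M' : ℂ)⁻¹ * u n) n‖ ≤ 1 := by
    intro n hn
    simp only
    rw [norm_mul, norm_inv, Complex.norm_real, Real.norm_of_nonneg hM'0.le, inv_mul_le_iff₀ hM'0, mul_one]
    exact hM' n hn
  rw [← zero_smul' hs]
  by_contra hcon
  obtain ⟨c, hc, hfr⟩ := not_tendstoC hcon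
  obtain ⟨P, hP, hd, h2⟩ := h (2 * (108 * (1 + 1 / c)))
  have h3 := few_C hv hc q B hfr hP hd
  have h4 : nZ (fun n => (M' : ℂ)⁻¹ * u n) P = nZ u P := by
    unfold nZ
    simp only [zero_smul' hs]
  rw [h4] at h3
  exact contra' hP (by positivity) le_rfl h2 h3

end Q197.PS
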