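import Pool.Agent.Q197.PS.PolyG

/-!
# The number of representations with `p ≤ n ^ α`
-/

set_option autoImplicit false

namespace Pool.Agent.Q197.PS

open Finset Filter MeasureTheory Pool.Agent.Q120.ET Pool.Agent.Q120.MF Pool.Agent.Q197.CI
open scoped Topology Polynomial

/-- The test for `p = j`. -/
def QG (g : ℕ → ℕ) (j0 s n j a : ℕ) (S : Set ℕ) : Prop := (3 ≤ j ∧ j0 ≤ j ∧ j ∈ S ∧ j + g j < n + s) ∧ a = n + s - g j

theorem dep_QG (g : ℕ → ℕ) (j0 s n j a : ℕ) : Dep a (QG g j0 s n j a) := by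
  intro S S' hS
  have key : ∀ S S' : Set ℕ, (∀ j, 3 ≤ j → j < a → (j ∈ S ↔ j ∈ S')) → QG g j0 s n j a S → QG g j0 s n j a S' := by
    rintro S S' hS ⟨⟨h1, h2, h3, h4⟩, h5⟩
    exact ⟨⟨h1, h2, (hS _ h1 (by omega)).1 h3, h4⟩, h5⟩
  exact propext ⟨key S S' hS, key S' S (fun j h1 h2 => (hS j h1 h2).symm)⟩

/-- `⌊n ^ α⌋`. -/
noncomputable def Kα (α : ℝ) (n : ℕ) : ℕ := ⌊(n : ℝ) ^ α⌋₊

theorem K_top {α : ℝ} (hα : 0 < α) : Tendsto (Kα α) atTop atTop :=
  tendsto_nat_floor_atTop.comp ((tendsto_rpow_atTop hα).comp tendsto_natCast_atTop_atTop)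

theorem K_ratio {α : ℝ} (hα : 0 < α) : Tendsto (fun n : ℕ => (Kα α n : ℝ) / (n : ℝ) ^ α) atTop (𝓝 1) := by
  have h1 : Tendsto (fun n : ℕ => (n : ℝ) ^ α) atTop atTop := (tendsto_rpow_atTop hα).comp tendsto_natCast_atTop_atTop
  exact (tendsto_nat_floor_div_atTop (R := ℝ)).comp h1

theorem K_log {α : ℝ} (hα : 0 < α) : Tendsto (fun n : ℕ => Real.log (Kα α n) / Real.log n) atTop (𝓝 α) := by
  have h1 : Tendsto (fun n : ℕ => Real.log ((Kα α n : ℝ) / (n : ℝ) ^ α)) atTop (𝓝 0) := by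
    have := (Real.continuousAt_log one_ne_zero).tendsto.comp (K_ratio hα)
    rw [Real.log_one] at this
    exact this
  have h2 := (h1.div_atTop hl).add_const α
  rw [zero_add] at h2
  refine h2.congr' ?_
  filter_upwards [hl.eventually_gt_atTop 0, (K_top hα).eventually_ge_atTop 1, eventually_ge_atTop 1] with n h3 h4 h5
  have hn0 : (0 : ℝ) < n := by exact_mod_cast h5
  have hK0 : (0 : ℝ) < Kα α n := by exact_mod_cast h4
  rw [Real.log_div hK0.ne' (by positivity), Real.log_rpow hn0]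
  field_simp
  ring

/-- The values of `g` up to `n ^ α` are small. -/
theorem g_small {g : ℕ → ℕ} {B d : ℕ} (hB : ∀ j : ℕ, g j ≤ B * (j + 2) ^ d) {α : ℝ} (hα : 0 < α) (hαd : α * d < 1)
    (hα1 : α < 1) (s : ℕ) :
    ∀ᶠ n : ℕ in atTop, ∀ j : ℕ, j ≤ Kα α n → 4 * (j + g j + s + 3) ≤ n := by
  have hr : ∀ r : ℝ, 0 < r → Tendsto (fun i : ℕ => (i : ℝ) ^ r) atTop atTop := fun r hr =>
    (tendsto_rpow_atTop hr).comp tendsto_natCast_atTop_atTop
  filter_upwards [(hr (1 - α) (by linarith)).eventually_ge_atTop 16, (hr (1 - α * d) (by linarith)).eventually_ge_atTop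
    (16 * (B * 2 ^ d)), eventually_ge_atTop (16 * (s + 3)), (hr α hα).eventually_ge_atTop 2] with n h1 h2 h3 h4 j hj
  have hn1 : (1 : ℝ) ≤ n := by exact_mod_cast (show 1 ≤ n by omega)
  have hn0 : (0 : ℝ) < n := by linarith
  have hjr : (j : ℝ) ≤ (n : ℝ) ^ α := by
    calc (j : ℝ) ≤ (Kα α n : ℕ) := by exact_mod_cast hj
      _ ≤ (n : ℝ) ^ α := Nat.floor_le (by positivity)
  have e1 : (n : ℝ) ^ (1 - α) * (n : ℝ) ^ α = n := by
    rw [← Real.rpow_add hn0]
    simp
  have e2 : (n : ℝ) ^ (1 - α * d) * ((n : ℝ) ^ α) ^ d = n := by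
    rw [← Real.rpow_natCast, ← Real.rpow_mul hn0.le, ← Real.rpow_add hn0]
    simp
  have h5 : 16 * (j : ℝ) ≤ n := by
    rw [← e1]
    exact mul_le_mul h1 hjr (Nat.cast_nonneg _) (by positivity)
  have h6 : 16 * (g j : ℝ) ≤ n := by
    have h7 : (g j : ℝ) ≤ B * ((j : ℝ) + 2) ^ d := by exact_mod_cast hB j
    have h8 : ((j : ℝ) + 2) ^ d ≤ 2 ^ d * ((n : ℝ) ^ α) ^ d := by
      rw [← mul_pow]
      refine pow_le_pow_left₀ (by positivity) ?_ d
      linarith
    have h9 : (B : ℝ) * ((j : ℝ) + 2) ^ d ≤ B * (2 ^ d * ((n : ℝ) ^ α) ^ d) := mul_le_mul_of_nonneg_left h8 (Nat.cast_nonneg _)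
    calc 16 * (g j : ℝ) ≤ 16 * (B * (2 ^ d * ((n : ℝ) ^ α) ^ d)) := by linarith
      _ = (16 * (B * 2 ^ d)) * ((n : ℝ) ^ α) ^ d := by ring
      _ ≤ (n : ℝ) ^ (1 - α * d) * ((n : ℝ) ^ α) ^ d := mul_le_mul_of_nonneg_right h2 (by positivity)
      _ = n := e2
  have h7 : 16 * j ≤ n := by exact_mod_cast h5
  have h8 : 16 * g j ≤ n := by exact_mod_cast h6
  omega

variable {Ω : Type*} [MeasurableSpace Ω] {μ : Measure Ω} [IsProbabilityMeasure μ] {A : Ω → Set ℕ}
variable {g : ℕ → ℕ} {j0 D : ℕ} {f : ℕ → ℤ} {s : ℕ}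

theorem count_ws (hg : Gr g j0 D) (hA : IsCramer μ A) {B d : ℕ} (hB : ∀ j : ℕ, g j ≤ B * (j + 2) ^ d) {α : ℝ} (hα : 0 < α)
    (hαd : α * d < 1) (hα1 : α < 1) (s : ℕ) : ∀ᵐ ω ∂μ, Tendsto (fun n : ℕ =>
      (((Ws (WP (QG g j0 s n)) (A ω) (Kα α n)).card : ℝ)) / ((n : ℝ) ^ α / Real.log n ^ 2)) atTop (𝓝 (1 / α)) := by
  classical
  have hsm := g_small hB hα hαd hα1 s
  have hpos : ∀ᶠ n : ℕ in atTop, ∀ S : Set ℕ,
      (∀ j a, 1 ≤ j → (QG g j0 s n j a S ↔ ((3 ≤ j ∧ j0 ≤ j ∧ j ∈ S ∧ j + g j < n + s) ∧ a = n + s - g j))) ∧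
      (∀ j, 1 ≤ j → j ≤ Kα α n → (3 ≤ j ∧ j0 ≤ j ∧ j ∈ S ∧ j + g j < n + s) →
        3 ≤ n + s - g j ∧ n + s - g j < n + s + 1) ∧
      (∀ j j', 1 ≤ j → 1 ≤ j' → (3 ≤ j ∧ j0 ≤ j ∧ j ∈ S ∧ j + g j < n + s) → (3 ≤ j' ∧ j0 ≤ j' ∧ j' ∈ S ∧ j' + g j' < n + s) →
        n + s - g j = n + s - g j' → j = j') := by
    filter_upwards [hsm] with n hn S
    refine ⟨fun j a _ => Iff.rfl, fun j _ hj h => ?_, fun j j' _ _ h h' hjj => ?_⟩
    · have := hn j hj
      omega
    · by_contra hne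
      rcases Nat.lt_or_gt_of_ne hne with h1 | h1
      · have := hg.mono j j' h.2.1 h1
        omega
      · have := hg.mono j' j h'.2.1 h1
        omega
  have h1 := chern_as hA (fun n => HP (QG g j0 s n) (Kα α n)) (fun n p _ => dep_HP (dep_QG g j0 s n) (Kα α n) p)
    (fun n => n + s + 1) (fun n : ℕ => (n : ℝ) ^ α / Real.log n ^ 2) ?_ (show (0 : ℝ) < 1 / α by positivity) ?_
  · filter_upwards [h1] with ω h2
    refine h2.congr' ?_
    filter_upwards [hpos] with n hn
    obtain ⟨h41, h42, h43⟩ := hn (A ω)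
    rw [hits_HP h41 h42 h43]
  · have hr : Tendsto (fun i : ℕ => (i : ℝ) ^ (α / 2)) atTop atTop :=
      (tendsto_rpow_atTop (by linarith)).comp tendsto_natCast_atTop_atTop
    refine tendsto_atTop_mono' _ ?_ hr
    filter_upwards [log_le_rpow (η := 1) (r := α / 6) one_pos (by linarith), hl.eventually_gt_atTop 0,
      eventually_ge_atTop 1] with n h2 h3 h4
    have hn0 : (0 : ℝ) < n := by exact_mod_cast h4
    rw [one_mul] at h2
    rw [div_div, le_div_iff₀ (by positivity)]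
    have h5 : Real.log n ^ 2 * Real.log n ≤ (n : ℝ) ^ (α / 2) := by
      calc Real.log n ^ 2 * Real.log n = Real.log n ^ 3 := by ring
        _ ≤ ((n : ℝ) ^ (α / 6)) ^ 3 := pow_le_pow_left₀ h3.le h2 3
        _ = (n : ℝ) ^ (α / 2) := by
          rw [← Real.rpow_natCast, ← Real.rpow_mul hn0.le]
          congr 1
          push_cast
          ring
    calc (n : ℝ) ^ (α / 2) * (Real.log n ^ 2 * Real.log n) ≤ (n : ℝ) ^ (α / 2) * (n : ℝ) ^ (α / 2) :=
          mul_le_mul_of_nonneg_left h5 (by positivity)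
      _ = (n : ℝ) ^ α := by
        rw [← Real.rpow_add hn0]
        congr 1
        ring
  · filter_upwards [ct_law' hA] with ω h3
    have T1 := h3.comp (K_top hα)
    have T3 := (K_log hα).inv₀ hα.ne'
    have hbase : Tendsto (fun n : ℕ => (ct (A ω) (Kα α n + 1) : ℝ) * Real.log n / (n : ℝ) ^ α) atTop (𝓝 (1 / α)) := by
      have h4 := (T1.mul (K_ratio hα)).mul T3
      rw [one_mul, one_mul, ← one_div] at h4
      refine h4.congr' ?_
      filter_upwards [hl.eventually_gt_atTop 0, (K_top hα).eventually_ge_atTop 2, eventually_ge_atTop 1] with n h5 h6 h7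
      have hn0 : (0 : ℝ) < n := by exact_mod_cast h7
      have hK0 : (0 : ℝ) < Kα α n := by exact_mod_cast (show 0 < Kα α n by omega)
      have hlK : 0 < Real.log (Kα α n : ℝ) := Real.log_pos (by exact_mod_cast (show 1 < Kα α n by omega))
      simp only [Function.comp_apply]
      field_simp
    have hup : Tendsto (fun n : ℕ => Real.log n / (Real.log n - Real.log 2)) atTop (𝓝 1) := by
      have h4 := ((tendsto_const_nhds (x := Real.log 2)).div_atTop hl).const_sub 1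
      rw [sub_zero] at h4
      have h5 := h4.inv₀ one_ne_zero
      rw [inv_one] at h5
      refine h5.congr' ?_
      filter_upwards [hl.eventually_gt_atTop (Real.log 2)] with n h6
      have h7 : 0 < Real.log 2 := Real.log_pos (by norm_num)
      have h8 : Real.log (n : ℝ) ≠ 0 := by linarith
      have h9 : Real.log (n : ℝ) - Real.log 2 ≠ 0 := by linarith
      field_simp
    have hlo : Tendsto (fun n : ℕ => Real.log n / Real.log ((n + s : ℕ) : ℝ)) atTop (𝓝 1) := by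
      have h5 := (log_shift s).inv₀ one_ne_zero
      rw [inv_one] at h5
      refine h5.congr (fun n => ?_)
      rw [inv_div]
    have hj : Tendsto (fun n : ℕ => (j0 : ℝ) * (Real.log n / (n : ℝ) ^ α)) atTop (𝓝 0) := by
      have h4 := ((isLittleO_log_rpow_atTop hα).tendsto_div_nhds_zero.comp (tendsto_natCast_atTop_atTop (R := ℝ))).const_mul (j0 : ℝ)
      rw [mul_zero] at h4
      exact h4
    have hL := (hbase.sub hj).mul hlo
    have hU := hbase.mul hup
    rw [sub_zero, mul_one] at hL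
    rw [mul_one] at hU
    have hct : ∀ᶠ n : ℕ in atTop, ∃ C : Finset ℕ,
        lam 3 (n + s + 1) (HP (QG g j0 s n) (Kα α n)) (A ω) = ∑ j ∈ C, pb (n + s - g j) ∧
        (∀ j ∈ C, 4 * (j + g j + s + 3) ≤ n) ∧ (C.card : ℝ) ≤ ct (A ω) (Kα α n + 1) ∧
        (ct (A ω) (Kα α n + 1) : ℝ) ≤ C.card + j0 := by
      filter_upwards [hsm, hpos] with n hn hn'
      obtain ⟨h41, h42, h43⟩ := hn' (A ω)
      obtain ⟨C, hC, hmem⟩ : ∃ C : Finset ℕ, lam 3 (n + s + 1) (HP (QG g j0 s n) (Kα α n)) (A ω) = ∑ j ∈ C, pb (n + s - g j) ∧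
          ∀ j, j ∈ C ↔ (1 ≤ j ∧ j ≤ Kα α n) ∧ (3 ≤ j ∧ j0 ≤ j ∧ j ∈ A ω ∧ j + g j < n + s) :=
        ⟨_, lam_HP h41 h42 h43, fun j => by simp only [Finset.mem_filter, Finset.mem_Icc]⟩
      obtain ⟨E, hE, hEm⟩ : ∃ E : Finset ℕ, ct (A ω) (Kα α n + 1) = E.card ∧ ∀ j, j ∈ E ↔ (3 ≤ j ∧ j < Kα α n + 1) ∧ j ∈ A ω :=
        ⟨_, rfl, fun j => by simp only [Finset.mem_filter, Finset.mem_Ico]⟩
      refine ⟨C, hC, fun j hj => ?_, ?_, ?_⟩
      · rw [hmem] at hj
        exact hn j hj.1.2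
      · rw [hE]
        refine Nat.cast_le.2 (card_le_card (fun j hj => ?_))
        rw [hmem] at hj
        rw [hEm]
        exact ⟨⟨hj.2.1, by omega⟩, hj.2.2.2.1⟩
      · rw [hE]
        have h5 : E.card ≤ (C ∪ range j0).card := by
          refine card_le_card (fun j hj => ?_)
          rw [hEm] at hj
          rw [mem_union, hmem, mem_range]
          rcases Nat.lt_or_ge j j0 with h5 | h5
          · exact Or.inr h5
          · have := hn j (by omega)
            exact Or.inl ⟨by omega, by omega, h5, hj.2, by omega⟩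
        have h6 := card_union_le C (range j0)
        rw [card_range] at h6
        exact_mod_cast h5.trans h6
    refine tendsto_of_tendsto_of_tendsto_of_le_of_le' hL hU ?_ ?_
    · filter_upwards [hct, hl.eventually_gt_atTop 0, eventually_ge_atTop 2] with n h4 h6 h7
      obtain ⟨C, hC1, hC2, hC3, hC4⟩ := h4
      rw [hC1]
      have hn0 : (0 : ℝ) < n := by exact_mod_cast (show 0 < n by omega)
      have hls : 0 < Real.log ((n + s : ℕ) : ℝ) := Real.log_pos (by exact_mod_cast (show 1 < n + s by omega))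
      have h8 : (C.card : ℝ) * (1 / Real.log ((n + s : ℕ) : ℝ)) ≤ ∑ j ∈ C, pb (n + s - g j) := by
        rw [← nsmul_eq_mul]
        refine card_nsmul_le_sum _ _ _ (fun j hj => ?_)
        have h9 := hC2 j hj
        unfold pb
        refine one_div_le_one_div_of_le (Real.log_pos ?_) (Real.log_le_log ?_ ?_)
        · exact_mod_cast (show 1 < n + s - g j by omega)
        · exact_mod_cast (show 0 < n + s - g j by omega)
        · exact_mod_cast (show n + s - g j ≤ n + s by omega)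
      rw [le_div_iff₀ (by positivity)]
      have h9 : ((ct (A ω) (Kα α n + 1) : ℝ) - j0) * (1 / Real.log ((n + s : ℕ) : ℝ)) ≤ C.card * (1 / Real.log ((n + s : ℕ) : ℝ)) :=
        mul_le_mul_of_nonneg_right (by linarith) (by positivity)
      refine le_trans (le_of_eq ?_) (h9.trans h8)
      field_simp
    · filter_upwards [hct, hl.eventually_gt_atTop (2 * Real.log 2), eventually_ge_atTop 12] with n h4 h6 h7
      obtain ⟨C, hC1, hC2, hC3, hC4⟩ := h4
      rw [hC1]
      have hn0 : (0 : ℝ) < n := by exact_mod_cast (show 0 < n by omega)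
      have hl2 : 0 < Real.log 2 := Real.log_pos (by norm_num)
      have hln : 0 < Real.log (n : ℝ) := by linarith
      have hls : 0 < Real.log (n : ℝ) - Real.log 2 := by linarith
      have h8 : ∑ j ∈ C, pb (n + s - g j) ≤ (C.card : ℝ) * (1 / (Real.log n - Real.log 2)) := by
        rw [← nsmul_eq_mul]
        refine sum_le_card_nsmul _ _ _ (fun j hj => ?_)
        have h9 := hC2 j hj
        unfold pb
        refine one_div_le_one_div_of_le hls ?_
        rw [← Real.log_div hn0.ne' (by norm_num)]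
        refine Real.log_le_log (by positivity) ?_
        rw [div_le_iff₀ (by norm_num)]
        exact_mod_cast (show n ≤ (n + s - g j) * 2 by omega)
      rw [div_le_iff₀ (by positivity)]
      refine h8.trans ((mul_le_mul_of_nonneg_right hC3 (by positivity)).trans (le_of_eq ?_))
      field_simp

/-- The elements `p ≤ n ^ α` for which `n - f p` is an element. -/
def RepSet (f : ℤ[X]) (S : Set ℕ) (α : ℝ) (n : ℕ) : Set ℕ :=
  {p : ℕ | 3 ≤ p ∧ (p : ℝ) ≤ (n : ℝ) ^ α ∧ p ∈ S ∧ ∃ q : ℕ, 3 ≤ q ∧ q ∈ S ∧ (n : ℤ) = f.eval (p : ℤ) + q}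

theorem count_f (hA : IsCramer μ A) {α : ℝ} (hα : 0 < α) : ∀ᵐ ω ∂μ, ∀ f : ℤ[X], 1 ≤ f.natDegree → 0 < f.leadingCoeff →
    α * f.natDegree < 1 → Tendsto (fun n : ℕ => ((RepSet f (A ω) α n).ncard : ℝ) / ((n : ℝ) ^ α / Real.log n ^ 2)) atTop
      (𝓝 (1 / α)) := by
  have := countable_int_poly
  rw [ae_all_iff]
  intro f
  by_cases hf : (1 ≤ f.natDegree ∧ 0 < f.leadingCoeff) ∧ α * f.natDegree < 1
  swap
  · exact ae_of_all _ (fun ω h1 h2 h3 => absurd ⟨⟨h1, h2⟩, h3⟩ hf)
  obtain ⟨⟨hf1, hf2⟩, hf3⟩ := hf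
  obtain ⟨g, j0, D, s, B, hg, hgf, hB⟩ := gr_poly hf1 hf2
  have hα1 : α < 1 := by
    have h1 : (1 : ℝ) ≤ f.natDegree := by exact_mod_cast hf1
    nlinarith
  have hsm := g_small hB hα hf3 hα1 s
  filter_upwards [count_ws hg hA hB hα hf3 hα1 s] with ω h1 _ _ _
  have hj : Tendsto (fun n : ℕ => (j0 : ℝ) / ((n : ℝ) ^ α / Real.log n ^ 2)) atTop (𝓝 0) := by
    have h4 : Tendsto (fun n : ℕ => (n : ℝ) ^ α / Real.log n ^ 2) atTop atTop := by
      have h5 : Tendsto (fun x : ℝ => x ^ α / Real.log x ^ 2) atTop atTop := by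
        have h6 := (isLittleO_log_rpow_rpow_atTop 2 hα).tendsto_div_nhds_zero
        have h7 : Tendsto (fun x : ℝ => (Real.log x ^ (2 : ℝ) / x ^ α)⁻¹) atTop atTop := by
          refine Tendsto.inv_tendsto_nhdsGT_zero ?_
          rw [tendsto_nhdsWithin_iff]
          refine ⟨h6, ?_⟩
          filter_upwards [eventually_gt_atTop 1] with x hx
          have := Real.log_pos hx
          have hx0 : 0 < x := by linarith
          exact Set.mem_Ioi.2 (by positivity)
        refine h7.congr (fun x => ?_)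
        rw [inv_div]
        norm_num
      exact h5.comp tendsto_natCast_atTop_atTop
    exact tendsto_const_nhds.div_atTop h4
  have hlow := h1
  have hhigh := h1.add hj
  rw [add_zero] at hhigh
  have hfin : ∀ n : ℕ, (RepSet f (A ω) α n).Finite := fun n => by
    refine (Set.finite_Iic (Kα α n)).subset (fun p hp => ?_)
    exact Nat.le_floor hp.2.1
  refine tendsto_of_tendsto_of_tendsto_of_le_of_le' hlow hhigh ?_ ?_
  · filter_upwards [hsm, eventually_ge_atTop 2] with n h2 h3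
    have hn0 : (0 : ℝ) < n := by exact_mod_cast (show 0 < n by omega)
    have hn1 : 0 < Real.log (n : ℝ) := Real.log_pos (by exact_mod_cast (show 1 < n by omega))
    refine div_le_div_of_nonneg_right ?_ (by positivity)
    refine Nat.cast_le.2 ?_
    rw [← Set.ncard_coe_finset]
    refine Set.ncard_le_ncard (fun p hp => ?_) (hfin n)
    rw [Finset.mem_coe, mem_Ws] at hp
    obtain ⟨⟨h4, h5⟩, a, ⟨⟨h6, h7, h8, h9⟩, h10⟩, h11⟩ := hp
    have h12 := h2 p h5
    refine ⟨h6, ?_, h8, a, by omega, h11, ?_⟩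
    · calc (p : ℝ) ≤ (Kα α n : ℕ) := by exact_mod_cast h5
        _ ≤ (n : ℝ) ^ α := Nat.floor_le (by positivity)
    · have h13 := hgf p
      omega
  · filter_upwards [hsm, eventually_ge_atTop 2] with n h2 h3
    have hn0 : (0 : ℝ) < n := by exact_mod_cast (show 0 < n by omega)
    have hn1 : 0 < Real.log (n : ℝ) := Real.log_pos (by exact_mod_cast (show 1 < n by omega))
    rw [← add_div]
    refine div_le_div_of_nonneg_right ?_ (by positivity)
    have h4 : (RepSet f (A ω) α n).ncard ≤ (Ws (WP (QG g j0 s n)) (A ω) (Kα α n) ∪ range j0).card := by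
      rw [← Set.ncard_coe_finset]
      refine Set.ncard_le_ncard (fun p hp => ?_) (Finset.finite_toSet _)
      obtain ⟨h5, h6, h7, q, h8, h9, h10⟩ := hp
      have h11 : p ≤ Kα α n := Nat.le_floor h6
      rw [Finset.mem_coe, mem_union, mem_Ws, mem_range]
      rcases Nat.lt_or_ge p j0 with h12 | h12
      · exact Or.inr h12
      · have h13 := h2 p h11
        have h14 := hgf p
        refine Or.inl ⟨⟨by omega, h11⟩, q, ⟨⟨h5, h12, h7, by omega⟩, by omega⟩, h9⟩
    have h5 := card_union_le (Ws (WP (QG g j0 s n)) (A ω) (Kα α n)) (range j0)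
    rw [card_range] at h5
    exact_mod_cast h4.trans h5

end Pool.Agent.Q197.PS
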