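import Pool.Agent.Q197.PS.S

/-! # Sets of density one half in random unions of residue classes -/

set_option autoImplicit false
set_option linter.unusedSectionVars false
set_option linter.unusedVariables false

open Finset Filter Topology

namespace Q197.PS

open Classical in
/-- `1 / N` times the number of the `1 ≤ n ≤ N` in `E` whose residue modulo `P` is in `A` -/
noncomputable def densA (E : ℕ → Prop) (P : ℕ) (A : Finset ℕ) (N : ℕ) : ℝ :=
  (((Icc 1 N).filter (fun n => n % P ∈ A ∧ E n)).card : ℝ) / N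

open Classical in
/-- the sign of the set -/
noncomputable def sg (E : ℕ → Prop) (n : ℕ) : ℝ := if E n then 1 else -1

lemma sg_le (E : ℕ → Prop) (n : ℕ) : |sg E n| ≤ 1 := by
  unfold sg
  split_ifs <;> simp

lemma card_union_classes {P : ℕ} (hP : 0 < P) {A : Finset ℕ} (hA : A ⊆ range P) (N : ℕ) :
    |(((Icc 1 N).filter (fun n => n % P ∈ A)).card : ℝ) - A.card * N / P| ≤ P := by
  classical
  have hPr : (0 : ℝ) < P := by exact_mod_cast hP
  -- one class
  have h1 : ∀ j ∈ A, |(((Icc 1 N).filter (fun n => n % P = j)).card : ℝ) - N / P| ≤ 1 := by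
    intro j hj
    have hj1 : j < P := mem_range.1 (hA hj)
    have h2 : ((Icc 1 N).filter (fun n => n % P = j)).card ≤ N / P + 1 := card_class_le hP N j
    have h3 : N / P ≤ ((Icc 1 N).filter (fun n => n % P = j)).card := by
      have h4 : (range (N / P)).card ≤ ((Icc 1 N).filter (fun n => n % P = j)).card := by
        refine card_le_card_of_injOn (fun k => if j = 0 then P * (k + 1) else P * k + j)
          (fun k hk => ?_) (fun k _ k' _ h => ?_)
        · rw [mem_coe, mem_range] at hk
          rw [mem_coe, mem_filter, mem_Icc]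
          have h5 : P * (k + 1) ≤ N := by
            calc P * (k + 1) ≤ P * (N / P) := Nat.mul_le_mul_left P hk
              _ ≤ N := Nat.mul_div_le N P
          have h6 : P * (k + 1) = P * k + P := by ring
          show (1 ≤ (if j = 0 then P * (k + 1) else P * k + j) ∧
            (if j = 0 then P * (k + 1) else P * k + j) ≤ N) ∧
            (if j = 0 then P * (k + 1) else P * k + j) % P = j
          split_ifs with h0
          · refine ⟨⟨by nlinarith, h5⟩, ?_⟩
            rw [Nat.mul_mod_right, h0]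
          · refine ⟨⟨by omega, by omega⟩, ?_⟩
            rw [Nat.mul_add_mod, Nat.mod_eq_of_lt hj1]
        · simp only at h
          split_ifs at h with h0
          · have := Nat.eq_of_mul_eq_mul_left hP h
            omega
          · have : P * k = P * k' := by omega
            exact Nat.eq_of_mul_eq_mul_left hP this
      rw [card_range] at h4
      exact h4
    have h4 : (((N / P : ℕ) : ℝ)) ≤ (N : ℝ) / P := Nat.cast_div_le
    have h5 : (N : ℝ) / P < ((N / P : ℕ) : ℝ) + 1 := by
      rw [div_lt_iff₀ hPr]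
      have := Nat.lt_mul_div_succ N hP
      have h6 : (N : ℝ) < ((P * (N / P + 1) : ℕ) : ℝ) := by exact_mod_cast this
      push_cast at h6
      linarith
    have h2' : (((Icc 1 N).filter (fun n => n % P = j)).card : ℝ) ≤ ((N / P : ℕ) : ℝ) + 1 := by
      exact_mod_cast h2
    have h3' : (((N / P : ℕ) : ℝ)) ≤ (((Icc 1 N).filter (fun n => n % P = j)).card : ℝ) := by
      exact_mod_cast h3
    rw [abs_le]
    constructor <;> linarith
  have h2 : ((Icc 1 N).filter (fun n => n % P ∈ A)).card =
      ∑ j ∈ A, ((Icc 1 N).filter (fun n => n % P = j)).card := by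
    rw [card_eq_sum_card_fiberwise (s := (Icc 1 N).filter (fun n => n % P ∈ A)) (f := fun n => n % P)
      (t := A) (fun n hn => (mem_filter.1 (mem_coe.1 hn)).2)]
    refine sum_congr rfl fun j hj => ?_
    congr 1
    ext n
    simp only [mem_filter]
    constructor
    · rintro ⟨⟨h1, _⟩, h3⟩
      exact ⟨h1, h3⟩
    · rintro ⟨h1, h3⟩
      exact ⟨⟨h1, by rw [h3]; exact hj⟩, h3⟩
  rw [h2]
  push_cast
  have h3 : ∑ j ∈ A, (((Icc 1 N).filter (fun n => n % P = j)).card : ℝ) - A.card * N / P =
      ∑ j ∈ A, ((((Icc 1 N).filter (fun n => n % P = j)).card : ℝ) - N / P) := by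
    rw [sum_sub_distrib, sum_const, nsmul_eq_mul]
    ring
  rw [h3]
  calc |∑ j ∈ A, ((((Icc 1 N).filter (fun n => n % P = j)).card : ℝ) - N / P)|
      ≤ ∑ j ∈ A, |(((Icc 1 N).filter (fun n => n % P = j)).card : ℝ) - N / P| := abs_sum_le_sum_abs _ _
    _ ≤ ∑ j ∈ A, (1 : ℝ) := sum_le_sum h1
    _ = A.card := by simp
    _ ≤ P := by
        have := card_le_card hA
        rw [card_range] at this
        exact_mod_cast this

lemma avS_dens (E : ℕ → Prop) (P : ℕ) (A : Finset ℕ) (N : ℕ) :
    avS (ces (sg E)) (fun N => N) P A N =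
      2 * densA E P A N - (((Icc 1 N).filter (fun n => n % P ∈ A)).card : ℝ) / N := by
  classical
  unfold avS ces densA sg
  rw [← sum_div]
  have h1 : ∑ n ∈ (Icc 1 N).filter (fun n => n % P ∈ A), (if E n then (1 : ℝ) else -1) =
      2 * (((Icc 1 N).filter (fun n => n % P ∈ A ∧ E n)).card : ℝ) -
        (((Icc 1 N).filter (fun n => n % P ∈ A)).card : ℝ) := by
    have h2 : ∀ n ∈ (Icc 1 N).filter (fun n => n % P ∈ A),
        (if E n then (1 : ℝ) else -1) = 2 * (if E n then 1 else 0) - 1 := by
      intro n _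
      split_ifs <;> norm_num
    rw [sum_congr rfl h2, sum_sub_distrib, ← mul_sum, ← sum_filter, filter_filter, sum_const,
      sum_const, nsmul_eq_mul, nsmul_eq_mul, mul_one, mul_one]
  rw [h1]
  ring

/-- the set has density one half in the union of classes -/
def Half (E : ℕ → Prop) (P : ℕ) (A : Finset ℕ) : Prop :=
  Tendsto (densA E P A) atTop (𝓝 ((A.card : ℝ) / (2 * P)))

lemma tendsto_classes {P : ℕ} (hP : 0 < P) {A : Finset ℕ} (hA : A ⊆ range P) :
    Tendsto (fun N : ℕ => (((Icc 1 N).filter (fun n => n % P ∈ A)).card : ℝ) / N) atTop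
      (𝓝 ((A.card : ℝ) / P)) := by
  rw [tendsto_iff_norm_sub_tendsto_zero]
  have h1 : Tendsto (fun N : ℕ => (P : ℝ) / N) atTop (𝓝 0) := tendsto_const_div_atTop_nhds_zero_nat _
  refine squeeze_zero' (Eventually.of_forall fun N => norm_nonneg _) ?_ h1
  filter_upwards [eventually_gt_atTop 0] with N hN
  have hNr : (0 : ℝ) < N := by exact_mod_cast hN
  have h2 := card_union_classes hP hA N
  have h3 : (((Icc 1 N).filter (fun n => n % P ∈ A)).card : ℝ) / N - (A.card : ℝ) / P =
      ((((Icc 1 N).filter (fun n => n % P ∈ A)).card : ℝ) - A.card * N / P) / N := by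
    field_simp
  rw [h3, Real.norm_eq_abs, abs_div, abs_of_pos hNr]
  exact div_le_div_of_nonneg_right h2 hNr.le

lemma half_iff (E : ℕ → Prop) {P : ℕ} (hP : 0 < P) {A : Finset ℕ} (hA : A ⊆ range P) :
    Half E P A ↔ Tendsto (avS (ces (sg E)) (fun N => N) P A) atTop (𝓝 0) := by
  have h1 := tendsto_classes hP hA
  have hPr : (0 : ℝ) < P := by exact_mod_cast hP
  constructor
  · intro h
    have h2 := (h.const_mul 2).sub h1
    have h3 : 2 * ((A.card : ℝ) / (2 * P)) - (A.card : ℝ) / P = 0 := by field_simp; ring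
    rw [h3] at h2
    refine h2.congr fun N => ?_
    rw [avS_dens]
  · intro h
    unfold Half
    have h2 := (h.add h1).const_mul (1 / 2 : ℝ)
    have h3 : 1 / 2 * (0 + (A.card : ℝ) / P) = (A.card : ℝ) / (2 * P) := by field_simp; ring
    rw [h3] at h2
    refine h2.congr fun N => ?_
    rw [avS_dens]
    ring

open Classical in
/-- the number of the sets of residues modulo `P` in whose union the set has density one half -/
noncomputable def nHalf (E : ℕ → Prop) (P : ℕ) : ℕ :=
  ((range P).powerset.filter (fun A => Half E P A)).card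

lemma nHalf_eq (E : ℕ → Prop) {P : ℕ} (hP : 0 < P) :
    nHalf E P = nS atTop (ces (sg E)) (fun N => N) P := by
  classical
  unfold nHalf nS
  congr 1
  refine filter_congr fun A hA => ?_
  exact half_iff E hP (mem_powerset.1 hA)

open Classical in
/-- **Sets of density one half** -/
theorem half_main (E : ℕ → Prop) :
    ((∀ q : ℕ, 0 < q → ∀ a < q, Half E q {a}) ↔
      ∀ q : ℕ, 0 < q → ∀ K : ℝ, ∃ P : ℕ, 0 < P ∧ q ∣ P ∧ K * 2 ^ P / √P ≤ nHalf E P) ∧
    (∀ c : ℝ, 0 < c → (∃ᶠ N : ℕ in atTop, c ≤ |densA E 1 {0} N - 1 / 2|) →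
      ∀ P : ℕ, 0 < P → (nHalf E P : ℝ) ≤ (10 + 27 / c) * 2 ^ P / √P) ∧
    (∀ P N : ℕ, 0 < P → P ≤ N → ∀ t : ℝ, 0 < t →
      (((range P).powerset.filter (fun A =>
        t / √P ≤ |(densA E P A N - densA (fun n => ¬ E n) P A N) -
          (densA E 1 {0} N - densA (fun n => ¬ E n) 1 {0} N) / 2|)).card : ℝ) ≤ 2 ^ P / t ^ 2) := by
  have hu : ∀ n, 1 ≤ n → |sg E n| ≤ 1 := fun n _ => sg_le E n
  have hcl := ces_hcl hu
  have hfull : ∀ N : ℕ, (Icc 1 N).filter (fun n => n % 1 ∈ ({0} : Finset ℕ)) = Icc 1 N := by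
    intro N
    rw [filter_true_of_mem]
    intro n _
    rw [mem_singleton, Nat.mod_one]
  have hdiff : ∀ P A N, densA E P A N - densA (fun n => ¬ E n) P A N =
      avS (ces (sg E)) (fun N => N) P A N := by
    intro P A N
    unfold densA avS ces sg
    rw [← sum_div, ← sub_div]
    congr 1
    rw [← filter_filter, ← filter_filter, card_filter, card_filter]
    push_cast
    rw [← sum_sub_distrib]
    refine sum_congr rfl fun n _ => ?_
    split_ifs <;> simp_all
  refine ⟨?_, ?_, ?_⟩
  · have h1 := classes_iff (l := atTop) (ces (sg E)) (fun N => N) (by norm_num : (1 : ℝ) ≤ 2) hcl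
    have h2 : ∀ q : ℕ, 0 < q → ∀ a < q,
        (Half E q {a} ↔ Tendsto (fun N => cls (ces (sg E)) (fun N => N) q N a) atTop (𝓝 0)) := by
      intro q hq a ha
      rw [half_iff E hq (by rw [singleton_subset_iff, mem_range]; exact ha)]
      have : avS (ces (sg E)) (fun N => N) q {a} = fun N => cls (ces (sg E)) (fun N => N) q N a := by
        funext N
        rw [avS_eq, sum_singleton]
      rw [this]
    constructor
    · intro h
      have h3 := h1.1 (fun q hq a ha => (h2 q hq a ha).1 (h q hq a ha))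
      intro q hq K
      obtain ⟨P, hP, hd, h4⟩ := h3 q hq K
      exact ⟨P, hP, hd, by rw [nHalf_eq E hP]; exact h4⟩
    · intro h q hq a ha
      rw [h2 q hq a ha]
      refine h1.2 (fun q hq K => ?_) q hq a ha
      obtain ⟨P, hP, hd, h4⟩ := h q hq K
      exact ⟨P, hP, hd, by rw [← nHalf_eq E hP]; exact h4⟩
  · intro c hc hfr P hP
    rw [nHalf_eq E hP]
    have h1 := few_nS (l := atTop) (ces (sg E)) (fun N => N) hP (c0 := 2 * c) (by linarith)
      (by norm_num : (1 : ℝ) ≤ 2) (hcl P hP) ?_
    · refine h1.trans (le_of_eq ?_)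
      field_simp
      ring
    · refine (hfr.and_eventually (eventually_gt_atTop 0)).mono fun N hN => ?_
      obtain ⟨hN1, hN2⟩ := hN
      have hNr : (0 : ℝ) < N := by exact_mod_cast hN2
      have h2 : avS (ces (sg E)) (fun N => N) 1 {0} N = 2 * (densA E 1 {0} N - 1 / 2) := by
        rw [avS_dens, hfull, Nat.card_Icc]
        simp only [add_tsub_cancel_right]
        rw [div_self hNr.ne']
        ring
      have h3 : 2 * c ≤ |avS (ces (sg E)) (fun N => N) 1 {0} N| := by
        rw [h2, abs_mul, abs_of_pos (by norm_num : (0 : ℝ) < 2)]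
        linarith
      rw [avS_eq, sum_singleton] at h3
      exact h3.trans (cls_le (ces (sg E)) (fun N => N) hP (one_dvd P) 0 N)
  · intro P N hP hN t ht
    have h1 := typical_av (ces (sg E)) (fun N => N) hP (by norm_num : (0 : ℝ) < 2) N
      (fun j _ => ces_cls hu hP hN j) ht
    have h3 : ∑ n ∈ Icc 1 N, ces (sg E) N n = avS (ces (sg E)) (fun N => N) 1 {0} N := by
      unfold avS
      rw [hfull]
    rw [h3] at h1
    simp only [hdiff]
    have h4 : ∀ A, (t / √(P : ℝ) ≤ |avS (ces (sg E)) (fun N => N) P A N -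
        avS (ces (sg E)) (fun N => N) 1 {0} N / 2| ↔
        t * (2 / √(P : ℝ)) ≤ |2 * avS (ces (sg E)) (fun N => N) P A N -
          avS (ces (sg E)) (fun N => N) 1 {0} N|) := by
      intro A
      have h5 : 2 * avS (ces (sg E)) (fun N => N) P A N - avS (ces (sg E)) (fun N => N) 1 {0} N =
          2 * (avS (ces (sg E)) (fun N => N) P A N - avS (ces (sg E)) (fun N => N) 1 {0} N / 2) := by
        ring
      rw [h5, abs_mul, abs_of_pos (by norm_num : (0 : ℝ) < 2)]
      constructor <;> intro h
      · have : t * (2 / √(P : ℝ)) = 2 * (t / √P) := by ring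
        linarith
      · have : t * (2 / √(P : ℝ)) = 2 * (t / √P) := by ring
        linarith
    simp only [h4]
    exact h1

end Q197.PS
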