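import Pool.Agent.H353R2.Z2

/-! # Divisor functions `d_r` are small -/

set_option autoImplicit false

open Finset Filter Topology

namespace Q197.PS

lemma zeta_pow_le (r : ℕ) : ∀ n : ℕ, n ≠ 0 →
    ((ArithmeticFunction.zeta : ArithmeticFunction ℕ) ^ r) n ≤ n.divisors.card ^ r := by
  induction r with
  | zero =>
    intro n hn
    rw [pow_zero, pow_zero, ArithmeticFunction.one_apply]
    split_ifs <;> norm_num
  | succ r ih =>
    intro n hn
    rw [pow_succ, ArithmeticFunction.mul_apply]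
    have h1 : ∀ x ∈ n.divisorsAntidiagonal, ((ArithmeticFunction.zeta : ArithmeticFunction ℕ) ^ r) x.1 *
        ArithmeticFunction.zeta x.2 ≤ n.divisors.card ^ r := by
      intro x hx
      rw [Nat.mem_divisorsAntidiagonal] at hx
      have hx1 : x.1 ≠ 0 := fun h => hx.2 (by rw [← hx.1, h, zero_mul])
      have hx2 : x.2 ≠ 0 := fun h => hx.2 (by rw [← hx.1, h, mul_zero])
      rw [ArithmeticFunction.zeta_apply, if_neg hx2, mul_one]
      refine (ih x.1 hx1).trans ?_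
      refine Nat.pow_le_pow_left ?_ r
      exact card_le_card (Nat.divisors_subset_of_dvd hn ⟨x.2, hx.1.symm⟩)
    refine (sum_le_sum h1).trans ?_
    rw [sum_const, smul_eq_mul, pow_succ, mul_comm]
    refine Nat.mul_le_mul_left _ ?_
    refine card_le_card_of_injOn Prod.fst (fun x hx => ?_) (fun x hx y hy hxy => ?_)
    · rw [mem_coe, Nat.mem_divisorsAntidiagonal] at hx
      rw [mem_coe, Nat.mem_divisors]
      exact ⟨⟨x.2, hx.1.symm⟩, hx.2⟩
    · rw [mem_coe, Nat.mem_divisorsAntidiagonal] at hx hy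
      have hx1 : 0 < x.1 := Nat.pos_of_ne_zero fun h => hx.2 (by rw [← hx.1, h, zero_mul])
      refine Prod.ext hxy ?_
      have h3 : x.1 * x.2 = x.1 * y.2 := by rw [hx.1, hxy, hy.1]
      exact Nat.eq_of_mul_eq_mul_left hx1 h3

/-- `d_r(n) ≤ C n ^ ε` -/
theorem dr_small (r : ℕ) (ε : ℝ) (hε : 0 < ε) : ∃ C : ℝ, 0 < C ∧ ∀ n : ℕ, n ≠ 0 →
    ((((ArithmeticFunction.zeta : ArithmeticFunction ℕ) ^ r) n : ℕ) : ℝ) ≤ C * (n : ℝ) ^ ε := by
  obtain ⟨C, hC, h⟩ := H353.divisor_bound_real (ε / (r + 1)) (by positivity)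
  refine ⟨(C + 1) ^ r, by positivity, fun n hn => ?_⟩
  have h1 : ((((ArithmeticFunction.zeta : ArithmeticFunction ℕ) ^ r) n : ℕ) : ℝ) ≤ (n.divisors.card : ℝ) ^ r := by
    exact_mod_cast zeta_pow_le r n hn
  have hn1 : (1 : ℝ) ≤ n := by exact_mod_cast Nat.one_le_iff_ne_zero.2 hn
  have h2 : (n.divisors.card : ℝ) ≤ (C + 1) * (n : ℝ) ^ (ε / (r + 1)) := by
    refine (h n hn).trans ?_
    have : 0 ≤ (n : ℝ) ^ (ε / (r + 1)) := by positivity
    nlinarith
  calc _ ≤ (n.divisors.card : ℝ) ^ r := h1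
    _ ≤ ((C + 1) * (n : ℝ) ^ (ε / (r + 1))) ^ r := by gcongr
    _ = (C + 1) ^ r * (n : ℝ) ^ (ε / (r + 1) * r) := by
        rw [mul_pow, ← Real.rpow_natCast ((n : ℝ) ^ (ε / (r + 1))), ← Real.rpow_mul (by linarith)]
    _ ≤ (C + 1) ^ r * (n : ℝ) ^ ε := by
        gcongr
        rw [div_mul_eq_mul_div, div_le_iff₀ (by positivity)]
        nlinarith

end Q197.PS
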