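import Pool.Agent.Q197.PS.D

/-! # Families of sets of prescribed densities in random unions of residue classes -/

set_option autoImplicit false
set_option linter.unusedSectionVars false
set_option linter.unusedVariables false

open Finset Filter Topology

namespace Q197.PS

open Classical in
/-- the centred indicator function -/
noncomputable def ci (E : ℕ → Prop) (β : ℝ) (n : ℕ) : ℝ := (if E n then 1 else 0) - β

lemma ci_le (E : ℕ → Prop) {β : ℝ} (h0 : 0 ≤ β) (h1 : β ≤ 1) (n : ℕ) : |ci E β n| ≤ 1 := by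
  unfold ci
  split_ifs
  · rw [abs_le]; constructor <;> linarith
  · rw [abs_le]; constructor <;> linarith

/-- the set has density `β` in the union of classes -/
def Dens (E : ℕ → Prop) (β : ℝ) (P : ℕ) (A : Finset ℕ) : Prop :=
  Tendsto (densA E P A) atTop (𝓝 (β * A.card / P))

lemma avS_ci (E : ℕ → Prop) (β : ℝ) (P : ℕ) (A : Finset ℕ) (N : ℕ) :
    avS (ces (ci E β)) (fun N => N) P A N =
      densA E P A N - β * ((((Icc 1 N).filter (fun n => n % P ∈ A)).card : ℝ) / N) := by
  classical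
  unfold avS ces densA ci
  rw [← sum_div, sum_sub_distrib, ← sum_filter, filter_filter, sum_const, sum_const, nsmul_eq_mul,
    nsmul_eq_mul, mul_one]
  ring

lemma dens_iff (E : ℕ → Prop) (β : ℝ) {P : ℕ} (hP : 0 < P) {A : Finset ℕ} (hA : A ⊆ range P) :
    Dens E β P A ↔ Tendsto (avS (ces (ci E β)) (fun N => N) P A) atTop (𝓝 0) := by
  have h1 := tendsto_classes hP hA
  have hPr : (0 : ℝ) < P := by exact_mod_cast hP
  have h1' : Tendsto (fun N : ℕ => β * ((((Icc 1 N).filter (fun n => n % P ∈ A)).card : ℝ) / N)) atTop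
      (𝓝 (β * A.card / P)) := by
    have := h1.const_mul β
    rw [← mul_div_assoc] at this
    exact this
  constructor
  · intro h
    have h2 := h.sub h1'
    rw [sub_self] at h2
    refine h2.congr fun N => ?_
    rw [avS_ci]
  · intro h
    have h2 := h.add h1'
    rw [zero_add] at h2
    refine h2.congr fun N => ?_
    rw [avS_ci]
    ring

section

variable {σ : Type}

/-- all sets of the family have their densities in the union of classes -/
def Good (E : σ → ℕ → Prop) (β : σ → ℝ) (P : ℕ) (A : Finset ℕ) : Prop := ∀ s, Dens (E s) (β s) P A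

open Classical in
/-- the number of the good sets of residues -/
noncomputable def nGood (E : σ → ℕ → Prop) (β : σ → ℝ) (P : ℕ) : ℕ :=
  ((range P).powerset.filter (fun A => Good E β P A)).card

lemma nGood_le (E : σ → ℕ → Prop) (β : σ → ℝ) {P : ℕ} (hP : 0 < P) (s : σ) :
    nGood E β P ≤ nS atTop (ces (ci (E s) (β s))) (fun N => N) P := by
  classical
  unfold nGood nS
  refine card_le_card fun A hA => ?_
  rw [mem_filter] at hA ⊢
  exact ⟨hA.1, (dens_iff (E s) (β s) hP (mem_powerset.1 hA.1)).1 (hA.2 s)⟩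

lemma full_filter (N : ℕ) : (Icc 1 N).filter (fun n => n % 1 ∈ ({0} : Finset ℕ)) = Icc 1 N := by
  rw [filter_true_of_mem]
  intro n _
  rw [mem_singleton, Nat.mod_one]

/-- **Few good unions**, from one class -/
theorem nGood_class (E : σ → ℕ → Prop) (β : σ → ℝ) (hβ : ∀ s, 0 ≤ β s ∧ β s ≤ 1) (s : σ) {c : ℝ}
    (hc : 0 < c) {q : ℕ} (a : ℕ)
    (hfr : ∃ᶠ N : ℕ in atTop, c ≤ |avS (ces (ci (E s) (β s))) (fun N => N) q {a} N|) {P : ℕ}
    (hP : 0 < P) (hd : q ∣ P) : (nGood E β P : ℝ) ≤ (10 + 54 / c) * 2 ^ P / √P := by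
  have hu : ∀ n, 1 ≤ n → |ci (E s) (β s) n| ≤ 1 := fun n _ => ci_le (E s) (hβ s).1 (hβ s).2 n
  have h1 := few_nS (l := atTop) (ces (ci (E s) (β s))) (fun N => N) hP hc
    (by norm_num : (1 : ℝ) ≤ 2) (ces_hcl hu P hP) (hfr.mono fun N hN => by
      rw [avS_eq, sum_singleton] at hN
      exact hN.trans (cls_le (ces (ci (E s) (β s))) (fun N => N) hP hd a N))
  have h2 : (nGood E β P : ℝ) ≤ nS atTop (ces (ci (E s) (β s))) (fun N => N) P := by
    exact_mod_cast nGood_le E β hP s
  refine h2.trans (h1.trans (le_of_eq ?_))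
  ring

/-- **Few good unions** -/
theorem nGood_few (E : σ → ℕ → Prop) (β : σ → ℝ) (hβ : ∀ s, 0 ≤ β s ∧ β s ≤ 1) (s : σ) {c : ℝ}
    (hc : 0 < c) (hfr : ∃ᶠ N : ℕ in atTop, c ≤ |densA (E s) 1 {0} N - β s|) {P : ℕ}
    (hP : 0 < P) : (nGood E β P : ℝ) ≤ (10 + 54 / c) * 2 ^ P / √P := by
  refine nGood_class E β hβ s hc 0 ?_ hP (one_dvd P)
  refine (hfr.and_eventually (eventually_gt_atTop 0)).mono fun N hN => ?_
  obtain ⟨hN1, hN2⟩ := hN
  have hNr : (0 : ℝ) < N := by exact_mod_cast hN2
  rw [avS_ci, full_filter, Nat.card_Icc]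
  simp only [add_tsub_cancel_right]
  rw [div_self hNr.ne', mul_one]
  exact hN1

/-- **Equivalence** -/
theorem good_iff (E : σ → ℕ → Prop) (β : σ → ℝ) (hβ : ∀ s, 0 ≤ β s ∧ β s ≤ 1) :
    (∀ q : ℕ, 0 < q → ∀ a < q, Good E β q {a}) ↔
      ∀ q : ℕ, 0 < q → ∀ K : ℝ, ∃ P : ℕ, 0 < P ∧ q ∣ P ∧ K * 2 ^ P / √P ≤ nGood E β P := by
  classical
  constructor
  · intro h q hq K
    obtain ⟨m, hm⟩ := exists_nat_gt (K ^ 2)
    have hm1 : (0 : ℝ) < m := lt_of_le_of_lt (sq_nonneg K) hm
    have hm2 : 0 < m := by exact_mod_cast hm1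
    refine ⟨q * m, Nat.mul_pos hq hm2, dvd_mul_right _ _, ?_⟩
    have hP : 0 < q * m := Nat.mul_pos hq hm2
    have hfull : nGood E β (q * m) = 2 ^ (q * m) := by
      unfold nGood
      have h1 : (range (q * m)).powerset.filter (fun A => Good E β (q * m) A) =
          (range (q * m)).powerset := by
        rw [filter_eq_self]
        intro A hA s
        rw [mem_powerset] at hA
        rw [dens_iff (E s) (β s) hP hA]
        have h2 : avS (ces (ci (E s) (β s))) (fun N => N) (q * m) A =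
            fun N => ∑ j ∈ A, cls (ces (ci (E s) (β s))) (fun N => N) (q * m) N j := by
          funext N
          exact avS_eq _ _ _ _ _
        rw [h2]
        have h3 : (0 : ℝ) = ∑ j ∈ A, (0 : ℝ) := by simp
        rw [h3]
        refine tendsto_finsetSum _ fun j hj => ?_
        have hj1 : j < q * m := mem_range.1 (hA hj)
        have h4 := h (q * m) hP j hj1 s
        rw [dens_iff (E s) (β s) hP (by rw [singleton_subset_iff, mem_range]; exact hj1)] at h4
        have h5 : avS (ces (ci (E s) (β s))) (fun N => N) (q * m) {j} =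
            fun N => cls (ces (ci (E s) (β s))) (fun N => N) (q * m) N j := by
          funext N
          rw [avS_eq, sum_singleton]
        rw [h5] at h4
        exact h4
      rw [h1, card_powerset, card_range]
    rw [hfull]
    push_cast
    have hq1 : (1 : ℝ) ≤ q := by exact_mod_cast hq
    have hpos : (0 : ℝ) < (q : ℝ) * m := by positivity
    rw [div_le_iff₀ (Real.sqrt_pos.2 hpos), mul_comm]
    apply mul_le_mul_of_nonneg_left _ (by positivity)
    calc K ≤ |K| := le_abs_self K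
      _ = √(K ^ 2) := (Real.sqrt_sq_eq_abs K).symm
      _ ≤ √((q : ℝ) * m) := Real.sqrt_le_sqrt (by nlinarith)
  · intro h q hq a ha s
    rw [dens_iff (E s) (β s) hq (by rw [singleton_subset_iff, mem_range]; exact ha)]
    by_contra hcon
    obtain ⟨c, hc, hfr⟩ := not_tendsto_gen hcon
    obtain ⟨P, hP, hd, h2⟩ := h q hq (2 * (10 + 54 / c))
    have h3 := h2.trans (nGood_class E β hβ s hc a hfr hP hd)
    have hPr : (0 : ℝ) < P := by exact_mod_cast hP
    rw [div_le_div_iff_of_pos_right (Real.sqrt_pos.2 hPr)] at h3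
    have h4 : (0 : ℝ) < (10 + 54 / c) * 2 ^ P := by positivity
    linarith

open Classical in
/-- **Typical unions** -/
theorem dens_typical (E : ℕ → Prop) {β : ℝ} (h0 : 0 ≤ β) (h1 : β ≤ 1) {P N : ℕ} (hP : 0 < P)
    (hN : P ≤ N) {t : ℝ} (ht : 0 < t) :
    (((range P).powerset.filter (fun A => t / √P ≤
      |(densA E P A N - β * ((((Icc 1 N).filter (fun n => n % P ∈ A)).card : ℝ) / N)) -
        (densA E 1 {0} N - β) / 2|)).card : ℝ) ≤ 2 ^ P / t ^ 2 := by
  have hu : ∀ n, 1 ≤ n → |ci E β n| ≤ 1 := fun n _ => ci_le E h0 h1 n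
  have h2 := typical_av (ces (ci E β)) (fun N => N) hP (by norm_num : (0 : ℝ) < 2) N
    (fun j _ => ces_cls hu hP hN j) ht
  have hNr : (0 : ℝ) < N := by exact_mod_cast (lt_of_lt_of_le hP hN)
  have h3 : ∑ n ∈ Icc 1 N, ces (ci E β) N n = densA E 1 {0} N - β := by
    have h4 : avS (ces (ci E β)) (fun N => N) 1 {0} N = ∑ n ∈ Icc 1 N, ces (ci E β) N n := by
      unfold avS
      rw [full_filter]
    rw [← h4, avS_ci, full_filter, Nat.card_Icc]
    simp only [add_tsub_cancel_right]
    rw [div_self hNr.ne', mul_one]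
  rw [h3] at h2
  simp only [avS_ci] at h2
  have h4 : ∀ x y : ℝ, (t / √(P : ℝ) ≤ |x - y / 2| ↔ t * (2 / √(P : ℝ)) ≤ |2 * x - y|) := by
    intro x y
    have h5 : 2 * x - y = 2 * (x - y / 2) := by ring
    rw [h5, abs_mul, abs_of_pos (by norm_num : (0 : ℝ) < 2)]
    constructor <;> intro h
    · have : t * (2 / √(P : ℝ)) = 2 * (t / √P) := by ring
      linarith
    · have : t * (2 / √(P : ℝ)) = 2 * (t / √P) := by ring
      linarith
  simp only [h4]
  exact h2

end

end Q197.PS
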