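import Mathlib

/-! # The product of a map of a compact metric space and a finite rotation -/

set_option autoImplicit false
set_option linter.unusedSectionVars false
set_option linter.unusedVariables false

open Filter Topology Uniformity

namespace Q197.PS

/-- a finite cyclic space -/
structure Cyc (P : ℕ) where
  /-- the point -/
  val : ZMod P

lemma cyc_inj {P : ℕ} [NeZero P] : Function.Injective (fun c : Cyc P => ((c.val.val : ℕ) : ℝ)) := by
  rintro ⟨a⟩ ⟨b⟩ h
  simp only [Nat.cast_inj] at h
  rw [ZMod.val_injective P h]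

noncomputable instance (P : ℕ) [NeZero P] : MetricSpace (Cyc P) :=
  MetricSpace.induced (fun c : Cyc P => ((c.val.val : ℕ) : ℝ)) cyc_inj inferInstance

instance (P : ℕ) [NeZero P] : Finite (Cyc P) :=
  Finite.of_injective (fun c : Cyc P => c.val) (fun a b h => by cases a; cases b; congr 1)

/-- the product map -/
def skew {X : Type} (T : X → X) (P : ℕ) [NeZero P] : X × Cyc P → X × Cyc P :=
  fun y => (T y.1, ⟨y.2.val + 1⟩)

lemma skew_iter {X : Type} (T : X → X) (P : ℕ) [NeZero P] (n : ℕ) (x : X) (c : ZMod P) :
    (skew T P)^[n] (x, ⟨c⟩) = (T^[n] x, ⟨c + (n : ZMod P)⟩) := by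
  induction n with
  | zero => simp
  | succ n ih =>
    rw [Function.iterate_succ_apply', ih, Function.iterate_succ_apply']
    unfold skew
    simp only [Nat.cast_add, Nat.cast_one, add_assoc]

lemma skew_cont {X : Type} [MetricSpace X] {T : X → X} (hT : Continuous T) (P : ℕ) [NeZero P] :
    Continuous (skew T P) := by
  unfold skew
  refine (hT.comp continuous_fst).prodMk ?_
  have : Continuous (fun c : Cyc P => (⟨c.val + 1⟩ : Cyc P)) := continuous_of_discreteTopology
  exact this.comp continuous_snd

open Dynamics in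
/-- the entropy does not grow -/
theorem skew_entropy {X : Type} [MetricSpace X] (T : X → X) (P : ℕ) [NeZero P] :
    coverEntropy (skew T P) Set.univ ≤ coverEntropy T Set.univ := by
  classical
  have : Fintype (Cyc P) := Fintype.ofFinite _
  have hcard : Fintype.card (Cyc P) = P := by
    have e : Cyc P ≃ ZMod P := ⟨fun c => c.val, fun i => ⟨i⟩, fun c => by cases c; rfl, fun i => rfl⟩
    rw [Fintype.card_congr e, ZMod.card]
  refine iSup₂_le fun W hW => ?_
  obtain ⟨ε, hε, hW'⟩ := Metric.mem_uniformity_dist.1 hW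
  have hU : {p : X × X | dist p.1 p.2 < ε} ∈ 𝓤 X := Metric.dist_mem_uniformity hε
  refine le_trans ?_ (coverEntropyEntourage_le_coverEntropy T Set.univ hU)
  unfold coverEntropyEntourage
  refine ExpGrowth.expGrowthSup_le_of_eventually_le (b := (P : ENNReal)) (ENNReal.natCast_ne_top P)
    (Eventually.of_forall fun n => ?_)
  by_cases htop : coverMincard T Set.univ {p : X × X | dist p.1 p.2 < ε} n = ⊤
  · rw [htop, ENat.toENNReal_top, ENNReal.mul_top (by exact_mod_cast NeZero.ne P)]
    exact le_top
  · obtain ⟨s, hs, hc⟩ := (coverMincard_finite_iff _ _ _ _).1 (lt_top_iff_ne_top.2 htop)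
    rw [← hc]
    have h1 : IsDynCoverOf (skew T P) Set.univ W n ((s ×ˢ (Finset.univ : Finset (Cyc P)) : Finset (X × Cyc P)) : Set (X × Cyc P)) := by
      rintro ⟨x, c⟩ -
      obtain ⟨y, hy, hxy⟩ := hs (Set.mem_univ x)
      refine ⟨(y, c), by simpa using hy, ?_⟩
      rw [mem_dynEntourage] at hxy ⊢
      intro k hk
      have h2 := hxy k hk
      obtain ⟨c⟩ := c
      rw [skew_iter, skew_iter]
      apply hW'
      rw [Prod.dist_eq, dist_self]
      exact max_lt h2 hε
    have h2 := h1.coverMincard_le_card
    rw [Finset.card_product, Finset.card_univ, hcard] at h2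
    calc ((coverMincard (skew T P) Set.univ W n : ℕ∞) : ENNReal)
        ≤ (((s.card * P : ℕ) : ℕ∞) : ENNReal) := ENat.toENNReal_mono h2
      _ = (P : ENNReal) * ((s.card : ℕ∞) : ENNReal) := by
        push_cast
        rw [mul_comm]

end Q197.PS
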