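import Pool.Agent.Q263.CN.Disc
import Pool.Agent.Results.MP_695920_nt.LogSavingAllDegrees

/-! # Fundamental discriminants: existence of the field, torsion of the class group, counting -/

set_option autoImplicit false

open Finset Filter Topology

namespace Q197.PS

/-- fundamental discriminants -/
def IsFund (D : ℤ) : Prop :=
  (D % 4 = 1 ∧ D ≠ 1 ∧ Squarefree D) ∨ (∃ m : ℤ, D = 4 * m ∧ (m % 4 = 2 ∨ m % 4 = 3) ∧ Squarefree m)

lemma finrank_eq' (K : Type) [Field K] [CharZero K] (i : Algebra ℚ K)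
    (h : @Module.finrank ℚ K _ _ i.toModule = 2) : Module.finrank ℚ K = 2 := by
  have e : i = DivisionRing.toRatAlgebra := Subsingleton.elim _ _
  subst e
  exact h

lemma irr_sq (d : ℤ) (hd : d ≠ 1) (hs : Squarefree d) :
    Irreducible (Polynomial.X ^ 2 - Polynomial.C (d : ℚ)) := by
  apply X_pow_sub_C_irreducible_of_prime Nat.prime_two
  intro b hb
  exact Q263.CN.not_sq hd hs b hb

lemma exists_field' (d : ℤ) (hd : d ≠ 1) (hs : Squarefree d) :
    ∃ (K : Type) (_ : Field K) (_ : NumberField K),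
      Module.finrank ℚ K = 2 ∧ ∃ x : K, x ^ 2 = (d : K) := by
  have hF : Fact (Irreducible (Polynomial.X ^ 2 - Polynomial.C (d : ℚ))) := ⟨irr_sq d hd hs⟩
  refine ⟨AdjoinRoot (Polynomial.X ^ 2 - Polynomial.C (d : ℚ)), inferInstance, inferInstance, ?_,
    AdjoinRoot.root _, ?_⟩
  · have h1 := (AdjoinRoot.powerBasis (irr_sq d hd hs).ne_zero).finrank
    rw [AdjoinRoot.powerBasis_dim, Polynomial.natDegree_X_pow_sub_C] at h1
    exact finrank_eq' (AdjoinRoot (Polynomial.X ^ 2 - Polynomial.C (d : ℚ)))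
      (AdjoinRoot.instAlgebra (Polynomial.X ^ 2 - Polynomial.C (d : ℚ))) h1
  · have h1 := AdjoinRoot.eval₂_root (Polynomial.X ^ 2 - Polynomial.C (d : ℚ))
    rw [Polynomial.eval₂_sub, Polynomial.eval₂_X_pow, Polynomial.eval₂_C, sub_eq_zero] at h1
    have h2 : (AdjoinRoot.of (Polynomial.X ^ 2 - Polynomial.C (d : ℚ))) (d : ℚ) =
        (d : AdjoinRoot (Polynomial.X ^ 2 - Polynomial.C (d : ℚ))) := map_intCast _ d
    exact h1.trans h2

/-- the field of discriminant `D` -/
theorem exists_disc (D : ℤ) (hD : IsFund D) : ∃ (K : Type) (_ : Field K) (_ : NumberField K),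
    Module.finrank ℚ K = 2 ∧ NumberField.discr K = D := by
  rcases hD with ⟨h1, h2, h3⟩ | ⟨m, hm, hm4, hms⟩
  · obtain ⟨K, i1, i2, hK, x, hx⟩ := exists_field' D h2 h3
    refine ⟨K, i1, i2, hK, ?_⟩
    rw [Q263.CN.discr_quadratic h2 h3 hK x hx, if_pos h1]
  · have hm1 : m ≠ 1 := by omega
    obtain ⟨K, i1, i2, hK, x, hx⟩ := exists_field' m hm1 hms
    refine ⟨K, i1, i2, hK, ?_⟩
    rw [Q263.CN.discr_quadratic hm1 hms hK x hx, if_neg (by omega), hm]

lemma sqrt_div_log {y N : ℝ} (h3 : 3 ≤ y) (hy : y ≤ N) : √y / Real.log y ≤ 4 * (√N / Real.log N) := by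
  have hN : 3 ≤ N := h3.trans hy
  have hN0 : 0 < N := by linarith
  have hy0 : 0 < y := by linarith
  have hlog3 : 1 ≤ Real.log 3 := by
    rw [Real.le_log_iff_exp_le (by norm_num)]
    have := Real.exp_one_lt_d9
    linarith
  have hly : 1 ≤ Real.log y := hlog3.trans (Real.log_le_log (by norm_num) h3)
  have hlN : 1 ≤ Real.log N := hlog3.trans (Real.log_le_log (by norm_num) hN)
  rcases le_or_gt (√N) y with h | h
  · have h1 : Real.log N ≤ 2 * Real.log y := by
      have h2 := Real.log_le_log (Real.sqrt_pos.2 hN0) h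
      rw [Real.log_sqrt hN0.le] at h2
      linarith
    calc √y / Real.log y ≤ √N / Real.log y := by gcongr
      _ ≤ √N / (Real.log N / 2) := by
          gcongr
          linarith
      _ = 2 * (√N / Real.log N) := by field_simp
      _ ≤ _ := by
          have : 0 ≤ √N / Real.log N := by positivity
          linarith
  · have h1 : √y ≤ √(√N) := Real.sqrt_le_sqrt h.le
    have h2 : Real.log N ≤ 4 * √(√N) := by
      have h3 : Real.log N = 4 * Real.log (√(√N)) := by
        rw [Real.log_sqrt (Real.sqrt_nonneg _), Real.log_sqrt hN0.le]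
        ring
      rw [h3]
      have h4 := Real.log_le_self (Real.sqrt_nonneg (√N))
      linarith
    have h3 : √(√N) * √(√N) = √N := Real.mul_self_sqrt (Real.sqrt_nonneg _)
    calc √y / Real.log y ≤ √y := div_le_self (Real.sqrt_nonneg _) hly
      _ ≤ √(√N) := h1
      _ ≤ 4 * (√N / Real.log N) := by
          rw [← mul_div_assoc, le_div_iff₀ (by linarith)]
          calc √(√N) * Real.log N ≤ √(√N) * (4 * √(√N)) := mul_le_mul_of_nonneg_left h2 (Real.sqrt_nonneg _)
            _ = 4 * (√(√N) * √(√N)) := by ring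
            _ = 4 * √N := by rw [h3]

/-- **the torsion of class groups of quadratic fields** -/
theorem tor_le (p : ℕ) (hp : p.Prime) (hp2 : p ≠ 2) : ∃ C : ℝ, 0 < C ∧ ∀ f : ℤ → ℕ,
    (∀ (K : Type) [Field K] [NumberField K], Module.finrank ℚ K = 2 →
      f (NumberField.discr K) = Nat.card {x : ClassGroup (NumberField.RingOfIntegers K) // x ^ p = 1}) →
    ∀ N : ℕ, ∀ D : ℤ, IsFund D → |(D : ℝ)| ≤ N → (f D : ℝ) ≤ C * (√N / Real.log N) := by
  obtain ⟨C, hC, h⟩ := Pool.Agent.Results.MP_695920_nt.LogSavingAllDegrees.result 2 le_rfl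
  refine ⟨C * p ^ 2 * 4, by have := hp.pos; positivity, fun f hf N D hD hDN => ?_⟩
  obtain ⟨K, i1, i2, hK, hd⟩ := exists_disc D hD
  have h1 := ((h p hp.one_le K hK).1 ((Nat.coprime_primes hp Nat.prime_two).2 hp2)).1
  have h2 := hf K hK
  rw [← h2, hd] at h1
  have h3 : (3 : ℝ) ≤ |(D : ℝ)| := by
    have h4 := NumberField.abs_discr_gt_two (K := K) (by rw [hK]; norm_num)
    rw [hd] at h4
    have h5 : (3 : ℤ) ≤ |D| := by omega
    exact_mod_cast h5
  refine h1.trans ?_
  have h6 := sqrt_div_log h3 hDN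
  calc C * (p : ℝ) ^ 2 * (√|(D : ℝ)| / Real.log |(D : ℝ)|) ≤ C * (p : ℝ) ^ 2 * (4 * (√N / Real.log N)) := by
        gcongr
    _ = _ := by ring

lemma sum_odd_sq (K : ℕ) : ∑ k ∈ Icc 1 K, (1 : ℝ) / (2 * (k : ℝ) + 1) ^ 2 ≤ 1 / 4 - 1 / (4 * ((K : ℝ) + 1)) := by
  induction K with
  | zero => simp
  | succ K ih =>
    rw [sum_Icc_succ_top (by omega)]
    have h1 : (1 : ℝ) / (2 * ((K + 1 : ℕ) : ℝ) + 1) ^ 2 ≤ 1 / (4 * ((K : ℝ) + 1)) - 1 / (4 * ((K : ℝ) + 1 + 1)) := by
      rw [div_sub_div _ _ (by positivity) (by positivity), div_le_div_iff₀ (by positivity) (by positivity)]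
      push_cast
      nlinarith [sq_nonneg ((K : ℝ) + 1)]
    push_cast at h1 ⊢
    linarith

/-- many squarefree numbers in the classes `1` and `3` modulo four -/
theorem count_sqf (r : ℕ) (hr : r = 1 ∨ r = 3) (N : ℕ) : (N : ℝ) / 8 - √N - 1 ≤
    (((range N).filter (fun n => n % 4 = r ∧ Squarefree n)).card : ℝ) := by
  obtain ⟨K, hK⟩ : ∃ K : ℕ, K = Nat.sqrt N := ⟨_, rfl⟩
  have hsub : (range N).filter (fun n => n % 4 = r) ⊆
      (range N).filter (fun n => n % 4 = r ∧ Squarefree n) ∪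
        (Icc 1 K).biUnion (fun k => (range N).filter (fun n => n % 2 = 1 ∧ (2 * k + 1) ^ 2 ∣ n)) := by
    intro n hn
    rw [mem_filter, mem_range] at hn
    rw [mem_union]
    by_cases hs : Squarefree n
    · left
      rw [mem_filter, mem_range]
      exact ⟨hn.1, hn.2, hs⟩
    · right
      rw [Nat.squarefree_iff_prime_squarefree] at hs
      push Not at hs
      obtain ⟨p, hp, hpn⟩ := hs
      have hn0 : 0 < n := by omega
      have hn2 : n % 2 = 1 := by omega
      have hp2 : p % 2 = 1 := by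
        rcases hp.eq_two_or_odd with h | h
        · rw [h] at hpn
          obtain ⟨t, ht⟩ := hpn
          omega
        · exact h
      have hp3 := hp.two_le
      have hle := Nat.le_of_dvd hn0 hpn
      have hpK : p ≤ K := by
        rw [hK, Nat.le_sqrt]
        omega
      rw [mem_biUnion]
      refine ⟨(p - 1) / 2, ?_, ?_⟩
      · rw [mem_Icc]
        omega
      · rw [mem_filter, mem_range]
        refine ⟨hn.1, hn2, ?_⟩
        have : 2 * ((p - 1) / 2) + 1 = p := by omega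
        rw [this, sq]
        exact hpn
  have h1 := (card_le_card hsub).trans (card_union_le _ _)
  have h2 : ((range N).filter (fun n => n % 4 = r)).card ≥ N / 4 := by
    have h3 : (range (N / 4)).image (fun i => 4 * i + r) ⊆ (range N).filter (fun n => n % 4 = r) := by
      intro n hn
      rw [mem_image] at hn
      obtain ⟨i, hi, rfl⟩ := hn
      rw [mem_range] at hi
      rw [mem_filter, mem_range]
      omega
    have h4 := card_le_card h3
    rw [card_image_of_injective _ (fun a b hab => by have h : 4 * a + r = 4 * b + r := hab; omega), card_range] at h4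
    exact h4
  have h3 : ((((Icc 1 K).biUnion (fun k => (range N).filter (fun n => n % 2 = 1 ∧ (2 * k + 1) ^ 2 ∣ n))).card : ℕ) : ℝ) ≤
      (N : ℝ) / 8 + √N := by
    have h4 : ((((Icc 1 K).biUnion (fun k => (range N).filter (fun n => n % 2 = 1 ∧ (2 * k + 1) ^ 2 ∣ n))).card : ℕ) : ℝ) ≤
        ∑ k ∈ Icc 1 K, (((range N).filter (fun n => n % 2 = 1 ∧ (2 * k + 1) ^ 2 ∣ n)).card : ℝ) := by
      exact_mod_cast card_biUnion_le
    refine h4.trans ?_
    have h5 : ∀ k ∈ Icc 1 K, (((range N).filter (fun n => n % 2 = 1 ∧ (2 * k + 1) ^ 2 ∣ n)).card : ℝ) ≤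
        (N : ℝ) / 2 * (1 / (2 * (k : ℝ) + 1) ^ 2) + 1 := by
      intro k _
      have h6 : (range N).filter (fun n => n % 2 = 1 ∧ (2 * k + 1) ^ 2 ∣ n) ⊆
          (range (N / (2 * (2 * k + 1) ^ 2) + 1)).image (fun i => (2 * k + 1) ^ 2 * (2 * i + 1)) := by
        intro n hn
        rw [mem_filter, mem_range] at hn
        obtain ⟨hnN, hn2, j, hj⟩ := hn
        have hj2 : j % 2 = 1 := by
          by_contra hcon
          have : j % 2 = 0 := by omega
          rw [hj, Nat.mul_mod, this, mul_zero, Nat.zero_mod] at hn2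
          omega
        rw [mem_image]
        refine ⟨j / 2, ?_, ?_⟩
        · rw [mem_range, Nat.lt_succ_iff, Nat.le_div_iff_mul_le (by positivity)]
          have h7 : j / 2 * (2 * (2 * k + 1) ^ 2) ≤ (2 * k + 1) ^ 2 * j := by
            have : j / 2 * 2 ≤ j := by omega
            calc j / 2 * (2 * (2 * k + 1) ^ 2) = (2 * k + 1) ^ 2 * (j / 2 * 2) := by ring
              _ ≤ _ := Nat.mul_le_mul_left _ this
          omega
        · have : 2 * (j / 2) + 1 = j := by omega
          rw [this, ← hj]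
      have h7 := (card_le_card h6).trans card_image_le
      rw [card_range] at h7
      have h8 : (((range N).filter (fun n => n % 2 = 1 ∧ (2 * k + 1) ^ 2 ∣ n)).card : ℝ) ≤
          ((N / (2 * (2 * k + 1) ^ 2) : ℕ) : ℝ) + 1 := by exact_mod_cast h7
      have h9 : ((N / (2 * (2 * k + 1) ^ 2) : ℕ) : ℝ) ≤ (N : ℝ) / ((2 * (2 * k + 1) ^ 2 : ℕ) : ℝ) := Nat.cast_div_le
      refine h8.trans ?_
      push_cast at h9
      have h10 : (N : ℝ) / (2 * (2 * (k : ℝ) + 1) ^ 2) = (N : ℝ) / 2 * (1 / (2 * (k : ℝ) + 1) ^ 2) := by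
        field_simp
      linarith
    refine (sum_le_sum h5).trans ?_
    rw [sum_add_distrib, ← mul_sum, sum_const, Nat.card_Icc, Nat.add_sub_cancel, nsmul_eq_mul, mul_one]
    have h6 := sum_odd_sq K
    have h7 : (0 : ℝ) ≤ 1 / (4 * ((K : ℝ) + 1)) := by positivity
    have h8 : (N : ℝ) / 2 * ∑ k ∈ Icc 1 K, (1 : ℝ) / (2 * (k : ℝ) + 1) ^ 2 ≤ (N : ℝ) / 2 * (1 / 4) := by
      refine mul_le_mul_of_nonneg_left (by linarith) (by positivity)
    have h9 : (K : ℝ) ≤ √N := by
      rw [hK]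
      exact Real.nat_sqrt_le_real_sqrt
    linarith
  have h4 : (N : ℝ) / 4 - 1 ≤ ((N / 4 : ℕ) : ℝ) := by
    have : N ≤ 4 * (N / 4) + 3 := by omega
    have : (N : ℝ) ≤ 4 * ((N / 4 : ℕ) : ℝ) + 3 := by exact_mod_cast this
    linarith
  have h5 : ((N / 4 : ℕ) : ℝ) ≤ (((range N).filter (fun n => n % 4 = r ∧ Squarefree n)).card : ℝ) +
      ((((Icc 1 K).biUnion (fun k => (range N).filter (fun n => n % 2 = 1 ∧ (2 * k + 1) ^ 2 ∣ n))).card : ℕ) : ℝ) := by
    exact_mod_cast h2.trans h1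
  linarith

end Q197.PS
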