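import Pool.Agent.Q197.PS.Y

/-! # Complex arrays with colours: the general statement -/

set_option autoImplicit false
set_option linter.unusedSectionVars false
set_option linter.unusedVariables false

open Finset Filter Topology

namespace Q197.PS

section

variable {ι α κ : Type} {l : Filter ι}

open Classical in
/-- the sum over the points with colour in `A` -/
noncomputable def sG (E : ι → Finset α) (t : ι → α → ℂ) (col : α → κ) (A : Finset κ) (i : ι) : ℂ :=
  ∑ x ∈ (E i).filter (fun x => col x ∈ A), t i x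

open Classical in
lemma sG_eq (E : ι → Finset α) (t : ι → α → ℂ) (col : α → κ) (A : Finset κ) (i : ι) :
    sG E t col A i = ∑ j ∈ A, ∑ x ∈ (E i).filter (fun x => col x = j), t i x := by
  unfold sG
  rw [← sum_fiberwise_of_maps_to (s := (E i).filter (fun x => col x ∈ A)) (t := A)
    (g := fun x => col x) (fun x hx => (mem_filter.1 hx).2)]
  refine sum_congr rfl fun j hj => ?_
  congr 1
  ext x
  simp only [mem_filter]
  constructor
  · rintro ⟨⟨h1, h2⟩, h3⟩
    exact ⟨h1, h3⟩
  · rintro ⟨h1, h3⟩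
    exact ⟨⟨h1, by rw [h3]; exact hj⟩, h3⟩

open Classical in
/-- the number of the sets of colours along which the sums tend to zero -/
noncomputable def nG (l : Filter ι) (E : ι → Finset α) (t : ι → α → ℂ) (col : α → κ) (K : Finset κ) : ℕ :=
  (K.powerset.filter (fun A => Tendsto (sG E t col A) l (𝓝 0))).card

open Classical in
/-- **The general statement** -/
theorem few_gen (K : Finset κ) (hK : K.Nonempty) (E : ι → Finset α) (t : ι → α → ℂ) (col : α → κ)
    {B c : ℝ} (hB : 1 ≤ B) (hc : 0 < c)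
    (hcl : ∀ᶠ i in l, ∀ j ∈ K, ∑ x ∈ (E i).filter (fun x => col x = j), ‖t i x‖ ≤ B / K.card)
    {K' : Finset κ} (hK' : K' ⊆ K) (hfr : ∃ᶠ i in l, c ≤ ‖sG E t col K' i‖) :
    (nG l E t col K : ℝ) ≤ 54 * B * (1 + 1 / c) * 2 ^ K.card / √K.card := by
  have hKr : (0 : ℝ) < K.card := by exact_mod_cast card_pos.2 hK
  obtain ⟨a, ha⟩ : ∃ a : ι → κ → ℂ, a = fun i j => ∑ x ∈ (E i).filter (fun x => col x = j), t i x := ⟨_, rfl⟩
  have hsa : ∀ A i, sG E t col A i = ∑ j ∈ A, a i j := by
    intro A i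
    rw [sG_eq, ha]
  have hna : ∀ᶠ i in l, ∀ j ∈ K, ‖a i j‖ ≤ B / K.card := by
    filter_upwards [hcl] with i hi j hj
    rw [ha]
    exact (norm_sum_le _ _).trans (hi j hj)
  have h0 : (∃ᶠ i in l, c / 2 ≤ |∑ j ∈ K', (a i j).re|) ∨ (∃ᶠ i in l, c / 2 ≤ |∑ j ∈ K', (a i j).im|) := by
    rw [← frequently_or_distrib]
    refine hfr.mono fun i hi => ?_
    have h1 := Complex.norm_le_abs_re_add_abs_im (sG E t col K' i)
    rw [hsa, Complex.re_sum, Complex.im_sum] at h1
    rw [hsa] at hi
    by_contra hcon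
    push Not at hcon
    linarith [hcon.1, hcon.2]
  have hfin : (5 + 27 / (c / 2)) * (B / √(K.card : ℝ)) * 2 ^ K.card ≤
      54 * B * (1 + 1 / c) * 2 ^ K.card / √K.card := by
    have h1 : 5 + 27 / (c / 2) ≤ 54 * (1 + 1 / c) := by
      have : 27 / (c / 2) = 54 * (1 / c) := by field_simp; norm_num
      rw [this]
      linarith
    calc (5 + 27 / (c / 2)) * (B / √(K.card : ℝ)) * 2 ^ K.card
        ≤ (54 * (1 + 1 / c)) * (B / √(K.card : ℝ)) * 2 ^ K.card := by gcongr
      _ = _ := by ring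
  have hsub : ∀ (b : ι → κ → ℝ), (∀ᶠ i in l, ∀ j ∈ K, |b i j| ≤ B / K.card) →
      (∃ᶠ i in l, c / 2 ≤ |∑ j ∈ K', b i j|) →
      (∀ A, Tendsto (fun i => ∑ j ∈ A, a i j) l (𝓝 0) → Tendsto (fun i => ∑ j ∈ A, b i j - 0) l (𝓝 0)) →
      (nG l E t col K : ℝ) ≤ 54 * B * (1 + 1 / c) * 2 ^ K.card / √K.card := by
    intro b hb1 hb2 hb3
    have h1 := few_col (l := l) K hK b (c0 := c / 2) (B := B) (by positivity) hB hb1
      (hb2.mono fun i hi => hi.trans ((abs_sum_le_sum_abs _ _).trans
        (sum_le_sum_of_subset_of_nonneg hK' fun j _ _ => abs_nonneg _))) (fun _ => 0)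
    refine le_trans ?_ (h1.trans hfin)
    unfold nG
    have h3 : K.powerset.filter (fun A => Tendsto (sG E t col A) l (𝓝 0)) ⊆
        K.powerset.filter (fun A => Tendsto (fun i => ∑ j ∈ A, b i j - 0) l (𝓝 0)) := by
      intro A hA
      rw [mem_filter] at hA ⊢
      refine ⟨hA.1, hb3 A ?_⟩
      exact hA.2.congr fun i => hsa A i
    exact_mod_cast card_le_card h3
  rcases h0 with h0 | h0
  · refine hsub (fun i j => (a i j).re) ?_ h0 ?_
    · filter_upwards [hna] with i hi j hj
      exact (Complex.abs_re_le_norm _).trans (hi j hj)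
    · intro A hA
      have h2 := (Complex.continuous_re.tendsto 0).comp hA
      rw [Complex.zero_re] at h2
      refine h2.congr fun i => ?_
      simp only [Function.comp_apply, Complex.re_sum, sub_zero]
  · refine hsub (fun i j => (a i j).im) ?_ h0 ?_
    · filter_upwards [hna] with i hi j hj
      exact (Complex.abs_im_le_norm _).trans (hi j hj)
    · intro A hA
      have h2 := (Complex.continuous_im.tendsto 0).comp hA
      rw [Complex.zero_im] at h2
      refine h2.congr fun i => ?_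
      simp only [Function.comp_apply, Complex.im_sum, sub_zero]

lemma not_tendstoG {a : ι → ℂ} (h : ¬ Tendsto a l (𝓝 0)) : ∃ c : ℝ, 0 < c ∧ ∃ᶠ i in l, c ≤ ‖a i‖ := by
  by_contra hcon
  push Not at hcon
  apply h
  rw [tendsto_zero_iff_norm_tendsto_zero]
  rw [Metric.tendsto_nhds]
  intro ε hε
  filter_upwards [hcon ε hε] with i hi
  rw [Real.dist_eq, sub_zero, abs_norm]
  exact hi

/-- classes refine -/
lemma sG_lift (E : ι → Finset α) (t : ι → α → ℂ) (col col' : α → κ) {K K' K'' : Finset κ}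
    (h : ∀ i, ∀ x ∈ E i, col' x ∈ K'' ↔ col x ∈ K') (i : ι) : sG E t col' K'' i = sG E t col K' i := by
  classical
  unfold sG
  congr 1
  ext x
  simp only [mem_filter]
  constructor
  · rintro ⟨h1, h2⟩
    exact ⟨h1, (h i x h1).1 h2⟩
  · rintro ⟨h1, h2⟩
    exact ⟨h1, (h i x h1).2 h2⟩

end

end Q197.PS
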