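import Pool.Agent.Q197.PS.GC

/-! # Uniform families of sequences along random unions of residue classes -/

set_option autoImplicit false
set_option linter.unusedSectionVars false
set_option linter.unusedVariables false

open Finset Filter Topology

namespace Q197.PS

section

variable {ι : Type} {l : Filter ι}

/-- the mean over the `n ≤ X i` with `n mod P ∈ A` of `u i n` -/
noncomputable def mU (u : ι → ℕ → ℂ) (X : ι → ℝ) (P : ℕ) (A : Finset ℕ) (i : ι) : ℂ :=
  (∑ n ∈ (Icc 1 ⌊X i⌋₊).filter (fun n => n % P ∈ A), u i n) / (X i : ℂ)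

open Classical in
/-- the number of the good unions -/
noncomputable def nU (l : Filter ι) (u : ι → ℕ → ℂ) (X : ι → ℝ) (P : ℕ) : ℕ :=
  ((range P).powerset.filter (fun A => Tendsto (mU u X P A) l (𝓝 0))).card

lemma mU_eq (u : ι → ℕ → ℂ) (X : ι → ℝ) (P : ℕ) (A : Finset ℕ) (i : ι) :
    mU u X P A i = sG (fun i => Icc 1 ⌊X i⌋₊) (fun i n => u i n / (X i : ℂ)) (fun n => n % P) A i := by
  classical
  unfold mU sG
  rw [sum_div]
  refine sum_congr ?_ fun _ _ => rfl
  ext n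
  simp only [mem_filter]

theorem few_U {u : ι → ℕ → ℂ} (hu : ∀ i n, ‖u i n‖ ≤ 1) {X : ι → ℝ} (hX : Tendsto X l atTop) {c : ℝ}
    (hc : 0 < c) (q : ℕ) (B : Finset ℕ) (hfr : ∃ᶠ i in l, c ≤ ‖mU u X q B i‖) {P : ℕ} (hP : 0 < P)
    (hd : q ∣ P) : (nU l u X P : ℝ) ≤ 108 * (1 + 1 / c) * 2 ^ P / √P := by
  classical
  have hPr : (0 : ℝ) < P := by exact_mod_cast hP
  have h1 := few_gen (l := l) (range P) (nonempty_range_iff.2 hP.ne') (fun i => Icc 1 ⌊X i⌋₊)
    (fun i n => u i n / (X i : ℂ)) (fun n => n % P) (B := 2) (c := c) (by norm_num) hc ?_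
    (K' := (range P).filter (fun j => j % q ∈ B)) (filter_subset _ _) ?_
  · rw [card_range] at h1
    have h2 : nU l u X P = nG l (fun i => Icc 1 ⌊X i⌋₊) (fun i n => u i n / (X i : ℂ)) (fun n => n % P)
        (range P) := by
      unfold nU nG
      have h3 : ∀ A, mU u X P A = sG (fun i => Icc 1 ⌊X i⌋₊) (fun i n => u i n / (X i : ℂ))
          (fun n => n % P) A := fun A => funext fun i => mU_eq u X P A i
      simp only [h3]
    rw [h2]
    refine h1.trans (le_of_eq ?_)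
    ring
  · filter_upwards [hX.eventually_ge_atTop (P : ℝ)] with i hi j _
    have hX0 : 0 < X i := lt_of_lt_of_le hPr hi
    rw [card_range]
    have hinst : ∑ x ∈ @filter ℕ (fun x => x % P = j) (fun x => Classical.propDecidable _) (Icc 1 ⌊X i⌋₊),
        ‖u i x / (X i : ℂ)‖ = ∑ x ∈ (Icc 1 ⌊X i⌋₊).filter (fun x => x % P = j), ‖u i x / (X i : ℂ)‖ :=
      sum_congr (by ext x; simp only [mem_filter]) fun _ _ => rfl
    refine le_trans (le_of_eq hinst) ?_
    calc ∑ x ∈ (Icc 1 ⌊X i⌋₊).filter (fun x => x % P = j), ‖u i x / (X i : ℂ)‖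
        ≤ ∑ x ∈ (Icc 1 ⌊X i⌋₊).filter (fun x => x % P = j), 1 / X i := by
          refine sum_le_sum fun x _ => ?_
          rw [norm_div, Complex.norm_real, Real.norm_of_nonneg hX0.le]
          exact div_le_div_of_nonneg_right (hu i x) hX0.le
      _ = (((Icc 1 ⌊X i⌋₊).filter (fun x => x % P = j)).card : ℝ) * (1 / X i) := by
          rw [sum_const, nsmul_eq_mul]
      _ ≤ (X i / P + 1) * (1 / X i) := by
          apply mul_le_mul_of_nonneg_right _ (by positivity)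
          have h3 := card_class_le hP ⌊X i⌋₊ j
          have h4 : (((⌊X i⌋₊ / P : ℕ) : ℝ)) ≤ (⌊X i⌋₊ : ℝ) / P := Nat.cast_div_le
          have h5 : (⌊X i⌋₊ : ℝ) ≤ X i := Nat.floor_le hX0.le
          have h6 : (((Icc 1 ⌊X i⌋₊).filter (fun n => n % P = j)).card : ℝ) ≤ ((⌊X i⌋₊ / P : ℕ) : ℝ) + 1 := by
            exact_mod_cast h3
          have h7 : (⌊X i⌋₊ : ℝ) / P ≤ X i / P := by gcongr
          linarith
      _ = 1 / P + 1 / X i := by field_simp
      _ ≤ 1 / P + 1 / P := by gcongr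
      _ = 2 / P := by ring
  · refine hfr.mono fun i hi => hi.trans (le_of_eq ?_)
    rw [← mU_eq]
    unfold mU
    congr 3
    ext n
    simp only [mem_filter, mem_range]
    constructor
    · rintro ⟨h1, h2⟩
      exact ⟨h1, Nat.mod_lt _ hP, by rw [Nat.mod_mod_of_dvd _ hd]; exact h2⟩
    · rintro ⟨h1, h2, h3⟩
      exact ⟨h1, by rw [Nat.mod_mod_of_dvd _ hd] at h3; exact h3⟩

lemma mU_add (u : ι → ℕ → ℂ) (X : ι → ℝ) (P : ℕ) (A : Finset ℕ) (i : ι) :
    mU u X P A i = ∑ j ∈ A, mU u X P {j} i := by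
  classical
  rw [mU_eq, sG_eq]
  refine sum_congr rfl fun j _ => ?_
  rw [mU_eq, sG_eq, sum_singleton]

/-- **Single classes and a small share of the unions** -/
theorem U_iff {u : ι → ℕ → ℂ} (hu : ∀ i n, ‖u i n‖ ≤ 1) {X : ι → ℝ} (hX : Tendsto X l atTop) :
    (∀ q : ℕ, 0 < q → ∀ a < q, Tendsto (mU u X q {a}) l (𝓝 0)) ↔
      ∀ q : ℕ, 0 < q → ∀ K : ℝ, ∃ P : ℕ, 0 < P ∧ q ∣ P ∧ K * 2 ^ P / √P ≤ nU l u X P := by
  classical
  constructor
  · intro h q hq K
    obtain ⟨P, hP, hd, hK⟩ := sqrt_large q hq K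
    refine ⟨P, hP, hd, hK.trans (le_of_eq ?_)⟩
    have h3 : nU l u X P = 2 ^ P := by
      unfold nU
      rw [filter_eq_self.2, card_powerset, card_range]
      intro A hA
      rw [mem_powerset] at hA
      have h4 : mU u X P A = fun i => ∑ j ∈ A, mU u X P {j} i := funext fun i => mU_add u X P A i
      rw [h4]
      have h7 : (0 : ℂ) = ∑ j ∈ A, (0 : ℂ) := by simp
      rw [h7]
      exact tendsto_finsetSum _ fun j hj => h P hP j (mem_range.1 (hA hj))
    rw [h3]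
    push_cast
    ring
  · intro h q hq a ha
    by_contra hcon
    obtain ⟨c, hc, hfr⟩ := not_tendstoG hcon
    obtain ⟨P, hP, hd, h6⟩ := h q hq (2 * (108 * (1 + 1 / c)))
    exact contra' hP (by positivity) le_rfl h6 (few_U hu hX hc q {a} hfr hP hd)

/-- **The full mean** -/
theorem U_all {u : ι → ℕ → ℂ} (hu : ∀ i n, ‖u i n‖ ≤ 1) {X : ι → ℝ} (hX : Tendsto X l atTop)
    (h : ∀ K : ℝ, ∃ P : ℕ, 0 < P ∧ K * 2 ^ P / √P ≤ nU l u X P) : Tendsto (mU u X 1 {0}) l (𝓝 0) := by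
  classical
  by_contra hcon
  obtain ⟨c, hc, hfr⟩ := not_tendstoG hcon
  obtain ⟨P, hP, h6⟩ := h (2 * (108 * (1 + 1 / c)))
  exact contra' hP (by positivity) le_rfl h6 (few_U hu hX hc 1 {0} hfr hP (one_dvd P))

end

end Q197.PS
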