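import Pool.Agent.Q197.CI.D2
import Pool.Agent.Q197.CI.RowK

/-!
# Values of a function at the elements of the random set, plus an element
-/

set_option autoImplicit false

namespace Pool.Agent.Q197.PS

open Finset Filter MeasureTheory Pool.Agent.Q120.ET Pool.Agent.Q120.MF Pool.Agent.Q197.CI
open scoped Topology

/-- Eventually strictly increasing functions of polynomial growth with positive values. -/
structure Gr (g : ℕ → ℕ) (j0 : ℕ) (D : ℕ) : Prop where
  pos : ∀ j, 1 ≤ g j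
  mono : ∀ j j', j0 ≤ j → j < j' → g j < g j'
  small : ∀ j, j < j0 → ∀ j', j0 ≤ j' → g j < g j'
  pol : ∀ j : ℕ, (g j : ℝ) ≤ ((j : ℝ) + 2) ^ D

/-- `i` is the value of `g` at an element of `S`. -/
def Wg (g : ℕ → ℕ) (i : ℕ) (S : Set ℕ) : Prop := ∃ j, 3 ≤ j ∧ j ∈ S ∧ g j = i

variable {g : ℕ → ℕ} {j0 D : ℕ}

theorem Gr.ge (hg : Gr g j0 D) (j : ℕ) : j ≤ g j + j0 := by
  rcases Nat.lt_or_ge j j0 with h | h
  · omega
  · induction j, h using Nat.le_induction with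
    | base => omega
    | succ j hj ih =>
      have := hg.mono j (j + 1) hj (by omega)
      omega

theorem Gr.le_iff (hg : Gr g j0 D) {j k : ℕ} (hk : j0 ≤ k) : g j ≤ g k ↔ j ≤ k := by
  constructor
  · intro h
    by_contra hlt
    push Not at hlt
    have := hg.mono k j hk hlt
    omega
  · intro h
    rcases Nat.lt_or_ge j j0 with h1 | h1
    · exact (hg.small j h1 k hk).le
    · rcases Nat.lt_or_ge j k with h2 | h2
      · exact (hg.mono j k h1 h2).le
      · have : j = k := by omega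
        rw [this]

theorem row_g (hg : Gr g j0 D) : Row (Wg g) (fun _ _ => True) (fun h => h + j0 + 4) (FlF P0) (fun n => n + 1) (qF P0) 1 1 := by
  refine rowH fix_zero (fun _ => dep_const True) ?_ (fun _ => by omega) (fun a b hab => ?_) ⟨j0 + 4, fun h => ?_⟩
  · intro h S S' _ hS i hi1 hi2
    unfold Wg
    constructor
    · rintro ⟨j, h1, h2, h3⟩
      have := hg.ge j
      exact ⟨j, h1, (hS j h1 (by omega)).1 h2, h3⟩
    · rintro ⟨j, h1, h2, h3⟩
      have := hg.ge j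
      exact ⟨j, h1, (hS j h1 (by omega)).2 h2, h3⟩
  · show a + j0 + 4 ≤ b + j0 + 4
    omega
  · have h0 : (0 : ℝ) ≤ h := Nat.cast_nonneg _
    have h1 := one_add_mul_le_pow (a := (h : ℝ) + 1) (by linarith) (j0 + 4)
    have h2 : 1 + ((h : ℝ) + 1) = h + 2 := by ring
    rw [h2] at h1
    refine le_trans ?_ h1
    push_cast
    have : (0 : ℝ) ≤ j0 := Nat.cast_nonneg _
    nlinarith

theorem ws_card (hg : Gr g j0 D) (S : Set ℕ) {k : ℕ} (hk : j0 ≤ k) :
    (Ws (Wg g) S (g k)).card ≤ ct S (k + 1) ∧ ct S (k + 1) ≤ (Ws (Wg g) S (g k)).card + j0 := by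
  classical
  have e1 : ct S (k + 1) = ((Ico 3 (k + 1)).filter (fun j => j ∈ S)).card := rfl
  constructor
  · rw [e1]
    refine (card_le_card (?_ : Ws (Wg g) S (g k) ⊆ ((Ico 3 (k + 1)).filter (fun j => j ∈ S)).image g)).trans card_image_le
    intro i hi
    rw [mem_Ws] at hi
    obtain ⟨⟨_, h1⟩, j, h2, h3, h4⟩ := hi
    rw [mem_image]
    refine ⟨j, mem_filter.2 ⟨mem_Ico.2 ⟨h2, ?_⟩, h3⟩, h4⟩
    rw [← h4] at h1
    have := (hg.le_iff hk).1 h1
    omega
  · have h1 : (Ico 3 (k + 1)).filter (fun j => j ∈ S) ⊆ ((Ico 3 (k + 1)).filter (fun j => j ∈ S ∧ j0 ≤ j)) ∪ range j0 := by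
      intro j hj
      rw [mem_filter] at hj
      rw [mem_union, mem_filter, mem_range]
      rcases Nat.lt_or_ge j j0 with h | h
      · exact Or.inr h
      · exact Or.inl ⟨hj.1, hj.2, h⟩
    have h2 : ((Ico 3 (k + 1)).filter (fun j => j ∈ S ∧ j0 ≤ j)).card ≤ (Ws (Wg g) S (g k)).card := by
      refine card_le_card_of_injOn g (fun j hj => ?_) (fun j hj j' hj' hjj => ?_)
      · rw [mem_coe, mem_filter, mem_Ico] at hj
        rw [mem_coe, mem_Ws]
        exact ⟨⟨hg.pos j, (hg.le_iff hk).2 (by omega)⟩, j, hj.1.1, hj.2.1, rfl⟩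
      · rw [mem_coe, mem_filter] at hj hj'
        by_contra hne
        rcases Nat.lt_or_gt_of_ne hne with h | h
        · have := hg.mono j j' hj.2.2 h
          omega
        · have := hg.mono j' j hj'.2.2 h
          omega
    rw [e1]
    calc _ ≤ _ := card_le_card h1
      _ ≤ _ := card_union_le _ _
      _ ≤ _ := by rw [card_range]; omega

variable {Ω : Type*} [MeasurableSpace Ω] {μ : Measure Ω} [IsProbabilityMeasure μ] {A : Ω → Set ℕ}

theorem ws_law (hg : Gr g j0 D) (hA : IsCramer μ A) : ∀ᵐ ω ∂μ,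
    Tendsto (fun k : ℕ => ((Ws (Wg g) (A ω) (g k)).card : ℝ) * Real.log k ^ 1 / k) atTop (𝓝 1) := by
  filter_upwards [ct_law' hA] with ω h
  have h0 : Tendsto (fun k : ℕ => (j0 : ℝ) * (Real.log k ^ 1 / k)) atTop (𝓝 ((j0 : ℝ) * 0)) := by
    refine Tendsto.const_mul _ ?_
    refine ((x_div_log_pow 1).inv_tendsto_atTop).congr (fun n => ?_)
    rw [Pi.inv_apply, inv_div]
  rw [mul_zero] at h0
  have h1 : Tendsto (fun k : ℕ => (ct (A ω) (k + 1) : ℝ) * Real.log k ^ 1 / k) atTop (𝓝 1) := by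
    refine h.congr (fun k => ?_)
    rw [pow_one]
  have h2 := h1.sub h0
  rw [sub_zero] at h2
  refine tendsto_of_tendsto_of_tendsto_of_le_of_le' h2 h1 ?_ ?_
  · filter_upwards [eventually_ge_atTop j0, hl.eventually_ge_atTop 0] with k hk hlk
    have h3 := (ws_card hg (A ω) hk).2
    have h4 : (ct (A ω) (k + 1) : ℝ) ≤ (Ws (Wg g) (A ω) (g k)).card + j0 := by exact_mod_cast h3
    rw [← mul_div_assoc, ← sub_div, ← sub_mul]
    refine div_le_div_of_nonneg_right (mul_le_mul_of_nonneg_right (by linarith) (by positivity)) (Nat.cast_nonneg _)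
  · filter_upwards [eventually_ge_atTop j0, hl.eventually_ge_atTop 0] with k hk hlk
    have h3 := (ws_card hg (A ω) hk).1
    refine div_le_div_of_nonneg_right (mul_le_mul_of_nonneg_right (by exact_mod_cast h3) (by positivity)) (Nat.cast_nonneg _)

/-- The length of the tests. -/
noncomputable def hg' (g : ℕ → ℕ) (c : ℝ) (γ a n : ℕ) : ℕ := g (hs c γ a n)

theorem vr_g (hg : Gr g j0 D) (hA : IsCramer μ A) {c : ℝ} (hc : 0 < c) {γ : ℕ} (hγ : 1 ≤ γ) {δ : ℝ} (hδ : 0 < δ) :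
    ∀ᵐ ω ∂μ, ∀ᶠ n in atTop, VR (fun _ _ => True) (Wg g) (hg' g c γ 1) (ls c γ 1) δ n (A ω) := by
  filter_upwards [ws_law hg hA] with ω h1
  have h3 := (h1.comp (hs_top hc hγ 1)).mul (hs_tests hc hγ 1)
  rw [mul_one] at h3
  filter_upwards [h3.eventually_const_lt (show (1 - δ) < 1 by linarith),
    h3.eventually_lt_const (show (1 : ℝ) < 1 + δ by linarith), hl.eventually_gt_atTop 0,
    (hs_top hc hγ 1).eventually_gt_atTop 1] with n h5 h6 h7 h8
  have hγ0 : (0 : ℝ) < γ := by exact_mod_cast (show 0 < γ by omega)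
  have hls : 0 < ls c γ 1 n := by unfold ls; positivity
  have h9 : 0 < Real.log (hs c γ 1 n : ℝ) := Real.log_pos (by exact_mod_cast h8)
  have h10 : (0 : ℝ) < hs c γ 1 n := by exact_mod_cast (show 0 < hs c γ 1 n by omega)
  have h11 : ((Ws (Wg g) (A ω) (hg' g c γ 1 n)).card : ℝ) * Real.log (hs c γ 1 n) ^ 1 / hs c γ 1 n *
      ((hs c γ 1 n : ℝ) / Real.log (hs c γ 1 n) ^ 1 / ls c γ 1 n) =
        ((Ws (Wg g) (A ω) (hg' g c γ 1 n)).card : ℝ) / ls c γ 1 n := by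
    field_simp
  simp only [Function.comp_apply] at h5 h6
  have e0 : (Ws (Wg g) (A ω) (g (hs c γ 1 n))).card = (Ws (Wg g) (A ω) (hg' g c γ 1 n)).card := rfl
  rw [e0, h11, lt_div_iff₀ hls] at h5
  rw [e0, h11, div_lt_iff₀ hls] at h6
  exact ⟨trivial, h5.le, h6.le⟩

theorem hg_le (hg : Gr g j0 D) {c : ℝ} (hc : 0 < c) {γ : ℕ} (hγ : 1 ≤ γ) :
    ∀ᶠ n : ℕ in atTop, (hg' g c γ 1 n : ℝ) ≤ Real.log n ^ ((γ + 3) * D) := by
  filter_upwards [hs_le hc.le γ 1, hl.eventually_ge_atTop 2] with n h1 h2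
  have h3 := hg.pol (hs c γ 1 n)
  refine h3.trans ?_
  rw [pow_mul]
  refine pow_le_pow_left₀ (by positivity) ?_ D
  have h4 : (2 : ℝ) ≤ Real.log n ^ (γ + 1 + 1) := by
    calc (2 : ℝ) ≤ Real.log n := h2
      _ = Real.log n ^ 1 := (pow_one _).symm
      _ ≤ Real.log n ^ (γ + 1 + 1) := pow_le_pow_right₀ (by linarith) (by omega)
  calc (hs c γ 1 n : ℝ) + 2 ≤ Real.log n ^ (γ + 1 + 1) + Real.log n ^ (γ + 1 + 1) := add_le_add h1 h4
    _ = 2 * Real.log n ^ (γ + 1 + 1) := by ring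
    _ ≤ Real.log n * Real.log n ^ (γ + 1 + 1) := mul_le_mul_of_nonneg_right h2 (by positivity)
    _ = Real.log n ^ (γ + 3) := by ring

theorem hg_mono (hg : Gr g j0 D) {c : ℝ} (hc : 0 < c) {γ : ℕ} (hγ : 1 ≤ γ) :
    ∀ᶠ n : ℕ in atTop, ∀ m, n ≤ m → hg' g c γ 1 n ≤ hg' g c γ 1 m := by
  obtain ⟨n1, hn1⟩ := eventually_atTop.1 ((hs_top hc hγ 1).eventually_ge_atTop j0)
  filter_upwards [hs_mono hc.le γ 1, eventually_ge_atTop n1] with n h1 h2 m hm
  unfold hg'
  exact (hg.le_iff (hn1 m (by omega))).2 (h1 m hm)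

/-- The three laws for the tests. -/
theorem laws (hg : Gr g j0 D) (hA : IsCramer μ A) :
    (∀ c : ℝ, 2 < c → ∀ᵐ ω ∂μ, ∀ᶠ n in atTop, ¬ En (Wg g) (FlF P0) (hg' g c 2 1) n (A ω)) ∧
    (∀ c : ℝ, 0 < c → c < 2 → ∀ ε : ℝ, 0 < ε → ∀ᵐ ω ∂μ, ∀ᶠ N : ℕ in atTop,
      (N : ℝ) ^ (1 - c / 2 - ε) ≤ Zc (range N) (En (Wg g) (FlF P0) (hg' g c 2 1)) (A ω) ∧
      Zc (range N) (En (Wg g) (FlF P0) (hg' g c 2 1)) (A ω) ≤ (N : ℝ) ^ (1 - c / 2 + ε)) ∧
    (∀ t : ℝ, 0 < t → ∀ᵐ ω ∂μ, Tendsto (fun N : ℕ => Zc (range N) (En (Wg g) (FlF P0) (hg' g t 1 1)) (A ω) / N) atTop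
      (𝓝 (Real.exp (-t)))) := by
  have R := row_g hg
  have hl0 : ∀ (c : ℝ) (γ : ℕ), 0 < c → ∀ᶠ n : ℕ in atTop, 0 ≤ ls c γ 1 n := by
    intro c γ hc
    filter_upwards [hl.eventually_ge_atTop 0] with n hn
    unfold ls
    positivity
  have hlC : ∀ (c : ℝ) (γ : ℕ), 0 < c → 1 ≤ γ → γ ≤ 2 → ∀ᶠ n : ℕ in atTop,
      ls c γ 1 n ≤ c * Real.log n ^ (1 + 1) := by
    intro c γ hc hγ hγ'
    filter_upwards [hl.eventually_ge_atTop 1] with n hn
    have hγ0 : (1 : ℝ) ≤ γ := by exact_mod_cast hγ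
    unfold ls
    rw [pow_one]
    refine (div_le_self (by positivity) hγ0).trans ?_
    exact mul_le_mul_of_nonneg_left (pow_le_pow_right₀ hn (by omega)) hc.le
  have hτ : ∀ c : ℝ, ∀ᶠ n : ℕ in atTop, ls c 2 1 n / (1 * Real.log n ^ 1) = c / 2 * Real.log n := by
    intro c
    filter_upwards [hl.eventually_gt_atTop 0] with n hn
    unfold ls
    push_cast
    field_simp
  refine ⟨fun c hc => ?_, fun c hc0 hc ε hε => ?_, fun t ht => ?_⟩
  · have hc0 : 0 < c := by linarith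
    refine R.never hA (hg_le hg hc0 (by norm_num)) (hl0 c _ hc0) (hlC c 2 hc0 (by omega) le_rfl)
      (fun δ hδ => vr_g hg hA hc0 (by omega) hδ) (c := c / 2) (by linarith) ?_
    filter_upwards [hτ c] with n hn
    rw [hn]
  · have hc1 : c / 2 < 1 := by linarith
    have hc2 : 0 < c / 2 := by positivity
    obtain ⟨ε', hε'⟩ : ∃ ε' : ℝ, ε' = min ε ((1 - c / 2) / 2) := ⟨_, rfl⟩
    have h1 : 0 < ε' := by rw [hε']; exact lt_min hε (by linarith)
    have h2 : ε' ≤ ε := by rw [hε']; exact min_le_left _ _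
    have h3 : ε' ≤ (1 - c / 2) / 2 := by rw [hε']; exact min_le_right _ _
    filter_upwards [R.count_le hA (hg_le hg hc0 (by norm_num)) (hl0 c _ hc0) (hlC c 2 hc0 (by omega) le_rfl)
      (fun δ hδ => vr_g hg hA hc0 (by omega) hδ) hc2 hc1 (by
        filter_upwards [hτ c] with n hn
        rw [hn]) hε,
      R.count_ge hA (hg_le hg hc0 (by norm_num)) (hg_mono hg hc0 (by norm_num)) (hl0 c _ hc0) (hlC c 2 hc0 (by omega) le_rfl)
      (fun δ hδ => vr_g hg hA hc0 (by omega) hδ) hc2.le hc1 (by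
        filter_upwards [hτ c] with n hn
        rw [hn]) h1 (by linarith)] with ω h4 h5
    filter_upwards [h4, h5, eventually_ge_atTop 1] with N h6 h7 h8
    refine ⟨le_trans (Real.rpow_le_rpow_of_exponent_le (by exact_mod_cast h8) (by linarith)) h7, h6⟩
  · refine R.typical hA (hg_le hg ht (by norm_num)) (hg_mono hg ht (by norm_num)) (hl0 t _ ht) (hlC t 1 ht (by omega) (by omega))
      (fun δ hδ => vr_g hg hA ht (by omega) hδ) ?_
    refine tendsto_const_nhds.congr' ?_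
    filter_upwards [hl.eventually_gt_atTop 0] with n hn
    unfold ls
    push_cast
    field_simp

end Pool.Agent.Q197.PS
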