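import Pool.Agent.Q197.PS.P

/-! # Means over primes in random unions of reduced residue classes -/

set_option autoImplicit false
set_option linter.unusedSectionVars false
set_option linter.unusedVariables false

open Finset Filter Topology

namespace Q197.PS

/-- the sum of the `F p` over the primes `p ≤ N` with `p mod P ∈ A`, divided by the number of all
primes up to `N` -/
noncomputable def mI (F : ℕ → ℝ) (P : ℕ) (A : Finset ℕ) (N : ℕ) : ℝ :=
  (∑ p ∈ (Icc 1 N).filter (fun p => p.Prime ∧ p % P ∈ A), F p) / (Nat.primeCounting N : ℝ)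

/-- the terms -/
noncomputable def tI (F : ℕ → ℝ) (N n : ℕ) : ℝ := F n / (Nat.primeCounting N : ℝ)

lemma mI_sumC (F : ℕ → ℝ) (P : ℕ) (A : Finset ℕ) (N : ℕ) :
    mI F P A N = sumC (fun N : ℕ => (Icc 1 N).filter Nat.Prime) (tI F) (fun n => n % P) A N := by
  unfold mI sumC tI
  rw [sum_div, filter_filter]

/-- the class sums -/
noncomputable def cI (F : ℕ → ℝ) (P N j : ℕ) : ℝ :=
  ∑ n ∈ ((Icc 1 N).filter Nat.Prime).filter (fun n => n % P = j), tI F N n

lemma mI_eq (F : ℕ → ℝ) (P : ℕ) (A : Finset ℕ) (N : ℕ) : mI F P A N = ∑ j ∈ A, cI F P N j := by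
  rw [mI_sumC, sumC_eq]
  rfl

lemma pi_low : ∀ᶠ N : ℕ in atTop, (N : ℝ) / (3 * Real.log N) ≤ (Nat.primeCounting N : ℝ) := by
  have h1 : Tendsto (fun N : ℕ => Real.log ((N : ℝ) + 1) / ((N : ℝ) + 1)) atTop (𝓝 0) := by
    have h2 : Tendsto (fun x : ℝ => Real.log x / x) atTop (𝓝 0) := by
      have := Real.isLittleO_log_id_atTop.tendsto_div_nhds_zero
      exact this
    have h3 : Tendsto (fun N : ℕ => (N : ℝ) + 1) atTop atTop :=
      tendsto_atTop_add_const_right _ _ tendsto_natCast_atTop_atTop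
    exact h2.comp h3
  have h4 := h1.eventually (gt_mem_nhds (show (0 : ℝ) < 1 / 10 by norm_num))
  filter_upwards [h4, eventually_ge_atTop 10] with N hN hN10
  have hNr : (10 : ℝ) ≤ N := by exact_mod_cast hN10
  have hlog : 0 < Real.log N := Real.log_pos (by linarith)
  refine le_trans ?_ (Chebyshev.pi_ge N)
  rw [div_le_div_iff₀ (by positivity) hlog]
  rw [div_lt_iff₀ (by linarith)] at hN
  have h5 : (0.6931471803 : ℝ) < Real.log 2 := Real.log_two_gt_d9
  have h6 : (N : ℝ) / 3 ≤ N * Real.log 2 - Real.log (N + 1) := by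
    nlinarith
  nlinarith

lemma sqrt_log_small (ε : ℝ) (hε : 0 < ε) :
    ∀ᶠ N : ℕ in atTop, √(N : ℝ) ≤ ε * (N : ℝ) / Real.log N := by
  have h3 : Tendsto (fun x : ℝ => Real.log x / x ^ (1 / 2 : ℝ)) atTop (𝓝 0) := by
    have := (isLittleO_log_rpow_atTop (r := 1 / 2) (by norm_num)).tendsto_div_nhds_zero
    exact this
  have h4 := (h3.comp tendsto_natCast_atTop_atTop).eventually (gt_mem_nhds hε)
  filter_upwards [h4, eventually_ge_atTop 10] with N hN hN10
  have hNr : (10 : ℝ) ≤ N := by exact_mod_cast hN10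
  have hlog : 0 < Real.log N := Real.log_pos (by linarith)
  have hs : 0 < √(N : ℝ) := Real.sqrt_pos.2 (by linarith)
  simp only [Function.comp_apply] at hN
  rw [← Real.sqrt_eq_rpow, div_lt_iff₀ hs] at hN
  rw [le_div_iff₀ hlog]
  have h5 : (N : ℝ) = √N * √N := (Real.mul_self_sqrt (by linarith)).symm
  calc √(N : ℝ) * Real.log N ≤ √N * (ε * √N) := by gcongr
    _ = ε * (√N * √N) := by ring
    _ = ε * N := by rw [← h5]

/-- the class sums are small -/
theorem cI_bound : ∃ C : ℝ, 1 ≤ C ∧ ∀ P : ℕ, 0 < P →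
    ∀ᶠ N : ℕ in atTop, ∀ F : ℕ → ℝ, (∀ n, |F n| ≤ 1) → ∀ j, |cI F P N j| ≤ C / P.totient := by
  classical
  obtain ⟨C, hC, h⟩ := cL_bound
  refine ⟨6 * C + 3, by linarith, fun P hP => ?_⟩
  have hpos : (0 : ℝ) < P.totient := by exact_mod_cast Nat.totient_pos.2 hP
  have h1 := h P hP (fun _ => 1) (fun _ => by simp)
  have h2 := sqrt_log_small (1 / P.totient) (by positivity)
  filter_upwards [h1, h2, pi_low, eventually_ge_atTop 10] with N hN1 hN2 hN3 hN10 F hF j
  have hNr : (10 : ℝ) ≤ N := by exact_mod_cast hN10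
  have hN0 : (0 : ℝ) < N := by linarith
  have hlog : 0 < Real.log N := Real.log_pos (by linarith)
  have hpi : 0 < (Nat.primeCounting N : ℝ) := lt_of_lt_of_le (by positivity) hN3
  obtain ⟨S, hS⟩ : ∃ S, S = ((Icc 1 N).filter Nat.Prime).filter (fun n => n % P = j) := ⟨_, rfl⟩
  have e1 : |cI F P N j| ≤ (S.card : ℝ) / (Nat.primeCounting N : ℝ) := by
    unfold cI tI
    rw [← sum_div, abs_div, Nat.abs_cast, ← hS]
    apply div_le_div_of_nonneg_right _ hpi.le
    refine (abs_sum_le_sum_abs _ _).trans ?_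
    calc ∑ i ∈ S, |F i| ≤ ∑ i ∈ S, (1 : ℝ) := sum_le_sum fun i _ => hF i
      _ = S.card := by simp
  have e2 : (S.card : ℝ) ≤ √N + 2 * C * N / (P.totient * Real.log N) := by
    rw [← card_filter_add_card_filter_not (s := S) (fun p : ℕ => (p : ℝ) ≤ √N)]
    push_cast
    apply add_le_add
    · have h3 : S.filter (fun p : ℕ => (p : ℝ) ≤ √N) ⊆ Icc 1 ⌊√(N : ℝ)⌋₊ := by
        intro p hp
        rw [mem_filter, hS, mem_filter, mem_filter, mem_Icc] at hp
        rw [mem_Icc]
        exact ⟨hp.1.1.1.1, Nat.le_floor hp.2⟩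
      have h4 := card_le_card h3
      rw [Nat.card_Icc, Nat.add_sub_cancel] at h4
      calc ((S.filter (fun p : ℕ => (p : ℝ) ≤ √N)).card : ℝ) ≤ (⌊√(N : ℝ)⌋₊ : ℝ) := by exact_mod_cast h4
        _ ≤ √N := Nat.floor_le (Real.sqrt_nonneg _)
    · have h5 : ((S.filter (fun p : ℕ => ¬ (p : ℝ) ≤ √N)).card : ℝ) * (Real.log N / 2) ≤
          ∑ n ∈ (Icc 1 N).filter (fun n => n % P = j), ArithmeticFunction.vonMangoldt n := by
        rw [← nsmul_eq_mul, ← sum_const]
        refine le_trans (sum_le_sum (g := fun n => ArithmeticFunction.vonMangoldt n) fun n hn => ?_) ?_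
        · rw [mem_filter, hS, mem_filter, mem_filter, mem_Icc] at hn
          rw [ArithmeticFunction.vonMangoldt_apply_prime hn.1.1.2]
          have h6 := not_le.1 hn.2
          have h7 : Real.log N / 2 = Real.log √N := by
            rw [Real.log_sqrt hN0.le]
          rw [h7]
          exact Real.log_le_log (Real.sqrt_pos.2 hN0) h6.le
        · refine sum_le_sum_of_subset_of_nonneg (fun n hn => ?_) fun n _ _ =>
            ArithmeticFunction.vonMangoldt_nonneg
          rw [mem_filter, hS, mem_filter, mem_filter] at hn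
          rw [mem_filter]
          exact ⟨hn.1.1.1, hn.1.2⟩
      have h8 := hN1 j
      unfold cL tL at h8
      simp only [mul_one] at h8
      rw [← sum_div, abs_div, Nat.abs_cast, div_le_div_iff₀ hN0 hpos] at h8
      have h9 := le_trans (le_abs_self _) (le_of_eq (rfl : |∑ n ∈ (Icc 1 N).filter (fun n => n % P = j), ArithmeticFunction.vonMangoldt n| = _))
      rw [le_div_iff₀ (by positivity)]
      have h10 : (∑ n ∈ (Icc 1 N).filter (fun n => n % P = j), ArithmeticFunction.vonMangoldt n) * P.totient ≤ C * N :=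
        le_trans (mul_le_mul_of_nonneg_right h9 hpos.le) h8
      have h11 := mul_le_mul_of_nonneg_right h5 hpos.le
      nlinarith
  refine e1.trans ?_
  rw [div_le_iff₀ hpi]
  have e3 : √(N : ℝ) ≤ 3 / P.totient * Nat.primeCounting N := by
    calc √(N : ℝ) ≤ 1 / P.totient * (N : ℝ) / Real.log N := hN2
      _ = 3 / P.totient * (N / (3 * Real.log N)) := by
        field_simp
      _ ≤ _ := by gcongr
  have e4 : 2 * C * N / (P.totient * Real.log N) ≤ 6 * C / P.totient * Nat.primeCounting N := by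
    calc 2 * C * N / (P.totient * Real.log N) = 6 * C / P.totient * (N / (3 * Real.log N)) := by
          field_simp
          ring
      _ ≤ _ := by gcongr
  calc (S.card : ℝ) ≤ _ := e2
    _ ≤ 3 / P.totient * Nat.primeCounting N + 6 * C / P.totient * Nat.primeCounting N := add_le_add e3 e4
    _ = _ := by ring

/-- the bound for the primes dividing `P` -/
noncomputable def nonredI (P N : ℕ) : ℝ := (P : ℝ) / (Nat.primeCounting N : ℝ)

lemma nonredI_tendsto (P : ℕ) : Tendsto (nonredI P) atTop (𝓝 0) := by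
  have h1 : Tendsto (fun N : ℕ => (Nat.primeCounting N : ℝ)) atTop atTop :=
    tendsto_natCast_atTop_atTop.comp Nat.tendsto_primeCounting
  exact h1.const_div_atTop _

lemma nonred_sum {F : ℕ → ℝ} (hF : ∀ n, |F n| ≤ 1) {P : ℕ} (hP : 0 < P) (N : ℕ) (S : Finset ℕ)
    (hS : ∀ p ∈ S, p.Prime ∧ ¬ P.Coprime p) :
    |(∑ p ∈ S, F p) / (Nat.primeCounting N : ℝ)| ≤ nonredI P N := by
  unfold nonredI
  rw [abs_div, Nat.abs_cast]
  apply div_le_div_of_nonneg_right _ (Nat.cast_nonneg _)
  have h1 : S ⊆ Icc 1 P := by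
    intro p hp
    obtain ⟨h2, h3⟩ := hS p hp
    have h4 : p ∣ P := by
      by_contra hcon
      exact h3 ((Nat.coprime_comm.1 ((Nat.Prime.coprime_iff_not_dvd h2).2 hcon)))
    exact mem_Icc.2 ⟨h2.one_lt.le, Nat.le_of_dvd hP h4⟩
  have h5 := card_le_card h1
  rw [Nat.card_Icc, Nat.add_sub_cancel] at h5
  calc |∑ p ∈ S, F p| ≤ ∑ p ∈ S, |F p| := abs_sum_le_sum_abs _ _
    _ ≤ ∑ p ∈ S, (1 : ℝ) := sum_le_sum fun i _ => hF i
    _ = S.card := by simp
    _ ≤ P := by exact_mod_cast h5

lemma cop_mod {P n : ℕ} : P.Coprime (n % P) ↔ P.Coprime n := by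
  have : P.gcd (n % P) = P.gcd n := by rw [Nat.gcd_comm P (n % P), ← Nat.gcd_rec]
  unfold Nat.Coprime
  rw [this]

/-- a coarser class -/
lemma mI_coarse {F : ℕ → ℝ} (hF : ∀ n, |F n| ≤ 1) {q P : ℕ} (hP : 0 < P) (hd : q ∣ P) (A : Finset ℕ) (N : ℕ) :
    |mI F q A N| ≤ ∑ j ∈ red P, |cI F P N j| + nonredI P N := by
  classical
  have h1 : mI F q A N = ∑ j ∈ (red P).filter (fun j => j % q ∈ A), cI F P N j +
      (∑ p ∈ (Icc 1 N).filter (fun p => (p.Prime ∧ p % q ∈ A) ∧ ¬ P.Coprime p), F p) /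
        (Nat.primeCounting N : ℝ) := by
    rw [← mI_eq]
    unfold mI
    rw [← add_div]
    congr 1
    rw [show (Icc 1 N).filter (fun p => (p.Prime ∧ p % q ∈ A) ∧ ¬ P.Coprime p) =
      ((Icc 1 N).filter (fun p => p.Prime ∧ p % q ∈ A)).filter (fun p => ¬ P.Coprime p) from
      (filter_filter _ _ _).symm]
    rw [← sum_filter_add_sum_filter_not ((Icc 1 N).filter (fun n => n.Prime ∧ n % q ∈ A)) (fun n => P.Coprime n)]
    congr 1
    refine sum_congr ?_ fun _ _ => rfl
    ext n
    simp only [mem_filter, red, mem_range]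
    constructor
    · rintro ⟨⟨h1, h2, h2'⟩, h3⟩
      refine ⟨h1, h2, ⟨Nat.mod_lt _ hP, cop_mod.2 h3⟩, ?_⟩
      rw [Nat.mod_mod_of_dvd _ hd]
      exact h2'
    · rintro ⟨h1, h2, ⟨_, h3⟩, h4⟩
      rw [Nat.mod_mod_of_dvd _ hd] at h4
      exact ⟨⟨h1, h2, h4⟩, cop_mod.1 h3⟩
  rw [h1]
  refine (abs_add_le _ _).trans (add_le_add ?_ ?_)
  · refine (abs_sum_le_sum_abs _ _).trans ?_
    exact sum_le_sum_of_subset_of_nonneg (filter_subset _ _) fun j _ _ => abs_nonneg _
  · refine nonred_sum hF hP N _ fun p hp => ?_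
    rw [mem_filter] at hp
    exact ⟨hp.2.1.1, hp.2.2⟩

open Classical in
/-- the number of the sets of reduced residues along which the means tend to zero -/
noncomputable def nPi (F : ℕ → ℝ) (P : ℕ) : ℕ :=
  ((red P).powerset.filter (fun A => Tendsto (mI F P A) atTop (𝓝 0))).card

open Classical in
/-- **Few unions of reduced classes** -/
theorem few_pi : ∃ C : ℝ, 1 ≤ C ∧ ∀ F : ℕ → ℝ, (∀ n, |F n| ≤ 1) → ∀ c : ℝ, 0 < c →
    ∀ (q : ℕ) (A : Finset ℕ), (∃ᶠ N in atTop, c ≤ |mI F q A N|) → ∀ P : ℕ, 0 < P → q ∣ P →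
    ∀ z : ℕ → ℝ, (((red P).powerset.filter (fun A => Tendsto (fun N => mI F P A N - z N) atTop (𝓝 0))).card : ℝ) ≤
      C * (1 + 1 / c) * 2 ^ P.totient / √P.totient := by
  classical
  obtain ⟨C, hC, hcb⟩ := cI_bound
  refine ⟨54 * C, by linarith, fun F hF c hc q A hfr P hP hd z => ?_⟩
  have h1 := few_col (l := atTop) (red P) (red_nonempty hP) (fun N j => cI F P N j)
    (c0 := c / 2) (B := C) (by linarith) hC ?_ ?_ z
  · rw [red_card] at h1
    have h3 : ∀ A, (fun N => mI F P A N - z N) = fun i => ∑ j ∈ A, cI F P i j - z i := by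
      intro A
      funext N
      rw [mI_eq]
    simp only [h3]
    refine h1.trans ?_
    have h3 : (5 + 27 / (c / 2)) ≤ 54 * (1 + 1 / c) := by
      have : 27 / (c / 2) = 54 * (1 / c) := by field_simp; norm_num
      rw [this]
      linarith
    calc (5 + 27 / (c / 2)) * (C / √P.totient) * 2 ^ P.totient
        ≤ 54 * (1 + 1 / c) * (C / √P.totient) * 2 ^ P.totient := by gcongr
      _ = _ := by ring
  · filter_upwards [hcb P hP] with N hN j _
    rw [red_card]
    exact hN F hF j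
  · have h2 := (nonredI_tendsto P).eventually (gt_mem_nhds (show (0 : ℝ) < c / 2 by linarith))
    refine (hfr.and_eventually h2).mono fun N hN => ?_
    have h3 := mI_coarse hF hP hd A N
    linarith [hN.1, hN.2]

/-- a large totient -/
lemma totient_large (q : ℕ) (hq : 0 < q) (K : ℝ) : ∃ P : ℕ, 0 < P ∧ q ∣ P ∧
    K * 2 ^ P.totient / √P.totient ≤ 2 ^ P.totient := by
  obtain ⟨m, hm⟩ := exists_nat_gt (K ^ 2)
  obtain ⟨l, hl1, hl2⟩ := Nat.exists_infinite_primes (m + 1)
  have hP : 0 < q * l := Nat.mul_pos hq hl2.pos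
  refine ⟨q * l, hP, dvd_mul_right _ _, ?_⟩
  have h5 : m ≤ (q * l).totient := by
    have h6 : l.totient ≤ (q * l).totient :=
      Nat.le_of_dvd (Nat.totient_pos.2 hP) (Nat.totient_dvd_of_dvd (dvd_mul_left l q))
    rw [Nat.totient_prime hl2] at h6
    omega
  have h6 : K ^ 2 ≤ (q * l).totient := by
    have : (m : ℝ) ≤ (q * l).totient := by exact_mod_cast h5
    linarith
  have hpos : (0 : ℝ) < (q * l).totient := by exact_mod_cast Nat.totient_pos.2 hP
  rw [div_le_iff₀ (Real.sqrt_pos.2 hpos), mul_comm]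
  apply mul_le_mul_of_nonneg_left _ (by positivity)
  calc K ≤ |K| := le_abs_self K
    _ = √(K ^ 2) := (Real.sqrt_sq_eq_abs K).symm
    _ ≤ √((q * l).totient : ℝ) := Real.sqrt_le_sqrt h6

open Classical in
/-- **Typical unions of reduced classes** -/
theorem typical_pi : ∃ C : ℝ, 1 ≤ C ∧ ∀ P : ℕ, 0 < P →
    ∀ᶠ N : ℕ in atTop, ∀ F : ℕ → ℝ, (∀ n, |F n| ≤ 1) → ∀ t : ℝ, 0 < t →
    (((red P).powerset.filter (fun A =>
      t * C / √P.totient ≤ |mI F P A N - mI F 1 {0} N / 2|)).card : ℝ) ≤ 2 ^ P.totient / t ^ 2 := by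
  obtain ⟨C, hC, hcb⟩ := cI_bound
  refine ⟨C, hC, fun P hP => ?_⟩
  have hpos : (0 : ℝ) < P.totient := by exact_mod_cast Nat.totient_pos.2 hP
  have hsq : 0 < √(P.totient : ℝ) := Real.sqrt_pos.2 hpos
  have hC0 : 0 < C := by linarith
  have h2 := (nonredI_tendsto P).eventually (gt_mem_nhds (show (0 : ℝ) < C / √P.totient by positivity))
  filter_upwards [hcb P hP, h2] with N hN hN2 F hF t ht
  by_cases ht1 : 1 ≤ t
  · have h3 := typical_col (red P) (red_nonempty hP) (fun N j => cI F P N j) hC0 N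
      (fun j _ => by rw [red_card]; exact hN F hF j) ht
    rw [red_card] at h3
    refine le_trans ?_ h3
    have h4 : (red P).powerset.filter (fun A =>
        t * C / √P.totient ≤ |mI F P A N - mI F 1 {0} N / 2|) ⊆
        (red P).powerset.filter (fun A => t * (C / √P.totient) ≤
          |2 * ∑ j ∈ A, cI F P N j - ∑ j ∈ red P, cI F P N j|) := by
      intro A hA
      rw [mem_filter] at hA ⊢
      refine ⟨hA.1, ?_⟩
      have h5 := hA.2
      rw [mI_eq F P A] at h5
      have h6 : |mI F 1 {0} N - ∑ j ∈ red P, cI F P N j| ≤ nonredI P N := by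
        rw [← mI_eq]
        have e1 : mI F 1 {0} N = (∑ p ∈ (Icc 1 N).filter Nat.Prime, F p) / (Nat.primeCounting N : ℝ) := by
          unfold mI
          congr 2
          ext n
          simp only [mem_filter, mem_singleton, Nat.mod_one, and_true]
        have e2 : mI F P (red P) N = (∑ p ∈ ((Icc 1 N).filter Nat.Prime).filter (fun p => P.Coprime p), F p) /
            (Nat.primeCounting N : ℝ) := by
          unfold mI
          congr 2
          ext n
          simp only [mem_filter, red, mem_range]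
          constructor
          · rintro ⟨a1, a2, a3, a4⟩
            exact ⟨⟨a1, a2⟩, cop_mod.1 a4⟩
          · rintro ⟨⟨a1, a2⟩, a3⟩
            exact ⟨a1, a2, Nat.mod_lt _ hP, cop_mod.2 a3⟩
        rw [e1, e2, ← sub_div, ← sum_filter_add_sum_filter_not ((Icc 1 N).filter Nat.Prime) (fun n => P.Coprime n)
          (fun n => F n), add_sub_cancel_left]
        refine nonred_sum hF hP N _ fun p hp => ?_
        rw [mem_filter, mem_filter] at hp
        exact ⟨hp.1.2, hp.2⟩
      have h7 : t * C / √P.totient = t * (C / √P.totient) := by ring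
      rw [h7] at h5
      have h8 : C / √P.totient ≤ t * (C / √P.totient) := by
        have : 0 < C / √(P.totient : ℝ) := by positivity
        nlinarith
      have h9 : |2 * (∑ j ∈ A, cI F P N j - mI F 1 {0} N / 2)| = 2 * |∑ j ∈ A, cI F P N j - mI F 1 {0} N / 2| := by
        rw [abs_mul, abs_of_pos (by norm_num : (0 : ℝ) < 2)]
      have h10 : |2 * (∑ j ∈ A, cI F P N j - mI F 1 {0} N / 2)| ≤
          |2 * ∑ j ∈ A, cI F P N j - ∑ j ∈ red P, cI F P N j| + |mI F 1 {0} N - ∑ j ∈ red P, cI F P N j| := by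
        have : 2 * (∑ j ∈ A, cI F P N j - mI F 1 {0} N / 2) =
            (2 * ∑ j ∈ A, cI F P N j - ∑ j ∈ red P, cI F P N j) -
              (mI F 1 {0} N - ∑ j ∈ red P, cI F P N j) := by ring
        rw [this]
        exact abs_sub _ _
      linarith
    exact_mod_cast card_le_card h4
  · push Not at ht1
    have h3 : (((red P).powerset.filter (fun A =>
        t * C / √P.totient ≤ |mI F P A N - mI F 1 {0} N / 2|)).card : ℝ) ≤ 2 ^ P.totient := by
      have := card_filter_le (red P).powerset (fun A =>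
        t * C / √P.totient ≤ |mI F P A N - mI F 1 {0} N / 2|)
      rw [card_powerset, red_card] at this
      exact_mod_cast this
    refine h3.trans ?_
    rw [le_div_iff₀ (by positivity)]
    have : t ^ 2 ≤ 1 := by nlinarith
    have h4 : (0 : ℝ) < 2 ^ P.totient := by positivity
    nlinarith

end Q197.PS
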