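import Pool.Agent.Q197.PS.I

/-! # Families of test functions on the primes, in random unions of reduced residue classes -/

set_option autoImplicit false
set_option linter.unusedSectionVars false
set_option linter.unusedVariables false

open Finset Filter Topology

namespace Q197.PS

open Classical in
/-- **Few and typical, with one constant** -/
theorem pack_pi : ∃ C : ℝ, 1 ≤ C ∧
    (∀ F : ℕ → ℝ, (∀ n, |F n| ≤ 1) → ∀ c : ℝ, 0 < c → ∀ (q : ℕ) (B : Finset ℕ),
      (∃ᶠ N in atTop, c ≤ |mI F q B N|) → ∀ P : ℕ, 0 < P → q ∣ P →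
      (((red P).powerset.filter (fun A => Tendsto (mI F P A) atTop (𝓝 0))).card : ℝ) ≤
        C * (1 + 1 / c) * 2 ^ P.totient / √P.totient) ∧
    (∀ P : ℕ, 0 < P → ∀ᶠ N : ℕ in atTop, ∀ F : ℕ → ℝ, (∀ n, |F n| ≤ 1) → ∀ t : ℝ, 0 < t →
      (((red P).powerset.filter (fun A =>
        t * C / √P.totient ≤ |mI F P A N - mI F 1 {0} N / 2|)).card : ℝ) ≤ 2 ^ P.totient / t ^ 2) := by
  obtain ⟨C1, hC1, h1⟩ := few_pi
  obtain ⟨C2, hC2, h2⟩ := typical_pi
  refine ⟨max C1 C2, hC1.trans (le_max_left _ _), ?_, ?_⟩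
  · intro F hF c hc q B hfr P hP hd
    have h3 := h1 F hF c hc q B hfr P hP hd (fun _ => 0)
    simp only [sub_zero] at h3
    refine h3.trans ?_
    have hc1 : 0 < 1 + 1 / c := by positivity
    have h3 := le_max_left C1 C2
    gcongr
  · intro P hP
    filter_upwards [h2 P hP] with N hN F hF t ht
    refine le_trans ?_ (hN F hF t ht)
    have hsub : (red P).powerset.filter (fun A =>
        t * max C1 C2 / √P.totient ≤ |mI F P A N - mI F 1 {0} N / 2|) ⊆
        (red P).powerset.filter (fun A => t * C2 / √P.totient ≤ |mI F P A N - mI F 1 {0} N / 2|) := by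
      intro A hA
      rw [mem_filter] at hA ⊢
      refine ⟨hA.1, le_trans ?_ hA.2⟩
      have h3 := le_max_right C1 C2
      gcongr
    exact_mod_cast card_le_card hsub

/-- all the means of the family tend to zero along `A` -/
def GoodF {κ : Type*} (F : κ → ℕ → ℝ) (P : ℕ) (A : Finset ℕ) : Prop :=
  ∀ i, Tendsto (mI (F i) P A) atTop (𝓝 0)

open Classical in
/-- the number of the good sets -/
noncomputable def nF {κ : Type*} (F : κ → ℕ → ℝ) (P : ℕ) : ℕ :=
  ((red P).powerset.filter (fun A => GoodF F P A)).card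

lemma nF_le {κ : Type*} (F : κ → ℕ → ℝ) (i : κ) (P : ℕ) : nF F P ≤ nPi (F i) P := by
  classical
  unfold nF nPi
  apply card_le_card
  intro A hA
  rw [mem_filter] at hA ⊢
  exact ⟨hA.1, hA.2 i⟩

lemma few_nPi : ∃ C : ℝ, 1 ≤ C ∧ ∀ F : ℕ → ℝ, (∀ n, |F n| ≤ 1) → ∀ c : ℝ, 0 < c →
    ∀ (q : ℕ) (B : Finset ℕ), (∃ᶠ N in atTop, c ≤ |mI F q B N|) → ∀ P : ℕ, 0 < P → q ∣ P →
    (nPi F P : ℝ) ≤ C * (1 + 1 / c) * 2 ^ P.totient / √P.totient := by
  obtain ⟨C, hC, h, _⟩ := pack_pi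
  exact ⟨C, hC, fun F hF c hc q B hfr P hP hd => h F hF c hc q B hfr P hP hd⟩

lemma contra {D K : ℝ} {P : ℕ} {x : ℝ} (hP : 0 < P) (hD : 0 < D) (hK : 2 * D ≤ K)
    (h3 : K * 2 ^ P.totient / √P.totient ≤ x) (h4 : x ≤ D * 2 ^ P.totient / √P.totient) : False := by
  have hpos : (0 : ℝ) < P.totient := by exact_mod_cast Nat.totient_pos.2 hP
  have h5 := h3.trans h4
  rw [div_le_div_iff_of_pos_right (Real.sqrt_pos.2 hpos)] at h5
  have h6 : (0 : ℝ) < D * 2 ^ P.totient := by positivity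
  have h7 : 2 * D * 2 ^ P.totient ≤ K * 2 ^ P.totient := by gcongr
  linarith

/-- **Single classes and a small share of the unions** -/
theorem fam_iff {κ : Type*} {F : κ → ℕ → ℝ} (hF : ∀ i n, |F i n| ≤ 1) :
    (∀ q : ℕ, 0 < q → ∀ a ∈ red q, GoodF F q {a}) ↔
      ∀ q : ℕ, 0 < q → ∀ K : ℝ, ∃ P : ℕ, 0 < P ∧ q ∣ P ∧ K * 2 ^ P.totient / √P.totient ≤ nF F P := by
  classical
  obtain ⟨C, hC, hfew⟩ := few_nPi
  constructor
  · intro h q hq K
    obtain ⟨P, hP, hd, hK⟩ := totient_large q hq K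
    refine ⟨P, hP, hd, hK.trans (le_of_eq ?_)⟩
    have h3 : nF F P = 2 ^ P.totient := by
      unfold nF
      rw [filter_eq_self.2, card_powerset]
      · rfl
      · intro A hA i
        rw [mem_powerset] at hA
        have h6 : mI (F i) P A = fun N => ∑ j ∈ A, mI (F i) P {j} N := by
          funext N
          rw [mI_eq]
          refine sum_congr rfl fun j _ => ?_
          rw [mI_eq, sum_singleton]
        rw [h6]
        have h7 : (0 : ℝ) = ∑ j ∈ A, (0 : ℝ) := by simp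
        rw [h7]
        exact tendsto_finsetSum _ fun j hj => h P hP j (hA hj) i
    rw [h3]
    push_cast
    ring
  · intro h q hq a ha i
    by_contra hcon
    obtain ⟨c, hc, hfr⟩ := not_tendsto_gen hcon
    obtain ⟨P, hP, hd, h6⟩ := h q hq (2 * (C * (1 + 1 / c)))
    have h7 := hfew (F i) (hF i) c hc q {a} hfr P hP hd
    have h8 : (nF F P : ℝ) ≤ nPi (F i) P := by exact_mod_cast nF_le F i P
    exact contra hP (by positivity) le_rfl (h6.trans h8) h7

/-- **The full mean** -/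
theorem fam_all {κ : Type*} {F : κ → ℕ → ℝ} (hF : ∀ i n, |F i n| ≤ 1)
    (h : ∀ K : ℝ, ∃ P : ℕ, 0 < P ∧ K * 2 ^ P.totient / √P.totient ≤ nF F P) (i : κ) :
    Tendsto (mI (F i) 1 {0}) atTop (𝓝 0) := by
  classical
  obtain ⟨C, hC, hfew⟩ := few_nPi
  by_contra hcon
  obtain ⟨c, hc, hfr⟩ := not_tendsto_gen hcon
  obtain ⟨P, hP, h6⟩ := h (2 * (C * (1 + 1 / c)))
  have h7 := hfew (F i) (hF i) c hc 1 {0} hfr P hP (one_dvd P)
  have h8 : (nF F P : ℝ) ≤ nPi (F i) P := by exact_mod_cast nF_le F i P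
  exact contra hP (by positivity) le_rfl (h6.trans h8) h7

end Q197.PS
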