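import Pool.Agent.Q197.PS.GC

/-! # Logarithmic means along random unions of residue classes -/

set_option autoImplicit false
set_option linter.unusedSectionVars false
set_option linter.unusedVariables false

open Finset Filter Topology

namespace Q197.PS

/-- the logarithmic mean over the `n ≤ N` with `n mod P ∈ A` -/
noncomputable def mLg (u : ℕ → ℂ) (P : ℕ) (A : Finset ℕ) (N : ℕ) : ℂ :=
  (∑ n ∈ (Icc 1 N).filter (fun n => n % P ∈ A), u n / (n : ℂ)) / (Real.log N : ℂ)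

lemma class_log {P : ℕ} (hP : 0 < P) (N j : ℕ) :
    ∑ n ∈ (Icc 1 N).filter (fun n => n % P = j), (1 : ℝ) / n ≤ 1 + (1 + Real.log N) / P := by
  classical
  have hPr : (0 : ℝ) < P := by exact_mod_cast hP
  rw [← sum_filter_add_sum_filter_not _ (fun n => n / P = 0)]
  apply add_le_add
  · have h1 : ((Icc 1 N).filter (fun n => n % P = j)).filter (fun n => n / P = 0) ⊆ {j} := by
      intro n hn
      rw [mem_filter, mem_filter] at hn
      rw [mem_singleton, ← hn.1.2]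
      have h2 := Nat.div_add_mod n P
      rw [hn.2, mul_zero, zero_add] at h2
      exact h2.symm
    have h2 : ∀ n ∈ ((Icc 1 N).filter (fun n => n % P = j)).filter (fun n => n / P = 0), (1 : ℝ) / n ≤ 1 := by
      intro n hn
      rw [mem_filter, mem_filter, mem_Icc] at hn
      have h3 : (1 : ℝ) ≤ n := by exact_mod_cast hn.1.1.1
      rw [div_le_one (by linarith)]
      exact h3
    refine (sum_le_card_nsmul _ _ 1 h2).trans ?_
    rw [nsmul_eq_mul, mul_one]
    have h4 := card_le_card h1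
    rw [card_singleton] at h4
    exact_mod_cast h4
  · have h1 : ∑ n ∈ ((Icc 1 N).filter (fun n => n % P = j)).filter (fun n => ¬ n / P = 0), (1 : ℝ) / n ≤
        ∑ n ∈ ((Icc 1 N).filter (fun n => n % P = j)).filter (fun n => ¬ n / P = 0),
          (1 : ℝ) / (P * ((n / P : ℕ) : ℝ)) := by
      refine sum_le_sum fun n hn => ?_
      rw [mem_filter] at hn
      have h2 : 0 < n / P := Nat.pos_of_ne_zero hn.2
      have h2r : (0 : ℝ) < ((n / P : ℕ) : ℝ) := by exact_mod_cast h2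
      apply one_div_le_one_div_of_le (by positivity)
      have h3 := Nat.mul_div_le n P
      exact_mod_cast h3
    refine h1.trans ?_
    have h2 : ∑ n ∈ ((Icc 1 N).filter (fun n => n % P = j)).filter (fun n => ¬ n / P = 0),
          (1 : ℝ) / (P * ((n / P : ℕ) : ℝ)) ≤ ∑ k ∈ Icc 1 N, (1 : ℝ) / (P * (k : ℝ)) := by
      have h3 : ∑ n ∈ ((Icc 1 N).filter (fun n => n % P = j)).filter (fun n => ¬ n / P = 0),
          (1 : ℝ) / (P * ((n / P : ℕ) : ℝ)) = ∑ k ∈ (((Icc 1 N).filter (fun n => n % P = j)).filter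
            (fun n => ¬ n / P = 0)).image (fun n => n / P), (1 : ℝ) / (P * (k : ℝ)) := by
        rw [sum_image]
        intro a ha b hb hab
        rw [mem_coe, mem_filter, mem_filter] at ha hb
        have h4 := Nat.div_add_mod a P
        have h5 := Nat.div_add_mod b P
        simp only at hab
        rw [← h4, ← h5, hab, ha.1.2, hb.1.2]
      rw [h3]
      refine sum_le_sum_of_subset_of_nonneg (fun k hk => ?_) fun k _ _ => by positivity
      rw [mem_image] at hk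
      obtain ⟨n, hn, rfl⟩ := hk
      rw [mem_filter, mem_filter, mem_Icc] at hn
      rw [mem_Icc]
      exact ⟨Nat.pos_of_ne_zero hn.2, (Nat.div_le_self _ _).trans hn.1.1.2⟩
    refine h2.trans ?_
    have h3 : ∑ k ∈ Icc 1 N, (1 : ℝ) / (P * (k : ℝ)) = (1 / P) * ∑ k ∈ Icc 1 N, ((k : ℝ))⁻¹ := by
      rw [mul_sum]
      refine sum_congr rfl fun k _ => ?_
      rw [one_div, one_div, mul_inv]
    rw [h3]
    have h4 := harmonic_le_one_add_log N
    have h5 : ((harmonic N : ℚ) : ℝ) = ∑ k ∈ Icc 1 N, ((k : ℝ))⁻¹ := by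
      rw [harmonic_eq_sum_Icc]
      push_cast
      rfl
    rw [h5] at h4
    calc (1 / (P : ℝ)) * ∑ k ∈ Icc 1 N, ((k : ℝ))⁻¹ ≤ (1 / P) * (1 + Real.log N) := by gcongr
      _ = (1 + Real.log N) / P := by ring

lemma class_log_ev {P : ℕ} (hP : 0 < P) : ∀ᶠ N : ℕ in atTop, 0 < Real.log N ∧ ∀ j,
    (∑ n ∈ (Icc 1 N).filter (fun n => n % P = j), (1 : ℝ) / n) / Real.log N ≤ 3 / P := by
  have hPr : (1 : ℝ) ≤ P := by exact_mod_cast hP
  have h1 : Tendsto (fun N : ℕ => Real.log N) atTop atTop := Real.tendsto_log_atTop.comp tendsto_natCast_atTop_atTop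
  filter_upwards [h1.eventually_ge_atTop (P : ℝ)] with N hN
  have hpos : 0 < Real.log N := by linarith
  refine ⟨hpos, fun j => ?_⟩
  rw [div_le_div_iff₀ hpos (by linarith)]
  have h2 := class_log hP N j
  calc (∑ n ∈ (Icc 1 N).filter (fun n => n % P = j), (1 : ℝ) / n) * P
      ≤ (1 + (1 + Real.log N) / P) * P := by gcongr
    _ = P + 1 + Real.log N := by field_simp; ring
    _ ≤ 3 * Real.log N := by linarith

/-- the terms -/
noncomputable def tLg (u : ℕ → ℂ) (N n : ℕ) : ℂ := u n / (n : ℂ) / (Real.log N : ℂ)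

lemma mLg_eq (u : ℕ → ℂ) (P : ℕ) (A : Finset ℕ) (N : ℕ) :
    mLg u P A N = sG (fun N => Icc 1 N) (tLg u) (fun n => n % P) A N := by
  classical
  unfold mLg sG tLg
  rw [sum_div]
  refine sum_congr ?_ fun _ _ => rfl
  ext n
  simp only [mem_filter]

lemma tLg_class {u : ℕ → ℂ} (hu : ∀ n, ‖u n‖ ≤ 1) {P : ℕ} (hP : 0 < P) : ∀ᶠ N : ℕ in atTop, ∀ j,
    ∑ n ∈ (Icc 1 N).filter (fun n => n % P = j), ‖tLg u N n‖ ≤ 3 / P := by
  filter_upwards [class_log_ev hP] with N hN j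
  refine le_trans ?_ (hN.2 j)
  rw [sum_div]
  refine sum_le_sum fun n _ => ?_
  unfold tLg
  rw [norm_div, norm_div, Complex.norm_real, Real.norm_of_nonneg hN.1.le, Complex.norm_natCast]
  have h1 := hu n
  gcongr

open Classical in
/-- the number of the unions along which the logarithmic means tend to zero -/
noncomputable def nLg (u : ℕ → ℂ) (P : ℕ) : ℕ :=
  ((range P).powerset.filter (fun A => Tendsto (mLg u P A) atTop (𝓝 0))).card

lemma lift_mod {q P : ℕ} (hP : 0 < P) (hd : q ∣ P) (B : Finset ℕ) (n : ℕ) :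
    n % P ∈ (range P).filter (fun j => j % q ∈ B) ↔ n % q ∈ B := by
  rw [mem_filter, mem_range, Nat.mod_mod_of_dvd _ hd]
  exact ⟨fun h => h.2, fun h => ⟨Nat.mod_lt _ hP, h⟩⟩

lemma mLg_lift (u : ℕ → ℂ) {q P : ℕ} (hP : 0 < P) (hd : q ∣ P) (B : Finset ℕ) (N : ℕ) :
    mLg u q B N = mLg u P ((range P).filter (fun j => j % q ∈ B)) N := by
  unfold mLg
  simp only [lift_mod hP hd]

theorem few_log {u : ℕ → ℂ} (hu : ∀ n, ‖u n‖ ≤ 1) {c : ℝ} (hc : 0 < c) (q : ℕ) (B : Finset ℕ)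
    (hfr : ∃ᶠ N in atTop, c ≤ ‖mLg u q B N‖) {P : ℕ} (hP : 0 < P) (hd : q ∣ P) :
    (nLg u P : ℝ) ≤ 162 * (1 + 1 / c) * 2 ^ P / √P := by
  classical
  have h1 := few_gen (l := (atTop : Filter ℕ)) (range P) (nonempty_range_iff.2 hP.ne') (fun N => Icc 1 N)
    (tLg u) (fun n => n % P) (B := 3) (c := c) (by norm_num) hc ?_
    (K' := (range P).filter (fun j => j % q ∈ B)) (filter_subset _ _) ?_
  · rw [card_range] at h1
    have h2 : nLg u P = nG atTop (fun N => Icc 1 N) (tLg u) (fun n => n % P) (range P) := by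
      unfold nLg nG
      have h3 : ∀ A, mLg u P A = sG (fun N => Icc 1 N) (tLg u) (fun n => n % P) A :=
        fun A => funext fun N => mLg_eq u P A N
      simp only [h3]
    rw [h2]
    refine h1.trans (le_of_eq ?_)
    ring
  · filter_upwards [tLg_class hu hP] with N hN j _
    rw [card_range]
    refine le_trans (le_of_eq (sum_congr ?_ fun _ _ => rfl)) (hN j)
    ext n
    simp only [mem_filter]
  · refine hfr.mono fun N hN => hN.trans (le_of_eq ?_)
    rw [← mLg_eq, ← mLg_lift u hP hd]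

lemma mLg_add (u : ℕ → ℂ) (P : ℕ) (A : Finset ℕ) (N : ℕ) :
    mLg u P A N = ∑ j ∈ A, mLg u P {j} N := by
  classical
  rw [mLg_eq, sG_eq]
  refine sum_congr rfl fun j _ => ?_
  rw [mLg_eq, sG_eq, sum_singleton]

/-- **Single classes and a small share of the unions** -/
theorem log_iff {u : ℕ → ℂ} (hu : ∀ n, ‖u n‖ ≤ 1) :
    (∀ q : ℕ, 0 < q → ∀ a < q, Tendsto (mLg u q {a}) atTop (𝓝 0)) ↔
      ∀ q : ℕ, 0 < q → ∀ K : ℝ, ∃ P : ℕ, 0 < P ∧ q ∣ P ∧ K * 2 ^ P / √P ≤ nLg u P := by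
  classical
  constructor
  · intro h q hq K
    obtain ⟨P, hP, hd, hK⟩ := sqrt_large q hq K
    refine ⟨P, hP, hd, hK.trans (le_of_eq ?_)⟩
    have h3 : nLg u P = 2 ^ P := by
      unfold nLg
      rw [filter_eq_self.2, card_powerset, card_range]
      intro A hA
      rw [mem_powerset] at hA
      have h4 : mLg u P A = fun i => ∑ j ∈ A, mLg u P {j} i := funext fun i => mLg_add u P A i
      rw [h4]
      have h7 : (0 : ℂ) = ∑ j ∈ A, (0 : ℂ) := by simp
      rw [h7]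
      exact tendsto_finsetSum _ fun j hj => h P hP j (mem_range.1 (hA hj))
    rw [h3]
    push_cast
    ring
  · intro h q hq a ha
    by_contra hcon
    obtain ⟨c, hc, hfr⟩ := not_tendstoG hcon
    obtain ⟨P, hP, hd, h6⟩ := h q hq (2 * (162 * (1 + 1 / c)))
    exact contra' hP (by positivity) le_rfl h6 (few_log hu hc q {a} hfr hP hd)

theorem log_all {u : ℕ → ℂ} (hu : ∀ n, ‖u n‖ ≤ 1)
    (h : ∀ K : ℝ, ∃ P : ℕ, 0 < P ∧ K * 2 ^ P / √P ≤ nLg u P) : Tendsto (mLg u 1 {0}) atTop (𝓝 0) := by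
  by_contra hcon
  obtain ⟨c, hc, hfr⟩ := not_tendstoG hcon
  obtain ⟨P, hP, h6⟩ := h (2 * (162 * (1 + 1 / c)))
  exact contra' hP (by positivity) le_rfl h6 (few_log hu hc 1 {0} hfr hP (one_dvd P))

/-! ### convergence -/

/-- the logarithmic means along `A` converge -/
def ConvL (u : ℕ → ℂ) (P : ℕ) (A : Finset ℕ) : Prop := ∃ L : ℂ, Tendsto (mLg u P A) atTop (𝓝 L)

lemma convC_iff (a : ℕ → ℂ) : (∃ L : ℂ, Tendsto a atTop (𝓝 L)) ↔
    Tendsto (fun p : ℕ × ℕ => a p.1 - a p.2) atTop (𝓝 0) := by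
  constructor
  · rintro ⟨L, hL⟩
    have h1 := cauchySeq_iff_tendsto_dist_atTop_0.1 hL.cauchySeq
    rw [tendsto_zero_iff_norm_tendsto_zero]
    refine h1.congr fun p => ?_
    rw [dist_eq_norm]
  · intro h
    rw [tendsto_zero_iff_norm_tendsto_zero] at h
    have h1 : CauchySeq a := by
      rw [cauchySeq_iff_tendsto_dist_atTop_0]
      refine h.congr fun p => ?_
      rw [dist_eq_norm]
    exact cauchySeq_tendsto_of_complete h1

open Classical in
/-- the number of the unions along which the logarithmic means converge -/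
noncomputable def nCL (u : ℕ → ℂ) (P : ℕ) : ℕ := ((range P).powerset.filter (fun A => ConvL u P A)).card

lemma sum_trunc {N M : ℕ} (h : N ≤ M) (Q : ℕ → Prop) [DecidablePred Q] (g : ℕ → ℂ) :
    ∑ n ∈ (Icc 1 M).filter Q, (if n ≤ N then g n else 0) = ∑ n ∈ (Icc 1 N).filter Q, g n := by
  rw [← sum_filter, filter_filter]
  refine sum_congr ?_ fun _ _ => rfl
  ext n
  simp only [mem_filter, mem_Icc]
  constructor
  · rintro ⟨⟨h1, _⟩, h2, h3⟩
    exact ⟨⟨h1, h3⟩, h2⟩
  · rintro ⟨⟨h1, h2⟩, h3⟩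
    exact ⟨⟨h1, h2.trans h⟩, h3, h2⟩

lemma sum_trunc_real {N M : ℕ} (h : N ≤ M) (Q : ℕ → Prop) [DecidablePred Q] (g : ℕ → ℝ) :
    ∑ n ∈ (Icc 1 M).filter Q, (if n ≤ N then g n else 0) = ∑ n ∈ (Icc 1 N).filter Q, g n := by
  rw [← sum_filter, filter_filter]
  refine sum_congr ?_ fun _ _ => rfl
  ext n
  simp only [mem_filter, mem_Icc]
  constructor
  · rintro ⟨⟨h1, _⟩, h2, h3⟩
    exact ⟨⟨h1, h3⟩, h2⟩
  · rintro ⟨⟨h1, h2⟩, h3⟩
    exact ⟨⟨h1, h2.trans h⟩, h3, h2⟩

/-- the terms of the differences -/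
noncomputable def tD (u : ℕ → ℂ) (p : ℕ × ℕ) (n : ℕ) : ℂ :=
  (if n ≤ p.1 then tLg u p.1 n else 0) - (if n ≤ p.2 then tLg u p.2 n else 0)

lemma sG_tD (u : ℕ → ℂ) (P : ℕ) (A : Finset ℕ) (p : ℕ × ℕ) :
    sG (fun p : ℕ × ℕ => Icc 1 (max p.1 p.2)) (tD u) (fun n => n % P) A p = mLg u P A p.1 - mLg u P A p.2 := by
  classical
  unfold sG tD
  refine Eq.trans (sum_congr (s₂ := (Icc 1 (max p.1 p.2)).filter (fun x => x % P ∈ A))
    (by ext n; simp only [mem_filter]) fun _ _ => rfl) ?_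
  rw [sum_sub_distrib, sum_trunc (le_max_left _ _), sum_trunc (le_max_right _ _)]
  unfold mLg tLg
  rw [sum_div, sum_div]

theorem few_logconv {u : ℕ → ℂ} (hu : ∀ n, ‖u n‖ ≤ 1) {c : ℝ} (hc : 0 < c) (q : ℕ) (B : Finset ℕ)
    (hfr : ∃ᶠ p : ℕ × ℕ in atTop, c ≤ ‖mLg u q B p.1 - mLg u q B p.2‖) {P : ℕ} (hP : 0 < P) (hd : q ∣ P) :
    (nCL u P : ℝ) ≤ 324 * (1 + 1 / c) * 2 ^ P / √P := by
  classical
  have hPr : (0 : ℝ) < P := by exact_mod_cast hP
  have h1 := few_gen (l := (atTop : Filter (ℕ × ℕ))) (range P) (nonempty_range_iff.2 hP.ne')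
    (fun p : ℕ × ℕ => Icc 1 (max p.1 p.2))
    (tD u) (fun n => n % P) (B := 6) (c := c) (by norm_num) hc ?_
    (K' := (range P).filter (fun j => j % q ∈ B)) (filter_subset _ _) ?_
  · rw [card_range] at h1
    have h2 : (nCL u P : ℝ) ≤
        (nG atTop (fun p : ℕ × ℕ => Icc 1 (max p.1 p.2)) (tD u) (fun n => n % P) (range P) : ℝ) := by
      unfold nCL nG
      have h3 : (range P).powerset.filter (fun A => ConvL u P A) ⊆ (range P).powerset.filter (fun A =>
          Tendsto (sG (fun p : ℕ × ℕ => Icc 1 (max p.1 p.2)) (tD u) (fun n => n % P) A) atTop (𝓝 0)) := by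
        intro A hA
        rw [mem_filter] at hA ⊢
        refine ⟨hA.1, ?_⟩
        refine ((convC_iff _).1 hA.2).congr fun p => ?_
        rw [sG_tD]
      exact_mod_cast card_le_card h3
    refine h2.trans (h1.trans (le_of_eq ?_))
    ring
  · obtain ⟨N0, hN0⟩ := eventually_atTop.1 (tLg_class hu hP)
    filter_upwards [eventually_ge_atTop ((N0, N0) : ℕ × ℕ)] with p hp j _
    rw [card_range]
    have h2 := hN0 p.1 hp.1 j
    have h3 := hN0 p.2 hp.2 j
    have hset : (Icc 1 (max p.1 p.2)).filter (fun x => x % P = j) = @filter ℕ (fun x => x % P = j)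
        (fun x => Classical.propDecidable _) (Icc 1 (max p.1 p.2)) := by
      ext n
      simp only [mem_filter]
    rw [← hset]
    calc ∑ n ∈ (Icc 1 (max p.1 p.2)).filter (fun x => x % P = j), ‖tD u p n‖
        ≤ ∑ n ∈ (Icc 1 (max p.1 p.2)).filter (fun x => x % P = j),
          ((if n ≤ p.1 then ‖tLg u p.1 n‖ else 0) + (if n ≤ p.2 then ‖tLg u p.2 n‖ else 0)) := by
          refine sum_le_sum fun n _ => ?_
          unfold tD
          refine (norm_sub_le _ _).trans (le_of_eq ?_)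
          split_ifs <;> simp
      _ = ∑ n ∈ (Icc 1 p.1).filter (fun x => x % P = j), ‖tLg u p.1 n‖ +
          ∑ n ∈ (Icc 1 p.2).filter (fun x => x % P = j), ‖tLg u p.2 n‖ := by
          rw [sum_add_distrib, sum_trunc_real (le_max_left _ _), sum_trunc_real (le_max_right _ _)]
      _ ≤ 3 / P + 3 / P := add_le_add h2 h3
      _ = 6 / P := by ring
  · refine hfr.mono fun p hp => hp.trans (le_of_eq ?_)
    rw [sG_tD, ← mLg_lift u hP hd, ← mLg_lift u hP hd]

/-- **Convergence from a small share of the unions** -/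
theorem logconv_all {u : ℕ → ℂ} (hu : ∀ n, ‖u n‖ ≤ 1)
    (h : ∀ K : ℝ, ∃ P : ℕ, 0 < P ∧ K * 2 ^ P / √P ≤ nCL u P) : ConvL u 1 {0} := by
  by_contra hcon
  have h1 : ¬ Tendsto (fun p : ℕ × ℕ => mLg u 1 {0} p.1 - mLg u 1 {0} p.2) atTop (𝓝 0) :=
    fun h' => hcon ((convC_iff _).2 h')
  obtain ⟨c, hc, hfr⟩ := not_tendstoG h1
  obtain ⟨P, hP, h6⟩ := h (2 * (324 * (1 + 1 / c)))
  exact contra' hP (by positivity) le_rfl h6 (few_logconv hu hc 1 {0} hfr hP (one_dvd P))

/-- **Single classes and a small share of the unions** -/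
theorem logconv_iff {u : ℕ → ℂ} (hu : ∀ n, ‖u n‖ ≤ 1) :
    (∀ q : ℕ, 0 < q → ∀ a < q, ConvL u q {a}) ↔
      ∀ q : ℕ, 0 < q → ∀ K : ℝ, ∃ P : ℕ, 0 < P ∧ q ∣ P ∧ K * 2 ^ P / √P ≤ nCL u P := by
  classical
  constructor
  · intro h q hq K
    obtain ⟨P, hP, hd, hK⟩ := sqrt_large q hq K
    refine ⟨P, hP, hd, hK.trans (le_of_eq ?_)⟩
    have h3 : nCL u P = 2 ^ P := by
      unfold nCL
      rw [filter_eq_self.2, card_powerset, card_range]
      intro A hA
      rw [mem_powerset] at hA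
      have h4 : mLg u P A = fun i => ∑ j ∈ A, mLg u P {j} i := funext fun i => mLg_add u P A i
      have h5 : ∀ j ∈ A, ConvL u P {j} := fun j hj => h P hP j (mem_range.1 (hA hj))
      unfold ConvL at h5 ⊢
      choose! L hL using h5
      refine ⟨∑ j ∈ A, L j, ?_⟩
      rw [h4]
      exact tendsto_finsetSum _ fun j hj => hL j hj
    rw [h3]
    push_cast
    ring
  · intro h q hq a ha
    by_contra hcon
    have h1 : ¬ Tendsto (fun p : ℕ × ℕ => mLg u q {a} p.1 - mLg u q {a} p.2) atTop (𝓝 0) :=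
      fun h' => hcon ((convC_iff _).2 h')
    obtain ⟨c, hc, hfr⟩ := not_tendstoG h1
    obtain ⟨P, hP, hd, h6⟩ := h q hq (2 * (324 * (1 + 1 / c)))
    exact contra' hP (by positivity) le_rfl h6 (few_logconv hu hc q {a} hfr hP hd)

end Q197.PS
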