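import Pool.Agent.Q197.PS.Y

/-! # The law of a colouring along random unions of residue classes, in total variation -/

set_option autoImplicit false
set_option linter.unusedSectionVars false
set_option linter.unusedVariables false

open Finset Filter Topology

namespace Q197.PS

section

variable {L : Type}

open Classical in
/-- the number of the `n ≤ N` of colour `ℓ` with `n mod P ∈ A` -/
noncomputable def cntL (r : ℕ → Option L) (P : ℕ) (A : Finset ℕ) (N : ℕ) (ℓ : L) : ℕ :=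
  ((Icc 1 N).filter (fun n => n % P ∈ A ∧ r n = some ℓ)).card

/-- the distance to the law `p N`, scaled by `|A| / P` -/
noncomputable def DL (r : ℕ → Option L) (p : ℕ → L → ℝ) (P : ℕ) (A : Finset ℕ) (N : ℕ) : ℝ :=
  ∑' ℓ : L, |(cntL r P A N ℓ : ℝ) / N - (A.card : ℝ) / P * p N ℓ|

/-- admissible laws -/
structure LawOK (p : ℕ → L → ℝ) : Prop where
  nonneg : ∀ N ℓ, 0 ≤ p N ℓ
  fin : ∀ N, {ℓ | p N ℓ ≠ 0}.Finite
  sum : ∀ N, ∑' ℓ, p N ℓ ≤ 1

open Classical in
/-- a finite set of colours outside which everything vanishes -/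
noncomputable def supL (r : ℕ → Option L) {p : ℕ → L → ℝ} (hp : LawOK p) (N : ℕ) : Finset L :=
  (hp.fin N).toFinset ∪ (Icc 1 N).biUnion (fun n => (r n).toFinset)

lemma cntL_zero (r : ℕ → Option L) {p : ℕ → L → ℝ} (hp : LawOK p) (P : ℕ) (A : Finset ℕ) {N : ℕ} {ℓ : L}
    (h : ℓ ∉ supL r hp N) : cntL r P A N ℓ = 0 ∧ p N ℓ = 0 := by
  classical
  unfold supL at h
  rw [mem_union, not_or] at h
  constructor
  · unfold cntL
    rw [card_eq_zero, filter_eq_empty_iff]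
    rintro n hn ⟨_, h2⟩
    apply h.2
    rw [mem_biUnion]
    exact ⟨n, hn, by simp [h2]⟩
  · by_contra hcon
    exact h.1 ((hp.fin N).mem_toFinset.2 hcon)

lemma DL_eq (r : ℕ → Option L) {p : ℕ → L → ℝ} (hp : LawOK p) (P : ℕ) (A : Finset ℕ) (N : ℕ) :
    DL r p P A N = ∑ ℓ ∈ supL r hp N, |(cntL r P A N ℓ : ℝ) / N - (A.card : ℝ) / P * p N ℓ| := by
  unfold DL
  refine tsum_eq_sum fun ℓ hℓ => ?_
  obtain ⟨h1, h2⟩ := cntL_zero r hp P A hℓ
  rw [h1, h2]
  simp

lemma p_sum {p : ℕ → L → ℝ} (hp : LawOK p) (r : ℕ → Option L) (N : ℕ) : ∑ ℓ ∈ supL r hp N, p N ℓ ≤ 1 := by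
  have h1 : ∑' ℓ, p N ℓ = ∑ ℓ ∈ supL r hp N, p N ℓ :=
    tsum_eq_sum fun ℓ hℓ => (cntL_zero r hp 1 ∅ hℓ).2
  rw [← h1]
  exact hp.sum N

/-- signed class sums -/
noncomputable def cS (r : ℕ → Option L) {p : ℕ → L → ℝ} (hp : LawOK p) (s : L → ℝ) (P N j : ℕ) : ℝ :=
  ∑ ℓ ∈ supL r hp N, s ℓ * ((cntL r P {j} N ℓ : ℝ) / N - 1 / P * p N ℓ)

lemma cntL_add (r : ℕ → Option L) (P : ℕ) (A : Finset ℕ) (N : ℕ) (ℓ : L) :
    (cntL r P A N ℓ : ℝ) = ∑ j ∈ A, (cntL r P {j} N ℓ : ℝ) := by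
  classical
  unfold cntL
  have h1 : ((Icc 1 N).filter (fun n => n % P ∈ A ∧ r n = some ℓ)) =
      A.biUnion (fun j => (Icc 1 N).filter (fun n => n % P ∈ ({j} : Finset ℕ) ∧ r n = some ℓ)) := by
    ext n
    simp only [mem_filter, mem_biUnion, mem_singleton]
    constructor
    · rintro ⟨h1, h2, h3⟩
      exact ⟨n % P, h2, h1, rfl, h3⟩
    · rintro ⟨j, h1, h2, h3, h4⟩
      exact ⟨h2, by rw [h3]; exact h1, h4⟩
  rw [h1, card_biUnion]
  · push_cast
    rfl
  · intro i _ j _ hij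
    refine disjoint_left.2 fun n h2 h3 => hij ?_
    rw [mem_filter, mem_singleton] at h2 h3
    exact h2.2.1.symm.trans h3.2.1

lemma cS_sum (r : ℕ → Option L) {p : ℕ → L → ℝ} (hp : LawOK p) (s : L → ℝ) (P : ℕ) (A : Finset ℕ) (N : ℕ) :
    ∑ j ∈ A, cS r hp s P N j =
      ∑ ℓ ∈ supL r hp N, s ℓ * ((cntL r P A N ℓ : ℝ) / N - (A.card : ℝ) / P * p N ℓ) := by
  unfold cS
  rw [sum_comm]
  refine sum_congr rfl fun ℓ _ => ?_
  rw [← mul_sum]
  congr 1
  rw [sum_sub_distrib, cntL_add, sum_div, sum_const, nsmul_eq_mul]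
  ring

lemma cS_le (r : ℕ → Option L) {p : ℕ → L → ℝ} (hp : LawOK p) {s : L → ℝ} (hs : ∀ ℓ, |s ℓ| ≤ 1) {P : ℕ}
    (hP : 0 < P) {N : ℕ} (hN : P ≤ N) (j : ℕ) : |cS r hp s P N j| ≤ 3 / P := by
  classical
  have hPr : (0 : ℝ) < P := by exact_mod_cast hP
  have hNr : (P : ℝ) ≤ N := by exact_mod_cast hN
  have hN0 : (0 : ℝ) < N := by linarith
  unfold cS
  have h1 : |∑ ℓ ∈ supL r hp N, s ℓ * ((cntL r P {j} N ℓ : ℝ) / N - 1 / P * p N ℓ)| ≤
      ∑ ℓ ∈ supL r hp N, ((cntL r P {j} N ℓ : ℝ) / N + 1 / P * p N ℓ) := by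
    refine (abs_sum_le_sum_abs _ _).trans (sum_le_sum fun ℓ _ => ?_)
    rw [abs_mul]
    have h2 : |(cntL r P {j} N ℓ : ℝ) / N - 1 / P * p N ℓ| ≤ (cntL r P {j} N ℓ : ℝ) / N + 1 / P * p N ℓ := by
      have h3 : 0 ≤ (cntL r P {j} N ℓ : ℝ) / N := by positivity
      have h4 : 0 ≤ 1 / (P : ℝ) * p N ℓ := mul_nonneg (by positivity) (hp.nonneg N ℓ)
      rw [abs_le]
      constructor <;> linarith
    calc |s ℓ| * |(cntL r P {j} N ℓ : ℝ) / N - 1 / P * p N ℓ| ≤
        1 * ((cntL r P {j} N ℓ : ℝ) / N + 1 / P * p N ℓ) :=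
          mul_le_mul (hs ℓ) h2 (abs_nonneg _) zero_le_one
      _ = _ := one_mul _
  refine h1.trans ?_
  rw [sum_add_distrib, ← sum_div, ← mul_sum]
  have h2 : ∑ ℓ ∈ supL r hp N, (cntL r P {j} N ℓ : ℝ) ≤ N / P + 1 := by
    have h3 : ∑ ℓ ∈ supL r hp N, cntL r P {j} N ℓ ≤ ((Icc 1 N).filter (fun n => n % P = j)).card := by
      unfold cntL
      rw [← card_biUnion]
      · apply card_le_card
        intro n hn
        rw [mem_biUnion] at hn
        obtain ⟨ℓ, _, h4⟩ := hn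
        rw [mem_filter, mem_singleton] at h4
        exact mem_filter.2 ⟨h4.1, h4.2.1⟩
      · intro a _ b _ hab
        refine disjoint_left.2 fun n h4 h5 => hab ?_
        rw [mem_filter] at h4 h5
        exact Option.some_injective _ (h4.2.2.symm.trans h5.2.2)
    have h4 := h3.trans (card_class_le hP N j)
    have h5 : (((N / P : ℕ) : ℝ)) ≤ (N : ℝ) / P := Nat.cast_div_le
    have h6 : ((∑ ℓ ∈ supL r hp N, cntL r P {j} N ℓ : ℕ) : ℝ) ≤ ((N / P : ℕ) : ℝ) + 1 := by exact_mod_cast h4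
    push_cast at h6
    linarith
  have h7 := p_sum hp r N
  calc (∑ ℓ ∈ supL r hp N, (cntL r P {j} N ℓ : ℝ)) / N + 1 / P * ∑ ℓ ∈ supL r hp N, p N ℓ
      ≤ (N / P + 1) / N + 1 / P * 1 := by gcongr
    _ = 1 / P + 1 / N + 1 / P := by field_simp
    _ ≤ 1 / P + 1 / P + 1 / P := by gcongr
    _ = 3 / P := by ring

lemma card_lift {q P : ℕ} (hq : 0 < q) (hd : q ∣ P) {B : Finset ℕ} (hB : B ⊆ range q) :
    ((range P).filter (fun j => j % q ∈ B)).card = B.card * (P / q) := by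
  classical
  obtain ⟨m, rfl⟩ := hd
  rw [Nat.mul_div_cancel_left m hq]
  have h1 : (range (q * m)).filter (fun j => j % q ∈ B) =
      (B ×ˢ range m).image (fun x => x.1 + q * x.2) := by
    ext j
    simp only [mem_filter, mem_range, mem_image, mem_product, Prod.exists]
    constructor
    · rintro ⟨h1, h2⟩
      exact ⟨j % q, j / q, ⟨h2, Nat.div_lt_of_lt_mul h1⟩, Nat.mod_add_div j q⟩
    · rintro ⟨a, b, ⟨h1, h2⟩, rfl⟩
      have h3 := mem_range.1 (hB h1)
      have h4 : q * (b + 1) ≤ q * m := Nat.mul_le_mul_left q h2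
      rw [mul_add, mul_one] at h4
      refine ⟨by omega, ?_⟩
      rw [Nat.add_mul_mod_self_left, Nat.mod_eq_of_lt h3]
      exact h1
  rw [h1, card_image_of_injOn, card_product, card_range]
  rintro ⟨a, b⟩ h2 ⟨a', b'⟩ h3 h4
  simp only [coe_product, Set.mem_prod, mem_coe] at h2 h3
  have h5 := mem_range.1 (hB h2.1)
  have h6 := mem_range.1 (hB h3.1)
  simp only at h4
  have h7 : a = a' := by
    have := congrArg (fun x => x % q) h4
    simp only [Nat.add_mul_mod_self_left] at this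
    rwa [Nat.mod_eq_of_lt h5, Nat.mod_eq_of_lt h6] at this
  subst h7
  have h8 : q * b = q * b' := by omega
  rw [Nat.eq_of_mul_eq_mul_left hq h8]

lemma cntL_lift (r : ℕ → Option L) {q P : ℕ} (hP : 0 < P) (hd : q ∣ P) (B : Finset ℕ) (N : ℕ) (ℓ : L) :
    cntL r q B N ℓ = cntL r P ((range P).filter (fun j => j % q ∈ B)) N ℓ := by
  classical
  unfold cntL
  congr 1
  ext n
  simp only [mem_filter, mem_range]
  constructor
  · rintro ⟨h1, h2, h3⟩
    exact ⟨h1, ⟨Nat.mod_lt _ hP, by rw [Nat.mod_mod_of_dvd _ hd]; exact h2⟩, h3⟩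
  · rintro ⟨h1, ⟨h2, h3⟩, h4⟩
    exact ⟨h1, by rw [Nat.mod_mod_of_dvd _ hd] at h3; exact h3, h4⟩

open Classical in
/-- the number of the unions along which the law is approached -/
noncomputable def nLaw (r : ℕ → Option L) (p : ℕ → L → ℝ) (P : ℕ) : ℕ :=
  ((range P).powerset.filter (fun A => Tendsto (DL r p P A) atTop (𝓝 0))).card

/-- **Few unions** -/
theorem few_law (r : ℕ → Option L) {p : ℕ → L → ℝ} (hp : LawOK p) {c : ℝ} (hc : 0 < c) {q : ℕ} (hq : 0 < q)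
    {B : Finset ℕ} (hB : B ⊆ range q) (hfr : ∃ᶠ N in atTop, c ≤ DL r p q B N) {P : ℕ} (hP : 0 < P) (hd : q ∣ P) :
    (nLaw r p P : ℝ) ≤ 81 * (1 + 1 / c) * 2 ^ P / √P := by
  classical
  have hPr : (0 : ℝ) < P := by exact_mod_cast hP
  have hqr : (0 : ℝ) < q := by exact_mod_cast hq
  obtain ⟨s, hs⟩ : ∃ s : ℕ → L → ℝ, s = fun N ℓ =>
      if 0 ≤ (cntL r q B N ℓ : ℝ) / N - (B.card : ℝ) / q * p N ℓ then 1 else -1 := ⟨_, rfl⟩
  have hs1 : ∀ N ℓ, |s N ℓ| ≤ 1 := by
    intro N ℓ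
    rw [hs]
    simp only
    split_ifs <;> simp
  have h1 := few_col (l := (atTop : Filter ℕ)) (range P) (nonempty_range_iff.2 hP.ne')
    (fun N j => cS r hp (s N) P N j) (c0 := c) (B := 3) hc (by norm_num) ?_ ?_ (fun _ => 0)
  · rw [card_range] at h1
    have h2 : (nLaw r p P : ℝ) ≤ (((range P).powerset.filter (fun A =>
        Tendsto (fun i : ℕ => ∑ j ∈ A, cS r hp (s i) P i j - 0) atTop (𝓝 0))).card : ℝ) := by
      unfold nLaw
      have h3 : (range P).powerset.filter (fun A => Tendsto (DL r p P A) atTop (𝓝 0)) ⊆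
          (range P).powerset.filter (fun A =>
          Tendsto (fun i : ℕ => ∑ j ∈ A, cS r hp (s i) P i j - 0) atTop (𝓝 0)) := by
        intro A hA
        rw [mem_filter] at hA ⊢
        refine ⟨hA.1, squeeze_zero_norm (fun N => ?_) hA.2⟩
        rw [sub_zero, cS_sum, Real.norm_eq_abs, DL_eq r hp]
        refine (abs_sum_le_sum_abs _ _).trans (sum_le_sum fun ℓ _ => ?_)
        rw [abs_mul]
        calc |s N ℓ| * |(cntL r P A N ℓ : ℝ) / N - (A.card : ℝ) / P * p N ℓ| ≤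
            1 * |(cntL r P A N ℓ : ℝ) / N - (A.card : ℝ) / P * p N ℓ| :=
              mul_le_mul_of_nonneg_right (hs1 N ℓ) (abs_nonneg _)
          _ = _ := one_mul _
      exact_mod_cast card_le_card h3
    refine h2.trans (h1.trans ?_)
    have h3 : (5 + 27 / c) * 3 ≤ 81 * (1 + 1 / c) := by
      have : 27 / c = 27 * (1 / c) := by ring
      rw [this]
      linarith
    calc (5 + 27 / c) * (3 / √(P : ℝ)) * 2 ^ P = (5 + 27 / c) * 3 * 2 ^ P / √P := by ring
      _ ≤ 81 * (1 + 1 / c) * 2 ^ P / √P := by gcongr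
  · filter_upwards [eventually_ge_atTop P] with N hN j _
    rw [card_range]
    exact cS_le r hp (hs1 N) hP hN j
  · refine hfr.mono fun N hN => hN.trans ?_
    have h2 : DL r p q B N = ∑ j ∈ (range P).filter (fun j => j % q ∈ B), cS r hp (s N) P N j := by
      rw [cS_sum, DL_eq r hp, card_lift hq hd hB]
      refine sum_congr rfl fun ℓ _ => ?_
      rw [← cntL_lift r hP hd]
      have h3 : (((B.card * (P / q) : ℕ) : ℝ)) / P = (B.card : ℝ) / q := by
        rw [Nat.cast_mul, Nat.cast_div hd hqr.ne']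
        field_simp
      rw [h3, hs]
      simp only
      split_ifs with h4
      · rw [one_mul, abs_of_nonneg h4]
      · rw [abs_of_neg (not_le.1 h4)]
        ring
    rw [h2]
    refine (le_abs_self _).trans ((abs_sum_le_sum_abs _ _).trans ?_)
    exact sum_le_sum_of_subset_of_nonneg (filter_subset _ _) fun j _ _ => abs_nonneg _

lemma DL_nonneg (r : ℕ → Option L) (p : ℕ → L → ℝ) (P : ℕ) (A : Finset ℕ) (N : ℕ) : 0 ≤ DL r p P A N :=
  tsum_nonneg fun _ => abs_nonneg _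

lemma DL_add (r : ℕ → Option L) {p : ℕ → L → ℝ} (hp : LawOK p) (P : ℕ) (A : Finset ℕ) (N : ℕ) :
    DL r p P A N ≤ ∑ j ∈ A, DL r p P {j} N := by
  simp only [DL_eq r hp]
  rw [sum_comm]
  refine sum_le_sum fun ℓ _ => ?_
  have h1 : (cntL r P A N ℓ : ℝ) / N - (A.card : ℝ) / P * p N ℓ =
      ∑ j ∈ A, ((cntL r P {j} N ℓ : ℝ) / N - ((({j} : Finset ℕ).card : ℕ) : ℝ) / P * p N ℓ) := by
    rw [sum_sub_distrib, cntL_add, sum_div]
    simp only [card_singleton]
    rw [sum_const, nsmul_eq_mul]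
    push_cast
    ring
  rw [h1]
  exact abs_sum_le_sum_abs _ _

/-- **Single classes and a small share of the unions** -/
theorem law_iff (r : ℕ → Option L) {p : ℕ → L → ℝ} (hp : LawOK p) :
    (∀ q : ℕ, 0 < q → ∀ a < q, Tendsto (DL r p q {a}) atTop (𝓝 0)) ↔
      ∀ q : ℕ, 0 < q → ∀ K : ℝ, ∃ P : ℕ, 0 < P ∧ q ∣ P ∧ K * 2 ^ P / √P ≤ nLaw r p P := by
  classical
  constructor
  · intro h q hq K
    obtain ⟨P, hP, hd, hK⟩ := sqrt_large q hq K
    refine ⟨P, hP, hd, hK.trans (le_of_eq ?_)⟩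
    have h3 : nLaw r p P = 2 ^ P := by
      unfold nLaw
      rw [filter_eq_self.2, card_powerset, card_range]
      intro A hA
      rw [mem_powerset] at hA
      have h4 : Tendsto (fun N => ∑ j ∈ A, DL r p P {j} N) atTop (𝓝 0) := by
        have h7 : (0 : ℝ) = ∑ j ∈ A, (0 : ℝ) := by simp
        rw [h7]
        exact tendsto_finsetSum _ fun j hj => h P hP j (mem_range.1 (hA hj))
      exact squeeze_zero (fun N => DL_nonneg r p P A N) (fun N => DL_add r hp P A N) h4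
    rw [h3]
    push_cast
    ring
  · intro h q hq a ha
    by_contra hcon
    obtain ⟨c, hc, hfr⟩ := not_tendsto_gen hcon
    obtain ⟨P, hP, hd, h6⟩ := h q hq (2 * (81 * (1 + 1 / c)))
    have h7 := few_law r hp hc hq (B := {a}) (by
      intro x hx
      rw [mem_singleton] at hx
      rw [hx]
      exact mem_range.2 ha) (hfr.mono fun N hN => by
        rwa [abs_of_nonneg (DL_nonneg r p q {a} N)] at hN) hP hd
    exact contra' hP (by positivity) le_rfl h6 h7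

/-- **The full law** -/
theorem law_all (r : ℕ → Option L) {p : ℕ → L → ℝ} (hp : LawOK p)
    (h : ∀ K : ℝ, ∃ P : ℕ, 0 < P ∧ K * 2 ^ P / √P ≤ nLaw r p P) : Tendsto (DL r p 1 {0}) atTop (𝓝 0) := by
  classical
  by_contra hcon
  obtain ⟨c, hc, hfr⟩ := not_tendsto_gen hcon
  obtain ⟨P, hP, h6⟩ := h (2 * (81 * (1 + 1 / c)))
  have h7 := few_law r hp hc one_pos (B := {0}) (by
    intro x hx
    rw [mem_singleton] at hx
    rw [hx]
    exact mem_range.2 one_pos) (hfr.mono fun N hN => by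
      rwa [abs_of_nonneg (DL_nonneg r p 1 {0} N)] at hN) hP (one_dvd P)
  exact contra' hP (by positivity) le_rfl h6 h7

end

end Q197.PS
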