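import Pool.Agent.Q197.PS.Y

/-! # Convergence of averages over boxes along random unions of residue classes -/

set_option autoImplicit false
set_option linter.unusedSectionVars false
set_option linter.unusedVariables false

open Finset Filter Topology

namespace Q197.PS

variable {k : ℕ}

/-- the box with sides `M j` -/
def bx (M : Fin k → ℕ) : Finset (Fin k → ℕ) := Fintype.piFinset (fun j => range (M j))

/-- the residues -/
def rsd (P : ℕ) (m : Fin k → ℕ) : Fin k → ℕ := fun j => m j % P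

/-- the residue classes modulo `P` -/
def clsM (k P : ℕ) : Finset (Fin k → ℕ) := Fintype.piFinset (fun _ => range P)

open Classical in
/-- the average along the classes in `A` -/
noncomputable def avM (u : (Fin k → ℕ) → ℝ) (P : ℕ) (A : Finset (Fin k → ℕ)) (M : Fin k → ℕ) : ℝ :=
  (∏ j, (M j : ℝ))⁻¹ * ∑ m ∈ (bx M).filter (fun m => rsd P m ∈ A), u m

/-- convergence along `A` -/
def ConvM (u : (Fin k → ℕ) → ℝ) (P : ℕ) (A : Finset (Fin k → ℕ)) : Prop :=
  ∃ L : ℝ, Tendsto (avM u P A) atTop (𝓝 L)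

open Classical in
/-- the number of the unions with convergence -/
noncomputable def nCM (u : (Fin k → ℕ) → ℝ) (P : ℕ) : ℕ := ((clsM k P).powerset.filter (fun A => ConvM u P A)).card

lemma card_clsM (k P : ℕ) : (clsM k P).card = P ^ k := by
  unfold clsM
  rw [Fintype.card_piFinset]
  simp

lemma avM_sum (u : (Fin k → ℕ) → ℝ) (P : ℕ) (A : Finset (Fin k → ℕ)) (M : Fin k → ℕ) :
    avM u P A M = ∑ j ∈ A, avM u P {j} M := by
  classical
  unfold avM
  rw [← mul_sum]
  congr 1
  rw [← sum_fiberwise_of_maps_to (s := (bx M).filter (fun m => rsd P m ∈ A)) (t := A)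
    (g := fun m => rsd P m) (fun m hm => (mem_filter.1 hm).2)]
  refine sum_congr rfl fun j hj => ?_
  refine sum_congr ?_ fun _ _ => rfl
  ext m
  simp only [mem_filter, mem_singleton]
  constructor
  · rintro ⟨⟨h1, h2⟩, h3⟩
    exact ⟨h1, h3⟩
  · rintro ⟨h1, h3⟩
    exact ⟨⟨h1, by rw [h3]; exact hj⟩, h3⟩

lemma card_rg {P : ℕ} (hP : 0 < P) {M : ℕ} (hM : P ≤ M) (j : ℕ) :
    (((range M).filter (fun n => n % P = j)).card : ℝ) ≤ 2 * M / P := by
  have hPr : (0 : ℝ) < P := by exact_mod_cast hP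
  have h1 : ((range M).filter (fun n => n % P = j)).card ≤ M / P + 1 := by
    have h2 : (range M).filter (fun n => n % P = j) ⊆ (range (M / P + 1)).image (fun i => j + P * i) := by
      intro n hn
      rw [mem_filter, mem_range] at hn
      rw [mem_image]
      refine ⟨n / P, ?_, ?_⟩
      · rw [mem_range]
        have := Nat.div_le_div_right (c := P) hn.1.le
        omega
      · rw [← hn.2]
        exact Nat.mod_add_div n P
    refine (card_le_card h2).trans (card_image_le.trans ?_)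
    rw [card_range]
  have h2 : (((M / P : ℕ) : ℝ)) ≤ (M : ℝ) / P := Nat.cast_div_le
  have h3 : (1 : ℝ) ≤ M / P := by
    rw [le_div_iff₀ hPr, one_mul]
    exact_mod_cast hM
  calc (((range M).filter (fun n => n % P = j)).card : ℝ) ≤ ((M / P : ℕ) : ℝ) + 1 := by exact_mod_cast h1
    _ ≤ M / P + M / P := by linarith
    _ = 2 * M / P := by ring

lemma class_le {u : (Fin k → ℕ) → ℝ} (hu : ∀ m, |u m| ≤ 1) {P : ℕ} (hP : 0 < P) {M : Fin k → ℕ}
    (hM : ∀ j, P ≤ M j) (j : Fin k → ℕ) : |avM u P {j} M| ≤ 2 ^ k / (P : ℝ) ^ k := by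
  classical
  have hPr : (0 : ℝ) < P := by exact_mod_cast hP
  have hMr : ∀ i, (0 : ℝ) < M i := fun i => lt_of_lt_of_le hPr (by exact_mod_cast hM i)
  unfold avM
  have h1 : (bx M).filter (fun m => rsd P m ∈ ({j} : Finset (Fin k → ℕ))) =
      Fintype.piFinset (fun i => (range (M i)).filter (fun n => n % P = j i)) := by
    ext m
    unfold bx rsd
    simp only [mem_filter, Fintype.mem_piFinset, mem_singleton, funext_iff]
    exact ⟨fun h i => ⟨h.1 i, h.2 i⟩, fun h => ⟨fun i => (h i).1, fun i => (h i).2⟩⟩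
  have h2 : |∑ m ∈ (bx M).filter (fun m => rsd P m ∈ ({j} : Finset (Fin k → ℕ))), u m| ≤ ∏ i, (2 * M i / P : ℝ) := by
    refine (abs_sum_le_sum_abs _ _).trans ((sum_le_sum fun m _ => hu m).trans ?_)
    rw [sum_const, nsmul_eq_mul, mul_one, h1, Fintype.card_piFinset]
    push_cast
    exact prod_le_prod (fun i _ => Nat.cast_nonneg _) fun i _ => card_rg hP (hM i) (j i)
  have h3 : (0 : ℝ) < ∏ i, (M i : ℝ) := prod_pos fun i _ => hMr i
  rw [abs_mul, abs_of_pos (inv_pos.2 h3), inv_mul_le_iff₀ h3]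
  refine h2.trans (le_of_eq ?_)
  have h4 : (2 : ℝ) ^ k / (P : ℝ) ^ k = ∏ _i : Fin k, (2 / P : ℝ) := by
    rw [prod_const, card_univ, Fintype.card_fin, div_pow]
  rw [h4, ← prod_mul_distrib]
  refine prod_congr rfl fun i _ => ?_
  ring

lemma coarse (u : (Fin k → ℕ) → ℝ) {q P : ℕ} (hP : 0 < P) (hd : q ∣ P) (B : Finset (Fin k → ℕ)) (M : Fin k → ℕ) :
    avM u q B M = avM u P ((clsM k P).filter (fun j => rsd q j ∈ B)) M := by
  classical
  unfold avM
  congr 1
  refine sum_congr ?_ fun _ _ => rfl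
  ext m
  have h1 : rsd q (rsd P m) = rsd q m := by
    funext i
    exact Nat.mod_mod_of_dvd _ hd
  simp only [mem_filter, h1]
  refine and_congr_right fun _ => ?_
  constructor
  · intro h
    refine ⟨?_, h⟩
    unfold clsM rsd
    rw [Fintype.mem_piFinset]
    exact fun i => mem_range.2 (Nat.mod_lt _ hP)
  · exact fun h => h.2

lemma convM_iff (a : (Fin k → ℕ) → ℝ) : (∃ L : ℝ, Tendsto a atTop (𝓝 L)) ↔
    Tendsto (fun p : (Fin k → ℕ) × (Fin k → ℕ) => a p.1 - a p.2) atTop (𝓝 0) := by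
  constructor
  · rintro ⟨L, hL⟩
    have h1 := cauchySeq_iff_tendsto_dist_atTop_0.1 hL.cauchySeq
    rw [tendsto_zero_iff_abs_tendsto_zero]
    refine h1.congr fun p => ?_
    rw [Real.dist_eq]
    rfl
  · intro h
    rw [tendsto_zero_iff_abs_tendsto_zero] at h
    have h1 : CauchySeq a := by
      rw [cauchySeq_iff_tendsto_dist_atTop_0]
      refine h.congr fun p => ?_
      rw [Real.dist_eq]
      rfl
    exact cauchySeq_tendsto_of_complete h1

/-- **Few unions with convergence** -/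
theorem few_convM {u : (Fin k → ℕ) → ℝ} (hu : ∀ m, |u m| ≤ 1) {c : ℝ} (hc : 0 < c) (q : ℕ) (B : Finset (Fin k → ℕ))
    (hfr : ∃ᶠ p : (Fin k → ℕ) × (Fin k → ℕ) in atTop, c ≤ |avM u q B p.1 - avM u q B p.2|) {P : ℕ} (hP : 0 < P)
    (hd : q ∣ P) : (nCM u P : ℝ) ≤ 54 * 2 ^ k * (1 + 1 / c) * 2 ^ (P ^ k) / √((P : ℝ) ^ k) := by
  classical
  have hPr : (0 : ℝ) < P := by exact_mod_cast hP
  have hne : (clsM k P).Nonempty := by
    rw [← card_pos, card_clsM]
    positivity
  have h1 := few_col (l := (atTop : Filter ((Fin k → ℕ) × (Fin k → ℕ)))) (clsM k P) hne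
    (fun p j => avM u P {j} p.1 - avM u P {j} p.2) (c0 := c) (B := 2 * 2 ^ k) hc
    (by have : (1 : ℝ) ≤ 2 ^ k := one_le_pow₀ (by norm_num)
        linarith) ?_ ?_ (fun _ => 0)
  · rw [card_clsM] at h1
    have h2 : (nCM u P : ℝ) ≤ (((clsM k P).powerset.filter (fun A =>
        Tendsto (fun i : (Fin k → ℕ) × (Fin k → ℕ) => ∑ j ∈ A, (avM u P {j} i.1 - avM u P {j} i.2) - 0) atTop
          (𝓝 0))).card : ℝ) := by
      unfold nCM
      have h3 : (clsM k P).powerset.filter (fun A => ConvM u P A) ⊆ (clsM k P).powerset.filter (fun A =>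
          Tendsto (fun i : (Fin k → ℕ) × (Fin k → ℕ) => ∑ j ∈ A, (avM u P {j} i.1 - avM u P {j} i.2) - 0) atTop
            (𝓝 0)) := by
        intro A hA
        rw [mem_filter] at hA ⊢
        refine ⟨hA.1, ?_⟩
        have h4 := (convM_iff _).1 hA.2
        refine h4.congr fun p => ?_
        rw [avM_sum, avM_sum u P A p.2, ← sum_sub_distrib, sub_zero]
      exact_mod_cast card_le_card h3
    refine h2.trans (h1.trans ?_)
    have h3 : (5 + 27 / c) * 2 ≤ 54 * (1 + 1 / c) := by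
      have : 27 / c = 27 * (1 / c) := by ring
      rw [this]
      linarith
    push_cast
    calc (5 + 27 / c) * (2 * 2 ^ k / √((P : ℝ) ^ k)) * 2 ^ (P ^ k) =
          (5 + 27 / c) * 2 * 2 ^ k * 2 ^ (P ^ k) / √((P : ℝ) ^ k) := by ring
      _ ≤ 54 * (1 + 1 / c) * 2 ^ k * 2 ^ (P ^ k) / √((P : ℝ) ^ k) := by gcongr
      _ = 54 * 2 ^ k * (1 + 1 / c) * 2 ^ (P ^ k) / √((P : ℝ) ^ k) := by ring
  · filter_upwards [eventually_ge_atTop ((fun _ => P, fun _ => P) : (Fin k → ℕ) × (Fin k → ℕ))] with p hp j _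
    rw [card_clsM]
    push_cast
    have h2 := class_le hu hP (fun i => hp.1 i) j
    have h3 := class_le hu hP (fun i => hp.2 i) j
    calc |avM u P {j} p.1 - avM u P {j} p.2| ≤ |avM u P {j} p.1| + |avM u P {j} p.2| := abs_sub _ _
      _ ≤ 2 ^ k / (P : ℝ) ^ k + 2 ^ k / (P : ℝ) ^ k := add_le_add h2 h3
      _ = 2 * 2 ^ k / (P : ℝ) ^ k := by ring
  · refine hfr.mono fun p hp => hp.trans ?_
    rw [coarse u hP hd, coarse u hP hd B p.2, avM_sum, avM_sum u P _ p.2, ← sum_sub_distrib]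
    refine (abs_sum_le_sum_abs _ _).trans ?_
    exact sum_le_sum_of_subset_of_nonneg (filter_subset _ _) fun j _ _ => abs_nonneg _

lemma avM_smul (u : (Fin k → ℕ) → ℝ) (s : ℝ) (P : ℕ) (A : Finset (Fin k → ℕ)) (M : Fin k → ℕ) :
    avM (fun m => s * u m) P A M = s * avM u P A M := by
  unfold avM
  rw [← mul_sum]
  ring

lemma convM_smul {u : (Fin k → ℕ) → ℝ} {s : ℝ} (hs : s ≠ 0) (P : ℕ) (A : Finset (Fin k → ℕ)) :
    ConvM (fun m => s * u m) P A ↔ ConvM u P A := by
  unfold ConvM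
  have h : avM (fun m => s * u m) P A = fun M => s * avM u P A M := funext fun M => avM_smul u s P A M
  rw [h]
  constructor
  · rintro ⟨L, hL⟩
    refine ⟨s⁻¹ * L, (hL.const_mul s⁻¹).congr fun M => ?_⟩
    rw [← mul_assoc, inv_mul_cancel₀ hs, one_mul]
  · rintro ⟨L, hL⟩
    exact ⟨s * L, hL.const_mul s⟩

/-- **Few unions**, bounded functions, no convergence along one union -/
theorem few_convM' {u : (Fin k → ℕ) → ℝ} {K : ℝ} (hu : ∀ m, |u m| ≤ K) (q : ℕ) (B : Finset (Fin k → ℕ))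
    (hcon : ¬ ConvM u q B) : ∃ C : ℝ, 0 < C ∧ ∀ P : ℕ, 0 < P → q ∣ P →
      (nCM u P : ℝ) ≤ C * 2 ^ (P ^ k) / √((P : ℝ) ^ k) := by
  classical
  obtain ⟨K', hK', hK'0⟩ : ∃ K' : ℝ, (∀ m, |u m| ≤ K') ∧ 0 < K' :=
    ⟨max K 1, fun m => (hu m).trans (le_max_left _ _), lt_of_lt_of_le one_pos (le_max_right _ _)⟩
  have hs : K'⁻¹ ≠ 0 := (inv_pos.2 hK'0).ne'
  have hv : ∀ m, |(fun m => K'⁻¹ * u m) m| ≤ 1 := by
    intro m
    simp only
    rw [abs_mul, abs_of_pos (inv_pos.2 hK'0), inv_mul_le_iff₀ hK'0, mul_one]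
    exact hK' m
  rw [← convM_smul hs] at hcon
  have h1 : ¬ Tendsto (fun p : (Fin k → ℕ) × (Fin k → ℕ) => avM (fun m => K'⁻¹ * u m) q B p.1 -
      avM (fun m => K'⁻¹ * u m) q B p.2) atTop (𝓝 0) := fun h' => hcon ((convM_iff _).2 h')
  obtain ⟨c, hc, hfr⟩ := not_tendsto_gen h1
  refine ⟨54 * 2 ^ k * (1 + 1 / c), by positivity, fun P hP hd => ?_⟩
  have h3 := few_convM hv hc q B hfr hP hd
  have h4 : nCM (fun m => K'⁻¹ * u m) P = nCM u P := by
    unfold nCM
    simp only [convM_smul hs]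
  rwa [h4] at h3

/-- restriction to one class: reindexing -/
lemma avM_class (u : (Fin k → ℕ) → ℝ) {P : ℕ} (hP : 0 < P) {r : Fin k → ℕ} (hr : ∀ j, r j < P) (M : Fin k → ℕ) :
    avM u P {r} M = (∏ j, (((M j + P - 1 - r j) / P : ℕ) : ℝ)) * (∏ j, (M j : ℝ))⁻¹ *
      ((∏ j, (((M j + P - 1 - r j) / P : ℕ) : ℝ))⁻¹ * ∑ m ∈ bx (fun j => (M j + P - 1 - r j) / P),
        u (fun j => P * m j + r j)) := by
  classical
  have h1 : ∑ m ∈ (bx M).filter (fun m => rsd P m ∈ ({r} : Finset (Fin k → ℕ))), u m =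
      ∑ m ∈ bx (fun j => (M j + P - 1 - r j) / P), u (fun j => P * m j + r j) := by
    symm
    refine sum_bij (fun m _ => fun j => P * m j + r j) ?_ ?_ ?_ ?_
    · intro m hm
      unfold bx at hm
      rw [Fintype.mem_piFinset] at hm
      rw [mem_filter, mem_singleton]
      unfold bx rsd
      rw [Fintype.mem_piFinset]
      refine ⟨fun j => ?_, funext fun j => ?_⟩
      · have h2 := mem_range.1 (hm j)
        rw [mem_range]
        rw [Nat.lt_iff_add_one_le, Nat.le_div_iff_mul_le hP] at h2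
        have h3 : (m j + 1) * P = P * m j + P := by ring
        rw [h3] at h2
        have := hr j
        omega
      · rw [Nat.mul_add_mod]
        exact Nat.mod_eq_of_lt (hr j)
    · intro m hm m' hm' h
      funext j
      have h2 := congrFun h j
      simp only [add_left_inj] at h2
      exact Nat.eq_of_mul_eq_mul_left hP h2
    · intro m hm
      rw [mem_filter, mem_singleton] at hm
      obtain ⟨hm1, hm2⟩ := hm
      unfold bx at hm1
      rw [Fintype.mem_piFinset] at hm1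
      refine ⟨fun j => m j / P, ?_, ?_⟩
      · unfold bx
        rw [Fintype.mem_piFinset]
        intro j
        rw [mem_range, Nat.lt_iff_add_one_le, Nat.le_div_iff_mul_le hP]
        have h2 := mem_range.1 (hm1 j)
        have h3 : m j % P = r j := congrFun hm2 j
        have h4 := Nat.mod_add_div (m j) P
        have h5 : (m j / P + 1) * P = P * (m j / P) + P := by ring
        rw [h5]
        have := hr j
        omega
      · funext j
        have h3 : m j % P = r j := congrFun hm2 j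
        have h4 := Nat.mod_add_div (m j) P
        simp only
        omega
    · intro m _
      rfl
  unfold avM
  rw [h1]
  by_cases h2 : (∏ j, (((M j + P - 1 - r j) / P : ℕ) : ℝ)) = 0
  · have h3 : bx (fun j => (M j + P - 1 - r j) / P) = ∅ := by
      rw [prod_eq_zero_iff] at h2
      obtain ⟨j, -, h4⟩ := h2
      have h5 : (M j + P - 1 - r j) / P = 0 := by exact_mod_cast h4
      refine eq_empty_of_forall_notMem fun m hm => ?_
      unfold bx at hm
      rw [Fintype.mem_piFinset] at hm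
      have h6 := mem_range.1 (hm j)
      simp only at h6
      omega
    rw [h3, sum_empty, mul_zero, mul_zero, mul_zero]
  · field_simp

lemma ratio_lim {P : ℕ} (hP : 0 < P) (r : Fin k → ℕ) :
    Tendsto (fun M : Fin k → ℕ => (∏ j, (((M j + P - 1 - r j) / P : ℕ) : ℝ)) * (∏ j, (M j : ℝ))⁻¹) atTop
      (𝓝 (∏ _j : Fin k, (1 / (P : ℝ)))) := by
  have hPr : (0 : ℝ) < P := by exact_mod_cast hP
  have h1 : (fun M : Fin k → ℕ => (∏ j, (((M j + P - 1 - r j) / P : ℕ) : ℝ)) * (∏ j, (M j : ℝ))⁻¹) =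
      fun M => ∏ j, ((((M j + P - 1 - r j) / P : ℕ) : ℝ) / (M j : ℝ)) := by
    funext M
    rw [← prod_inv_distrib, ← prod_mul_distrib]
    rfl
  rw [h1]
  refine tendsto_finsetProd _ fun j _ => ?_
  have h2 : Tendsto (fun n : ℕ => (((n + P - 1 - r j) / P : ℕ) : ℝ) / (n : ℝ)) atTop (𝓝 (1 / (P : ℝ))) := by
    rw [tendsto_iff_norm_sub_tendsto_zero]
    have h3 : Tendsto (fun n : ℕ => (2 + (r j : ℝ)) / n) atTop (𝓝 0) := tendsto_const_div_atTop_nhds_zero_nat _
    refine squeeze_zero' (Eventually.of_forall fun n => norm_nonneg _) ?_ h3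
    filter_upwards [eventually_gt_atTop (r j)] with n hn
    have hn0 : (0 : ℝ) < n := by
      have : 0 < n := by omega
      exact_mod_cast this
    rw [Real.norm_eq_abs]
    have h4 : (((n + P - 1 - r j) / P : ℕ) : ℝ) / (n : ℝ) - 1 / P =
        (((n + P - 1 - r j) / P : ℕ) - (n : ℝ) / P) / n := by
      field_simp
    rw [h4, abs_div, abs_of_pos hn0]
    gcongr
    have h5 := Nat.div_mul_le_self (n + P - 1 - r j) P
    have h6 := Nat.lt_div_mul_add (a := n + P - 1 - r j) hP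
    have h7 : (((n + P - 1 - r j) / P : ℕ) : ℝ) * P ≤ n + P := by
      have : (n + P - 1 - r j) / P * P ≤ n + P := by omega
      exact_mod_cast this
    have h8 : (n : ℝ) ≤ (((n + P - 1 - r j) / P : ℕ) : ℝ) * P + r j + 1 := by
      have : n ≤ (n + P - 1 - r j) / P * P + r j + 1 := by omega
      exact_mod_cast this
    have hP1 : (1 : ℝ) ≤ P := by exact_mod_cast hP
    rw [abs_le]
    constructor
    · rw [neg_le_sub_iff_le_add, div_le_iff₀ hPr]
      have h9 : (0 : ℝ) ≤ r j := Nat.cast_nonneg _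
      nlinarith
    · rw [sub_le_iff_le_add]
      have h9 : (((n + P - 1 - r j) / P : ℕ) : ℝ) ≤ (n + P) / P := by
        rw [le_div_iff₀ hPr]
        exact h7
      have h10 : ((n : ℝ) + P) / P = n / P + 1 := by field_simp
      rw [h10] at h9
      have h11 : (0 : ℝ) ≤ r j := Nat.cast_nonneg _
      linarith
  exact h2.comp (tendsto_atTop_atTop.2 fun b => ⟨fun _ => b, fun a ha => ha j⟩)

lemma shrink_lim {P : ℕ} (hP : 0 < P) (r : Fin k → ℕ) :
    Tendsto (fun M : Fin k → ℕ => (fun j => (M j + P - 1 - r j) / P : Fin k → ℕ)) atTop atTop := by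
  rw [tendsto_atTop_atTop]
  intro b
  refine ⟨fun j => b j * P + r j + 1, fun M hM j => ?_⟩
  rw [Nat.le_div_iff_mul_le hP]
  have := hM j
  simp only at this
  omega

/-- convergence along classes from convergence of the dilated averages -/
theorem conv_of_dil {u : (Fin k → ℕ) → ℝ} {P : ℕ} (hP : 0 < P) {A : Finset (Fin k → ℕ)} (hA : A ⊆ clsM k P)
    (h : ∀ r : Fin k → ℕ, (∀ j, r j < P) → ∃ L : ℝ, Tendsto (fun M : Fin k → ℕ => (∏ j, (M j : ℝ))⁻¹ *
      ∑ m ∈ bx M, u (fun j => P * m j + r j)) atTop (𝓝 L)) : ConvM u P A := by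
  classical
  have h1 : ∀ r ∈ A, ∃ L : ℝ, Tendsto (avM u P {r}) atTop (𝓝 L) := by
    intro r hr
    have hr' : ∀ j, r j < P := by
      have := hA hr
      unfold clsM at this
      rw [Fintype.mem_piFinset] at this
      exact fun j => mem_range.1 (this j)
    obtain ⟨L, hL⟩ := h r hr'
    refine ⟨_, ((ratio_lim hP r).mul (hL.comp (shrink_lim hP r))).congr fun M => ?_⟩
    rw [avM_class u hP hr']
    rfl
  choose! L hL using h1
  refine ⟨∑ r ∈ A, L r, ?_⟩
  have h2 : avM u P A = fun M => ∑ r ∈ A, avM u P {r} M := funext fun M => avM_sum u P A M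
  rw [h2]
  exact tendsto_finsetSum _ fun r hr => hL r hr

end Q197.PS
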