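import Pool.Agent.H568.GR.Vdc

/-! # Normal sequences and residue classes of positions -/

set_option autoImplicit false

open Finset Filter Topology

namespace Q197.PS.NW

variable {b : ℕ}

/-- all blocks of digits have the right frequency -/
def Nor (b : ℕ) (D : ℕ → Fin b) : Prop :=
  ∀ k : ℕ, 1 ≤ k → ∀ w : Fin k → Fin b,
    Tendsto (fun N : ℕ => (((range N).filter (fun i => ∀ j : Fin k, D (i + j) = w j)).card : ℝ) / N) atTop
      (𝓝 (1 / (b : ℝ) ^ k))

lemma card_fix {L : ℕ} (S : Finset (Fin L)) (v : Fin L → Fin b) :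
    ((univ : Finset (Fin L → Fin b)).filter (fun W => ∀ x ∈ S, W x = v x)).card = b ^ (L - S.card) := by
  classical
  have h1 : (univ : Finset (Fin L → Fin b)).filter (fun W => ∀ x ∈ S, W x = v x) =
      Fintype.piFinset (fun x => if x ∈ S then {v x} else univ) := by
    ext W
    simp only [mem_filter, mem_univ, true_and, Fintype.mem_piFinset]
    constructor
    · intro h x
      by_cases hx : x ∈ S
      · rw [if_pos hx, mem_singleton]
        exact h x hx
      · rw [if_neg hx]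
        exact mem_univ _
    · intro h x hx
      have := h x
      rwa [if_pos hx, mem_singleton] at this
  rw [h1, Fintype.card_piFinset]
  have h2 : ∀ x : Fin L, (if x ∈ S then ({v x} : Finset (Fin b)) else univ).card = if x ∈ S then 1 else b := by
    intro x
    by_cases hx : x ∈ S
    · rw [if_pos hx, if_pos hx, card_singleton]
    · rw [if_neg hx, if_neg hx, card_univ, Fintype.card_fin]
  rw [prod_congr rfl (fun x _ => h2 x), prod_ite, prod_const_one, one_mul, prod_const]
  congr 1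
  have h3 : (univ : Finset (Fin L)).filter (fun x => ¬ x ∈ S) = Sᶜ := by
    ext x
    simp
  rw [h3, card_compl, Fintype.card_fin]

theorem freq_fix {D : ℕ → Fin b} (hb : 0 < b) (hD : Nor b D) {L : ℕ} (hL : 1 ≤ L) (S : Finset (Fin L)) (v : Fin L → Fin b) :
    Tendsto (fun N : ℕ => (((range N).filter (fun i => ∀ x ∈ S, D (i + (x : ℕ)) = v x)).card : ℝ) / N) atTop
      (𝓝 (1 / (b : ℝ) ^ S.card)) := by
  classical
  have h1 : ∀ N : ℕ, (((range N).filter (fun i => ∀ x ∈ S, D (i + (x : ℕ)) = v x)).card : ℝ) / N =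
      ∑ W ∈ (univ : Finset (Fin L → Fin b)).filter (fun W => ∀ x ∈ S, W x = v x),
        (((range N).filter (fun i => ∀ j : Fin L, D (i + j) = W j)).card : ℝ) / N := by
    intro N
    rw [← sum_div]
    congr 1
    have h2 : (range N).filter (fun i => ∀ x ∈ S, D (i + (x : ℕ)) = v x) =
        ((univ : Finset (Fin L → Fin b)).filter (fun W => ∀ x ∈ S, W x = v x)).biUnion
          (fun W => (range N).filter (fun i => ∀ j : Fin L, D (i + j) = W j)) := by
      ext i
      simp only [mem_filter, mem_biUnion, mem_univ, true_and]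
      constructor
      · rintro ⟨hi, h⟩
        exact ⟨fun j => D (i + j), h, hi, fun j => rfl⟩
      · rintro ⟨W, hW, hi, h⟩
        exact ⟨hi, fun x hx => (h x).trans (hW x hx)⟩
    rw [h2, card_biUnion]
    · push_cast
      rfl
    · intro W _ W' _ hne
      rw [Function.onFun, disjoint_left]
      intro i hi hi'
      rw [mem_filter] at hi hi'
      exact hne (funext fun j => (hi.2 j).symm.trans (hi'.2 j))
  rw [funext h1]
  have h3 : Tendsto (fun N : ℕ => ∑ W ∈ (univ : Finset (Fin L → Fin b)).filter (fun W => ∀ x ∈ S, W x = v x),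
      (((range N).filter (fun i => ∀ j : Fin L, D (i + j) = W j)).card : ℝ) / N) atTop
      (𝓝 (∑ _W ∈ (univ : Finset (Fin L → Fin b)).filter (fun W => ∀ x ∈ S, W x = v x), 1 / (b : ℝ) ^ L)) :=
    tendsto_finsetSum _ fun W _ => hD L hL W
  have h4 : ∑ _W ∈ (univ : Finset (Fin L → Fin b)).filter (fun W => ∀ x ∈ S, W x = v x), 1 / (b : ℝ) ^ L =
      1 / (b : ℝ) ^ S.card := by
    rw [sum_const, card_fix, nsmul_eq_mul]
    push_cast
    have hb' : (b : ℝ) ≠ 0 := by exact_mod_cast hb.ne'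
    have hS : S.card ≤ L := by
      have := card_le_univ S
      rwa [Fintype.card_fin] at this
    have h5 : (b : ℝ) ^ L = (b : ℝ) ^ (L - S.card) * (b : ℝ) ^ S.card := by
      rw [← pow_add, Nat.sub_add_cancel hS]
    rw [h5]
    field_simp
  rwa [h4] at h3

/-- the same for the digits at finitely many distinct relative positions -/
theorem freq_inj {D : ℕ → Fin b} (hb : 0 < b) (hD : Nor b D) {ι : Type} [Fintype ι] (f : ι → ℕ)
    (hf : Function.Injective f) (u : ι → Fin b) :
    Tendsto (fun N : ℕ => (((range N).filter (fun i => ∀ t, D (i + f t) = u t)).card : ℝ) / N) atTop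
      (𝓝 (1 / (b : ℝ) ^ Fintype.card ι)) := by
  classical
  obtain ⟨L, hL1, hL⟩ : ∃ L : ℕ, 1 ≤ L ∧ ∀ t, f t < L := by
    refine ⟨univ.sup f + 1, by omega, fun t => ?_⟩
    have := le_sup (f := f) (mem_univ t)
    omega
  obtain ⟨v, hv⟩ : ∃ v : Fin L → Fin b, ∀ t, v ⟨f t, hL t⟩ = u t := by
    refine ⟨fun x => if h : ∃ t, f t = x then u h.choose else D 0, fun t => ?_⟩
    have h : ∃ t', f t' = ((⟨f t, hL t⟩ : Fin L) : ℕ) := ⟨t, rfl⟩
    show (if h : ∃ t', f t' = ((⟨f t, hL t⟩ : Fin L) : ℕ) then u h.choose else D 0) = u t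
    rw [dif_pos h]
    congr 1
    exact hf h.choose_spec
  have hinj : Function.Injective (fun t => (⟨f t, hL t⟩ : Fin L)) := by
    intro t t' h
    exact hf (by simpa using congrArg Fin.val h)
  have h1 := freq_fix hb hD hL1 (univ.image (fun t => (⟨f t, hL t⟩ : Fin L))) v
  rw [card_image_of_injective _ hinj, card_univ] at h1
  refine h1.congr fun N => ?_
  have h2 : (range N).filter (fun i => ∀ x ∈ univ.image (fun t => (⟨f t, hL t⟩ : Fin L)), D (i + (x : ℕ)) = v x) =
      (range N).filter (fun i => ∀ t, D (i + f t) = u t) := by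
    ext i
    rw [mem_filter, mem_filter]
    refine and_congr_right fun _ => ?_
    constructor
    · intro h t
      have := h ⟨f t, hL t⟩ (mem_image_of_mem _ (mem_univ t))
      rwa [hv] at this
    · intro h x hx
      obtain ⟨t, -, rfl⟩ := mem_image.1 hx
      rw [hv]
      exact h t
  rw [h2]

/-- the indicator of a block -/
noncomputable def ind (D : ℕ → Fin b) (k : ℕ) (w : Fin k → Fin b) (i : ℕ) : ℝ :=
  if ∀ j : Fin k, D (i + j) = w j then 1 else 0

lemma avg_ind {D : ℕ → Fin b} (hb : 0 < b) (hD : Nor b D) (k : ℕ) (w : Fin k → Fin b) (s : ℕ) :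
    Tendsto (fun N : ℕ => (∑ i ∈ range N, ind D k w (i + s)) / N) atTop (𝓝 (1 / (b : ℝ) ^ k)) := by
  have h1 := freq_inj hb hD (fun j : Fin k => s + (j : ℕ)) (fun a b h => by
    simp only [add_right_inj] at h; exact Fin.ext h) w
  rw [Fintype.card_fin] at h1
  refine h1.congr fun N => ?_
  unfold ind
  rw [← sum_filter, sum_const, nsmul_eq_mul, mul_one]
  refine congrArg (fun m : ℕ => (m : ℝ) / N) (congrArg Finset.card ?_)
  ext i
  simp only [mem_filter, add_assoc]

lemma avg_ind2 {D : ℕ → Fin b} (hb : 0 < b) (hD : Nor b D) (k : ℕ) (w : Fin k → Fin b) {s t : ℕ} (hst : s + k ≤ t) :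
    Tendsto (fun N : ℕ => (∑ i ∈ range N, ind D k w (i + s) * ind D k w (i + t)) / N) atTop
      (𝓝 (1 / (b : ℝ) ^ k * (1 / (b : ℝ) ^ k))) := by
  classical
  have h1 := freq_inj hb hD (fun j : Fin k ⊕ Fin k => Sum.elim (fun j : Fin k => s + (j : ℕ)) (fun j : Fin k => t + (j : ℕ)) j)
    ?_ (fun j => Sum.elim w w j)
  · rw [Fintype.card_sum, Fintype.card_fin] at h1
    have h2 : 1 / (b : ℝ) ^ (k + k) = 1 / (b : ℝ) ^ k * (1 / (b : ℝ) ^ k) := by
      rw [pow_add]
      ring
    rw [h2] at h1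
    refine h1.congr fun N => ?_
    congr 1
    have h3 : ∀ i, ind D k w (i + s) * ind D k w (i + t) =
        if ∀ j : Fin k ⊕ Fin k, D (i + Sum.elim (fun j : Fin k => s + (j : ℕ)) (fun j : Fin k => t + (j : ℕ)) j) =
          Sum.elim w w j then 1 else 0 := by
      intro i
      unfold ind
      by_cases h4 : ∀ j : Fin k, D (i + s + j) = w j
      · by_cases h5 : ∀ j : Fin k, D (i + t + j) = w j
        · rw [if_pos h4, if_pos h5, if_pos, one_mul]
          rintro (j | j)
          · simp only [Sum.elim_inl]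
            rw [← h4 j]
            congr 1
            omega
          · simp only [Sum.elim_inr]
            rw [← h5 j]
            congr 1
            omega
        · rw [if_neg h5, mul_zero, if_neg]
          intro h6
          refine h5 fun j => ?_
          have := h6 (Sum.inr j)
          simp only [Sum.elim_inr] at this
          rw [← this]
          congr 1
          omega
      · rw [if_neg h4, zero_mul, if_neg]
        intro h6
        refine h4 fun j => ?_
        have := h6 (Sum.inl j)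
        simp only [Sum.elim_inl] at this
        rw [← this]
        congr 1
        omega
    rw [sum_congr rfl (fun i _ => h3 i), ← sum_filter, sum_const, nsmul_eq_mul, mul_one]
  · rintro (a | a) (c | c) h
    · simp only [Sum.elim_inl, add_right_inj] at h
      rw [Fin.ext h]
    · simp only [Sum.elim_inl, Sum.elim_inr] at h
      have := a.2
      omega
    · simp only [Sum.elim_inl, Sum.elim_inr] at h
      have := c.2
      omega
    · simp only [Sum.elim_inr, add_right_inj] at h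
      rw [Fin.ext h]

lemma ind_abs {D : ℕ → Fin b} (hb : 0 < b) (k : ℕ) (w : Fin k → Fin b) (i : ℕ) :
    |ind D k w i - 1 / (b : ℝ) ^ k| ≤ 1 := by
  have h1 : (1 : ℝ) ≤ (b : ℝ) ^ k := by
    have : (1 : ℝ) ≤ b := by exact_mod_cast hb
    exact one_le_pow₀ this
  have h2 : 1 / (b : ℝ) ^ k ≤ 1 := by
    rw [div_le_one (by linarith)]
    exact h1
  have h3 : 0 ≤ 1 / (b : ℝ) ^ k := by positivity
  unfold ind
  split_ifs
  · rw [abs_le]
    constructor <;> linarith
  · rw [abs_le]
    constructor <;> linarith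

/-- the correlations of the centred indicator of a block vanish -/
lemma corr_zero {D : ℕ → Fin b} (hb : 0 < b) (hD : Nor b D) (k : ℕ) (w : Fin k → Fin b) {s t : ℕ} (hst : s + k ≤ t) :
    Tendsto (fun N : ℕ => (∑ i ∈ range N, (ind D k w (i + s) - 1 / (b : ℝ) ^ k) *
      (ind D k w (i + t) - 1 / (b : ℝ) ^ k)) / N) atTop (𝓝 0) := by
  obtain ⟨β, hβ⟩ : ∃ β : ℝ, β = 1 / (b : ℝ) ^ k := ⟨_, rfl⟩
  have h1 := avg_ind2 hb hD k w hst
  have h2 := (avg_ind hb hD k w s).const_mul β
  have h3 := (avg_ind hb hD k w t).const_mul β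
  rw [← hβ] at h1 h2 h3 ⊢
  have h4 : Tendsto (fun N : ℕ => (N : ℝ) / N * (β * β)) atTop (𝓝 (1 * (β * β))) := by
    apply Tendsto.mul_const
    refine tendsto_const_nhds.congr' ?_
    filter_upwards [eventually_gt_atTop 0] with N hN
    have : (N : ℝ) ≠ 0 := by exact_mod_cast hN.ne'
    rw [div_self this]
  have h5 := ((h1.sub h2).sub h3).add h4
  have h6 : β * β - β * β - β * β + 1 * (β * β) = 0 := by ring
  rw [h6] at h5
  refine h5.congr fun N => ?_
  have h7 : ∑ i ∈ range N, (ind D k w (i + s) - β) * (ind D k w (i + t) - β) =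
      ∑ i ∈ range N, ind D k w (i + s) * ind D k w (i + t) - β * ∑ i ∈ range N, ind D k w (i + s) -
        β * ∑ i ∈ range N, ind D k w (i + t) + N * (β * β) := by
    rw [mul_sum, mul_sum, ← sum_sub_distrib, ← sum_sub_distrib]
    have h8 : (N : ℝ) * (β * β) = ∑ _i ∈ range N, β * β := by rw [sum_const, card_range, nsmul_eq_mul]
    rw [h8, ← sum_add_distrib]
    refine sum_congr rfl fun i _ => ?_
    ring
  rw [h7]
  ring

/-- **Wall's theorem**: periodic weights -/
theorem wall {D : ℕ → Fin b} (hb : 0 < b) (hD : Nor b D) {k : ℕ} (hk : 1 ≤ k) (w : Fin k → Fin b) (c : ℕ → ℝ)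
    (hc : ∀ n, |c n| ≤ 1) {P : ℕ} (hP : 0 < P) (hp : ∀ n, c (n % P) = c n) :
    Tendsto (fun N : ℕ => (∑ i ∈ range N, c i * (ind D k w i - 1 / (b : ℝ) ^ k)) / N) atTop (𝓝 0) := by
  rw [Metric.tendsto_nhds]
  intro ε hε
  -- the number of shifts
  obtain ⟨H, hH⟩ := exists_nat_gt (8 / ε ^ 2)
  have hHr : (0 : ℝ) < H := lt_trans (by positivity) hH
  have hH0 : 0 < H := by exact_mod_cast hHr
  obtain ⟨δ, hδ⟩ : ∃ δ : ℝ, δ = min 1 (ε ^ 2 / 32) := ⟨_, rfl⟩
  have hδ0 : 0 < δ := by rw [hδ]; positivity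
  have hδ1 : δ ≤ 1 := by rw [hδ]; exact min_le_left _ _
  have hδ2 : δ ≤ ε ^ 2 / 32 := by rw [hδ]; exact min_le_right _ _
  -- the correlations
  have h1 : ∀ h h' : Fin H, h ≠ h' → ∀ᶠ N : ℕ in atTop,
      |∑ n ∈ range N, (ind D k w (n + P * k * h) - 1 / (b : ℝ) ^ k) *
        (ind D k w (n + P * k * h') - 1 / (b : ℝ) ^ k)| / N < ε ^ 2 / 8 := by
    intro h h' hne
    have key : ∀ a c : ℕ, a < c → ∀ᶠ N : ℕ in atTop,
      |∑ n ∈ range N, (ind D k w (n + P * k * a) - 1 / (b : ℝ) ^ k) *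
        (ind D k w (n + P * k * c) - 1 / (b : ℝ) ^ k)| / N < ε ^ 2 / 8 := by
      intro a c hac
      have h2 : P * k * a + k ≤ P * k * c := by
        have : P * k * a + P * k ≤ P * k * c := by
          calc P * k * a + P * k = P * k * (a + 1) := by ring
            _ ≤ P * k * c := Nat.mul_le_mul_left _ hac
        have h3 : k ≤ P * k := Nat.le_mul_of_pos_left k hP
        omega
      have h3 := corr_zero hb hD k w h2
      rw [Metric.tendsto_nhds] at h3
      filter_upwards [h3 (ε ^ 2 / 8) (by positivity)] with N hN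
      rw [Real.dist_eq, sub_zero, abs_div, Nat.abs_cast] at hN
      exact hN
    rcases Nat.lt_or_ge h h' with hlt | hge
    · exact key _ _ hlt
    · have hlt : (h' : ℕ) < h := lt_of_le_of_ne hge fun h => hne (Fin.ext h.symm)
      filter_upwards [key _ _ hlt] with N hN
      simpa only [mul_comm (ind D k w (_ + P * k * (h : ℕ)) - 1 / (b : ℝ) ^ k)] using hN
  have h2 : ∀ᶠ N : ℕ in atTop, ∀ h h' : Fin H, h ≠ h' →
      |∑ n ∈ range N, (ind D k w (n + P * k * h) - 1 / (b : ℝ) ^ k) *
        (ind D k w (n + P * k * h') - 1 / (b : ℝ) ^ k)| / N < ε ^ 2 / 8 := by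
    rw [eventually_all]
    intro h
    rw [eventually_all]
    intro h'
    by_cases hne : h = h'
    · exact Eventually.of_forall fun N h3 => absurd hne h3
    · filter_upwards [h1 h h' hne] with N hN _ using hN
  obtain ⟨N0, hN0⟩ := exists_nat_ge ((P * k : ℕ) * (H : ℝ) / δ)
  filter_upwards [h2, eventually_ge_atTop (max N0 1)] with N hN hNN
  have hN1 : 1 ≤ N := (le_max_right _ _).trans hNN
  have hNr : (0 : ℝ) < N := by exact_mod_cast hN1
  have h3 := Pool.Agent.H568.GR.Vdc.step (fun n : ℤ => c (n % (P : ℤ)).toNat)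
    (fun n : ℤ => ind D k w n.toNat - 1 / (b : ℝ) ^ k)
    (P * k) 0 N H δ hN1 hH0 hδ0.le hδ1 (fun n => hc _) (fun n => ind_abs hb k w _) ?_ ?_
  · rw [Real.dist_eq, sub_zero, abs_div, Nat.abs_cast]
    apply lt_of_pow_lt_pow_left₀ 2 hε.le
    have h4 : ∑ n ∈ range N, (fun n : ℤ => c (n % (P : ℤ)).toNat) (0 + (n : ℤ)) *
        (fun n : ℤ => ind D k w n.toNat - 1 / (b : ℝ) ^ k) (0 + (n : ℤ)) =
        ∑ i ∈ range N, c i * (ind D k w i - 1 / (b : ℝ) ^ k) := by
      refine sum_congr rfl fun n _ => ?_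
      simp only [zero_add, Int.toNat_natCast]
      rw [show ((n : ℤ) % (P : ℤ)).toNat = n % P from by rw [← Int.natCast_mod, Int.toNat_natCast], hp]
    rw [h4] at h3
    refine lt_of_le_of_lt h3 ?_
    have h5 : ∀ h h' : Fin H, |∑ n ∈ range N, (fun n : ℤ => ind D k w n.toNat - 1 / (b : ℝ) ^ k)
        (0 + (n : ℤ) + ((P * k : ℕ) : ℤ) * ((h : ℕ) : ℤ)) * (fun n : ℤ => ind D k w n.toNat - 1 / (b : ℝ) ^ k)
        (0 + (n : ℤ) + ((P * k : ℕ) : ℤ) * ((h' : ℕ) : ℤ))| / N ≤ (if h = h' then 1 else 0) + ε ^ 2 / 8 := by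
      intro h h'
      have h6 : ∀ (n : ℕ) (a : Fin H), (0 + (n : ℤ) + ((P * k : ℕ) : ℤ) * ((a : ℕ) : ℤ)).toNat = n + P * k * a := by
        intro n a
        rw [zero_add, ← Nat.cast_mul, ← Nat.cast_add, Int.toNat_natCast]
      simp only [h6]
      by_cases hne : h = h'
      · rw [if_pos hne]
        have h7 : |∑ n ∈ range N, (ind D k w (n + P * k * h) - 1 / (b : ℝ) ^ k) *
            (ind D k w (n + P * k * h') - 1 / (b : ℝ) ^ k)| ≤ N := by
          refine (abs_sum_le_sum_abs _ _).trans ?_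
          calc ∑ n ∈ range N, |(ind D k w (n + P * k * h) - 1 / (b : ℝ) ^ k) *
              (ind D k w (n + P * k * h') - 1 / (b : ℝ) ^ k)| ≤ ∑ n ∈ range N, (1 : ℝ) := by
                refine sum_le_sum fun n _ => ?_
                rw [abs_mul]
                exact mul_le_one₀ (ind_abs hb k w _) (abs_nonneg _) (ind_abs hb k w _)
            _ = N := by simp
        have h8 : |∑ n ∈ range N, (ind D k w (n + P * k * h) - 1 / (b : ℝ) ^ k) *
            (ind D k w (n + P * k * h') - 1 / (b : ℝ) ^ k)| / N ≤ 1 := by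
          rw [div_le_one hNr]
          exact h7
        have : 0 ≤ ε ^ 2 / 8 := by positivity
        linarith
      · rw [if_neg hne, zero_add]
        exact (hN h h' hne).le
    have h6 : (∑ h : Fin H, ∑ h' : Fin H, |∑ n ∈ range N, (fun n : ℤ => ind D k w n.toNat - 1 / (b : ℝ) ^ k)
        (0 + (n : ℤ) + ((P * k : ℕ) : ℤ) * ((h : ℕ) : ℤ)) * (fun n : ℤ => ind D k w n.toNat - 1 / (b : ℝ) ^ k)
        (0 + (n : ℤ) + ((P * k : ℕ) : ℤ) * ((h' : ℕ) : ℤ))| / N) ≤ H + H ^ 2 * (ε ^ 2 / 8) := by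
      calc _ ≤ ∑ h : Fin H, ∑ h' : Fin H, ((if h = h' then (1 : ℝ) else 0) + ε ^ 2 / 8) :=
            sum_le_sum fun h _ => sum_le_sum fun h' _ => h5 h h'
        _ = H + H ^ 2 * (ε ^ 2 / 8) := by
            simp only [sum_add_distrib, sum_ite_eq, mem_univ, if_true, sum_const, card_univ, Fintype.card_fin,
              nsmul_eq_mul, mul_one]
            ring
    have h7 : (∑ h : Fin H, ∑ h' : Fin H, |∑ n ∈ range N, (fun n : ℤ => ind D k w n.toNat - 1 / (b : ℝ) ^ k)
        (0 + (n : ℤ) + ((P * k : ℕ) : ℤ) * ((h : ℕ) : ℤ)) * (fun n : ℤ => ind D k w n.toNat - 1 / (b : ℝ) ^ k)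
        (0 + (n : ℤ) + ((P * k : ℕ) : ℤ) * ((h' : ℕ) : ℤ))| / N) / (H : ℝ) ^ 2 ≤ 1 / H + ε ^ 2 / 8 := by
      rw [div_le_iff₀ (by positivity)]
      refine h6.trans (le_of_eq ?_)
      field_simp
    have h8 : 1 / (H : ℝ) < ε ^ 2 / 8 := by
      rw [div_lt_iff₀ hHr]
      rw [div_lt_iff₀ (by positivity)] at hH
      linarith
    calc _ ≤ 8 * δ + 2 * (1 / H + ε ^ 2 / 8) := by gcongr
      _ < 8 * (ε ^ 2 / 32) + 2 * (ε ^ 2 / 8 + ε ^ 2 / 8) := by
          have : 8 * δ ≤ 8 * (ε ^ 2 / 32) := by linarith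
          linarith
      _ ≤ ε ^ 2 := by nlinarith [sq_nonneg ε]
  · intro n
    congr 2
    push_cast
    rw [Int.add_mul_emod_self_left]
  · have h4 : (P * k : ℕ) * (H : ℝ) / δ ≤ N := hN0.trans (by exact_mod_cast (le_max_left _ _).trans hNN)
    rw [div_le_iff₀ hδ0] at h4
    linarith

end Q197.PS.NW
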