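import Pool.Agent.Q197.PS.K

/-! # Sums over primes in random unions of reduced residue classes -/

set_option autoImplicit false
set_option linter.unusedSectionVars false
set_option linter.unusedVariables false

open Finset Filter Topology

namespace Q197.PS

/-- the reduced residues -/
def red (P : ℕ) : Finset ℕ := (range P).filter (fun a => P.Coprime a)

lemma red_card (P : ℕ) : (red P).card = P.totient := rfl

lemma red_nonempty {P : ℕ} (hP : 0 < P) : (red P).Nonempty := by
  rw [← card_pos, red_card]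
  exact Nat.totient_pos.2 hP

/-- the mean over the `n ≤ N` with `n mod P ∈ A` of `Λ(n) g(n)` -/
noncomputable def mL (g : ℕ → ℝ) (P : ℕ) (A : Finset ℕ) (N : ℕ) : ℝ :=
  (∑ n ∈ (Icc 1 N).filter (fun n => n % P ∈ A), ArithmeticFunction.vonMangoldt n * g n) / N

/-- the terms -/
noncomputable def tL (g : ℕ → ℝ) (N n : ℕ) : ℝ := ArithmeticFunction.vonMangoldt n * g n / N

lemma mL_sumC (g : ℕ → ℝ) (P : ℕ) (A : Finset ℕ) (N : ℕ) :
    mL g P A N = sumC (fun N : ℕ => Icc 1 N) (tL g) (fun n => n % P) A N := by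
  unfold mL sumC tL
  rw [sum_div]

/-- the class sums -/
noncomputable def cL (g : ℕ → ℝ) (P N j : ℕ) : ℝ :=
  ∑ n ∈ (Icc 1 N).filter (fun n => n % P = j), tL g N n

lemma mL_eq (g : ℕ → ℝ) (P : ℕ) (A : Finset ℕ) (N : ℕ) : mL g P A N = ∑ j ∈ A, cL g P N j := by
  rw [mL_sumC, sumC_eq]
  rfl

theorem cL_bound : ∃ C : ℝ, 1 ≤ C ∧ ∀ P : ℕ, 0 < P → ∀ g : ℕ → ℝ, (∀ n, |g n| ≤ 1) →
    ∀ᶠ N : ℕ in atTop, ∀ j, |cL g P N j| ≤ C / P.totient := by
  obtain ⟨C, hC, h⟩ := class_bound {0}
  refine ⟨C, hC, fun P hP g hg => ?_⟩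
  have h1 := h P hP 0 (fun n => ArithmeticFunction.vonMangoldt n * g n) (fun n => by
    rw [prod_singleton, add_zero, abs_mul, abs_of_nonneg ArithmeticFunction.vonMangoldt_nonneg]
    exact mul_le_of_le_one_right ArithmeticFunction.vonMangoldt_nonneg (hg n))
  have hPr : (0 : ℝ) < P := by exact_mod_cast hP
  filter_upwards [h1] with N hN j
  have h2 := hN j
  have h3 : C * ((P : ℝ) / P.totient) ^ (({0} : Finset ℕ).card) / P = C / P.totient := by
    rw [card_singleton, pow_one]
    field_simp
  rw [h3] at h2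
  refine le_trans (le_of_eq ?_) h2
  unfold clF cL tL
  rw [sum_div]
  simp

/-- the part with a common factor -/
noncomputable def nonred (P N : ℕ) : ℝ :=
  (∑ n ∈ (Icc 1 N).filter (fun n => ¬ P.Coprime n), ArithmeticFunction.vonMangoldt n) / N

lemma nonred_tendsto {P : ℕ} (hP : 0 < P) : Tendsto (nonred P) atTop (𝓝 0) := by
  have hlog : Tendsto (fun N : ℕ => (Real.log P * P + 2 * √N * Real.log N) / N) atTop (𝓝 0) := by
    have h1 : Tendsto (fun N : ℕ => (Real.log P * P) / N) atTop (𝓝 0) :=
      tendsto_const_div_atTop_nhds_zero_nat _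
    have h2 : Tendsto (fun N : ℕ => 2 * √(N : ℝ) * Real.log N / N) atTop (𝓝 0) := by
      have h3 : Tendsto (fun x : ℝ => Real.log x / x ^ (1 / 2 : ℝ)) atTop (𝓝 0) := by
        have := (isLittleO_log_rpow_atTop (r := 1 / 2) (by norm_num)).tendsto_div_nhds_zero
        exact this
      have h4 := (h3.comp tendsto_natCast_atTop_atTop).const_mul 2
      rw [mul_zero] at h4
      refine h4.congr' ?_
      filter_upwards [eventually_gt_atTop 0] with N hN
      have hNr : (0 : ℝ) < N := by exact_mod_cast hN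
      simp only [Function.comp_apply]
      rw [← Real.sqrt_eq_rpow]
      have h5 : (N : ℝ) = √N * √N := (Real.mul_self_sqrt hNr.le).symm
      have h6 : 0 < √(N : ℝ) := Real.sqrt_pos.2 hNr
      rw [eq_div_iff hNr.ne']
      calc 2 * (Real.log N / √N) * N = 2 * (Real.log N / √N) * (√N * √N) := by rw [← h5]
        _ = 2 * √N * Real.log N := by field_simp
    have h5 := h1.add h2
    rw [add_zero] at h5
    refine h5.congr fun N => ?_
    rw [← add_div]
  refine squeeze_zero' (Eventually.of_forall fun N => ?_) ?_ hlog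
  · unfold nonred
    exact div_nonneg (sum_nonneg fun n _ => ArithmeticFunction.vonMangoldt_nonneg) (Nat.cast_nonneg _)
  · filter_upwards [eventually_gt_atTop 0] with N hN
    have hNr : (0 : ℝ) < N := by exact_mod_cast hN
    have hN1 : (1 : ℝ) ≤ N := by exact_mod_cast hN
    unfold nonred
    apply div_le_div_of_nonneg_right _ hNr.le
    have h1 : ∑ n ∈ (Icc 1 N).filter (fun n => ¬ P.Coprime n), ArithmeticFunction.vonMangoldt n ≤
        ∑ n ∈ (Icc 1 N).filter (fun n => ¬ P.Coprime n), ((if n.Prime then Real.log n else 0) +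
          (if n.Prime then 0 else ArithmeticFunction.vonMangoldt n)) := by
      refine sum_le_sum fun n _ => ?_
      split_ifs with h
      · rw [ArithmeticFunction.vonMangoldt_apply_prime h, add_zero]
      · rw [zero_add]
    refine h1.trans ?_
    rw [sum_add_distrib]
    apply add_le_add
    · rw [← sum_filter]
      calc ∑ n ∈ ((Icc 1 N).filter (fun n => ¬ P.Coprime n)).filter (fun n => n.Prime), Real.log n
          ≤ ∑ n ∈ Icc 1 P, Real.log P := by
            have hsub : ((Icc 1 N).filter (fun n => ¬ P.Coprime n)).filter (fun n => n.Prime) ⊆ Icc 1 P := by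
              intro n hn
              rw [mem_filter, mem_filter] at hn
              obtain ⟨⟨_, h2⟩, h3⟩ := hn
              have h4 : n ∣ P := by
                by_contra hcon
                exact h2 ((Nat.coprime_comm.1 ((Nat.Prime.coprime_iff_not_dvd h3).2 hcon)))
              exact mem_Icc.2 ⟨h3.one_lt.le, Nat.le_of_dvd hP h4⟩
            calc _ ≤ ∑ n ∈ ((Icc 1 N).filter (fun n => ¬ P.Coprime n)).filter (fun n => n.Prime), Real.log P := by
                  refine sum_le_sum fun n hn => ?_
                  have h5 := mem_Icc.1 (hsub hn)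
                  exact Real.log_le_log (by exact_mod_cast h5.1) (by exact_mod_cast h5.2)
              _ ≤ _ := sum_le_sum_of_subset_of_nonneg hsub fun n _ _ =>
                  Real.log_nonneg (by exact_mod_cast hP)
        _ = Real.log P * P := by
            rw [sum_const, Nat.card_Icc, nsmul_eq_mul]
            simp only [add_tsub_cancel_right]
            ring
    · have h2 := Chebyshev.psi_sub_theta_le hN1
      refine le_trans ?_ h2
      rw [Chebyshev.psi_sub_theta_eq_sum_not_prime, Nat.floor_natCast]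
      have h3 : ∑ n ∈ (Icc 1 N).filter (fun n => ¬ P.Coprime n),
          (if n.Prime then 0 else ArithmeticFunction.vonMangoldt n) =
          ∑ n ∈ ((Icc 1 N).filter (fun n => ¬ P.Coprime n)).filter (fun n => ¬ n.Prime),
            ArithmeticFunction.vonMangoldt n := by
        rw [sum_filter (s := (Icc 1 N).filter (fun n => ¬ P.Coprime n))]
        refine sum_congr rfl fun n _ => ?_
        by_cases hn : n.Prime
        · rw [if_pos hn, if_neg (not_not.2 hn)]
        · rw [if_neg hn, if_pos hn]
      rw [h3]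
      refine sum_le_sum_of_subset_of_nonneg (fun n hn => ?_) fun n _ _ =>
        ArithmeticFunction.vonMangoldt_nonneg
      rw [mem_filter, mem_filter, mem_Icc] at hn
      rw [mem_filter, mem_Ioc]
      exact ⟨⟨hn.1.1.1, hn.1.1.2⟩, hn.2⟩

/-- a coarser class -/
lemma mL_coarse {g : ℕ → ℝ} (hg : ∀ n, |g n| ≤ 1) {q P : ℕ} (hP : 0 < P) (hd : q ∣ P) (A : Finset ℕ) (N : ℕ) :
    |mL g q A N| ≤ ∑ j ∈ red P, |cL g P N j| + nonred P N := by
  classical
  have h1 : mL g q A N = ∑ j ∈ (red P).filter (fun j => j % q ∈ A), cL g P N j +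
      (∑ n ∈ (Icc 1 N).filter (fun n => n % q ∈ A ∧ ¬ P.Coprime n),
        ArithmeticFunction.vonMangoldt n * g n) / N := by
    rw [← mL_eq]
    unfold mL
    rw [← add_div]
    congr 1
    rw [← filter_filter]
    rw [← sum_filter_add_sum_filter_not ((Icc 1 N).filter (fun n => n % q ∈ A)) (fun n => P.Coprime n)]
    congr 1
    refine sum_congr ?_ fun _ _ => rfl
    ext n
    simp only [mem_filter, red, mem_range]
    constructor
    · rintro ⟨⟨h1, h2⟩, h3⟩
      refine ⟨h1, ⟨⟨Nat.mod_lt _ hP, ?_⟩, ?_⟩⟩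
      · rw [Nat.coprime_comm, Nat.Coprime, Nat.gcd_comm]
        have : P.gcd (n % P) = P.gcd n := by rw [Nat.gcd_comm P (n % P), ← Nat.gcd_rec, ]
        rw [this]
        exact h3
      · rw [Nat.mod_mod_of_dvd _ hd]
        exact h2
    · rintro ⟨h1, ⟨⟨_, h3⟩, h4⟩⟩
      refine ⟨⟨h1, ?_⟩, ?_⟩
      · rw [Nat.mod_mod_of_dvd _ hd] at h4
        exact h4
      · have : P.gcd (n % P) = P.gcd n := by rw [Nat.gcd_comm P (n % P), ← Nat.gcd_rec]
        unfold Nat.Coprime at h3 ⊢
        rw [← this]
        exact h3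
  rw [h1]
  refine (abs_add_le _ _).trans (add_le_add ?_ ?_)
  · refine (abs_sum_le_sum_abs _ _).trans ?_
    exact sum_le_sum_of_subset_of_nonneg (filter_subset _ _) fun j _ _ => abs_nonneg _
  · unfold nonred
    rw [abs_div, Nat.abs_cast]
    apply div_le_div_of_nonneg_right _ (Nat.cast_nonneg _)
    refine (abs_sum_le_sum_abs _ _).trans ?_
    calc ∑ n ∈ (Icc 1 N).filter (fun n => n % q ∈ A ∧ ¬ P.Coprime n),
          |ArithmeticFunction.vonMangoldt n * g n|
        ≤ ∑ n ∈ (Icc 1 N).filter (fun n => n % q ∈ A ∧ ¬ P.Coprime n), ArithmeticFunction.vonMangoldt n := by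
          refine sum_le_sum fun n _ => ?_
          rw [abs_mul, abs_of_nonneg ArithmeticFunction.vonMangoldt_nonneg]
          exact mul_le_of_le_one_right ArithmeticFunction.vonMangoldt_nonneg (hg n)
      _ ≤ _ := by
          refine sum_le_sum_of_subset_of_nonneg (fun n hn => ?_) fun n _ _ =>
            ArithmeticFunction.vonMangoldt_nonneg
          rw [mem_filter] at hn ⊢
          exact ⟨hn.1, hn.2.2⟩

open Classical in
/-- the number of the sets of reduced residues along which the means tend to zero -/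
noncomputable def nRed (g : ℕ → ℝ) (P : ℕ) : ℕ :=
  ((red P).powerset.filter (fun A => Tendsto (mL g P A) atTop (𝓝 0))).card

/-- **Few unions of reduced classes** -/
theorem few_red : ∃ C : ℝ, 1 ≤ C ∧ ∀ g : ℕ → ℝ, (∀ n, |g n| ≤ 1) → ∀ c : ℝ, 0 < c →
    ∀ (q : ℕ) (A : Finset ℕ), (∃ᶠ N in atTop, c ≤ |mL g q A N|) → ∀ P : ℕ, 0 < P → q ∣ P →
    (nRed g P : ℝ) ≤ C * (1 + 1 / c) * 2 ^ P.totient / √P.totient := by
  classical
  obtain ⟨C, hC, hcb⟩ := cL_bound
  refine ⟨54 * C, by linarith, fun g hg c hc q A hfr P hP hd => ?_⟩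
  have h1 := few_col (l := atTop) (red P) (red_nonempty hP) (fun N j => cL g P N j)
    (c0 := c / 2) (B := C) (by linarith) hC ?_ ?_ (fun _ => 0)
  · rw [red_card] at h1
    have h2 : (nRed g P : ℝ) = (((red P).powerset.filter (fun A =>
        Tendsto (fun i => ∑ j ∈ A, cL g P i j - 0) atTop (𝓝 0))).card : ℝ) := by
      unfold nRed
      have h3 : ∀ A, mL g P A = fun i => ∑ j ∈ A, cL g P i j - 0 := by
        intro A
        funext N
        rw [sub_zero, mL_eq]
      simp only [h3]
    rw [h2]
    refine h1.trans ?_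
    have h3 : (5 + 27 / (c / 2)) ≤ 54 * (1 + 1 / c) := by
      have : 27 / (c / 2) = 54 * (1 / c) := by field_simp; norm_num
      rw [this]
      linarith
    calc (5 + 27 / (c / 2)) * (C / √P.totient) * 2 ^ P.totient
        ≤ 54 * (1 + 1 / c) * (C / √P.totient) * 2 ^ P.totient := by gcongr
      _ = _ := by ring
  · filter_upwards [hcb P hP g hg] with N hN j _
    rw [red_card]
    exact hN j
  · have h2 := (nonred_tendsto hP).eventually (gt_mem_nhds (show (0 : ℝ) < c / 2 by linarith))
    refine (hfr.and_eventually h2).mono fun N hN => ?_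
    have h3 := mL_coarse hg hP hd A N
    linarith [hN.1, hN.2]

/-- **Equivalence** -/
theorem red_iff {g : ℕ → ℝ} (hg : ∀ n, |g n| ≤ 1) :
    (∀ q : ℕ, 0 < q → ∀ a ∈ red q, Tendsto (mL g q {a}) atTop (𝓝 0)) ↔
      ∀ q : ℕ, 0 < q → ∀ K : ℝ, ∃ P : ℕ, 0 < P ∧ q ∣ P ∧ K * 2 ^ P.totient / √P.totient ≤ nRed g P := by
  classical
  obtain ⟨C, hC, hfew⟩ := few_red
  constructor
  · intro h q hq K
    obtain ⟨m, hm⟩ := exists_nat_gt (K ^ 2)
    obtain ⟨l, hl1, hl2⟩ := Nat.exists_infinite_primes (m + 1)
    have hP : 0 < q * l := Nat.mul_pos hq hl2.pos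
    refine ⟨q * l, hP, dvd_mul_right _ _, ?_⟩
    have h1 : nRed g (q * l) = 2 ^ (q * l).totient := by
      unfold nRed
      have h2 : (red (q * l)).powerset.filter (fun A => Tendsto (mL g (q * l) A) atTop (𝓝 0)) =
          (red (q * l)).powerset := by
        rw [filter_eq_self]
        intro A hA
        rw [mem_powerset] at hA
        have h3 : mL g (q * l) A = fun N => ∑ j ∈ A, mL g (q * l) {j} N := by
          funext N
          rw [mL_eq]
          refine sum_congr rfl fun j _ => ?_
          rw [mL_eq, sum_singleton]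
        rw [h3]
        have h4 : (0 : ℝ) = ∑ j ∈ A, (0 : ℝ) := by simp
        rw [h4]
        exact tendsto_finsetSum _ fun j hj => h (q * l) hP j (hA hj)
      rw [h2, card_powerset, red_card]
    rw [h1]
    push_cast
    have h5 : m ≤ (q * l).totient := by
      have h6 : l.totient ≤ (q * l).totient :=
        Nat.le_of_dvd (Nat.totient_pos.2 hP) (Nat.totient_dvd_of_dvd (dvd_mul_left l q))
      rw [Nat.totient_prime hl2] at h6
      omega
    have h6 : K ^ 2 ≤ (q * l).totient := by
      have : (m : ℝ) ≤ (q * l).totient := by exact_mod_cast h5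
      linarith
    have hpos : (0 : ℝ) < (q * l).totient := by exact_mod_cast Nat.totient_pos.2 hP
    rw [div_le_iff₀ (Real.sqrt_pos.2 hpos), mul_comm]
    apply mul_le_mul_of_nonneg_left _ (by positivity)
    calc K ≤ |K| := le_abs_self K
      _ = √(K ^ 2) := (Real.sqrt_sq_eq_abs K).symm
      _ ≤ √((q * l).totient : ℝ) := Real.sqrt_le_sqrt h6
  · intro h q hq a ha
    by_contra hcon
    obtain ⟨c, hc, hfr⟩ := not_tendsto_gen hcon
    obtain ⟨P, hP, hd, h2⟩ := h q hq (2 * (C * (1 + 1 / c)))
    have h3 := h2.trans (hfew g hg c hc q {a} hfr P hP hd)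
    have hpos : (0 : ℝ) < P.totient := by exact_mod_cast Nat.totient_pos.2 hP
    rw [div_le_div_iff_of_pos_right (Real.sqrt_pos.2 hpos)] at h3
    have h4 : (0 : ℝ) < C * (1 + 1 / c) * 2 ^ P.totient := by positivity
    linarith

open Classical in
/-- **Typical unions of reduced classes** -/
theorem typical_red : ∃ C : ℝ, 1 ≤ C ∧ ∀ g : ℕ → ℝ, (∀ n, |g n| ≤ 1) → ∀ P : ℕ, 0 < P →
    ∀ᶠ N : ℕ in atTop, ∀ t : ℝ, 0 < t →
    (((red P).powerset.filter (fun A =>
      t * C / √P.totient ≤ |mL g P A N - mL g 1 {0} N / 2|)).card : ℝ) ≤ 2 ^ P.totient / t ^ 2 := by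
  obtain ⟨C, hC, hcb⟩ := cL_bound
  refine ⟨C, hC, fun g hg P hP => ?_⟩
  have hpos : (0 : ℝ) < P.totient := by exact_mod_cast Nat.totient_pos.2 hP
  have hsq : 0 < √(P.totient : ℝ) := Real.sqrt_pos.2 hpos
  have hC0 : 0 < C := by linarith
  have h2 := (nonred_tendsto hP).eventually (gt_mem_nhds (show (0 : ℝ) < C / √P.totient by positivity))
  filter_upwards [hcb P hP g hg, h2] with N hN hN2 t ht
  by_cases ht1 : 1 ≤ t
  · have h3 := typical_col (red P) (red_nonempty hP) (fun N j => cL g P N j) hC0 N
      (fun j _ => by rw [red_card]; exact hN j) ht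
    rw [red_card] at h3
    refine le_trans ?_ h3
    have h4 : (red P).powerset.filter (fun A =>
        t * C / √P.totient ≤ |mL g P A N - mL g 1 {0} N / 2|) ⊆
        (red P).powerset.filter (fun A => t * (C / √P.totient) ≤
          |2 * ∑ j ∈ A, cL g P N j - ∑ j ∈ red P, cL g P N j|) := by
      intro A hA
      rw [mem_filter] at hA ⊢
      refine ⟨hA.1, ?_⟩
      have h5 := hA.2
      rw [mL_eq g P A] at h5
      have h6 : |mL g 1 {0} N - ∑ j ∈ red P, cL g P N j| ≤ nonred P N := by
        rw [← mL_eq]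
        unfold mL nonred
        rw [← sub_div, abs_div, Nat.abs_cast]
        apply div_le_div_of_nonneg_right _ (Nat.cast_nonneg _)
        have e1 : (Icc 1 N).filter (fun n => n % 1 ∈ ({0} : Finset ℕ)) = Icc 1 N := by
          rw [filter_true_of_mem]
          intro n _
          rw [mem_singleton, Nat.mod_one]
        have e2 : (Icc 1 N).filter (fun n => n % P ∈ red P) = (Icc 1 N).filter (fun n => P.Coprime n) := by
          ext n
          simp only [mem_filter, red, mem_range]
          have : P.gcd (n % P) = P.gcd n := by rw [Nat.gcd_comm P (n % P), ← Nat.gcd_rec]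
          constructor
          · rintro ⟨a1, a2, a3⟩
            refine ⟨a1, ?_⟩
            unfold Nat.Coprime at a3 ⊢
            rw [← this]
            exact a3
          · rintro ⟨a1, a3⟩
            refine ⟨a1, Nat.mod_lt _ hP, ?_⟩
            unfold Nat.Coprime at a3 ⊢
            rw [this]
            exact a3
        rw [e1, e2, ← sum_filter_add_sum_filter_not (Icc 1 N) (fun n => P.Coprime n)
          (fun n => ArithmeticFunction.vonMangoldt n * g n), add_sub_cancel_left]
        refine (abs_sum_le_sum_abs _ _).trans (sum_le_sum fun n _ => ?_)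
        rw [abs_mul, abs_of_nonneg ArithmeticFunction.vonMangoldt_nonneg]
        exact mul_le_of_le_one_right ArithmeticFunction.vonMangoldt_nonneg (hg n)
      have h7 : t * C / √P.totient = t * (C / √P.totient) := by ring
      rw [h7] at h5
      have h8 : C / √P.totient ≤ t * (C / √P.totient) := by
        have : 0 < C / √(P.totient : ℝ) := by positivity
        nlinarith
      have h9 : |2 * (∑ j ∈ A, cL g P N j - mL g 1 {0} N / 2)| = 2 * |∑ j ∈ A, cL g P N j - mL g 1 {0} N / 2| := by
        rw [abs_mul, abs_of_pos (by norm_num : (0 : ℝ) < 2)]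
      have h10 : |2 * (∑ j ∈ A, cL g P N j - mL g 1 {0} N / 2)| ≤
          |2 * ∑ j ∈ A, cL g P N j - ∑ j ∈ red P, cL g P N j| + |mL g 1 {0} N - ∑ j ∈ red P, cL g P N j| := by
        have : 2 * (∑ j ∈ A, cL g P N j - mL g 1 {0} N / 2) =
            (2 * ∑ j ∈ A, cL g P N j - ∑ j ∈ red P, cL g P N j) -
              (mL g 1 {0} N - ∑ j ∈ red P, cL g P N j) := by ring
        rw [this]
        exact abs_sub _ _
      linarith
    exact_mod_cast card_le_card h4
  · push Not at ht1
    have h3 : (((red P).powerset.filter (fun A =>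
        t * C / √P.totient ≤ |mL g P A N - mL g 1 {0} N / 2|)).card : ℝ) ≤ 2 ^ P.totient := by
      have := card_filter_le (red P).powerset (fun A =>
        t * C / √P.totient ≤ |mL g P A N - mL g 1 {0} N / 2|)
      rw [card_powerset, red_card] at this
      exact_mod_cast this
    refine h3.trans ?_
    rw [le_div_iff₀ (by positivity)]
    have : t ^ 2 ≤ 1 := by nlinarith
    have h4 : (0 : ℝ) < 2 ^ P.totient := by positivity
    nlinarith

end Q197.PS
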