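import Mathlib

/-! # Products with a finite rotation -/

set_option autoImplicit false

open Filter Topology MeasureTheory

namespace Q197.PS.RP

variable {X : Type} {Q : ℕ}

/-- the product of a permutation and a translation -/
def rot (e : Equiv.Perm X) (s : ZMod Q) : Equiv.Perm (X × ZMod Q) := Equiv.prodCongr e (Equiv.addRight s)

lemma rot_apply (e : Equiv.Perm X) (s : ZMod Q) (x : X) (a : ZMod Q) : rot e s (x, a) = (e x, a + s) := rfl

/-- the homomorphism -/
def Phi (X : Type) (Q : ℕ) : Equiv.Perm X × Multiplicative (ZMod Q) →* Equiv.Perm (X × ZMod Q) where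
  toFun p := rot p.1 (Multiplicative.toAdd p.2)
  map_one' := by
    ext ⟨x, a⟩
    · simp [rot_apply]
    · simp [rot_apply]
  map_mul' p r := by
    ext ⟨x, a⟩
    · simp [rot_apply]
    · simp only [Prod.snd_mul, toAdd_mul, Prod.fst_mul, rot_apply, Equiv.Perm.coe_mul, Function.comp_apply]
      ring

lemma rot_zpow (e : Equiv.Perm X) (s : ZMod Q) (z : ℤ) : (rot e s) ^ z = rot (e ^ z) ((z : ZMod Q) * s) := by
  have h := map_zpow (Phi X Q) (e, Multiplicative.ofAdd s) z
  have h1 : Phi X Q (e, Multiplicative.ofAdd s) = rot e s := rfl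
  rw [h1] at h
  rw [← h]
  show rot (e ^ z) (Multiplicative.toAdd ((Multiplicative.ofAdd s) ^ z)) = _
  rw [toAdd_zpow, toAdd_ofAdd, zsmul_eq_mul]

/-- the new generators: the rotation and the products of the old ones with the identity -/
def gens {d : ℕ} (T : Fin d → Equiv.Perm X) (Q : ℕ) : Fin (d + 1) → Equiv.Perm (X × ZMod Q) :=
  Fin.cons (rot 1 1) (fun i => rot (T i) 0)

lemma nilp {d : ℕ} {T : Fin d → Equiv.Perm X} (h : Group.IsNilpotent ↥(Subgroup.closure (Set.range T))) (Q : ℕ) :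
    Group.IsNilpotent ↥(Subgroup.closure (Set.range (gens T Q))) := by
  obtain ⟨φ, hφ⟩ : ∃ φ : ↥(Subgroup.closure (Set.range T)) × Multiplicative (ZMod Q) →* Equiv.Perm (X × ZMod Q),
      φ = (Phi X Q).comp (MonoidHom.prodMap (Subgroup.subtype _) (MonoidHom.id _)) := ⟨_, rfl⟩
  have h1 : Group.IsNilpotent ↥φ.range :=
    Group.nilpotent_of_surjective φ.rangeRestrict φ.rangeRestrict_surjective
  have h2 : Subgroup.closure (Set.range (gens T Q)) ≤ φ.range := by
    rw [Subgroup.closure_le]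
    rintro _ ⟨i, rfl⟩
    refine Fin.cases ?_ (fun i => ?_) i
    · refine ⟨(1, Multiplicative.ofAdd 1), ?_⟩
      rw [hφ]
      rfl
    · refine ⟨(⟨T i, Subgroup.subset_closure ⟨i, rfl⟩⟩, Multiplicative.ofAdd 0), ?_⟩
      rw [hφ]
      rfl
  refine Subgroup.isNilpotent_of_ker_le_center (Subgroup.inclusion h2) ?_
  rw [(MonoidHom.ker_eq_bot_iff _).2 (Subgroup.inclusion_injective h2)]
  exact bot_le

/-- the uniform measure -/
noncomputable def nu (Q : ℕ) : Measure (ZMod Q) := ((Q : ENNReal))⁻¹ • Measure.count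

lemma nu_prob {Q : ℕ} (hQ : 0 < Q) : IsProbabilityMeasure (nu Q) := by
  have : NeZero Q := ⟨hQ.ne'⟩
  refine ⟨?_⟩
  unfold nu
  rw [Measure.smul_apply, Measure.count_univ, smul_eq_mul]
  simp only [ENat.card_eq_coe_fintype_card, ZMod.card, ENat.toENNReal_coe]
  refine ENNReal.inv_mul_cancel ?_ (ENNReal.natCast_ne_top Q)
  exact_mod_cast hQ.ne'

lemma nu_shift {Q : ℕ} (hQ : 0 < Q) (s : ZMod Q) : MeasurePreserving (Equiv.addRight s) (nu Q) (nu Q) := by
  have : NeZero Q := ⟨hQ.ne'⟩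
  refine ⟨measurable_of_finite _, ?_⟩
  ext t ht
  rw [Measure.map_apply (measurable_of_finite _) ht]
  unfold nu
  rw [Measure.smul_apply, Measure.smul_apply]
  congr 1
  rw [← Measure.count_injective_image (Equiv.addRight s).injective (⇑(Equiv.addRight s) ⁻¹' t),
    Set.image_preimage_eq _ (Equiv.addRight s).surjective]

lemma mp_rot [MeasurableSpace X] {μ : Measure X} [IsProbabilityMeasure μ] {Q : ℕ} (hQ : 0 < Q) {e : Equiv.Perm X}
    (he : MeasurePreserving e μ μ) (s : ZMod Q) : MeasurePreserving (rot e s) (μ.prod (nu Q)) (μ.prod (nu Q)) := by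
  have := nu_prob hQ
  exact he.prod (nu_shift hQ s)

lemma meas_rot [MeasurableSpace X] {Q : ℕ} (hQ : 0 < Q) {e : Equiv.Perm X} (he : Measurable e) (s : ZMod Q) :
    Measurable (rot e s) := by
  have : NeZero Q := ⟨hQ.ne'⟩
  exact he.prodMap (measurable_of_finite _)

lemma rot_symm (e : Equiv.Perm X) (s : ZMod Q) : (rot e s).symm = rot e.symm (-s) := by
  ext ⟨x, a⟩
  · rfl
  · rfl

lemma ae_zero [MeasurableSpace X] {μ : Measure X} [IsProbabilityMeasure μ] {Q : ℕ} (hQ : 0 < Q)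
    {p : X × ZMod Q → Prop} (h : ∀ᵐ z ∂(μ.prod (nu Q)), p z) : ∀ᵐ x ∂μ, p (x, 0) := by
  have := nu_prob hQ
  filter_upwards [Measure.ae_ae_of_ae_prod h] with x hx
  unfold nu at hx
  rw [Measure.ae_ennreal_smul_measure_iff (ENNReal.inv_ne_zero.2 (ENNReal.natCast_ne_top Q))] at hx
  rw [Measure.ae_count_iff] at hx
  exact hx 0

end Q197.PS.RP
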