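import Pool.Agent.Q197.PS.Gen
import Pool.Agent.Q197.CI.Poly

/-!
# The least element `p` with `n = f(p) + q`
-/

set_option autoImplicit false

namespace Pool.Agent.Q197.PS

open Finset Filter MeasureTheory Pool.Agent.Q120.ET Pool.Agent.Q120.MF Pool.Agent.Q197.CI
open scoped Topology

/-- No representation `n = f(p) + q` with elements `p ≤ y` and `q`. -/
def NoRep (f : ℕ → ℤ) (S : Set ℕ) (n : ℕ) (y : ℝ) : Prop :=
  ∀ p : ℕ, 3 ≤ p → (p : ℝ) ≤ y → p ∈ S → ¬ ∃ q : ℕ, 3 ≤ q ∧ q ∈ S ∧ (n : ℤ) = f p + q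

theorem log_shift (s : ℕ) : Tendsto (fun n : ℕ => Real.log ((n + s : ℕ) : ℝ) / Real.log n) atTop (𝓝 1) := by
  have h := log_affine 1 s le_rfl
  simp only [one_mul] at h
  exact h

theorem loglog_shift (s : ℕ) : Tendsto (fun n : ℕ => Real.log (Real.log ((n + s : ℕ) : ℝ)) / Real.log (Real.log n)) atTop (𝓝 1) := by
  have h1 : Tendsto (fun n : ℕ => Real.log (Real.log ((n + s : ℕ) : ℝ) / Real.log n)) atTop (𝓝 0) := by
    have := (Real.continuousAt_log one_ne_zero).tendsto.comp (log_shift s)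
    rw [Real.log_one] at this
    exact this
  have hll : Tendsto (fun n : ℕ => Real.log (Real.log (n : ℝ))) atTop atTop := Real.tendsto_log_atTop.comp hl
  have h2 := (h1.div_atTop hll).add_const 1
  rw [zero_add] at h2
  refine h2.congr' ?_
  filter_upwards [hl.eventually_gt_atTop 0, hll.eventually_gt_atTop 0, eventually_ge_atTop 2] with n h3 h4 h5
  have h6 : 0 < Real.log ((n + s : ℕ) : ℝ) := Real.log_pos (by exact_mod_cast (show 1 < n + s by omega))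
  rw [Real.log_div h6.ne' h3.ne']
  field_simp
  ring

theorem us_shift {c1 c : ℝ} (h1 : 0 < c1) (h2 : c1 < c) (γ s : ℕ) : ∀ᶠ n : ℕ in atTop, us c1 γ 1 (n + s) ≤ us c γ 1 n := by
  have h3 := ((log_shift s).pow γ).mul (loglog_shift s)
  rw [one_pow, one_mul] at h3
  have h4 : (1 : ℝ) < c / c1 := by rw [one_lt_div h1]; exact h2
  have hll : Tendsto (fun n : ℕ => Real.log (Real.log (n : ℝ))) atTop atTop := Real.tendsto_log_atTop.comp hl
  filter_upwards [h3.eventually_lt_const h4, hl.eventually_gt_atTop 0, hll.eventually_gt_atTop 0] with n h5 h6 h7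
  unfold us
  rw [pow_one, pow_one]
  rw [div_pow, div_mul_div_comm, div_lt_div_iff₀ (by positivity) h1] at h5
  linarith

variable {g : ℕ → ℕ} {j0 D : ℕ} {f : ℕ → ℤ} {s : ℕ}

theorem en_of_noRep (hg : Gr g j0 D) (hf : ∀ j, (g j : ℤ) = f j + s) {c1 c : ℝ} (h1 : 0 < c1) (h2 : c1 < c) {γ : ℕ}
    (hγ : 1 ≤ γ) : ∀ᶠ n : ℕ in atTop, ∀ S : Set ℕ, NoRep f S n (us c γ 1 n) →
      En (Wg g) (FlF P0) (hg' g c1 γ 1) (n + s) S := by
  have hsh : Tendsto (fun n : ℕ => n + s) atTop atTop := tendsto_add_atTop_nat s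
  filter_upwards [us_shift h1 h2 γ s, hsh.eventually ((hs_top h1 hγ 1).eventually_ge_atTop j0),
    hsh.eventually (hg_le hg h1 hγ), hsh.eventually (two_pow_le ((γ + 3) * D)),
    hsh.eventually ((us_top h1 hγ 1).eventually_ge_atTop 0)] with n h3 h4 h5 h6 h7 S hS
  rintro i hi1 hi2 ⟨j, hj3, hjS, rfl⟩
  have hj : j ≤ hs c1 γ 1 (n + s) := (hg.le_iff h4).1 hi2
  have hjr : (j : ℝ) ≤ us c γ 1 n := by
    have : (j : ℝ) ≤ us c1 γ 1 (n + s) := by
      calc (j : ℝ) ≤ (hs c1 γ 1 (n + s) : ℕ) := by exact_mod_cast hj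
        _ ≤ us c1 γ 1 (n + s) := Nat.floor_le h7
    linarith
  have hbig : 2 * g j + 6 ≤ n + s := h6 (g j) (by
    have : (g j : ℝ) ≤ (hg' g c1 γ 1 (n + s) : ℕ) := by exact_mod_cast hi2
    linarith)
  intro hcon
  have hq : n + s - g j ∈ S := hcon _ (by unfold P0; exact mem_singleton_self _)
  refine hS j hj3 hjr hjS ⟨n + s - g j, by omega, hq, ?_⟩
  have := hf j
  rw [Nat.cast_sub (by omega)]
  push_cast
  linarith

theorem noRep_of_en (hg : Gr g j0 D) (hf : ∀ j, (g j : ℤ) = f j + s) {c c2 : ℝ} (h1 : 0 < c) (h2 : c < c2) {γ : ℕ}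
    (hγ : 1 ≤ γ) : ∀ᶠ n : ℕ in atTop, ∀ S : Set ℕ, En (Wg g) (FlF P0) (hg' g c2 γ 1) (n + s) S →
      NoRep f S n (us c γ 1 n) := by
  have hsh : Tendsto (fun n : ℕ => n + s) atTop atTop := tendsto_add_atTop_nat s
  have h02 : 0 < c2 := h1.trans h2
  have hll : Tendsto (fun n : ℕ => Real.log (Real.log (n : ℝ))) atTop atTop := Real.tendsto_log_atTop.comp hl
  filter_upwards [us_mono h1.le γ 1, hsh.eventually ((hs_top h02 hγ 1).eventually_ge_atTop j0),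
    hsh.eventually (hl.eventually_gt_atTop 0), hsh.eventually (hll.eventually_gt_atTop 0)] with n h3 h4 h5 h6 S hS
  rintro p hp3 hp hpS ⟨q, hq3, hqS, hq⟩
  have h7 : (p : ℝ) ≤ us c2 γ 1 (n + s) := by
    refine hp.trans ((h3 (n + s) (by omega)).trans ?_)
    unfold us
    exact mul_le_mul_of_nonneg_right h2.le (by positivity)
  have h8 : p ≤ hs c2 γ 1 (n + s) := Nat.le_floor h7
  have h9 := hf p
  have h10 : n + s - g p = q := by omega
  refine hS (g p) (hg.pos p) ((hg.le_iff h4).2 h8) ⟨p, hp3, hpS, rfl⟩ (fun a ha => ?_)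
  unfold P0 at ha
  rw [mem_singleton] at ha
  rw [ha, h10]
  exact hqS

theorem cntP_eq (P : ℕ → Prop) (N : ℕ) : ∃ B : Finset ℕ, cntP P N = B.card ∧ ∀ n, n ∈ B ↔ 1 ≤ n ∧ n ≤ N ∧ P n := by
  classical
  refine ⟨(range (N + 1)).filter (fun n => 1 ≤ n ∧ P n), ?_, fun n => ?_⟩
  · unfold cntP
    rw [← Set.ncard_coe_finset]
    congr 2
    ext n
    simp only [Set.mem_ofPred_eq, coe_filter, mem_range]
    constructor
    · rintro ⟨h3, h4, h5⟩
      exact ⟨by omega, h3, h5⟩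
    · rintro ⟨h3, h4, h5⟩
      exact ⟨h4, by omega, h5⟩
  · rw [mem_filter, mem_range]
    constructor
    · rintro ⟨h3, h4, h5⟩
      exact ⟨h4, by omega, h5⟩
    · rintro ⟨h3, h4, h5⟩
      exact ⟨by omega, h3, h5⟩

theorem cnt_upper {P : ℕ → Prop} {E : ℕ → Set ℕ → Prop} {S : Set ℕ} {n0 : ℕ} (h : ∀ n, n0 ≤ n → P n → E (n + s) S) (N : ℕ) :
    cntP P N ≤ Zc (range (N + s + 1)) E S + n0 := by
  classical
  obtain ⟨B, hB1, hB2⟩ := cntP_eq P N
  rw [hB1]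
  unfold Zc
  have h1 : B ⊆ (B.filter (fun n => n0 ≤ n)) ∪ range n0 := by
    intro n hn
    rw [mem_union, mem_filter, mem_range]
    rcases Nat.lt_or_ge n n0 with h2 | h2
    · exact Or.inr h2
    · exact Or.inl ⟨hn, h2⟩
  have h2 : (B.filter (fun n => n0 ≤ n)).card ≤ ((range (N + s + 1)).filter (fun n => E n S)).card := by
    refine card_le_card_of_injOn (fun n => n + s) (fun n hn => ?_) (fun a _ b _ hab => by
      simp only at hab
      omega)
    rw [mem_coe, mem_filter, hB2] at hn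
    rw [mem_coe, mem_filter, mem_range]
    have h5 := hn.1.2.1
    exact ⟨show n + s < N + s + 1 by omega, h n hn.2 hn.1.2.2⟩
  have h3 := (card_le_card h1).trans (card_union_le _ _)
  rw [card_range] at h3
  exact_mod_cast h3.trans (Nat.add_le_add_right h2 _)

theorem cnt_lower {P : ℕ → Prop} {E : ℕ → Set ℕ → Prop} {S : Set ℕ} {n0 : ℕ} (h : ∀ n, n0 ≤ n → E (n + s) S → P n) (N : ℕ) :
    Zc (range (N + s + 1)) E S ≤ cntP P N + (n0 + s + 1) := by
  classical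
  obtain ⟨B, hB1, hB2⟩ := cntP_eq P N
  rw [hB1]
  unfold Zc
  have h1 : (range (N + s + 1)).filter (fun n => E n S) ⊆ (B.image (fun n => n + s)) ∪ range (n0 + s + 1) := by
    intro m hm
    rw [mem_filter, mem_range] at hm
    rw [mem_union, mem_image, mem_range]
    rcases Nat.lt_or_ge m (n0 + s + 1) with h2 | h2
    · exact Or.inr h2
    · refine Or.inl ⟨m - s, ?_, by omega⟩
      rw [hB2]
      refine ⟨by omega, by omega, h _ (by omega) ?_⟩
      rw [show m - s + s = m by omega]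
      exact hm.2
  have h3 := (card_le_card h1).trans (card_union_le _ _)
  rw [card_range] at h3
  have h4 := card_image_le (s := B) (f := fun n => n + s)
  exact_mod_cast h3.trans (Nat.add_le_add_right h4 _)

theorem shift_ratio (s : ℕ) : Tendsto (fun N : ℕ => ((N + s + 1 : ℕ) : ℝ) / N) atTop (𝓝 1) := by
  have h := (tendsto_const_nhds (x := ((s : ℝ) + 1))).div_atTop (tendsto_natCast_atTop_atTop (R := ℝ))
  have h2 := h.const_add 1
  rw [add_zero] at h2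
  refine h2.congr' ?_
  filter_upwards [eventually_ge_atTop 1] with N hN
  have hN0 : (0 : ℝ) < N := by exact_mod_cast hN
  push_cast
  field_simp
  ring

theorem ratio_sq {F : ℕ → ℝ} {Φ : ℝ → ℝ} {t : ℝ} (ht : 0 < t) (hΦ : ContinuousAt Φ t) (G : ℚ → ℕ → ℝ)
    (hG : ∀ q : ℚ, (0 : ℝ) < q → Tendsto (fun N => G q N / N) atTop (𝓝 (Φ q))) (s : ℕ)
    (hup : ∀ q : ℚ, (0 : ℝ) < q → (q : ℝ) < t → ∃ K : ℝ, ∀ N, F N ≤ G q (N + s + 1) + K)
    (hlo : ∀ q : ℚ, t < q → ∃ K : ℝ, ∀ N, G q (N + s + 1) ≤ F N + K) :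
    Tendsto (fun N => F N / N) atTop (𝓝 (Φ t)) := by
  have hGs : ∀ q : ℚ, (0 : ℝ) < q → ∀ K : ℝ, Tendsto (fun N : ℕ => (G q (N + s + 1) + K) / N) atTop (𝓝 (Φ q)) := by
    intro q hq K
    have h1 := ((hG q hq).comp (tendsto_add_atTop_nat (s + 1))).mul (shift_ratio s)
    have h2 := (tendsto_const_nhds (x := K)).div_atTop (tendsto_natCast_atTop_atTop (R := ℝ))
    have h3 := h1.add h2
    rw [mul_one, add_zero] at h3
    refine h3.congr' ?_
    filter_upwards [eventually_ge_atTop 1] with N hN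
    have hN0 : (0 : ℝ) < N := by exact_mod_cast hN
    simp only [Function.comp_apply]
    rw [show N + (s + 1) = N + s + 1 by ring]
    have : ((N + s + 1 : ℕ) : ℝ) ≠ 0 := by positivity
    field_simp
  rw [tendsto_order]
  constructor
  · intro a ha
    obtain ⟨δ, hδ, hd⟩ := Metric.eventually_nhds_iff.1 (hΦ.eventually (lt_mem_nhds ha))
    obtain ⟨q, hq1, hq2⟩ := exists_rat_btwn (show t < t + δ by linarith)
    have hq3 : a < Φ q := hd (by rw [Real.dist_eq, abs_lt]; constructor <;> linarith)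
    obtain ⟨K, hK⟩ := hlo q hq1
    filter_upwards [(hGs q (by linarith) (-K)).eventually (lt_mem_nhds hq3), eventually_ge_atTop 1] with N h1 h2
    have hN0 : (0 : ℝ) < N := by exact_mod_cast h2
    refine h1.trans_le (div_le_div_of_nonneg_right ?_ hN0.le)
    linarith [hK N]
  · intro b hb
    obtain ⟨δ, hδ, hd⟩ := Metric.eventually_nhds_iff.1 (hΦ.eventually (gt_mem_nhds hb))
    obtain ⟨q, hq1, hq2⟩ := exists_rat_btwn (show max (t - δ) 0 < t by exact max_lt (by linarith) ht)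
    have hq4 : t - δ < q := lt_of_le_of_lt (le_max_left _ _) hq1
    have hq5 : (0 : ℝ) < q := lt_of_le_of_lt (le_max_right _ _) hq1
    have hq3 : Φ q < b := hd (by rw [Real.dist_eq, abs_lt]; constructor <;> linarith)
    obtain ⟨K, hK⟩ := hup q hq5 hq2
    filter_upwards [(hGs q hq5 K).eventually (gt_mem_nhds hq3), eventually_ge_atTop 1] with N h1 h2
    have hN0 : (0 : ℝ) < N := by exact_mod_cast h2
    exact (div_le_div_of_nonneg_right (hK N) hN0.le).trans_lt h1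

theorem expo_sq {F : ℕ → ℝ} {c : ℝ} (hc0 : 0 < c) (hc2 : c < 2) (G : ℚ → ℕ → ℝ)
    (hG : ∀ q : ℚ, (0 : ℝ) < q → (q : ℝ) < 2 → ∀ k : ℕ, ∀ᶠ N : ℕ in atTop,
      (N : ℝ) ^ (1 - q / 2 - 1 / ((k : ℝ) + 1) : ℝ) ≤ G q N ∧ G q N ≤ (N : ℝ) ^ (1 - q / 2 + 1 / ((k : ℝ) + 1) : ℝ)) (s : ℕ)
    (hup : ∀ q : ℚ, (0 : ℝ) < q → (q : ℝ) < c → ∃ K : ℝ, ∀ N, F N ≤ G q (N + s + 1) + K)
    (hlo : ∀ q : ℚ, c < q → ∃ K : ℝ, ∀ N, G q (N + s + 1) ≤ F N + K) :
    Tendsto (fun N : ℕ => Real.log (F N) / Real.log N) atTop (𝓝 (1 - c / 2)) := by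
  have hr : ∀ r : ℝ, 0 < r → Tendsto (fun i : ℕ => (i : ℝ) ^ r) atTop atTop := fun r hr =>
    (tendsto_rpow_atTop hr).comp tendsto_natCast_atTop_atTop
  have hsh : Tendsto (fun n : ℕ => n + s + 1) atTop atTop := tendsto_add_atTop_nat (s + 1)
  refine expo_of_bounds (g := F) (K := 0) (by linarith) (fun N => by simp) (fun k => ?_)
  obtain ⟨η, hη⟩ : ∃ η : ℝ, η = 1 / ((k : ℝ) + 1) := ⟨_, rfl⟩
  have hη0 : 0 < η := by rw [hη]; positivity
  rw [← hη]
  obtain ⟨m, hm⟩ : ∃ m : ℝ, m = max (1 - c / 2 - η) 0 := ⟨_, rfl⟩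
  have hm0 : 0 ≤ m := by rw [hm]; exact le_max_right _ _
  have hm1 : 1 - c / 2 - η ≤ m := by rw [hm]; exact le_max_left _ _
  have hm2 : m < 1 - c / 2 := by rw [hm]; exact max_lt (by linarith) (by linarith)
  -- the upper bound
  obtain ⟨q1, hq1, hq1'⟩ := exists_rat_btwn (show max (c - η) 0 < c by exact max_lt (by linarith) hc0)
  have hq10 : (0 : ℝ) < q1 := lt_of_le_of_lt (le_max_right _ _) hq1
  have hq11 : c - η < q1 := lt_of_le_of_lt (le_max_left _ _) hq1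
  obtain ⟨k1, hk1⟩ := exists_nat_one_div_lt (show 0 < η / 2 by linarith)
  obtain ⟨K1, hK1⟩ := hup q1 hq10 hq1'
  have hG1 := hG q1 hq10 (by linarith) k1
  obtain ⟨a1, ha1⟩ : ∃ a1 : ℝ, a1 = 1 - (q1 : ℝ) / 2 + 1 / ((k1 : ℝ) + 1) := ⟨_, rfl⟩
  rw [← ha1] at hG1
  have ha10 : 0 < a1 := by
    have : (0 : ℝ) < 1 / ((k1 : ℝ) + 1) := by positivity
    rw [ha1]
    linarith
  have ha11 : a1 < 1 - c / 2 + η := by rw [ha1]; linarith
  -- the lower bound
  obtain ⟨q2, hq2, hq2'⟩ := exists_rat_btwn (show c < 2 - 2 * m by linarith)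
  have hpos : 0 < 1 - (q2 : ℝ) / 2 - m := by linarith
  obtain ⟨k2, hk2⟩ := exists_nat_one_div_lt hpos
  obtain ⟨K2, hK2⟩ := hlo q2 hq2
  have hG2 := hG q2 (by linarith) (by linarith) k2
  obtain ⟨a2, ha2⟩ : ∃ a2 : ℝ, a2 = 1 - (q2 : ℝ) / 2 - 1 / ((k2 : ℝ) + 1) := ⟨_, rfl⟩
  rw [← ha2] at hG2
  have ha20 : m < a2 := by rw [ha2]; linarith
  filter_upwards [hsh.eventually hG1, hsh.eventually hG2,
    (hr (1 - c / 2 + η - a1) (by linarith)).eventually_ge_atTop ((2 : ℝ) ^ a1 + |K1|),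
    (hr (a2 - m) (by linarith)).eventually_ge_atTop (1 + |K2|), eventually_ge_atTop (s + 1)] with N h1 h2 h3 h4 h5
  have hN1 : (1 : ℝ) ≤ N := by exact_mod_cast (show 1 ≤ N by omega)
  have hN0 : (0 : ℝ) < N := by linarith
  constructor
  · have e1 : (N : ℝ) ^ (a2 - m) * (N : ℝ) ^ m = (N : ℝ) ^ a2 := by
      rw [← Real.rpow_add hN0]
      congr 1
      ring
    have e2 : (1 : ℝ) ≤ (N : ℝ) ^ m := Real.one_le_rpow hN1 hm0
    have e3 : (1 + |K2|) * (N : ℝ) ^ m ≤ (N : ℝ) ^ a2 := by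
      rw [← e1]
      exact mul_le_mul_of_nonneg_right h4 (by linarith)
    have e4 : (N : ℝ) ^ a2 ≤ ((N + s + 1 : ℕ) : ℝ) ^ a2 :=
      Real.rpow_le_rpow hN0.le (by exact_mod_cast (show N ≤ N + s + 1 by omega)) (by linarith)
    have e5 : (N : ℝ) ^ (1 - c / 2 - η) ≤ (N : ℝ) ^ m := Real.rpow_le_rpow_of_exponent_le hN1 hm1
    have e6 : |K2| * 1 ≤ |K2| * (N : ℝ) ^ m := mul_le_mul_of_nonneg_left e2 (abs_nonneg _)
    have e7 := le_abs_self K2
    have e8 := hK2 N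
    linarith [h2.1]
  · have e1 : (N : ℝ) ^ (1 - c / 2 + η - a1) * (N : ℝ) ^ a1 = (N : ℝ) ^ (1 - c / 2 + η) := by
      rw [← Real.rpow_add hN0]
      congr 1
      ring
    have e2 : (1 : ℝ) ≤ (N : ℝ) ^ a1 := Real.one_le_rpow hN1 ha10.le
    have e3 : ((2 : ℝ) ^ a1 + |K1|) * (N : ℝ) ^ a1 ≤ (N : ℝ) ^ (1 - c / 2 + η) := by
      rw [← e1]
      exact mul_le_mul_of_nonneg_right h3 (by linarith)
    have e4 : ((N + s + 1 : ℕ) : ℝ) ^ a1 ≤ (2 : ℝ) ^ a1 * (N : ℝ) ^ a1 := by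
      rw [← Real.mul_rpow (by norm_num) hN0.le]
      refine Real.rpow_le_rpow (Nat.cast_nonneg _) ?_ ha10.le
      exact_mod_cast (show N + s + 1 ≤ 2 * N by omega)
    have e6 : |K1| * 1 ≤ |K1| * (N : ℝ) ^ a1 := mul_le_mul_of_nonneg_left e2 (abs_nonneg _)
    have e7 := le_abs_self K1
    have e8 := hK1 N
    linarith [h1.2]

end Pool.Agent.Q197.PS
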