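import Mathlib

set_option autoImplicit false

open Finset

namespace Q197.PS

lemma prod_ratio (S : Finset ℕ) (h : ∀ p ∈ S, 2 ≤ p) : ∏ p ∈ S, ((p : ℝ) / ((p : ℝ) - 1)) ≤ (S.card : ℝ) + 1 := by
  induction S using Finset.induction_on_max with
  | empty => simp
  | insert a s hlt ih =>
    have ha : a ∉ s := fun h => lt_irrefl _ (hlt a h)
    rw [prod_insert ha, card_insert_of_notMem ha]
    have ih' := ih (fun p hp => h p (mem_insert_of_mem hp))
    have hc : s.card + 2 ≤ a := by
      have h1 : s ⊆ Ico 2 a := fun x hx => by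
        rw [mem_Ico]
        exact ⟨h x (mem_insert_of_mem hx), hlt x hx⟩
      have h2 := card_le_card h1
      rw [Nat.card_Ico] at h2
      have h3 := h a (mem_insert_self _ _)
      omega
    have hc' : (s.card : ℝ) + 2 ≤ a := by exact_mod_cast hc
    have hs0 : (0 : ℝ) ≤ s.card := Nat.cast_nonneg _
    have hr : (a : ℝ) / ((a : ℝ) - 1) ≤ ((s.card : ℝ) + 2) / ((s.card : ℝ) + 1) := by
      rw [div_le_div_iff₀ (by linarith) (by linarith)]
      nlinarith
    have hp0 : 0 ≤ ∏ p ∈ s, ((p : ℝ) / ((p : ℝ) - 1)) := by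
      refine prod_nonneg fun p hp => ?_
      have := h p (mem_insert_of_mem hp)
      have h1 : (2 : ℝ) ≤ p := by exact_mod_cast this
      exact div_nonneg (by linarith) (by linarith)
    calc _ ≤ ((s.card : ℝ) + 2) / ((s.card : ℝ) + 1) * ((s.card : ℝ) + 1) := by
          exact mul_le_mul hr ih' hp0 (by positivity)
      _ = _ := by
          push_cast
          field_simp
          ring

lemma le_totient (n : ℕ) (hn : 0 < n) : (n : ℝ) ≤ (Nat.log 2 n + 1) * n.totient := by
  have h1 := Nat.totient_mul_prod_primeFactors n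
  have h2 : ((n.totient : ℝ)) * ∏ p ∈ n.primeFactors, (p : ℝ) = n * ∏ p ∈ n.primeFactors, ((p : ℝ) - 1) := by
    have h3 : ((n.totient * ∏ p ∈ n.primeFactors, p : ℕ) : ℝ) = ((n * ∏ p ∈ n.primeFactors, (p - 1) : ℕ) : ℝ) := by
      rw [h1]
    push_cast at h3
    rw [h3]
    congr 1
    refine prod_congr rfl fun p hp => ?_
    have := (Nat.prime_of_mem_primeFactors hp).one_le
    push_cast [Nat.cast_sub this]
    ring
  have hpos : 0 < ∏ p ∈ n.primeFactors, ((p : ℝ) - 1) := by
    refine prod_pos fun p hp => ?_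
    have := (Nat.prime_of_mem_primeFactors hp).two_le
    have h1 : (2 : ℝ) ≤ p := by exact_mod_cast this
    linarith
  have h4 : (n : ℝ) = n.totient * ∏ p ∈ n.primeFactors, ((p : ℝ) / ((p : ℝ) - 1)) := by
    rw [prod_div_distrib, ← mul_div_assoc, h2, mul_div_cancel_right₀ _ hpos.ne']
  have h5 := prod_ratio n.primeFactors (fun p hp => (Nat.prime_of_mem_primeFactors hp).two_le)
  have h6 : n.primeFactors.card ≤ Nat.log 2 n := by
    refine Nat.le_log_of_pow_le (by norm_num) ?_
    calc 2 ^ n.primeFactors.card = ∏ p ∈ n.primeFactors, 2 := by rw [prod_const]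
      _ ≤ ∏ p ∈ n.primeFactors, p := prod_le_prod' fun p hp => (Nat.prime_of_mem_primeFactors hp).two_le
      _ ≤ n := Nat.le_of_dvd hn (Nat.prod_primeFactors_dvd n)
  have h7 : (n.primeFactors.card : ℝ) ≤ Nat.log 2 n := by exact_mod_cast h6
  calc (n : ℝ) = n.totient * ∏ p ∈ n.primeFactors, ((p : ℝ) / ((p : ℝ) - 1)) := h4
    _ ≤ n.totient * ((n.primeFactors.card : ℝ) + 1) := by gcongr
    _ ≤ n.totient * ((Nat.log 2 n : ℝ) + 1) := by gcongr
    _ = _ := by ring

variable {κ : Type} [DecidableEq κ]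

lemma card_mem_powersetCard (R : Finset κ) (m : ℕ) (a : κ) (ha : a ∈ R) :
    ((R.powersetCard (m + 1)).filter (fun A => a ∈ A)).card = (R.card - 1).choose m := by
  have h1 : ((R.powersetCard (m + 1)).filter (fun A => a ∈ A)).card = ((R.erase a).powersetCard m).card := by
    refine card_bij (fun A _ => A.erase a) (fun A hA => ?_) (fun A hA B hB h => ?_) (fun B hB => ?_)
    · rw [mem_filter, mem_powersetCard] at hA
      rw [mem_powersetCard]
      refine ⟨erase_subset_erase _ hA.1.1, ?_⟩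
      rw [card_erase_of_mem hA.2, hA.1.2]
      rfl
    · rw [mem_filter] at hA hB
      rw [← insert_erase hA.2, ← insert_erase hB.2]
      rw [h]
    · rw [mem_powersetCard] at hB
      have hna : a ∉ B := fun h => (notMem_erase a R) (hB.1 h)
      refine ⟨insert a B, ?_, erase_insert hna⟩
      rw [mem_filter, mem_powersetCard]
      refine ⟨⟨insert_subset ha (hB.1.trans (erase_subset _ _)), ?_⟩, mem_insert_self _ _⟩
      rw [card_insert_of_notMem hna, hB.2]
  rw [h1, card_powersetCard, card_erase_of_mem ha]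

lemma card_mem_mem (R : Finset κ) (m : ℕ) (a b : κ) (ha : a ∈ R) (hb : b ∈ R) (hab : a ≠ b) :
    ((R.powersetCard (m + 2)).filter (fun A => a ∈ A ∧ b ∈ A)).card = (R.card - 2).choose m := by
  have h1 : ((R.powersetCard (m + 2)).filter (fun A => a ∈ A ∧ b ∈ A)).card =
      (((R.erase a).powersetCard (m + 1)).filter (fun A => b ∈ A)).card := by
    refine card_bij (fun A _ => A.erase a) (fun A hA => ?_) (fun A hA B hB h => ?_) (fun B hB => ?_)
    · rw [mem_filter, mem_powersetCard] at hA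
      rw [mem_filter, mem_powersetCard]
      refine ⟨⟨erase_subset_erase _ hA.1.1, ?_⟩, mem_erase.2 ⟨hab.symm, hA.2.2⟩⟩
      rw [card_erase_of_mem hA.2.1, hA.1.2]
      rfl
    · rw [mem_filter] at hA hB
      rw [← insert_erase hA.2.1, ← insert_erase hB.2.1]
      rw [h]
    · rw [mem_filter, mem_powersetCard] at hB
      have hna : a ∉ B := fun h => (notMem_erase a R) (hB.1.1 h)
      refine ⟨insert a B, ?_, erase_insert hna⟩
      rw [mem_filter, mem_powersetCard]
      refine ⟨⟨insert_subset ha (hB.1.1.trans (erase_subset _ _)), ?_⟩, mem_insert_self _ _,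
        mem_insert_of_mem hB.2⟩
      rw [card_insert_of_notMem hna, hB.1.2]
  rw [h1, card_mem_powersetCard _ _ _ (mem_erase.2 ⟨hab.symm, hb⟩), card_erase_of_mem ha]
  rfl


section cheb

variable (R : Finset κ) (x : κ → ℝ) (m : ℕ)

lemma sum_first (hm : 0 < m) (hmR : m ≤ R.card) :
    ∑ A ∈ R.powersetCard m, ∑ a ∈ A, x a = (m : ℝ) / R.card * (R.card.choose m : ℝ) * ∑ a ∈ R, x a := by
  obtain ⟨k, rfl⟩ : ∃ k, m = k + 1 := ⟨m - 1, by omega⟩
  have hn0 : 0 < R.card := by omega
  have e1 : ∑ A ∈ R.powersetCard (k + 1), ∑ a ∈ A, x a =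
      ∑ a ∈ R, ∑ A ∈ R.powersetCard (k + 1), if a ∈ A then x a else 0 := by
    rw [sum_comm]
    refine sum_congr rfl fun A hA => ?_
    rw [mem_powersetCard] at hA
    rw [← sum_filter]
    congr 1
    ext a
    rw [mem_filter]
    exact ⟨fun h => ⟨hA.1 h, h⟩, fun h => h.2⟩
  rw [e1, mul_sum]
  refine sum_congr rfl fun a ha => ?_
  rw [← sum_filter, sum_const, card_mem_powersetCard R k a ha, nsmul_eq_mul]
  have h2 : ((R.card - 1).choose k : ℝ) * R.card = (R.card.choose (k + 1) : ℝ) * (k + 1) := by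
    have := Nat.add_one_mul_choose_eq (R.card - 1) k
    have e : R.card - 1 + 1 = R.card := by omega
    rw [e] at this
    have h3 : ((R.card * (R.card - 1).choose k : ℕ) : ℝ) = ((R.card.choose (k + 1) * (k + 1) : ℕ) : ℝ) := by
      rw [this]
    push_cast at h3
    linarith
  have hn : (R.card : ℝ) ≠ 0 := by exact_mod_cast hn0.ne'
  push_cast
  field_simp
  linear_combination (x a) * h2

lemma pair_le (hm : 0 < m) (hmR : m ≤ R.card) (a b : κ) (ha : a ∈ R) (hb : b ∈ R) (hab : a ≠ b) :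
    (((R.powersetCard m).filter (fun A => a ∈ A ∧ b ∈ A)).card : ℝ) ≤
      ((m : ℝ) / R.card) ^ 2 * (R.card.choose m : ℝ) := by
  have hn0 : 0 < R.card := by omega
  rcases Nat.lt_or_ge m 2 with h2 | h2
  · have h1 : m = 1 := by omega
    subst h1
    have : ((R.powersetCard 1).filter (fun A => a ∈ A ∧ b ∈ A)).card = 0 := by
      rw [card_eq_zero, filter_eq_empty_iff]
      intro A hA h
      rw [mem_powersetCard] at hA
      obtain ⟨c, hc⟩ := card_eq_one.1 hA.2
      rw [hc, mem_singleton, mem_singleton] at h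
      exact hab (h.1.trans h.2.symm)
    rw [this]
    push_cast
    positivity
  · obtain ⟨k, rfl⟩ : ∃ k, m = k + 2 := ⟨m - 2, by omega⟩
    rw [card_mem_mem R k a b ha hb hab]
    have h1 := Nat.add_one_mul_choose_eq (R.card - 1) (k + 1)
    have h2 := Nat.add_one_mul_choose_eq (R.card - 2) k
    have e : R.card - 1 + 1 = R.card := by omega
    have e' : R.card - 2 + 1 = R.card - 1 := by omega
    rw [e] at h1
    rw [e'] at h2
    have h1' : (R.card : ℝ) * ((R.card - 1).choose (k + 1) : ℝ) =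
        (R.card.choose (k + 2) : ℝ) * (k + 2) := by exact_mod_cast h1
    have h2' : ((R.card : ℝ) - 1) * ((R.card - 2).choose k : ℝ) =
        ((R.card - 1).choose (k + 1) : ℝ) * (k + 1) := by
      have h3 : (((R.card - 1) * (R.card - 2).choose k : ℕ) : ℝ) =
        (((R.card - 1).choose (k + 1) * (k + 1) : ℕ) : ℝ) := by rw [h2]
      push_cast [Nat.cast_sub (by omega : 1 ≤ R.card)] at h3
      exact h3
    have hn : (2 : ℝ) ≤ R.card := by exact_mod_cast (by omega : 2 ≤ R.card)
    have hkn : (k : ℝ) + 2 ≤ R.card := by exact_mod_cast hmR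
    have hk0 : (0 : ℝ) ≤ k := Nat.cast_nonneg _
    set n : ℝ := (R.card : ℝ) with hnn
    set N : ℝ := (R.card.choose (k + 2) : ℝ) with hN
    set p : ℝ := ((R.card - 2).choose k : ℝ) with hp
    set q : ℝ := ((R.card - 1).choose (k + 1) : ℝ) with hq
    have hN0 : 0 ≤ N := Nat.cast_nonneg _
    have h4 : n * (n - 1) * p = N * (k + 2) * (k + 1) := by
      calc n * (n - 1) * p = n * ((n - 1) * p) := by ring
        _ = n * (q * (k + 1)) := by rw [h2']
        _ = (n * q) * (k + 1) := by ring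
        _ = _ := by rw [h1']
    have h5 : p = N * (k + 2) * (k + 1) / (n * (n - 1)) := by
      rw [eq_div_iff (by
        have : 0 < n * (n - 1) := by nlinarith
        exact this.ne')]
      linarith
    rw [h5]
    push_cast
    rw [div_pow, div_mul_eq_mul_div, div_le_div_iff₀ (by nlinarith) (by positivity)]
    have h6 : (k + 1) * n ≤ (k + 2) * (n - 1) := by nlinarith
    have h7 : 0 ≤ N * (k + 2) * n := by positivity
    nlinarith [mul_le_mul_of_nonneg_left h6 h7]

lemma sum_second (hx : ∀ a ∈ R, 0 ≤ x a) (hm : 0 < m) (hmR : m ≤ R.card) :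
    ∑ A ∈ R.powersetCard m, (∑ a ∈ A, x a) ^ 2 ≤
      (R.card.choose m : ℝ) * ((m : ℝ) / R.card * ∑ a ∈ R, x a ^ 2 + ((m : ℝ) / R.card * ∑ a ∈ R, x a) ^ 2) := by
  have hn0 : 0 < R.card := by omega
  have e1 : ∑ A ∈ R.powersetCard m, (∑ a ∈ A, x a) ^ 2 =
      ∑ a ∈ R, ∑ b ∈ R, x a * x b * (((R.powersetCard m).filter (fun A => a ∈ A ∧ b ∈ A)).card : ℝ) := by
    have e2 : ∀ A ∈ R.powersetCard m, (∑ a ∈ A, x a) ^ 2 =
        ∑ a ∈ R, ∑ b ∈ R, if a ∈ A ∧ b ∈ A then x a * x b else 0 := by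
      intro A hA
      rw [mem_powersetCard] at hA
      have e3 : ∑ a ∈ A, x a = ∑ a ∈ R, if a ∈ A then x a else 0 := by
        rw [← sum_filter]
        congr 1
        ext a
        rw [mem_filter]
        exact ⟨fun h => ⟨hA.1 h, h⟩, fun h => h.2⟩
      rw [e3, sq, sum_mul_sum]
      refine sum_congr rfl fun a _ => sum_congr rfl fun b _ => ?_
      by_cases h1 : a ∈ A <;> by_cases h2 : b ∈ A <;> simp [h1, h2]
    rw [sum_congr rfl e2, sum_comm]
    refine sum_congr rfl fun a _ => ?_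
    rw [sum_comm]
    refine sum_congr rfl fun b _ => ?_
    rw [← sum_filter, sum_const, nsmul_eq_mul, mul_comm]
  rw [e1]
  set θ : ℝ := (m : ℝ) / R.card with hθ
  set N : ℝ := (R.card.choose m : ℝ) with hN
  have hdiag : ∀ a ∈ R, (((R.powersetCard m).filter (fun A => a ∈ A ∧ a ∈ A)).card : ℝ) = θ * N := by
    intro a ha
    obtain ⟨k, rfl⟩ : ∃ k, m = k + 1 := ⟨m - 1, by omega⟩
    have e : (R.powersetCard (k + 1)).filter (fun A => a ∈ A ∧ a ∈ A) =
        (R.powersetCard (k + 1)).filter (fun A => a ∈ A) := by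
      ext A
      simp only [mem_filter, and_self]
    rw [e, card_mem_powersetCard R k a ha]
    have h2 : ((R.card - 1).choose k : ℝ) * R.card = (R.card.choose (k + 1) : ℝ) * (k + 1) := by
      have := Nat.add_one_mul_choose_eq (R.card - 1) k
      have e : R.card - 1 + 1 = R.card := by omega
      rw [e] at this
      have h3 : ((R.card * (R.card - 1).choose k : ℕ) : ℝ) = ((R.card.choose (k + 1) * (k + 1) : ℕ) : ℝ) := by
        rw [this]
      push_cast at h3
      linarith
    have hn : (R.card : ℝ) ≠ 0 := by exact_mod_cast hn0.ne'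
    rw [hθ, hN]
    push_cast
    field_simp
    linarith
  have hN0 : 0 ≤ N := Nat.cast_nonneg _
  have hθ0 : 0 ≤ θ := by positivity
  have hterm : ∀ a ∈ R, ∀ b ∈ R,
      x a * x b * (((R.powersetCard m).filter (fun A => a ∈ A ∧ b ∈ A)).card : ℝ) ≤
        (if a = b then θ * N * x a ^ 2 else 0) + θ ^ 2 * N * (x a * x b) := by
    intro a ha b hb
    by_cases hab : a = b
    · subst hab
      rw [hdiag a ha, if_pos rfl]
      have := mul_self_nonneg (x a)
      have h1 : 0 ≤ θ ^ 2 * N * (x a * x a) := by positivity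
      nlinarith
    · rw [if_neg hab, zero_add]
      have h1 := pair_le R m hm hmR a b ha hb hab
      rw [← hθ, ← hN] at h1
      have h2 : 0 ≤ x a * x b := mul_nonneg (hx a ha) (hx b hb)
      calc _ ≤ x a * x b * (θ ^ 2 * N) := mul_le_mul_of_nonneg_left h1 h2
        _ = _ := by ring
  calc _ ≤ ∑ a ∈ R, ∑ b ∈ R, ((if a = b then θ * N * x a ^ 2 else 0) + θ ^ 2 * N * (x a * x b)) :=
        sum_le_sum fun a ha => sum_le_sum fun b hb => hterm a ha b hb
    _ = ∑ a ∈ R, θ * N * x a ^ 2 + θ ^ 2 * N * (∑ a ∈ R, x a) ^ 2 := by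
        rw [sq (∑ a ∈ R, x a), sum_mul_sum, mul_sum, ← sum_add_distrib]
        refine sum_congr rfl fun a ha => ?_
        rw [sum_add_distrib, sum_ite_eq, if_pos ha, mul_sum]
    _ = _ := by
        rw [← mul_sum]
        ring

/-- **Chebyshev for samples without replacement** -/
theorem samples {M : ℝ} (hx : ∀ a ∈ R, 0 ≤ x a ∧ x a ≤ M) (hm : 0 < m) (hmR : m ≤ R.card) {t : ℝ}
    (ht : 0 < t) :
    (((R.powersetCard m).filter (fun A =>
      t ≤ |(R.card : ℝ) / m * ∑ a ∈ A, x a - ∑ a ∈ R, x a|)).card : ℝ) ≤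
      (R.card : ℝ) / m * M * (∑ a ∈ R, x a) / t ^ 2 * (R.card.choose m : ℝ) := by
  have hn0 : 0 < R.card := by omega
  have hn : (0 : ℝ) < R.card := by exact_mod_cast hn0
  have hmr : (0 : ℝ) < m := by exact_mod_cast hm
  set θ : ℝ := (m : ℝ) / R.card with hθ
  have hθ0 : 0 < θ := by positivity
  have hθi : (R.card : ℝ) / m = 1 / θ := by
    rw [hθ, one_div_div]
  set G := ∑ a ∈ R, x a with hG
  set N : ℝ := (R.card.choose m : ℝ) with hN
  have h1 := sum_first R x m hm hmR
  have h2 := sum_second R x m (fun a ha => (hx a ha).1) hm hmR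
  rw [← hθ, ← hG, ← hN] at h1 h2
  have h3 : ∑ a ∈ R, x a ^ 2 ≤ M * G := by
    rw [hG, mul_sum]
    refine sum_le_sum fun a ha => ?_
    rw [sq]
    exact mul_le_mul_of_nonneg_right (hx a ha).2 (hx a ha).1
  have hN0 : 0 ≤ N := Nat.cast_nonneg _
  have hNc : N = ((R.powersetCard m).card : ℝ) := by rw [hN, card_powersetCard]
  clear_value G
  have h4 : ∑ A ∈ R.powersetCard m, (∑ a ∈ A, x a - θ * G) ^ 2 ≤ N * (θ * (M * G)) := by
    have e : ∑ A ∈ R.powersetCard m, (∑ a ∈ A, x a - θ * G) ^ 2 =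
        ∑ A ∈ R.powersetCard m, (∑ a ∈ A, x a) ^ 2 - 2 * (θ * G) * ∑ A ∈ R.powersetCard m, ∑ a ∈ A, x a +
          N * (θ * G) ^ 2 := by
      rw [hNc, ← nsmul_eq_mul, ← sum_const, mul_sum, ← sum_sub_distrib, ← sum_add_distrib]
      refine sum_congr rfl fun A _ => ?_
      ring
    rw [e, h1]
    have h5 : N * (θ * ∑ a ∈ R, x a ^ 2) ≤ N * (θ * (M * G)) := by gcongr
    nlinarith
  rw [hθi]
  have h6 : (((R.powersetCard m).filter (fun A => t ≤ |1 / θ * ∑ a ∈ A, x a - G|)).card : ℝ) * (θ * t) ^ 2 ≤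
      N * (θ * (M * G)) := by
    refine le_trans ?_ h4
    rw [← nsmul_eq_mul, ← sum_const]
    have hsub := sum_le_sum_of_subset_of_nonneg (f := fun A => (∑ a ∈ A, x a - θ * G) ^ 2)
      (filter_subset (fun A => t ≤ |1 / θ * ∑ a ∈ A, x a - G|) (R.powersetCard m))
      (fun _ _ _ => sq_nonneg _)
    refine le_trans ?_ hsub
    refine sum_le_sum fun A hA => ?_
    rw [mem_filter] at hA
    have e : ∑ a ∈ A, x a - θ * G = θ * (1 / θ * ∑ a ∈ A, x a - G) := by
      field_simp
    rw [e, mul_pow, mul_pow]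
    have h7 : t ^ 2 ≤ (1 / θ * ∑ a ∈ A, x a - G) ^ 2 := by
      rw [← sq_abs (1 / θ * ∑ a ∈ A, x a - G)]
      exact pow_le_pow_left₀ ht.le hA.2 2
    exact mul_le_mul_of_nonneg_left h7 (by positivity)
  have h8 : 1 / θ * M * G / t ^ 2 * N = N * (θ * (M * G)) / (θ * t) ^ 2 := by
    field_simp
  rw [h8, le_div_iff₀ (by positivity)]
  exact h6

end cheb

end Q197.PS
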