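import Pool.Agent.Q197.PS.SP

/-! # Samples of reduced residue classes: size of the terms of the variance -/

set_option autoImplicit false

open Finset

namespace Q197.PS

lemma card_class (N Q a : ℕ) (hQ : 0 < Q) :
    (((Icc 1 N).filter (fun n => n % Q = a)).card : ℝ) ≤ (N : ℝ) / Q + 1 := by
  have h1 : ((Icc 1 N).filter (fun n => n % Q = a)) ⊆ (range (N / Q + 1)).image (fun k => Q * k + a) := by
    intro n hn
    rw [mem_filter, mem_Icc] at hn
    rw [mem_image]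
    refine ⟨n / Q, ?_, ?_⟩
    · rw [mem_range]
      have := Nat.div_le_div_right (c := Q) hn.1.2
      omega
    · rw [← hn.2]
      exact Nat.div_add_mod n Q
  have h2 := (card_le_card h1).trans card_image_le
  rw [card_range] at h2
  have h3 : (((Icc 1 N).filter (fun n => n % Q = a)).card : ℝ) ≤ ((N / Q : ℕ) : ℝ) + 1 := by
    exact_mod_cast h2
  have h4 : ((N / Q : ℕ) : ℝ) ≤ (N : ℝ) / Q := Nat.cast_div_le
  linarith

lemma psi_le (X : ℝ) (hX : 1 ≤ X) (Q a : ℕ) (hQ : 0 < Q) (hQX : (Q : ℝ) < X) :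
    ∑ n ∈ (Icc 1 ⌊X⌋₊).filter (fun n => n % Q = a), ArithmeticFunction.vonMangoldt n ≤
      2 * (X / Q) * Real.log X := by
  have hQ0 : (0 : ℝ) < Q := by exact_mod_cast hQ
  have hlog : 0 ≤ Real.log X := Real.log_nonneg hX
  have h1 : ∀ n ∈ (Icc 1 ⌊X⌋₊).filter (fun n => n % Q = a), ArithmeticFunction.vonMangoldt n ≤ Real.log X := by
    intro n hn
    rw [mem_filter, mem_Icc] at hn
    refine ArithmeticFunction.vonMangoldt_le_log.trans ?_
    refine Real.log_le_log (by exact_mod_cast hn.1.1) ?_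
    exact (Nat.le_floor_iff (by linarith)).1 hn.1.2
  refine (sum_le_sum h1).trans ?_
  rw [sum_const, nsmul_eq_mul]
  have h2 := card_class ⌊X⌋₊ Q a hQ
  have h3 : ((⌊X⌋₊ : ℕ) : ℝ) ≤ X := Nat.floor_le (by linarith)
  have h4 : ((⌊X⌋₊ : ℕ) : ℝ) / Q ≤ X / Q := by gcongr
  have h5 : 1 ≤ X / Q := by
    rw [le_div_iff₀ hQ0]
    linarith
  refine mul_le_mul_of_nonneg_right ?_ hlog
  linarith

lemma psi_nonneg (X : ℝ) (Q a : ℕ) :
    0 ≤ ∑ n ∈ (Icc 1 ⌊X⌋₊).filter (fun n => n % Q = a), ArithmeticFunction.vonMangoldt n :=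
  sum_nonneg fun _ _ => ArithmeticFunction.vonMangoldt_nonneg

/-- the mean is not large -/
lemma mean_le (X : ℝ) (hX : Real.exp 2 ≤ X) (Q : ℕ) (hQ : 0 < Q) (hQX : (Q : ℝ) < X) :
    X / (Nat.totient Q : ℝ) ≤ 3 * (X / Q) * Real.log X := by
  have hQ0 : (0 : ℝ) < Q := by exact_mod_cast hQ
  have hX0 : 0 < X := (Real.exp_pos 2).trans_le hX
  have hl : 2 ≤ Real.log X := by
    rw [Real.le_log_iff_exp_le hX0]
    exact hX
  have h1 := le_totient Q hQ
  have hφ : (0 : ℝ) < Nat.totient Q := by exact_mod_cast Nat.totient_pos.2 hQ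
  have h2 : (Nat.log 2 Q : ℝ) ≤ 2 * Real.log X := by
    have h3 : (2 : ℝ) ^ (Nat.log 2 Q) ≤ Q := by exact_mod_cast Nat.pow_log_le_self 2 hQ.ne'
    have h4 := Real.log_le_log (by positivity) (h3.trans hQX.le)
    rw [Real.log_pow] at h4
    have h5 := Real.log_two_gt_d9
    have h6 : (0 : ℝ) ≤ (Nat.log 2 Q : ℝ) := Nat.cast_nonneg _
    nlinarith
  have h7 : (Q : ℝ) ≤ 3 * Real.log X * Nat.totient Q := by
    refine h1.trans (mul_le_mul_of_nonneg_right ?_ hφ.le)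
    linarith
  rw [div_le_iff₀ hφ]
  have h8 : X = X / Q * Q := by field_simp
  calc X = X / Q * Q := h8
    _ ≤ X / Q * (3 * Real.log X * Nat.totient Q) := by gcongr
    _ = _ := by ring

lemma term_le (X : ℝ) (hX : Real.exp 2 ≤ X) (Q a : ℕ) (hQ : 0 < Q) (hQX : (Q : ℝ) < X) :
    (∑ n ∈ (Icc 1 ⌊X⌋₊).filter (fun n => n % Q = a), ArithmeticFunction.vonMangoldt n -
      X / (Nat.totient Q : ℝ)) ^ 2 ≤ (3 * (X / Q) * Real.log X) ^ 2 := by
  have h1 : (1 : ℝ) ≤ X := by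
    have := Real.add_one_le_exp (2 : ℝ)
    linarith
  have h2 := psi_le X h1 Q a hQ hQX
  have h3 := psi_nonneg X Q a
  have h4 := mean_le X hX Q hQ hQX
  have hQ0 : (0 : ℝ) < Q := by exact_mod_cast hQ
  have hφ : (0 : ℝ) < Nat.totient Q := by exact_mod_cast Nat.totient_pos.2 hQ
  have h5 : 0 ≤ X / (Nat.totient Q : ℝ) := by positivity
  have h6 : 0 ≤ (X / Q) * Real.log X := mul_nonneg (by positivity) (Real.log_nonneg h1)
  refine sq_le_sq' ?_ ?_
  · nlinarith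
  · nlinarith

end Q197.PS
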