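import Pool.Agent.Q197.PS.SP

/-! # Samples decide the mean value: general theorem -/

set_option autoImplicit false

open Finset Filter Topology

namespace Q197.PS

section

variable {ι κ : Type} [DecidableEq κ]

/-- the samples of `m` elements of `S` whose mean of `x` differs from `L` by at most `δ` -/
noncomputable def goodS (S : Finset κ) (x : κ → ℝ) (L δ : ℝ) (m : ℕ) : Finset (Finset κ) := by
  classical
  exact (S.powersetCard m).filter (fun A => |(∑ a ∈ A, x a) / m - L| ≤ δ)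

/-- the other samples of `m` elements of `S` -/
noncomputable def badS (S : Finset κ) (x : κ → ℝ) (L δ : ℝ) (m : ℕ) : Finset (Finset κ) := by
  classical
  exact (S.powersetCard m).filter (fun A => ¬ |(∑ a ∈ A, x a) / m - L| ≤ δ)

omit [DecidableEq κ] in
lemma goodS_add_badS (S : Finset κ) (x : κ → ℝ) (L δ : ℝ) (m : ℕ) :
    (goodS S x L δ m).card + (badS S x L δ m).card = S.card.choose m := by
  classical
  unfold goodS badS
  rw [← card_powersetCard]
  exact card_filter_add_card_filter_not _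

/-- most samples estimate the mean -/
lemma sample_core (S : Finset κ) (x : κ → ℝ) {M L δ : ℝ} {m : ℕ} (hL : 0 < L) (hδ : 0 < δ)
    (hx : ∀ a ∈ S, 0 ≤ x a ∧ x a ≤ M) (hm : 0 < m) (hmS : m ≤ S.card) :
    (((S.powersetCard m).filter (fun A =>
      δ * ((∑ a ∈ S, x a) / S.card + L) ≤ |(∑ a ∈ A, x a) / m - (∑ a ∈ S, x a) / S.card|)).card : ℝ) ≤
      M / m / (4 * δ ^ 2 * L) * (S.card.choose m : ℝ) := by
  have hn : (0 : ℝ) < S.card := by exact_mod_cast (by omega : 0 < S.card)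
  have hmr : (0 : ℝ) < m := by exact_mod_cast hm
  have hG : 0 ≤ ∑ a ∈ S, x a := sum_nonneg fun a ha => (hx a ha).1
  obtain ⟨G, hGd⟩ : ∃ G : ℝ, G = ∑ a ∈ S, x a := ⟨_, rfl⟩
  rw [← hGd] at hG ⊢
  have ht : 0 < S.card * (δ * (G / S.card + L)) := by positivity
  have h1 := samples S x m hx hm hmS ht
  rw [← hGd] at h1
  have e1 : (S.powersetCard m).filter (fun A =>
      δ * (G / S.card + L) ≤ |(∑ a ∈ A, x a) / m - G / S.card|) =
      (S.powersetCard m).filter (fun A =>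
      S.card * (δ * (G / S.card + L)) ≤ |(S.card : ℝ) / m * ∑ a ∈ A, x a - G|) := by
    ext A
    rw [mem_filter, mem_filter]
    refine and_congr_right fun _ => ?_
    have e2 : (S.card : ℝ) / m * ∑ a ∈ A, x a - G = S.card * ((∑ a ∈ A, x a) / m - G / S.card) := by
      field_simp
    rw [e2, abs_mul, abs_of_pos hn]
    exact ⟨fun h => mul_le_mul_of_nonneg_left h hn.le, fun h => le_of_mul_le_mul_left h hn⟩
  rw [e1]
  refine h1.trans (mul_le_mul_of_nonneg_right ?_ (Nat.cast_nonneg _))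
  have hM : 0 ≤ M := by
    obtain ⟨a, ha⟩ : S.Nonempty := card_pos.1 (by omega)
    exact (hx a ha).1.trans (hx a ha).2
  have h2 : (S.card : ℝ) / m * M * G / (S.card * (δ * (G / S.card + L))) ^ 2 =
      M / m * ((G / S.card) / (δ * (G / S.card + L)) ^ 2) := by
    field_simp
  rw [h2, div_eq_mul_one_div (M / m) (4 * δ ^ 2 * L)]
  refine mul_le_mul_of_nonneg_left ?_ (by positivity)
  obtain ⟨g, hg⟩ : ∃ g : ℝ, g = G / S.card := ⟨_, rfl⟩
  have hg0 : 0 ≤ g := by rw [hg]; positivity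
  rw [← hg, div_le_div_iff₀ (by positivity) (by positivity)]
  have := mul_nonneg (sq_nonneg δ) (sq_nonneg (g - L))
  nlinarith

/-- **Samples decide the mean value.** -/
theorem samples_decide {l : Filter ι} (S : ι → Finset κ) (x : ι → κ → ℝ) (M a : ι → ℝ) {L c : ℝ}
    (hL : 0 < L) (hc : 0 < c) (hc1 : c < 1)
    (hx : ∀ᶠ i in l, ∀ s ∈ S i, 0 ≤ x i s ∧ x i s ≤ M i) (ha : ∀ᶠ i in l, 0 < a i ∧ a i ≤ (S i).card)
    (hMa : Tendsto (fun i => M i / a i) l (𝓝 0)) :
    (Tendsto (fun i => (∑ s ∈ S i, x i s) / (S i).card) l (𝓝 L) ↔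
      (∀ δ : ℝ, 0 < δ → ∀ᶠ i in l, ∃ m : ℕ, a i ≤ m ∧ m ≤ (S i).card ∧
        c * ((S i).card.choose m : ℝ) ≤ (goodS (S i) (x i) L δ m).card)) ∧
    (Tendsto (fun i => (∑ s ∈ S i, x i s) / (S i).card) l (𝓝 L) ↔
      (∀ δ : ℝ, 0 < δ → ∀ᶠ i in l, ∀ m : ℕ, a i ≤ m → m ≤ (S i).card →
        ((badS (S i) (x i) L δ m).card : ℝ) ≤ δ * ((S i).card.choose m : ℝ))) := by
  classical
  have hbig : ∀ η : ℝ, 0 < η → ∀ δ : ℝ, 0 < δ → ∀ᶠ i in l, ∀ m : ℕ, a i ≤ m →
      M i / m / (4 * δ ^ 2 * L) < η := by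
    intro η hη δ hδ
    have h1 := hMa.eventually (gt_mem_nhds (show (0 : ℝ) < η * (4 * δ ^ 2 * L) by positivity))
    filter_upwards [h1, ha, hx] with i h1 h2 h3 m hm
    have hmr : (0 : ℝ) < m := h2.1.trans_le hm
    rw [div_lt_iff₀ (by positivity)]
    have hM : 0 ≤ M i := by
      have h4 : 0 < (S i).card := by
        have : (0 : ℝ) < (S i).card := h2.1.trans_le h2.2
        exact_mod_cast this
      obtain ⟨s, hs⟩ := card_pos.1 h4
      exact (h3 s hs).1.trans (h3 s hs).2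
    refine lt_of_le_of_lt ?_ h1
    exact div_le_div_of_nonneg_left hM h2.1 hm
  -- (1) implies (3)
  have h13 : Tendsto (fun i => (∑ s ∈ S i, x i s) / (S i).card) l (𝓝 L) →
      (∀ δ : ℝ, 0 < δ → ∀ᶠ i in l, ∀ m : ℕ, a i ≤ m → m ≤ (S i).card →
        ((badS (S i) (x i) L δ m).card : ℝ) ≤ δ * ((S i).card.choose m : ℝ)) := by
    intro h1 δ hδ
    obtain ⟨δ1, hδ1⟩ : ∃ δ1 : ℝ, δ1 = min (δ / (4 * (L + 1))) (min (δ / 4) 1) := ⟨_, rfl⟩
    have hδ0 : 0 < δ1 := by
      rw [hδ1]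
      have : 0 < δ / (4 * (L + 1)) := by positivity
      exact lt_min this (lt_min (by linarith) one_pos)
    have hδa : δ1 * (L + 1) ≤ δ / 4 := by
      have : δ1 ≤ δ / (4 * (L + 1)) := by rw [hδ1]; exact min_le_left _ _
      rw [le_div_iff₀ (by positivity)] at this
      linarith
    have hδb : δ1 ≤ δ / 4 := by
      rw [hδ1]
      exact (min_le_right _ _).trans (min_le_left _ _)
    have hδc : δ1 ≤ 1 := by
      rw [hδ1]
      exact (min_le_right _ _).trans (min_le_right _ _)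
    have h2 := h1.eventually (Metric.closedBall_mem_nhds L hδ0)
    filter_upwards [h2, ha, hx, hbig δ hδ δ1 hδ0] with i h2 h3 h4 h5 m hm hmS
    rw [Real.dist_eq] at h2
    have hmr : (0 : ℝ) < m := h3.1.trans_le hm
    have hm0 : 0 < m := by exact_mod_cast hmr
    have hcore := sample_core (S i) (x i) hL hδ0 h4 hm0 hmS
    obtain ⟨g, hg⟩ : ∃ g : ℝ, g = (∑ s ∈ S i, x i s) / (S i).card := ⟨_, rfl⟩
    rw [← hg] at h2 hcore
    have hsub : badS (S i) (x i) L δ m ⊆ ((S i).powersetCard m).filter (fun A =>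
        δ1 * (g + L) ≤ |(∑ s ∈ A, x i s) / m - g|) := by
      intro A hA
      unfold badS at hA
      rw [mem_filter] at hA ⊢
      refine ⟨hA.1, ?_⟩
      have h6 := not_le.1 hA.2
      have h7 : |(∑ s ∈ A, x i s) / m - L| ≤ |(∑ s ∈ A, x i s) / m - g| + |g - L| := abs_sub_le _ _ _
      have h8 : g ≤ L + δ1 := by
        have := (abs_le.1 h2).2
        linarith
      have h9 : δ1 * (g + L) ≤ δ1 * (2 * (L + 1)) := mul_le_mul_of_nonneg_left (by linarith) hδ0.le
      linarith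
    have h6 : ((badS (S i) (x i) L δ m).card : ℝ) ≤ ((((S i).powersetCard m).filter (fun A =>
        δ1 * (g + L) ≤ |(∑ s ∈ A, x i s) / m - g|)).card : ℝ) := by
      exact_mod_cast card_le_card hsub
    refine h6.trans (hcore.trans ?_)
    exact mul_le_mul_of_nonneg_right (h5 m hm).le (Nat.cast_nonneg _)
  -- (3) implies (2)
  have h32 : (∀ δ : ℝ, 0 < δ → ∀ᶠ i in l, ∀ m : ℕ, a i ≤ m → m ≤ (S i).card →
        ((badS (S i) (x i) L δ m).card : ℝ) ≤ δ * ((S i).card.choose m : ℝ)) →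
      (∀ δ : ℝ, 0 < δ → ∀ᶠ i in l, ∃ m : ℕ, a i ≤ m ∧ m ≤ (S i).card ∧
        c * ((S i).card.choose m : ℝ) ≤ (goodS (S i) (x i) L δ m).card) := by
    intro h3 δ hδ
    filter_upwards [h3 (min δ (1 - c)) (lt_min hδ (by linarith)), ha] with i h4 h5
    refine ⟨(S i).card, h5.2, le_refl _, ?_⟩
    have h6 := h4 (S i).card h5.2 (le_refl _)
    have h7 : ((goodS (S i) (x i) L (min δ (1 - c)) (S i).card).card : ℝ) +
        (badS (S i) (x i) L (min δ (1 - c)) (S i).card).card = ((S i).card.choose (S i).card : ℝ) := by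
      exact_mod_cast goodS_add_badS (S i) (x i) L (min δ (1 - c)) (S i).card
    have h8 : min δ (1 - c) * ((S i).card.choose (S i).card : ℝ) ≤
        (1 - c) * ((S i).card.choose (S i).card : ℝ) :=
      mul_le_mul_of_nonneg_right (min_le_right _ _) (Nat.cast_nonneg _)
    have hsub : goodS (S i) (x i) L (min δ (1 - c)) (S i).card ⊆ goodS (S i) (x i) L δ (S i).card := by
      intro A hA
      unfold goodS at hA ⊢
      rw [mem_filter] at hA ⊢
      exact ⟨hA.1, hA.2.trans (min_le_left _ _)⟩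
    have h9 : ((goodS (S i) (x i) L (min δ (1 - c)) (S i).card).card : ℝ) ≤
        (goodS (S i) (x i) L δ (S i).card).card := by
      exact_mod_cast card_le_card hsub
    linarith
  -- (2) implies (1)
  have h21 : (∀ δ : ℝ, 0 < δ → ∀ᶠ i in l, ∃ m : ℕ, a i ≤ m ∧ m ≤ (S i).card ∧
        c * ((S i).card.choose m : ℝ) ≤ (goodS (S i) (x i) L δ m).card) →
      Tendsto (fun i => (∑ s ∈ S i, x i s) / (S i).card) l (𝓝 L) := by
    intro h2
    rw [Metric.tendsto_nhds]
    intro δ hδ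
    obtain ⟨δ1, hδ1⟩ : ∃ δ1 : ℝ, δ1 = min (δ / (8 * (L + 1))) (1 / 2) := ⟨_, rfl⟩
    have hδ0 : 0 < δ1 := by
      rw [hδ1]
      have : 0 < δ / (8 * (L + 1)) := by positivity
      exact lt_min this (by norm_num)
    have hδa : 8 * δ1 * (L + 1) ≤ δ := by
      have : δ1 ≤ δ / (8 * (L + 1)) := by rw [hδ1]; exact min_le_left _ _
      rw [le_div_iff₀ (by positivity)] at this
      linarith
    have hδc : δ1 ≤ 1 / 2 := by
      rw [hδ1]
      exact min_le_right _ _
    filter_upwards [h2 δ1 hδ0, ha, hx, hbig c hc δ1 hδ0] with i h2 h3 h4 h5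
    obtain ⟨m, hm, hmS, hgood⟩ := h2
    have hmr : (0 : ℝ) < m := h3.1.trans_le hm
    have hm0 : 0 < m := by exact_mod_cast hmr
    have hcore := sample_core (S i) (x i) hL hδ0 h4 hm0 hmS
    have hg0 : 0 ≤ (∑ s ∈ S i, x i s) / (S i).card :=
      div_nonneg (sum_nonneg fun s hs => (h4 s hs).1) (Nat.cast_nonneg _)
    obtain ⟨g, hg⟩ : ∃ g : ℝ, g = (∑ s ∈ S i, x i s) / (S i).card := ⟨_, rfl⟩
    rw [← hg] at hcore hg0 ⊢
    have hch : (0 : ℝ) < ((S i).card.choose m : ℝ) := by exact_mod_cast Nat.choose_pos hmS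
    have h6 : ((((S i).powersetCard m).filter (fun A =>
        δ1 * (g + L) ≤ |(∑ s ∈ A, x i s) / m - g|)).card : ℝ) <
          ((goodS (S i) (x i) L δ1 m).card : ℝ) := by
      refine lt_of_le_of_lt hcore (lt_of_lt_of_le ?_ hgood)
      exact mul_lt_mul_of_pos_right (h5 m hm) hch
    have h7 : (((S i).powersetCard m).filter (fun A =>
        δ1 * (g + L) ≤ |(∑ s ∈ A, x i s) / m - g|)).card < (goodS (S i) (x i) L δ1 m).card := by
      exact_mod_cast h6
    obtain ⟨A, hA1, hA2⟩ := exists_mem_notMem_of_card_lt_card h7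
    unfold goodS at hA1
    rw [mem_filter] at hA1 hA2
    have hA3 : |(∑ s ∈ A, x i s) / m - g| < δ1 * (g + L) := by
      by_contra hcon
      exact hA2 ⟨hA1.1, not_lt.1 hcon⟩
    obtain ⟨D, hD⟩ : ∃ D : ℝ, D = |g - L| := ⟨_, rfl⟩
    have h8 : D ≤ |g - (∑ s ∈ A, x i s) / m| + |(∑ s ∈ A, x i s) / m - L| := by
      rw [hD]
      exact abs_sub_le _ _ _
    rw [abs_sub_comm g] at h8
    have h9 : g ≤ L + D := by
      have := le_abs_self (g - L)
      rw [hD]
      linarith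
    have hD0 : 0 ≤ D := by
      rw [hD]
      exact abs_nonneg _
    have h10 : δ1 * (g + L) ≤ δ1 * (2 * L + D) := mul_le_mul_of_nonneg_left (by linarith) hδ0.le
    have h11 : δ1 * D ≤ 1 / 2 * D := mul_le_mul_of_nonneg_right hδc hD0
    rw [Real.dist_eq, ← hD]
    have h12 : D < δ1 + δ1 * (2 * L) + 1 / 2 * D := by nlinarith [hA1.2]
    nlinarith
  exact ⟨⟨fun h => h32 (h13 h), h21⟩, ⟨h13, fun h => h21 (h32 h)⟩⟩

end

end Q197.PS
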