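import Pool.Agent.Q197.PS.GC

/-! # Suprema over families in short intervals, along random unions of residue classes -/

set_option autoImplicit false
set_option linter.unusedSectionVars false
set_option linter.unusedVariables false

open Finset Filter Topology

namespace Q197.PS

section

variable {G : Type} [Nonempty G]

/-- the sum over the `h ≤ H` with `(n + h) mod P ∈ A` -/
noncomputable def inn (w : G → ℕ → ℂ) (P : ℕ) (A : Finset ℕ) (n H : ℕ) (g : G) : ℂ :=
  ∑ h ∈ (Icc 1 H).filter (fun h => (n + h) % P ∈ A), w g (n + h)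

/-- the logarithmic sum of the suprema -/
noncomputable def tot (w : G → ℕ → ℂ) (P : ℕ) (A : Finset ℕ) (N H : ℕ) : ℝ :=
  ∑ n ∈ Icc 1 N, (1 / (n : ℝ)) * ⨆ g : G, ‖inn w P A n H g‖

/-- `o(H log N)`, uniformly in `N ≥ H` -/
def GoodS (w : G → ℕ → ℂ) (P : ℕ) (A : Finset ℕ) : Prop :=
  ∀ ε : ℝ, 0 < ε → ∃ H₀ : ℕ, ∀ N H : ℕ, H₀ ≤ H → H ≤ N → tot w P A N H ≤ ε * (H : ℝ) * Real.log (N : ℝ)

open Classical in
/-- the number of the good sets -/
noncomputable def nSup (w : G → ℕ → ℂ) (P : ℕ) : ℕ := ((range P).powerset.filter (fun A => GoodS w P A)).card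

lemma card_shift {P : ℕ} (hP : 0 < P) (n H j : ℕ) :
    ((Icc 1 H).filter (fun h => (n + h) % P = j)).card ≤ H / P + 1 := by
  classical
  rcases ((Icc 1 H).filter (fun h => (n + h) % P = j)).eq_empty_or_nonempty with h0 | ⟨h0, hh0⟩
  · rw [h0, card_empty]
    exact Nat.zero_le _
  · refine le_trans (card_le_card fun h hh => ?_) (card_class_le hP H (h0 % P))
    rw [mem_filter] at hh hh0 ⊢
    refine ⟨hh.1, ?_⟩
    have h1 : n + h ≡ n + h0 [MOD P] := hh.2.trans hh0.2.symm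
    exact Nat.ModEq.add_left_cancel' n h1

lemma inn_le {w : G → ℕ → ℂ} (hw : ∀ g m, ‖w g m‖ ≤ 1) (P : ℕ) (A : Finset ℕ) (n H : ℕ) (g : G) :
    ‖inn w P A n H g‖ ≤ H := by
  unfold inn
  refine (norm_sum_le _ _).trans ?_
  calc ∑ h ∈ (Icc 1 H).filter (fun h => (n + h) % P ∈ A), ‖w g (n + h)‖
      ≤ ∑ h ∈ (Icc 1 H).filter (fun h => (n + h) % P ∈ A), (1 : ℝ) := sum_le_sum fun h _ => hw g _
    _ = (((Icc 1 H).filter (fun h => (n + h) % P ∈ A)).card : ℝ) := by simp
    _ ≤ H := by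
      have h1 := card_filter_le (Icc 1 H) (fun h => (n + h) % P ∈ A)
      rw [Nat.card_Icc, Nat.add_sub_cancel] at h1
      exact_mod_cast h1

lemma inn_bdd {w : G → ℕ → ℂ} (hw : ∀ g m, ‖w g m‖ ≤ 1) (P : ℕ) (A : Finset ℕ) (n H : ℕ) :
    BddAbove (Set.range fun g : G => ‖inn w P A n H g‖) :=
  ⟨H, by rintro _ ⟨g, rfl⟩; exact inn_le hw P A n H g⟩

lemma near_sup {w : G → ℕ → ℂ} (hw : ∀ g m, ‖w g m‖ ≤ 1) (P : ℕ) (A : Finset ℕ) (n H : ℕ) :
    ∃ g : G, (⨆ g : G, ‖inn w P A n H g‖) / 2 ≤ ‖inn w P A n H g‖ := by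
  have h0 : 0 ≤ ⨆ g : G, ‖inn w P A n H g‖ := Real.iSup_nonneg fun g => norm_nonneg _
  rcases h0.eq_or_lt with h1 | h1
  · obtain ⟨g⟩ := ‹Nonempty G›
    refine ⟨g, ?_⟩
    rw [← h1, zero_div]
    exact norm_nonneg _
  · obtain ⟨g, hg⟩ := exists_lt_of_lt_ciSup (show (⨆ g : G, ‖inn w P A n H g‖) / 2 < ⨆ g : G, ‖inn w P A n H g‖ by
      linarith)
    exact ⟨g, hg.le⟩

/-- a unimodular factor -/
lemma phase (z : ℂ) : ∃ θ : ℂ, ‖θ‖ ≤ 1 ∧ θ * z = (‖z‖ : ℂ) := by
  by_cases h : z = 0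
  · exact ⟨0, by simp, by simp [h]⟩
  · refine ⟨(‖z‖ : ℂ) / z, ?_, ?_⟩
    · rw [norm_div, Complex.norm_real, norm_norm, div_self (norm_ne_zero_iff.2 h)]
    · rw [div_mul_cancel₀ _ h]

/-- **Few unions** -/
theorem few_sup {w : G → ℕ → ℂ} (hw : ∀ g m, ‖w g m‖ ≤ 1) {c : ℝ} (hc : 0 < c) (q : ℕ) (B : Finset ℕ)
    (hfr : ∀ H₀ : ℕ, ∃ N H : ℕ, H₀ ≤ H ∧ H ≤ N ∧ c * (H : ℝ) * Real.log (N : ℝ) ≤ tot w q B N H)
    {P : ℕ} (hP : 0 < P) (hd : q ∣ P) : (nSup w P : ℝ) ≤ 432 * (1 + 1 / c) * 2 ^ P / √P := by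
  classical
  have hPr : (0 : ℝ) < P := by exact_mod_cast hP
  obtain ⟨gg, hgg⟩ : ∃ gg : ℕ → ℕ → G, ∀ n H, (⨆ g : G, ‖inn w q B n H g‖) / 2 ≤ ‖inn w q B n H (gg n H)‖ :=
    ⟨fun n H => (near_sup hw q B n H).choose, fun n H => (near_sup hw q B n H).choose_spec⟩
  obtain ⟨θ, hθ1, hθ2⟩ : ∃ θ : ℕ → ℕ → ℂ, (∀ n H, ‖θ n H‖ ≤ 1) ∧
      ∀ n H, θ n H * inn w q B n H (gg n H) = (‖inn w q B n H (gg n H)‖ : ℂ) :=
    ⟨fun n H => (phase (inn w q B n H (gg n H))).choose, fun n H => (phase _).choose_spec.1,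
      fun n H => (phase _).choose_spec.2⟩
  obtain ⟨t, ht⟩ : ∃ t : {p : ℕ × ℕ // p.2 ≤ p.1} → ℕ × ℕ → ℂ, t = fun i x =>
      θ x.1 i.1.2 * w (gg x.1 i.1.2) (x.1 + x.2) / ((x.1 : ℂ) * (i.1.2 : ℂ) * (Real.log i.1.1 : ℂ)) := ⟨_, rfl⟩
  have hlog : Tendsto (fun N : ℕ => Real.log N) atTop atTop :=
    Real.tendsto_log_atTop.comp tendsto_natCast_atTop_atTop
  obtain ⟨N1, hN1⟩ := eventually_atTop.1 (hlog.eventually_ge_atTop 1)
  have hev : ∀ᶠ i : {p : ℕ × ℕ // p.2 ≤ p.1} in comap (fun i => i.1.2) atTop,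
      P ≤ i.1.2 ∧ 1 ≤ Real.log (i.1.1 : ℝ) := by
    rw [eventually_comap]
    filter_upwards [eventually_ge_atTop (max P N1)] with H hH i hi
    refine ⟨by rw [hi]; exact (le_max_left _ _).trans hH, hN1 _ ?_⟩
    have := i.2
    rw [hi] at this
    exact (le_max_right _ _).trans (hH.trans this)
  -- the sum over a set of colours
  have hsum : ∀ (A : Finset ℕ) (i : {p : ℕ × ℕ // p.2 ≤ p.1}),
      sG (fun i : {p : ℕ × ℕ // p.2 ≤ p.1} => (Icc 1 i.1.1) ×ˢ (Icc 1 i.1.2)) t (fun x => (x.1 + x.2) % P) A i =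
        ∑ n ∈ Icc 1 i.1.1, θ n i.1.2 * inn w P A n i.1.2 (gg n i.1.2) /
          ((n : ℂ) * (i.1.2 : ℂ) * (Real.log i.1.1 : ℂ)) := by
    intro A i
    unfold sG
    rw [sum_filter, sum_product]
    refine sum_congr rfl fun n _ => ?_
    unfold inn
    rw [mul_sum, sum_div, sum_filter]
    refine sum_congr rfl fun h _ => ?_
    rw [ht]
    by_cases h1 : (n + h) % P ∈ A
    · simp only [if_pos h1]
    · simp only [if_neg h1]
  have h1 := few_gen (l := comap (fun i : {p : ℕ × ℕ // p.2 ≤ p.1} => i.1.2) atTop) (range P)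
    (nonempty_range_iff.2 hP.ne')
    (fun i : {p : ℕ × ℕ // p.2 ≤ p.1} => (Icc 1 i.1.1) ×ˢ (Icc 1 i.1.2)) t (fun x => (x.1 + x.2) % P)
    (B := 4) (c := c / 2) (by norm_num) (by positivity) ?_
    (K' := (range P).filter (fun j => j % q ∈ B)) (filter_subset _ _) ?_
  · rw [card_range] at h1
    have h2 : (nSup w P : ℝ) ≤ (nG (comap (fun i : {p : ℕ × ℕ // p.2 ≤ p.1} => i.1.2) atTop)
        (fun i : {p : ℕ × ℕ // p.2 ≤ p.1} => (Icc 1 i.1.1) ×ˢ (Icc 1 i.1.2)) t
        (fun x => (x.1 + x.2) % P) (range P) : ℝ) := by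
      unfold nSup nG
      have h3 : (range P).powerset.filter (fun A => GoodS w P A) ⊆ (range P).powerset.filter (fun A =>
          Tendsto (sG (fun i : {p : ℕ × ℕ // p.2 ≤ p.1} => (Icc 1 i.1.1) ×ˢ (Icc 1 i.1.2)) t
            (fun x => (x.1 + x.2) % P) A) (comap (fun i : {p : ℕ × ℕ // p.2 ≤ p.1} => i.1.2) atTop) (𝓝 0)) := by
        intro A hA
        rw [mem_filter] at hA ⊢
        refine ⟨hA.1, ?_⟩
        rw [tendsto_zero_iff_norm_tendsto_zero, Metric.tendsto_nhds]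
        intro ε hε
        obtain ⟨H₀, hH₀⟩ := hA.2 (ε / 2) (by positivity)
        have h4 : ∀ᶠ i : {p : ℕ × ℕ // p.2 ≤ p.1} in comap (fun i => i.1.2) atTop, H₀ ≤ i.1.2 :=
          tendsto_comap.eventually_ge_atTop H₀
        filter_upwards [h4, hev] with i hi hi2
        have hHr : (0 : ℝ) < i.1.2 := by
          have : 0 < i.1.2 := lt_of_lt_of_le hP hi2.1
          exact_mod_cast this
        have hLr : 0 < Real.log (i.1.1 : ℝ) := by linarith [hi2.2]
        rw [Real.dist_eq, sub_zero, abs_norm, hsum]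
        have h5 : ‖∑ n ∈ Icc 1 i.1.1, θ n i.1.2 * inn w P A n i.1.2 (gg n i.1.2) /
            ((n : ℂ) * (i.1.2 : ℂ) * (Real.log i.1.1 : ℂ))‖ ≤ tot w P A i.1.1 i.1.2 / (i.1.2 * Real.log i.1.1) := by
          refine (norm_sum_le _ _).trans ?_
          unfold tot
          rw [sum_div]
          refine sum_le_sum fun n hn => ?_
          have hn0 : (0 : ℝ) < n := by
            have := (mem_Icc.1 hn).1
            have : 0 < n := by omega
            exact_mod_cast this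
          rw [norm_div, norm_mul, norm_mul, norm_mul, Complex.norm_natCast, Complex.norm_natCast,
            Complex.norm_real, Real.norm_of_nonneg hLr.le]
          have h6 : ‖inn w P A n i.1.2 (gg n i.1.2)‖ ≤ ⨆ g : G, ‖inn w P A n i.1.2 g‖ :=
            le_ciSup (inn_bdd hw P A n i.1.2) (gg n i.1.2)
          calc ‖θ n i.1.2‖ * ‖inn w P A n i.1.2 (gg n i.1.2)‖ / (n * i.1.2 * Real.log i.1.1)
              ≤ 1 * (⨆ g : G, ‖inn w P A n i.1.2 g‖) / (n * i.1.2 * Real.log i.1.1) := by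
                have := hθ1 n i.1.2
                gcongr
            _ = 1 / n * (⨆ g : G, ‖inn w P A n i.1.2 g‖) / (i.1.2 * Real.log i.1.1) := by
                field_simp
        refine lt_of_le_of_lt h5 ?_
        rw [div_lt_iff₀ (by positivity)]
        have h7 := hH₀ i.1.1 i.1.2 hi i.2
        have h8 : 0 < ε / 2 * (i.1.2 : ℝ) * Real.log (i.1.1 : ℝ) := by positivity
        calc tot w P A i.1.1 i.1.2 ≤ ε / 2 * (i.1.2 : ℝ) * Real.log (i.1.1 : ℝ) := h7
          _ < ε * (i.1.2 * Real.log i.1.1) := by linarith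
      exact_mod_cast card_le_card h3
    refine h2.trans (h1.trans ?_)
    have h3 : 54 * 4 * (1 + 1 / (c / 2)) ≤ 432 * (1 + 1 / c) := by
      have : 1 / (c / 2) = 2 * (1 / c) := by field_simp
      rw [this]
      linarith
    gcongr
  · filter_upwards [hev] with i hi j _
    have hHr : (P : ℝ) ≤ i.1.2 := by exact_mod_cast hi.1
    have hH0 : (0 : ℝ) < i.1.2 := by linarith
    have hLr : 0 < Real.log (i.1.1 : ℝ) := by linarith [hi.2]
    rw [card_range, sum_filter, sum_product]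
    have h4 : ∀ n ∈ Icc 1 i.1.1, ∑ h ∈ Icc 1 i.1.2, (if (n + h) % P = j then ‖t i (n, h)‖ else 0) ≤
        (1 / (n : ℝ)) * ((2 / P) / Real.log i.1.1) := by
      intro n hn
      have hn0 : (0 : ℝ) < n := by
        have := (mem_Icc.1 hn).1
        have : 0 < n := by omega
        exact_mod_cast this
      rw [← sum_filter]
      calc ∑ h ∈ (Icc 1 i.1.2).filter (fun h => (n + h) % P = j), ‖t i (n, h)‖
          ≤ ∑ h ∈ (Icc 1 i.1.2).filter (fun h => (n + h) % P = j), 1 / (n * i.1.2 * Real.log i.1.1) := by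
            refine sum_le_sum fun h _ => ?_
            rw [ht]
            simp only
            rw [norm_div, norm_mul, norm_mul, norm_mul, Complex.norm_natCast, Complex.norm_natCast,
              Complex.norm_real, Real.norm_of_nonneg hLr.le]
            apply div_le_div_of_nonneg_right _ (by positivity)
            exact mul_le_one₀ (hθ1 _ _) (norm_nonneg _) (hw _ _)
        _ = (((Icc 1 i.1.2).filter (fun h => (n + h) % P = j)).card : ℝ) * (1 / (n * i.1.2 * Real.log i.1.1)) := by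
            rw [sum_const, nsmul_eq_mul]
        _ ≤ (i.1.2 / P + 1) * (1 / (n * i.1.2 * Real.log i.1.1)) := by
            apply mul_le_mul_of_nonneg_right _ (by positivity)
            have h5 := card_shift hP n i.1.2 j
            have h6 : (((i.1.2 / P : ℕ) : ℝ)) ≤ (i.1.2 : ℝ) / P := Nat.cast_div_le
            have h7 : (((Icc 1 i.1.2).filter (fun h => (n + h) % P = j)).card : ℝ) ≤ ((i.1.2 / P : ℕ) : ℝ) + 1 := by
              exact_mod_cast h5
            linarith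
        _ ≤ (i.1.2 / P + i.1.2 / P) * (1 / (n * i.1.2 * Real.log i.1.1)) := by
            have h8 : (1 : ℝ) ≤ i.1.2 / P := by
              rw [le_div_iff₀ hPr]
              linarith
            gcongr
        _ = (1 / (n : ℝ)) * ((2 / P) / Real.log i.1.1) := by
            field_simp
            ring
    refine le_trans (le_of_eq (sum_congr rfl fun n _ => sum_congr rfl fun h _ => ?_)) ((sum_le_sum h4).trans ?_)
    · by_cases hh : (n + h) % P = j
      · rw [if_pos hh, if_pos hh]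
      · rw [if_neg hh, if_neg hh]
    rw [← sum_mul]
    have h5 : ∑ n ∈ Icc 1 i.1.1, (1 : ℝ) / n ≤ 1 + Real.log i.1.1 := by
      have h6 := harmonic_le_one_add_log i.1.1
      rw [harmonic_eq_sum_Icc] at h6
      push_cast at h6
      simp only [one_div]
      exact h6
    calc (∑ n ∈ Icc 1 i.1.1, (1 : ℝ) / n) * ((2 / P) / Real.log i.1.1)
        ≤ (Real.log i.1.1 + Real.log i.1.1) * ((2 / P) / Real.log i.1.1) := by
          apply mul_le_mul_of_nonneg_right _ (by positivity)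
          linarith [hi.2]
      _ = 4 / P := by
          field_simp
          ring
  · have h2 : ∃ᶠ i : {p : ℕ × ℕ // p.2 ≤ p.1} in comap (fun i => i.1.2) atTop,
        c * (i.1.2 : ℝ) * Real.log (i.1.1 : ℝ) ≤ tot w q B i.1.1 i.1.2 := by
      intro hcon
      rw [eventually_comap, eventually_atTop] at hcon
      obtain ⟨H₀, h3⟩ := hcon
      obtain ⟨N, H, hH, hHN, h4⟩ := hfr H₀
      exact h3 H hH ⟨(N, H), hHN⟩ rfl h4
    refine (h2.and_eventually hev).mono fun i hi => ?_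
    obtain ⟨hi1, hi2, hi3⟩ := hi
    have hHr : (P : ℝ) ≤ i.1.2 := by exact_mod_cast hi2
    have hH0 : (0 : ℝ) < i.1.2 := by linarith
    have hLr : 0 < Real.log (i.1.1 : ℝ) := by linarith
    have hlift : ∀ n g, inn w P ((range P).filter (fun j => j % q ∈ B)) n i.1.2 g = inn w q B n i.1.2 g := by
      intro n g
      unfold inn
      congr 1
      ext h
      simp only [mem_filter, mem_range, Nat.mod_mod_of_dvd _ hd]
      exact ⟨fun h => ⟨h.1, h.2.2⟩, fun h => ⟨h.1, Nat.mod_lt _ hP, h.2⟩⟩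
    rw [hsum]
    simp only [hlift, hθ2]
    have h5 : ∑ n ∈ Icc 1 i.1.1, ((‖inn w q B n i.1.2 (gg n i.1.2)‖ : ℝ) : ℂ) /
        ((n : ℂ) * (i.1.2 : ℂ) * (Real.log i.1.1 : ℂ)) =
        ((∑ n ∈ Icc 1 i.1.1, ‖inn w q B n i.1.2 (gg n i.1.2)‖ / (n * i.1.2 * Real.log i.1.1) : ℝ) : ℂ) := by
      push_cast
      rfl
    rw [h5, Complex.norm_real, Real.norm_of_nonneg (sum_nonneg fun n _ => by positivity)]
    have h6 : tot w q B i.1.1 i.1.2 / (i.1.2 * Real.log i.1.1) / 2 ≤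
        ∑ n ∈ Icc 1 i.1.1, ‖inn w q B n i.1.2 (gg n i.1.2)‖ / (n * i.1.2 * Real.log i.1.1) := by
      unfold tot
      rw [sum_div, sum_div]
      refine sum_le_sum fun n hn => ?_
      have hn0 : (0 : ℝ) < n := by
        have := (mem_Icc.1 hn).1
        have : 0 < n := by omega
        exact_mod_cast this
      have h7 := hgg n i.1.2
      calc 1 / (n : ℝ) * (⨆ g : G, ‖inn w q B n i.1.2 g‖) / (i.1.2 * Real.log i.1.1) / 2
          = ((⨆ g : G, ‖inn w q B n i.1.2 g‖) / 2) / (n * i.1.2 * Real.log i.1.1) := by field_simp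
        _ ≤ _ := by gcongr
    refine le_trans ?_ h6
    have h8 : c ≤ tot w q B i.1.1 i.1.2 / (i.1.2 * Real.log i.1.1) := by
      rw [le_div_iff₀ (by positivity)]
      linarith
    linarith

end

end Q197.PS
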