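import Pool.Agent.Q197.PS.GC

/-! # Convergence of two-sided averages along random unions of residue classes -/

set_option autoImplicit false
set_option linter.unusedSectionVars false
set_option linter.unusedVariables false

open Finset Filter Topology

namespace Q197.PS

open Classical in
/-- the two-sided average along the classes in `A` -/
noncomputable def avZ (u : ℤ → ℂ) (Q : ℕ) (A : Finset ℤ) (N : ℕ) : ℂ :=
  ((2 * N + 1 : ℕ) : ℂ)⁻¹ * ∑ n ∈ (Icc (-(N : ℤ)) (N : ℤ)).filter (fun n => n % (Q : ℤ) ∈ A), u n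

/-- convergence along `A` -/
def ConvZ (u : ℤ → ℂ) (Q : ℕ) (A : Finset ℤ) : Prop := ∃ L : ℂ, Tendsto (avZ u Q A) atTop (𝓝 L)

open Classical in
/-- the number of the unions with convergence -/
noncomputable def nCZ (u : ℤ → ℂ) (Q : ℕ) : ℕ := ((Ico 0 (Q : ℤ)).powerset.filter (fun A => ConvZ u Q A)).card

lemma card_sym {P : ℕ} (hP : 0 < P) {X : ℕ} (hX : P ≤ X) (j : ℤ) :
    (((Icc (-(X : ℤ)) X).filter (fun n => n % (P : ℤ) = j)).card : ℝ) ≤ 2 * (2 * X + 1) / P := by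
  have hPz : (0 : ℤ) < P := by exact_mod_cast hP
  have hPr : (0 : ℝ) < P := by exact_mod_cast hP
  have hXr : (P : ℝ) ≤ X := by exact_mod_cast hX
  have hfin : (2 * (X : ℝ) + 1) / P + 1 ≤ 2 * (2 * X + 1) / P := by
    rw [div_add_one hPr.ne', div_le_div_iff_of_pos_right hPr]
    linarith
  by_cases hj : 0 ≤ j ∧ j < P
  · refine le_trans ?_ hfin
    have h1 : (Icc (-(X : ℤ)) X).filter (fun n => n % (P : ℤ) = j) ⊆
        (Icc (⌈(((-(X : ℤ)) - j : ℤ) : ℝ) / P⌉) (⌊(((X : ℤ) - j : ℤ) : ℝ) / P⌋)).image (fun m : ℤ => j + P * m) := by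
      intro n hn
      rw [mem_filter, mem_Icc] at hn
      obtain ⟨⟨h1, h2⟩, h3⟩ := hn
      rw [mem_image]
      have h4 : j + P * (n / P) = n := by
        rw [← h3]
        exact Int.emod_add_mul_ediv n P
      refine ⟨n / P, ?_, h4⟩
      have h5 : (P : ℤ) * (n / P) = n - j := by linarith
      have h6 : (P : ℝ) * ((n / P : ℤ) : ℝ) = ((n - j : ℤ) : ℝ) := by
        rw [← h5]
        push_cast
        ring
      rw [mem_Icc]
      constructor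
      · rw [Int.ceil_le, div_le_iff₀ hPr, mul_comm, h6]
        exact_mod_cast (by linarith : -(X : ℤ) - j ≤ n - j)
      · rw [Int.le_floor, le_div_iff₀ hPr, mul_comm, h6]
        exact_mod_cast (by linarith : n - j ≤ (X : ℤ) - j)
    have h2 := (card_le_card h1).trans card_image_le
    rw [Int.card_Icc] at h2
    have h3 : (((⌊(((X : ℤ) - j : ℤ) : ℝ) / P⌋ + 1 - ⌈(((-(X : ℤ)) - j : ℤ) : ℝ) / P⌉).toNat : ℕ) : ℝ) ≤
        (2 * X + 1) / P + 1 := by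
      have h4 : ((⌊(((X : ℤ) - j : ℤ) : ℝ) / P⌋ : ℤ) : ℝ) ≤ ((X : ℤ) - j : ℤ) / (P : ℝ) := Int.floor_le _
      have h5 : (((-(X : ℤ)) - j : ℤ) : ℝ) / P ≤ (⌈(((-(X : ℤ)) - j : ℤ) : ℝ) / P⌉ : ℤ) := Int.le_ceil _
      have h6 : (0 : ℝ) ≤ (2 * X + 1) / P + 1 := by positivity
      rcases le_or_gt 0 (⌊(((X : ℤ) - j : ℤ) : ℝ) / P⌋ + 1 - ⌈(((-(X : ℤ)) - j : ℤ) : ℝ) / P⌉) with h7 | h7
      · have h8 : (((⌊(((X : ℤ) - j : ℤ) : ℝ) / P⌋ + 1 - ⌈(((-(X : ℤ)) - j : ℤ) : ℝ) / P⌉).toNat : ℕ) : ℝ) =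
            ((⌊(((X : ℤ) - j : ℤ) : ℝ) / P⌋ + 1 - ⌈(((-(X : ℤ)) - j : ℤ) : ℝ) / P⌉ : ℤ) : ℝ) := by
          have := Int.toNat_of_nonneg h7
          exact_mod_cast this
        rw [h8]
        push_cast at h4 h5 ⊢
        have h9 : ((X : ℝ) - j) / P - (-(X : ℝ) - j) / P = 2 * X / P := by
          field_simp
          ring
        have h10 : 2 * (X : ℝ) / P ≤ (2 * X + 1) / P := by gcongr; linarith
        linarith
      · rw [Int.toNat_eq_zero.2 h7.le]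
        exact_mod_cast h6
    exact le_trans (by exact_mod_cast h2) h3
  · have h1 : (Icc (-(X : ℤ)) X).filter (fun n => n % (P : ℤ) = j) = ∅ := by
      rw [filter_eq_empty_iff]
      intro n _ h2
      exact hj ⟨by rw [← h2]; exact Int.emod_nonneg _ hPz.ne', by rw [← h2]; exact Int.emod_lt_of_pos _ hPz⟩
    rw [h1, card_empty, Nat.cast_zero]
    positivity

lemma convZ_iff (a : ℕ → ℂ) : (∃ L : ℂ, Tendsto a atTop (𝓝 L)) ↔
    Tendsto (fun p : ℕ × ℕ => a p.1 - a p.2) atTop (𝓝 0) := by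
  constructor
  · rintro ⟨L, hL⟩
    have h1 := cauchySeq_iff_tendsto_dist_atTop_0.1 hL.cauchySeq
    rw [tendsto_zero_iff_norm_tendsto_zero]
    refine h1.congr fun p => ?_
    rw [dist_eq_norm]
  · intro h
    rw [tendsto_zero_iff_norm_tendsto_zero] at h
    have h1 : CauchySeq a := by
      rw [cauchySeq_iff_tendsto_dist_atTop_0]
      refine h.congr fun p => ?_
      rw [dist_eq_norm]
    exact cauchySeq_tendsto_of_complete h1

/-- the index sets -/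
noncomputable def EZ (p : ℕ × ℕ) : Finset (ℤ ⊕ ℤ) := (Icc (-(p.1 : ℤ)) p.1).disjSum (Icc (-(p.2 : ℤ)) p.2)

/-- the terms -/
noncomputable def tZ (u : ℤ → ℂ) (p : ℕ × ℕ) : ℤ ⊕ ℤ → ℂ :=
  Sum.elim (fun n => ((2 * p.1 + 1 : ℕ) : ℂ)⁻¹ * u n) (fun n => -(((2 * p.2 + 1 : ℕ) : ℂ)⁻¹ * u n))

/-- the colours -/
def cZ (Q : ℕ) : ℤ ⊕ ℤ → ℤ := Sum.elim (fun n => n % (Q : ℤ)) (fun n => n % (Q : ℤ))

lemma sG_Z (u : ℤ → ℂ) (Q : ℕ) (A : Finset ℤ) (p : ℕ × ℕ) :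
    sG EZ (tZ u) (cZ Q) A p = avZ u Q A p.1 - avZ u Q A p.2 := by
  classical
  unfold sG EZ tZ cZ avZ
  rw [sum_filter, sum_disjSum, sum_filter, sum_filter, mul_sum, mul_sum, sub_eq_add_neg, ← sum_neg_distrib]
  congr 1
  · refine sum_congr rfl fun n _ => ?_
    simp only [Sum.elim_inl]
    by_cases h : n % (Q : ℤ) ∈ A
    · simp only [if_pos h]
    · simp only [if_neg h, mul_zero]
  · refine sum_congr rfl fun n _ => ?_
    simp only [Sum.elim_inr]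
    by_cases h : n % (Q : ℤ) ∈ A
    · simp only [if_pos h]
    · simp only [if_neg h, mul_zero, neg_zero]

lemma avZ_coarse (u : ℤ → ℂ) {q Q : ℕ} (hQ : 0 < Q) (hd : q ∣ Q) (B : Finset ℤ) (N : ℕ) :
    avZ u q B N = avZ u Q ((Ico 0 (Q : ℤ)).filter (fun j => j % (q : ℤ) ∈ B)) N := by
  classical
  unfold avZ
  congr 1
  refine sum_congr ?_ fun _ _ => rfl
  ext n
  have hQz : (0 : ℤ) < Q := by exact_mod_cast hQ
  have h1 : n % (Q : ℤ) % (q : ℤ) = n % (q : ℤ) := Int.emod_emod_of_dvd _ (by exact_mod_cast hd)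
  simp only [mem_filter, h1, mem_Ico]
  refine and_congr_right fun _ => ?_
  exact ⟨fun h => ⟨⟨Int.emod_nonneg _ hQz.ne', Int.emod_lt_of_pos _ hQz⟩, h⟩, fun h => h.2⟩

/-- **Few unions with convergence**, two-sided averages -/
theorem few_convZ {u : ℤ → ℂ} (hu : ∀ n, ‖u n‖ ≤ 1) {c : ℝ} (hc : 0 < c) (q : ℕ) (B : Finset ℤ)
    (hfr : ∃ᶠ p : ℕ × ℕ in atTop, c ≤ ‖avZ u q B p.1 - avZ u q B p.2‖) {Q : ℕ} (hQ : 0 < Q) (hd : q ∣ Q) :
    (nCZ u Q : ℝ) ≤ 216 * (1 + 1 / c) * 2 ^ Q / √Q := by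
  classical
  have hQr : (0 : ℝ) < Q := by exact_mod_cast hQ
  have hcard : (Ico 0 (Q : ℤ)).card = Q := by rw [Int.card_Ico]; simp
  have hne : (Ico 0 (Q : ℤ)).Nonempty := by
    rw [← card_pos, hcard]
    exact hQ
  have h1 := few_gen (l := (atTop : Filter (ℕ × ℕ))) (Ico 0 (Q : ℤ)) hne EZ (tZ u) (cZ Q) (B := 4) (c := c)
    (by norm_num) hc ?_ (K' := (Ico 0 (Q : ℤ)).filter (fun j => j % (q : ℤ) ∈ B)) (filter_subset _ _) ?_
  · rw [hcard] at h1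
    have h2 : (nCZ u Q : ℝ) ≤ (nG (atTop : Filter (ℕ × ℕ)) EZ (tZ u) (cZ Q) (Ico 0 (Q : ℤ)) : ℝ) := by
      unfold nCZ nG
      have h3 : (Ico 0 (Q : ℤ)).powerset.filter (fun A => ConvZ u Q A) ⊆ (Ico 0 (Q : ℤ)).powerset.filter (fun A =>
          Tendsto (sG EZ (tZ u) (cZ Q) A) atTop (𝓝 0)) := by
        intro A hA
        rw [mem_filter] at hA ⊢
        refine ⟨hA.1, ?_⟩
        exact ((convZ_iff _).1 hA.2).congr fun p => (sG_Z u Q A p).symm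
      exact_mod_cast card_le_card h3
    refine h2.trans (h1.trans (le_of_eq ?_))
    ring
  · filter_upwards [eventually_ge_atTop ((Q, Q) : ℕ × ℕ)] with p hp j _
    rw [hcard]
    have key : ∀ N : ℕ, Q ≤ N → ∑ n ∈ Icc (-(N : ℤ)) N, (if n % (Q : ℤ) = j then
        ‖((2 * N + 1 : ℕ) : ℂ)⁻¹ * u n‖ else 0) ≤ 2 / Q := by
      intro N hN
      have hNr : (0 : ℝ) < 2 * N + 1 := by positivity
      rw [← sum_filter]
      calc ∑ n ∈ (Icc (-(N : ℤ)) N).filter (fun n => n % (Q : ℤ) = j), ‖((2 * N + 1 : ℕ) : ℂ)⁻¹ * u n‖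
          ≤ ∑ n ∈ (Icc (-(N : ℤ)) N).filter (fun n => n % (Q : ℤ) = j), (2 * (N : ℝ) + 1)⁻¹ := by
            refine sum_le_sum fun n _ => ?_
            rw [norm_mul, norm_inv, Complex.norm_natCast]
            push_cast
            calc (2 * (N : ℝ) + 1)⁻¹ * ‖u n‖ ≤ (2 * (N : ℝ) + 1)⁻¹ * 1 := by
                  gcongr
                  exact hu n
              _ = _ := mul_one _
        _ = (((Icc (-(N : ℤ)) N).filter (fun n => n % (Q : ℤ) = j)).card : ℝ) * (2 * (N : ℝ) + 1)⁻¹ := by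
            rw [sum_const, nsmul_eq_mul]
        _ ≤ (2 * (2 * N + 1) / Q) * (2 * (N : ℝ) + 1)⁻¹ := by
            gcongr
            exact card_sym hQ hN j
        _ = 2 / Q := by field_simp
    have h2 : ∑ x ∈ (EZ p).filter (fun x => cZ Q x = j), ‖tZ u p x‖ =
        (∑ n ∈ Icc (-(p.1 : ℤ)) p.1, (if n % (Q : ℤ) = j then ‖((2 * p.1 + 1 : ℕ) : ℂ)⁻¹ * u n‖ else 0)) +
        ∑ n ∈ Icc (-(p.2 : ℤ)) p.2, (if n % (Q : ℤ) = j then ‖((2 * p.2 + 1 : ℕ) : ℂ)⁻¹ * u n‖ else 0) := by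
      unfold EZ tZ cZ
      rw [sum_filter, sum_disjSum]
      congr 1
      refine sum_congr rfl fun n _ => ?_
      simp only [Sum.elim_inr, norm_neg]
    refine le_trans (le_of_eq (Eq.trans (sum_congr (s₂ := (EZ p).filter (fun x => cZ Q x = j))
      (by ext x; simp only [mem_filter]) fun _ _ => rfl) h2)) ?_
    have h3 := key p.1 hp.1
    have h4 := key p.2 hp.2
    calc _ ≤ 2 / (Q : ℝ) + 2 / Q := add_le_add h3 h4
      _ = 4 / Q := by ring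
  · refine hfr.mono fun p hp => ?_
    rw [sG_Z, ← avZ_coarse u hQ hd, ← avZ_coarse u hQ hd]
    exact hp

lemma avZ_smul (u : ℤ → ℂ) (s : ℂ) (Q : ℕ) (A : Finset ℤ) (N : ℕ) :
    avZ (fun n => s * u n) Q A N = s * avZ u Q A N := by
  unfold avZ
  rw [← mul_sum]
  ring

lemma convZ_smul {u : ℤ → ℂ} {s : ℂ} (hs : s ≠ 0) (Q : ℕ) (A : Finset ℤ) :
    ConvZ (fun n => s * u n) Q A ↔ ConvZ u Q A := by
  unfold ConvZ
  have h : avZ (fun n => s * u n) Q A = fun N => s * avZ u Q A N := funext fun N => avZ_smul u s Q A N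
  rw [h]
  constructor
  · rintro ⟨L, hL⟩
    refine ⟨s⁻¹ * L, (hL.const_mul s⁻¹).congr fun M => ?_⟩
    rw [← mul_assoc, inv_mul_cancel₀ hs, one_mul]
  · rintro ⟨L, hL⟩
    exact ⟨s * L, hL.const_mul s⟩

theorem few_convZ' {u : ℤ → ℂ} {K : ℝ} (hu : ∀ m, ‖u m‖ ≤ K) (q : ℕ) (B : Finset ℤ)
    (hcon : ¬ ConvZ u q B) : ∃ C : ℝ, 0 < C ∧ ∀ Q : ℕ, 0 < Q → q ∣ Q → (nCZ u Q : ℝ) ≤ C * 2 ^ Q / √Q := by
  classical
  obtain ⟨K', hK', hK'0⟩ : ∃ K' : ℝ, (∀ m, ‖u m‖ ≤ K') ∧ 0 < K' :=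
    ⟨max K 1, fun m => (hu m).trans (le_max_left _ _), lt_of_lt_of_le one_pos (le_max_right _ _)⟩
  have hs : (K' : ℂ)⁻¹ ≠ 0 := inv_ne_zero (by exact_mod_cast hK'0.ne')
  have hv : ∀ m, ‖(fun m => (K' : ℂ)⁻¹ * u m) m‖ ≤ 1 := by
    intro m
    simp only
    rw [norm_mul, norm_inv, Complex.norm_real, Real.norm_of_nonneg hK'0.le, inv_mul_le_iff₀ hK'0, mul_one]
    exact hK' m
  rw [← convZ_smul hs] at hcon
  have h1 : ¬ Tendsto (fun p : ℕ × ℕ => avZ (fun m => (K' : ℂ)⁻¹ * u m) q B p.1 -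
      avZ (fun m => (K' : ℂ)⁻¹ * u m) q B p.2) atTop (𝓝 0) := fun h' => hcon ((convZ_iff _).2 h')
  obtain ⟨c, hc, hfr⟩ := not_tendstoG h1
  refine ⟨216 * (1 + 1 / c), by positivity, fun Q hQ hd => ?_⟩
  have h3 := few_convZ hv hc q B hfr hQ hd
  have h4 : nCZ (fun m => (K' : ℂ)⁻¹ * u m) Q = nCZ u Q := by
    unfold nCZ
    simp only [convZ_smul hs]
  rwa [h4] at h3

end Q197.PS
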