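import Pool.Agent.Q197.PS.E
import Pool.Agent.Q197.PS.Y

/-! # Families of bounded functions in random unions of residue classes -/

set_option autoImplicit false
set_option linter.unusedSectionVars false
set_option linter.unusedVariables false

open Finset Filter Topology

namespace Q197.PS

/-- the mean value along a union of classes -/
noncomputable def mU (u : ℕ → ℝ) (P : ℕ) (A : Finset ℕ) (N : ℕ) : ℝ :=
  (∑ n ∈ (Icc 1 N).filter (fun n => n % P ∈ A), u n) / N

lemma mU_eq (u : ℕ → ℝ) (P : ℕ) (A : Finset ℕ) :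
    mU u P A = avS (ces u) (fun N => N) P A := by
  funext N
  unfold mU avS ces
  rw [sum_div]

section

variable {σ : Type*}

/-- all functions of the family have mean zero along the union of classes -/
def GoodU (u : σ → ℕ → ℝ) (P : ℕ) (A : Finset ℕ) : Prop := ∀ s, Tendsto (mU (u s) P A) atTop (𝓝 0)

open Classical in
/-- the number of the good sets of residues -/
noncomputable def nGU (u : σ → ℕ → ℝ) (P : ℕ) : ℕ := ((range P).powerset.filter (fun A => GoodU u P A)).card

lemma nGU_le (u : σ → ℕ → ℝ) {P : ℕ} (s : σ) : nGU u P ≤ nS atTop (ces (u s)) (fun N => N) P := by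
  classical
  unfold nGU nS
  refine card_le_card fun A hA => ?_
  rw [mem_filter] at hA ⊢
  refine ⟨hA.1, ?_⟩
  rw [← mU_eq]
  exact hA.2 s

/-- **Few good unions**, from one class -/
theorem nGU_class (u : σ → ℕ → ℝ) (hu : ∀ s n, |u s n| ≤ 1) (s : σ) {c : ℝ}
    (hc : 0 < c) {q : ℕ} (a : ℕ) (hfr : ∃ᶠ N : ℕ in atTop, c ≤ |mU (u s) q {a} N|) {P : ℕ}
    (hP : 0 < P) (hd : q ∣ P) : (nGU u P : ℝ) ≤ (10 + 54 / c) * 2 ^ P / √P := by
  rw [mU_eq] at hfr
  have h1 := few_nS (l := atTop) (ces (u s)) (fun N => N) hP hc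
    (by norm_num : (1 : ℝ) ≤ 2) (ces_hcl (fun n _ => hu s n) P hP) (hfr.mono fun N hN => by
      rw [avS_eq, sum_singleton] at hN
      exact hN.trans (cls_le (ces (u s)) (fun N => N) hP hd a N))
  have h2 : (nGU u P : ℝ) ≤ nS atTop (ces (u s)) (fun N => N) P := by
    exact_mod_cast nGU_le u s
  refine h2.trans (h1.trans (le_of_eq ?_))
  ring

/-- **Few good unions** -/
theorem nGU_few (u : σ → ℕ → ℝ) (hu : ∀ s n, |u s n| ≤ 1) (s : σ)
    (hfr : ¬ Tendsto (mU (u s) 1 {0}) atTop (𝓝 0)) : ∃ C : ℝ, 0 < C ∧ ∀ P : ℕ, 0 < P →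
      (nGU u P : ℝ) ≤ C * 2 ^ P / √P := by
  obtain ⟨c, hc, h⟩ := not_tendsto_gen hfr
  exact ⟨10 + 54 / c, by positivity, fun P hP => nGU_class u hu s hc 0 h hP (one_dvd P)⟩

/-- **Equivalence** -/
theorem gu_iff (u : σ → ℕ → ℝ) (hu : ∀ s n, |u s n| ≤ 1) :
    (∀ q : ℕ, 0 < q → ∀ a < q, GoodU u q {a}) ↔
      ∀ q : ℕ, 0 < q → ∀ K : ℝ, ∃ P : ℕ, 0 < P ∧ q ∣ P ∧ K * 2 ^ P / √P ≤ nGU u P := by
  classical
  constructor
  · intro h q hq K
    obtain ⟨m, hm⟩ := exists_nat_gt (K ^ 2)
    have hm1 : (0 : ℝ) < m := lt_of_le_of_lt (sq_nonneg K) hm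
    have hm2 : 0 < m := by exact_mod_cast hm1
    refine ⟨q * m, Nat.mul_pos hq hm2, dvd_mul_right _ _, ?_⟩
    have hP : 0 < q * m := Nat.mul_pos hq hm2
    have hfull : nGU u (q * m) = 2 ^ (q * m) := by
      unfold nGU
      have h1 : (range (q * m)).powerset.filter (fun A => GoodU u (q * m) A) =
          (range (q * m)).powerset := by
        rw [filter_eq_self]
        intro A hA s
        rw [mem_powerset] at hA
        rw [mU_eq]
        have h2 : avS (ces (u s)) (fun N => N) (q * m) A =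
            fun N => ∑ j ∈ A, cls (ces (u s)) (fun N => N) (q * m) N j := by
          funext N
          exact avS_eq _ _ _ _ _
        rw [h2]
        have h3 : (0 : ℝ) = ∑ j ∈ A, (0 : ℝ) := by simp
        rw [h3]
        refine tendsto_finsetSum _ fun j hj => ?_
        have hj1 : j < q * m := mem_range.1 (hA hj)
        have h4 := h (q * m) hP j hj1 s
        rw [mU_eq] at h4
        have h5 : avS (ces (u s)) (fun N => N) (q * m) {j} =
            fun N => cls (ces (u s)) (fun N => N) (q * m) N j := by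
          funext N
          rw [avS_eq, sum_singleton]
        rw [h5] at h4
        exact h4
      rw [h1, card_powerset, card_range]
    rw [hfull]
    push_cast
    have hq1 : (1 : ℝ) ≤ q := by exact_mod_cast hq
    have hpos : (0 : ℝ) < (q : ℝ) * m := by positivity
    rw [div_le_iff₀ (Real.sqrt_pos.2 hpos), mul_comm]
    apply mul_le_mul_of_nonneg_left _ (by positivity)
    calc K ≤ |K| := le_abs_self K
      _ = √(K ^ 2) := (Real.sqrt_sq_eq_abs K).symm
      _ ≤ √((q : ℝ) * m) := Real.sqrt_le_sqrt (by nlinarith)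
  · intro h q hq a ha s
    by_contra hcon
    obtain ⟨c, hc, hfr⟩ := not_tendsto_gen hcon
    obtain ⟨P, hP, hd, h2⟩ := h q hq (2 * (10 + 54 / c))
    exact contra' hP (by positivity) le_rfl h2 (nGU_class u hu s hc a hfr hP hd)

end

end Q197.PS
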